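import Pool.Agent.H704R2.PAM.Defs

set_option autoImplicit false
open MeasureTheory ProbabilityTheory Filter Topology Set
open scoped ENNReal NNReal

namespace Pool.Agent.H704R2.PAM

/-! Module A: the absorption map -/

theorem A_den {p : ℕ} {s v : ℝ} (hs : 0 ≤ s) (hv : 0 ≤ v) : 1 ≤ 1 + p * s * v ^ p := by
  have : (0:ℝ) ≤ p * s * v ^ p := by positivity
  linarith

theorem A_den_rpow {p : ℕ} {s v : ℝ} (hs : 0 ≤ s) (hv : 0 ≤ v) :
    1 ≤ (1 + p * s * v ^ p) ^ ((1 : ℝ) / p) :=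
  Real.one_le_rpow (A_den hs hv) (by positivity)

theorem absb_zero (p : ℕ) (s : ℝ) : absb p s 0 = 0 := by simp [absb]

theorem absb_time_zero (p : ℕ) (v : ℝ) : absb p 0 v = v := by simp [absb]

theorem absb_nonneg (p : ℕ) {s v : ℝ} (hs : 0 ≤ s) (hv : 0 ≤ v) : 0 ≤ absb p s v :=
  div_nonneg hv (zero_le_one.trans (A_den_rpow hs hv))

theorem absb_pos (p : ℕ) {s v : ℝ} (hs : 0 ≤ s) (hv : 0 < v) : 0 < absb p s v :=
  div_pos hv (zero_lt_one.trans_le (A_den_rpow hs hv.le))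

theorem absb_le (p : ℕ) {s v : ℝ} (hs : 0 ≤ s) (hv : 0 ≤ v) : absb p s v ≤ v :=
  div_le_self hv (A_den_rpow hs hv)

theorem A_pow {p : ℕ} (hp : 1 ≤ p) {s v : ℝ} (hs : 0 ≤ s) (hv : 0 ≤ v) :
    absb p s v ^ p = v ^ p / (1 + p * s * v ^ p) := by
  have hp0 : (p : ℝ) ≠ 0 := by positivity
  rw [absb, div_pow, ← Real.rpow_natCast ((1 + p * s * v ^ p) ^ ((1 : ℝ) / p)) p,
    ← Real.rpow_mul (zero_le_one.trans (A_den hs hv)), one_div, inv_mul_cancel₀ hp0, Real.rpow_one]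

theorem absb_mono {p : ℕ} (hp : 1 ≤ p) {s v v' : ℝ} (hs : 0 ≤ s) (hv : 0 ≤ v) (h : v ≤ v') :
    absb p s v ≤ absb p s v' := by
  have hv' := hv.trans h
  have hpn : p ≠ 0 := by omega
  refine (pow_le_pow_iff_left₀ (absb_nonneg p hs hv) (absb_nonneg p hs hv') hpn).1 ?_
  rw [A_pow hp hs hv, A_pow hp hs hv', div_le_div_iff₀ (by linarith [A_den (p := p) hs hv])
    (by linarith [A_den (p := p) hs hv'])]
  have h1 : v ^ p ≤ v' ^ p := pow_le_pow_left₀ hv h p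
  nlinarith

theorem absb_inv {p : ℕ} (hp : 1 ≤ p) {s v : ℝ} (hs : 0 ≤ s) (hv : 0 < v) :
    (absb p s v ^ p)⁻¹ = (v ^ p)⁻¹ + p * s := by
  rw [A_pow hp hs hv.le]
  have : v ^ p ≠ 0 := (pow_pos hv p).ne'
  field_simp

theorem absb_scale {p : ℕ} (hp : 1 ≤ p) {s X v : ℝ} (hs : 0 ≤ s) (hX : 1 ≤ X) (hv : 0 ≤ v) :
    absb p s (X * v) ≤ X * absb p s v := by
  have hX0 : 0 ≤ X := by linarith
  rw [absb, absb, ← mul_div_assoc]
  refine div_le_div_of_nonneg_left (by positivity) (zero_lt_one.trans_le (A_den_rpow hs hv)) ?_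
  refine Real.rpow_le_rpow (zero_le_one.trans (A_den hs hv)) ?_ (by positivity)
  have : v ^ p ≤ (X * v) ^ p := pow_le_pow_left₀ hv (by nlinarith) p
  have h2 : (0:ℝ) ≤ p * s := by positivity
  nlinarith [mul_le_mul_of_nonneg_left this h2]

theorem A_hasDeriv {p : ℕ} (hp : 1 ≤ p) {s v : ℝ} (hs : 0 ≤ s) (hv : 0 ≤ v) :
    HasDerivAt (absb p s) ((1 + p * s * v ^ p) ^ (-(1 : ℝ) / p - 1)) v := by
  have hp0 : (p : ℝ) ≠ 0 := by positivity
  have hd := A_den (p := p) hs hv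
  have hd0 : 0 < 1 + p * s * v ^ p := by linarith
  have h1 : HasDerivAt (fun v : ℝ => 1 + p * s * v ^ p) (p * s * (p * v ^ (p - 1))) v := by
    have := ((hasDerivAt_pow p v).const_mul (p * s)).const_add 1
    simpa using this
  have h2 : HasDerivAt (fun v : ℝ => (1 + p * s * v ^ p) ^ (-(1 : ℝ) / p))
      (p * s * (p * v ^ (p - 1)) * (-(1 : ℝ) / p) * (1 + p * s * v ^ p) ^ (-(1 : ℝ) / p - 1)) v :=
    h1.rpow_const (Or.inl hd0.ne')
  have h3 := (hasDerivAt_id v).mul h2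
  have h4 : HasDerivAt (fun v : ℝ => v * (1 + p * s * v ^ p) ^ (-(1 : ℝ) / p))
      ((1 + p * s * v ^ p) ^ (-(1 : ℝ) / p - 1)) v := by
    have e1 : (1 + p * s * v ^ p) ^ (-(1 : ℝ) / p) =
        (1 + p * s * v ^ p) ^ (-(1 : ℝ) / p - 1) * (1 + p * s * v ^ p) := by
      rw [Real.rpow_sub_one hd0.ne']
      field_simp
    have e2 : v * v ^ (p - 1) = v ^ p := by
      rw [← pow_succ', Nat.sub_add_cancel hp]
    have e3 : v * (p * s * (p * v ^ (p - 1)) * (-(1 : ℝ) / p) *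
        (1 + p * s * v ^ p) ^ (-(1 : ℝ) / p - 1)) =
        -(p * s * (v * v ^ (p - 1))) * (1 + p * s * v ^ p) ^ (-(1 : ℝ) / p - 1) := by
      field_simp
    have e4 : (1 + p * s * v ^ p) ^ (-(1 : ℝ) / p - 1) =
        1 * (1 + p * s * v ^ p) ^ (-(1 : ℝ) / p) + v * (p * s * (p * v ^ (p - 1)) *
          (-(1 : ℝ) / p) * (1 + p * s * v ^ p) ^ (-(1 : ℝ) / p - 1)) := by
      rw [e3, e2, e1]
      ring
    rw [e4]
    exact h3
  have h5 : absb p s =ᶠ[𝓝 v] fun v : ℝ => v * (1 + p * s * v ^ p) ^ (-(1 : ℝ) / p) := by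
    have hc : ContinuousAt (fun v : ℝ => 1 + p * s * v ^ p) v := h1.continuousAt
    filter_upwards [hc.eventually (lt_mem_nhds hd0)] with y hy
    rw [absb, neg_div, Real.rpow_neg hy.le, div_eq_mul_inv]
  exact h4.congr_of_eventuallyEq h5

theorem continuousOn_absb {p : ℕ} (hp : 1 ≤ p) {s : ℝ} (hs : 0 ≤ s) :
    ContinuousOn (absb p s) (Ici 0) := fun v hv =>
  (A_hasDeriv hp hs hv).continuousAt.continuousWithinAt

theorem A_deriv_le_one {p : ℕ} {s v : ℝ} (hs : 0 ≤ s) (hv : 0 ≤ v) :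
    (1 + p * s * v ^ p) ^ (-(1 : ℝ) / p - 1) ≤ 1 := by
  refine Real.rpow_le_one_of_one_le_of_nonpos (A_den hs hv) ?_
  have : (0:ℝ) ≤ 1 / p := by positivity
  rw [neg_div]
  linarith

theorem absb_lip {p : ℕ} (hp : 1 ≤ p) {s v v' : ℝ} (hs : 0 ≤ s) (hv : 0 ≤ v) (hv' : 0 ≤ v') :
    |absb p s v - absb p s v'| ≤ |v - v'| := by
  have := Convex.norm_image_sub_le_of_norm_hasDerivWithin_le (C := 1) (f := absb p s)
    (f' := fun v => (1 + p * s * v ^ p) ^ (-(1 : ℝ) / p - 1)) (s := Ici (0:ℝ))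
    (fun x hx => (A_hasDeriv hp hs hx).hasDerivWithinAt)
    (fun x hx => by
      rw [Real.norm_eq_abs, abs_of_nonneg (Real.rpow_nonneg (by linarith [A_den (p := p) hs hx]) _)]
      exact A_deriv_le_one hs hx)
    (convex_Ici 0) (show v' ∈ Ici (0:ℝ) from hv') (show v ∈ Ici (0:ℝ) from hv)
  simpa [Real.norm_eq_abs] using this

theorem absb_concave {p : ℕ} (hp : 1 ≤ p) {s : ℝ} (hs : 0 ≤ s) :
    ConcaveOn ℝ (Ici 0) (absb p s) := by
  refine AntitoneOn.concaveOn_of_deriv (convex_Ici 0) (continuousOn_absb hp hs) ?_ ?_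
  · intro x hx
    rw [interior_Ici] at hx
    exact (A_hasDeriv hp hs (le_of_lt hx)).differentiableAt.differentiableWithinAt
  · intro x hx y hy hxy
    rw [interior_Ici] at hx hy
    rw [(A_hasDeriv hp hs (le_of_lt hx)).deriv, (A_hasDeriv hp hs (le_of_lt hy)).deriv]
    refine Real.rpow_le_rpow_of_nonpos (by linarith [A_den (p := p) hs (le_of_lt hx)]) ?_ ?_
    · have h1 : x ^ p ≤ y ^ p := pow_le_pow_left₀ (le_of_lt hx) hxy p
      have h2 : (0:ℝ) ≤ p * s := by positivity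
      linarith [mul_le_mul_of_nonneg_left h1 h2]
    · have : (0:ℝ) ≤ 1 / p := by positivity
      rw [neg_div]
      linarith

theorem measurable_absb (p : ℕ) (s : ℝ) : Measurable (absb p s) := by
  unfold absb
  fun_prop

/-- second order Bernoulli bound -/
theorem A_bern {p : ℕ} (hp : 1 ≤ p) {u : ℝ} (hu : 0 ≤ u) :
    |(1 + p * u) ^ (-(1 : ℝ) / p) - (1 - u)| ≤ (p + 1) * u ^ 2 := by
  have hp0 : (0 : ℝ) < p := by positivity
  have hder : ∀ y : ℝ, 0 ≤ y → HasDerivAt (fun u : ℝ => (1 + p * u) ^ (-(1 : ℝ) / p))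
      (-((1 + p * y) ^ (-(1 : ℝ) / p - 1))) y := by
    intro y hy
    have hb : 0 < 1 + p * y := by positivity
    have h1 : HasDerivAt (fun u : ℝ => 1 + p * u) p y := by
      simpa using ((hasDerivAt_id y).const_mul (p : ℝ)).const_add 1
    have h2 := h1.rpow_const (p := -(1 : ℝ) / p) (Or.inl hb.ne')
    convert h2 using 1
    field_simp
  have hder2 : ∀ y : ℝ, 0 ≤ y → HasDerivAt (fun y : ℝ => -((1 + p * y) ^ (-(1 : ℝ) / p - 1)) + 1)
      (-(p * (-(1 : ℝ) / p - 1) * (1 + p * y) ^ (-(1 : ℝ) / p - 1 - 1))) y := by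
    intro y hy
    have hb : 0 < 1 + p * y := by positivity
    have h1 : HasDerivAt (fun u : ℝ => 1 + p * u) p y := by
      simpa using ((hasDerivAt_id y).const_mul (p : ℝ)).const_add 1
    exact ((h1.rpow_const (p := -(1 : ℝ) / p - 1) (Or.inl hb.ne')).neg).add_const 1
  -- first derivative minus its value at 0 is bounded by (p+1) y
  have hfirst : ∀ y : ℝ, 0 ≤ y → |-((1 + p * y) ^ (-(1 : ℝ) / p - 1)) + 1| ≤ (p + 1) * y := by
    intro y hy
    have := Convex.norm_image_sub_le_of_norm_hasDerivWithin_le (C := p + 1)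
      (f := fun y : ℝ => -((1 + p * y) ^ (-(1 : ℝ) / p - 1)) + 1)
      (f' := fun y => -(p * (-(1 : ℝ) / p - 1) * (1 + p * y) ^ (-(1 : ℝ) / p - 1 - 1)))
      (s := Ici (0:ℝ)) (fun x hx => (hder2 x hx).hasDerivWithinAt)
      (fun x hx => by
        have hx' : (0:ℝ) ≤ x := hx
        have hb : 1 ≤ 1 + p * x := by nlinarith
        have e : -(p * (-(1 : ℝ) / p - 1)) = p + 1 := by field_simp; ring
        have : -(p * (-(1 : ℝ) / p - 1) * (1 + p * x) ^ (-(1 : ℝ) / p - 1 - 1)) =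
            (p + 1) * (1 + p * x) ^ (-(1 : ℝ) / p - 1 - 1) := by
          rw [← neg_mul, e]
        rw [this, Real.norm_eq_abs, abs_of_nonneg (by positivity)]
        have h1 : (1 + p * x) ^ (-(1 : ℝ) / p - 1 - 1) ≤ 1 := by
          refine Real.rpow_le_one_of_one_le_of_nonpos hb ?_
          have : (0:ℝ) ≤ 1 / p := by positivity
          rw [neg_div]
          linarith
        nlinarith)
      (convex_Ici 0) (show (0:ℝ) ∈ Ici (0:ℝ) by simp) (show y ∈ Ici (0:ℝ) from hy)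
    simpa [Real.norm_eq_abs, abs_of_nonneg hy] using this
  have key := Convex.norm_image_sub_le_of_norm_hasDerivWithin_le (C := (p + 1) * u)
      (f := fun u : ℝ => (1 + p * u) ^ (-(1 : ℝ) / p) - (1 - u))
      (f' := fun y => -((1 + p * y) ^ (-(1 : ℝ) / p - 1)) + 1)
      (s := Icc (0:ℝ) u)
      (fun x hx => by
        have h1 : HasDerivAt (fun u : ℝ => 1 - u) (-1) x := by
          simpa using (hasDerivAt_id x).const_sub (1:ℝ)
        have h2 := ((hder x hx.1).sub h1).hasDerivWithinAt (s := Icc (0:ℝ) u)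
        have e : -((1 + p * x) ^ (-(1 : ℝ) / p - 1)) - -1 =
          -((1 + p * x) ^ (-(1 : ℝ) / p - 1)) + 1 := by ring
        rw [e] at h2
        exact h2)
      (fun x hx => (hfirst x hx.1).trans (by
        have : (0:ℝ) ≤ p + 1 := by positivity
        nlinarith [hx.2]))
      (convex_Icc 0 u) (show (0:ℝ) ∈ Icc (0:ℝ) u from ⟨le_rfl, hu⟩) (show u ∈ Icc (0:ℝ) u from ⟨hu, le_rfl⟩)
  simp only [mul_zero, add_zero, Real.one_rpow, sub_zero, sub_self, Real.norm_eq_abs,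
    abs_of_nonneg hu] at key
  calc _ ≤ (p + 1) * u * u := key
    _ = _ := by ring

theorem absb_expand {p : ℕ} (hp : 1 ≤ p) {s v : ℝ} (hs : 0 ≤ s) (hv : 0 ≤ v) :
    |absb p s v - (v - s * v ^ (p + 1))| ≤ (p + 1) * s ^ 2 * v ^ (2 * p + 1) := by
  have hu : 0 ≤ s * v ^ p := by positivity
  have h := A_bern hp hu
  have e1 : absb p s v = v * (1 + p * (s * v ^ p)) ^ (-(1 : ℝ) / p) := by
    rw [absb, neg_div, Real.rpow_neg (by positivity), div_eq_mul_inv, mul_assoc (p : ℝ)]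
  have e2 : absb p s v - (v - s * v ^ (p + 1)) =
      v * ((1 + p * (s * v ^ p)) ^ (-(1 : ℝ) / p) - (1 - s * v ^ p)) := by
    rw [e1, pow_succ]
    ring
  rw [e2, abs_mul, abs_of_nonneg hv]
  calc v * |(1 + p * (s * v ^ p)) ^ (-(1 : ℝ) / p) - (1 - s * v ^ p)|
      ≤ v * ((p + 1) * (s * v ^ p) ^ 2) := mul_le_mul_of_nonneg_left h hv
    _ = (p + 1) * s ^ 2 * v ^ (2 * p + 1) := by ring

end Pool.Agent.H704R2.PAM
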