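import Pool.Agent.H704R2.PAM.A

set_option autoImplicit false
open MeasureTheory ProbabilityTheory Filter Topology Set
open scoped ENNReal NNReal

namespace Pool.Agent.H704R2.PAM

/-! Module B: basic properties of the scheme -/

variable (Q : Par)

theorem B_nsum_nonneg {d : ℕ} {v : Site d → ℝ} (hv : ∀ x, 0 ≤ v x) (x : Site d) : 0 ≤ nsum v x :=
  Finset.sum_nonneg fun _ _ => hv _

theorem B_nsum_mono {d : ℕ} {v v' : Site d → ℝ} (hv : ∀ x, v x ≤ v' x) (x : Site d) :
    nsum v x ≤ nsum v' x := Finset.sum_le_sum fun _ _ => hv _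

theorem run_nonneg (Λ : Finset (Site Q.d)) {h : ℝ} (hh : 0 ≤ h) (η : ℕ → Site Q.d → ℝ)
    {v : Site Q.d → ℝ} (hv : ∀ x ∈ Λ, 0 ≤ v x) (n : ℕ) (x : Site Q.d) :
    0 ≤ run Q Λ h η v n x := by
  induction n generalizing x with
  | zero =>
    simp only [run]
    split_ifs with hx
    · exact hv x hx
    · exact le_rfl
  | succ n ih =>
    simp only [run, step]
    split_ifs with hx
    · apply absb_nonneg _ (mul_nonneg Q.hep.le hh)
      have h1 := B_nsum_nonneg ih x
      have h2 := ih x
      have h3 := Q.hk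
      positivity
    · exact le_rfl

theorem run_out (Λ : Finset (Site Q.d)) (h : ℝ) (η : ℕ → Site Q.d → ℝ)
    (v : Site Q.d → ℝ) (n : ℕ) {x : Site Q.d} (hx : x ∉ Λ) : run Q Λ h η v n x = 0 := by
  cases n with
  | zero => simp only [run, if_neg hx]
  | succ n => simp only [run, step, if_neg hx]

theorem run_mono (Λ : Finset (Site Q.d)) {h : ℝ} (hh : 0 ≤ h) (η : ℕ → Site Q.d → ℝ)
    {v v' : Site Q.d → ℝ} (hv : ∀ x ∈ Λ, 0 ≤ v x) (hvv : ∀ x ∈ Λ, v x ≤ v' x) (n : ℕ)
    (x : Site Q.d) : run Q Λ h η v n x ≤ run Q Λ h η v' n x := by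
  induction n generalizing x with
  | zero =>
    simp only [run]
    split_ifs with hx
    · exact hvv x hx
    · exact le_rfl
  | succ n ih =>
    simp only [run, step]
    split_ifs with hx
    · have h1 := B_nsum_nonneg (run_nonneg Q Λ hh η hv n) x
      have h2 := run_nonneg Q Λ hh η hv n x
      have h3 := Q.hk
      apply absb_mono Q.hp (mul_nonneg Q.hep.le hh) (by positivity)
      have h4 := B_nsum_mono ih x
      have h5 := ih x
      gcongr
    · exact le_rfl

theorem run_mono_set {Λ Λ' : Finset (Site Q.d)} (hΛ : Λ ⊆ Λ') {h : ℝ} (hh : 0 ≤ h)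
    (η : ℕ → Site Q.d → ℝ) {v : Site Q.d → ℝ} (hv : ∀ x ∈ Λ', 0 ≤ v x) (n : ℕ)
    (x : Site Q.d) : run Q Λ h η v n x ≤ run Q Λ' h η v n x := by
  induction n generalizing x with
  | zero =>
    by_cases hx : x ∈ Λ
    · simp only [run, if_pos hx, if_pos (hΛ hx)]
      exact le_rfl
    · rw [run_out Q Λ h η v 0 hx]
      exact run_nonneg Q Λ' hh η hv 0 x
  | succ n ih =>
    by_cases hx : x ∈ Λ
    · simp only [run, step, if_pos hx, if_pos (hΛ hx)]
      have hv' : ∀ x ∈ Λ, 0 ≤ v x := fun x hx => hv x (hΛ hx)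
      have h1 := B_nsum_nonneg (run_nonneg Q Λ hh η hv' n) x
      have h2 := run_nonneg Q Λ hh η hv' n x
      have h3 := Q.hk
      apply absb_mono Q.hp (mul_nonneg Q.hep.le hh) (by positivity)
      have h4 := B_nsum_mono ih x
      have h5 := ih x
      gcongr
    · rw [run_out Q Λ h η v (n + 1) hx]
      exact run_nonneg Q Λ' hh η hv (n + 1) x

theorem run_congr (Λ : Finset (Site Q.d)) (h : ℝ) {η η' : ℕ → Site Q.d → ℝ}
    {v v' : Site Q.d → ℝ} {n : ℕ} (hη : ∀ j < n, ∀ x ∈ Λ, η j x = η' j x)
    (hv : ∀ x ∈ Λ, v x = v' x) : run Q Λ h η v n = run Q Λ h η' v' n := by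
  induction n with
  | zero =>
    funext x
    simp only [run]
    split_ifs with hx
    · exact hv x hx
    · rfl
  | succ n ih =>
    funext x
    simp only [run, step]
    rw [ih fun j hj => hη j (by omega)]
    split_ifs with hx
    · rw [hη n (by omega) x hx]
    · rfl

theorem B_nb_add {d : ℕ} (x y : Site d) (e : Fin d × Bool) : nb (x + y) e = nb x e + y := by
  unfold nb
  split_ifs <;> abel

theorem run_shift (Λ : Finset (Site Q.d)) (h : ℝ) (η : ℕ → Site Q.d → ℝ) (v : Site Q.d → ℝ)
    (n : ℕ) (x y : Site Q.d) :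
    run Q (Λ.image (· + y)) h η v n (x + y) =
      run Q Λ h (fun j z => η j (z + y)) (fun z => v (z + y)) n x := by
  have hmem : ∀ x : Site Q.d, x + y ∈ Λ.image (· + y) ↔ x ∈ Λ := by
    intro x
    rw [Finset.mem_image]
    constructor
    · rintro ⟨z, hz, hzx⟩
      rwa [← add_right_cancel hzx]
    · exact fun hx => ⟨x, hx, rfl⟩
  induction n generalizing x with
  | zero => simp only [run, hmem]
  | succ n ih =>
    simp only [run, step, hmem]
    have h1 : nsum (run Q (Λ.image (· + y)) h η v n) (x + y) =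
        nsum (run Q Λ h (fun j z => η j (z + y)) (fun z => v (z + y)) n) x := by
      unfold nsum
      refine Finset.sum_congr rfl fun e _ => ?_
      rw [B_nb_add]
      exact ih _
    rw [ih, h1]

theorem measurable_run (Λ : Finset (Site Q.d)) (h : ℝ) (n : ℕ) (x : Site Q.d) :
    Measurable fun q : (ℕ → Site Q.d → ℝ) × (Site Q.d → ℝ) => run Q Λ h q.1 q.2 n x := by
  induction n generalizing x with
  | zero =>
    simp only [run]
    by_cases hx : x ∈ Λ
    · simp only [if_pos hx]
      exact (measurable_pi_apply x).comp measurable_snd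
    · simp only [if_neg hx]
      exact measurable_const
  | succ n ih =>
    simp only [run, step]
    by_cases hx : x ∈ Λ
    · simp only [if_pos hx]
      apply (measurable_absb Q.p (Q.ep * h)).comp
      have h1 : Measurable fun q : (ℕ → Site Q.d → ℝ) × (Site Q.d → ℝ) => q.1 n x :=
        (measurable_pi_apply x).comp ((measurable_pi_apply n).comp measurable_fst)
      have h2 : Measurable fun q : (ℕ → Site Q.d → ℝ) × (Site Q.d → ℝ) =>
          nsum (run Q Λ h q.1 q.2 n) x := by
        unfold nsum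
        exact Finset.measurable_sum _ fun e _ => ih _
      exact (Real.measurable_exp.comp h1).mul ((ih x).add (h2.const_mul _))
    · simp only [if_neg hx]
      exact measurable_const

theorem run_jensen (Λ : Finset (Site Q.d)) {h : ℝ} (hh : 0 ≤ h) (η : ℕ → Site Q.d → ℝ)
    {Y : Type*} [MeasurableSpace Y] (μ : Measure Y) [IsProbabilityMeasure μ]
    (v : Y → Site Q.d → ℝ) (hv0 : ∀ y, ∀ x, 0 ≤ v y x) (hvi : ∀ x, Integrable (fun y => v y x) μ)
    (n : ℕ) (x : Site Q.d) :
    Integrable (fun y => run Q Λ h η (v y) n x) μ ∧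
      ∫ y, run Q Λ h η (v y) n x ∂μ ≤ run Q Λ h η (fun z => ∫ y, v y z ∂μ) n x := by
  induction n generalizing x with
  | zero =>
    by_cases hx : x ∈ Λ
    · simp only [run, if_pos hx]
      exact ⟨hvi x, le_rfl⟩
    · simp only [run, if_neg hx]
      exact ⟨integrable_zero _ _ _, by simp⟩
  | succ n ih =>
    by_cases hx : x ∈ Λ
    · simp only [run, step, if_pos hx]
      have hs : 0 ≤ Q.ep * h := mul_nonneg Q.hep.le hh
      have hnn : ∀ y, ∀ z, 0 ≤ run Q Λ h η (v y) n z := fun y z =>
        run_nonneg Q Λ hh η (fun x _ => hv0 y x) n z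
      have hk := Q.hk
      set g : Y → ℝ := fun y => Real.exp (η n x) *
        (run Q Λ h η (v y) n x + h * Q.k * nsum (run Q Λ h η (v y) n) x) with hg
      have hg0 : ∀ y, 0 ≤ g y := by
        intro y
        have h1 := B_nsum_nonneg (hnn y) x
        have h2 := hnn y x
        simp only [hg]
        positivity
      have hsi : Integrable (fun y => nsum (run Q Λ h η (v y) n) x) μ := by
        unfold nsum
        exact integrable_finsetSum _ fun e _ => (ih _).1
      have hgi : Integrable g μ := ((ih x).1.add (hsi.const_mul _)).const_mul _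
      have hagi : Integrable (fun y => absb Q.p (Q.ep * h) (g y)) μ := by
        refine hgi.mono' ((measurable_absb _ _).comp_aemeasurable hgi.aemeasurable).aestronglyMeasurable
          (Eventually.of_forall fun y => ?_)
        rw [Real.norm_eq_abs, abs_of_nonneg (absb_nonneg _ hs (hg0 y))]
        exact absb_le _ hs (hg0 y)
      refine ⟨hagi, ?_⟩
      have hJ := (absb_concave Q.hp hs).le_map_integral (continuousOn_absb Q.hp hs) isClosed_Ici
        (Eventually.of_forall fun y => hg0 y) hgi hagi
      refine hJ.trans ?_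
      apply absb_mono Q.hp hs (integral_nonneg hg0)
      have e1 : ∫ y, g y ∂μ = Real.exp (η n x) * (∫ y, run Q Λ h η (v y) n x ∂μ +
          h * Q.k * ∑ e : Fin Q.d × Bool, ∫ y, run Q Λ h η (v y) n (nb x e) ∂μ) := by
        simp only [hg]
        rw [integral_const_mul, integral_add (ih x).1 (hsi.const_mul _), integral_const_mul]
        congr 3
        unfold nsum
        exact integral_finsetSum _ fun e _ => (ih _).1
      rw [e1]
      have h4 := (ih x).2
      have h5 : ∑ e : Fin Q.d × Bool, ∫ y, run Q Λ h η (v y) n (nb x e) ∂μ ≤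
          nsum (run Q Λ h η (fun z => ∫ y, v y z ∂μ) n) x :=
        Finset.sum_le_sum fun e _ => (ih _).2
      gcongr
    · simp only [run, step, if_neg hx]
      exact ⟨integrable_zero _ _ _, by simp⟩

end Pool.Agent.H704R2.PAM
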