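import Pool.Agent.H704R2.PAM.Defs
import Pool.Agent.Helper27.Har.P_global_ode

set_option autoImplicit false
open MeasureTheory ProbabilityTheory Filter Topology Set
open scoped ENNReal NNReal

namespace Pool.Agent.H704R2.PAM

/-! Module C: existence of finite volume solutions -/

/-- frozen time -/
noncomputable def C_tau (T t : ℝ) : ℝ := max 0 (min t T)

theorem C_tau_cont (T : ℝ) : Continuous (C_tau T) := by
  unfold C_tau
  fun_prop

theorem C_tau_mem {T : ℝ} (hT : 0 ≤ T) (t : ℝ) : C_tau T t ∈ Icc 0 T :=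
  ⟨le_max_left _ _, max_le hT (min_le_right _ _)⟩

theorem C_tau_eq {T t : ℝ} (ht : t ∈ Icc 0 T) : C_tau T t = t := by
  unfold C_tau
  rw [min_eq_left ht.2, max_eq_right ht.1]

theorem C_bb_cont (Q : Par) {W : Site Q.d → ℝ≥0 → ℝ} (hW : CP W) (x : Site Q.d) :
    Continuous (bb Q W x) := by
  unfold bb
  exact ((hW x).comp continuous_real_toNNReal).add (by fun_prop)

/-- the exponent -/
noncomputable def C_c (Q : Par) (W : Site Q.d → ℝ≥0 → ℝ) (T : ℝ) (x : Site Q.d) (t : ℝ) : ℝ :=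
  bb Q W x (C_tau T t) - bb Q W x 0

theorem C_c_cont (Q : Par) {W : Site Q.d → ℝ≥0 → ℝ} (hW : CP W) (T : ℝ) (x : Site Q.d) :
    Continuous (C_c Q W T x) := by
  unfold C_c
  exact ((C_bb_cont Q hW x).comp (C_tau_cont T)).sub continuous_const

theorem C_c_bound (Q : Par) {W : Site Q.d → ℝ≥0 → ℝ} (hW : CP W) {T : ℝ} (hT : 0 ≤ T)
    (Λ : Finset (Site Q.d)) : ∃ M : ℝ, 0 ≤ M ∧ ∀ x ∈ Λ, ∀ t, |C_c Q W T x t| ≤ M := by
  have h1 : ∀ x : Site Q.d, ∃ M : ℝ, ∀ t, |C_c Q W T x t| ≤ M := by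
    intro x
    have hcont : ContinuousOn (fun t => bb Q W x t - bb Q W x 0) (Icc 0 T) :=
      ((C_bb_cont Q hW x).sub continuous_const).continuousOn
    obtain ⟨M, hM⟩ := isCompact_Icc.exists_bound_of_continuousOn hcont
    exact ⟨M, fun t => hM _ (C_tau_mem hT t)⟩
  choose M hM using h1
  refine ⟨∑ x ∈ Λ, |M x|, Finset.sum_nonneg fun _ _ => abs_nonneg _, fun x hx t => ?_⟩
  calc |C_c Q W T x t| ≤ M x := hM x t
    _ ≤ |M x| := le_abs_self _
    _ ≤ ∑ x ∈ Λ, |M x| := Finset.single_le_sum (f := fun x => |M x|)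
        (fun _ _ => abs_nonneg _) hx

/-- extension by zero -/
noncomputable def C_ext {d : ℕ} (Λ : Finset (Site d)) (z : Λ → ℝ) (y : Site d) : ℝ :=
  if h : y ∈ Λ then z ⟨y, h⟩ else 0

theorem C_ext_mem {d : ℕ} {Λ : Finset (Site d)} (z : Λ → ℝ) {y : Site d} (h : y ∈ Λ) :
    C_ext Λ z y = z ⟨y, h⟩ := dif_pos h

theorem C_ext_not {d : ℕ} {Λ : Finset (Site d)} (z : Λ → ℝ) {y : Site d} (h : y ∉ Λ) :
    C_ext Λ z y = 0 := dif_neg h

theorem C_ext_diff {d : ℕ} (Λ : Finset (Site d)) (z z' : Λ → ℝ) (y : Site d) :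
    |C_ext Λ z y - C_ext Λ z' y| ≤ ‖z - z'‖ := by
  by_cases h : y ∈ Λ
  · rw [C_ext_mem z h, C_ext_mem z' h]
    exact norm_le_pi_norm (z - z') ⟨y, h⟩
  · rw [C_ext_not z h, C_ext_not z' h, sub_zero, abs_zero]
    exact norm_nonneg _

theorem C_ext_cont {d : ℕ} (Λ : Finset (Site d)) (y : Site d) :
    Continuous fun z : Λ → ℝ => C_ext Λ z y := by
  unfold C_ext
  split_ifs
  · fun_prop
  · fun_prop

/-- exponential factor, zero outside -/
noncomputable def C_e (Q : Par) (W : Site Q.d → ℝ≥0 → ℝ) (Λ : Finset (Site Q.d)) (T : ℝ)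
    (x : Site Q.d) (t : ℝ) : ℝ := if x ∈ Λ then Real.exp (C_c Q W T x t) else 0

theorem C_e_cont (Q : Par) {W : Site Q.d → ℝ≥0 → ℝ} (hW : CP W) (Λ : Finset (Site Q.d)) (T : ℝ)
    (x : Site Q.d) : Continuous (C_e Q W Λ T x) := by
  unfold C_e
  split_ifs
  · exact (C_c_cont Q hW T x).rexp
  · fun_prop

theorem C_e_nonneg (Q : Par) (W : Site Q.d → ℝ≥0 → ℝ) (Λ : Finset (Site Q.d)) (T : ℝ)
    (x : Site Q.d) (t : ℝ) : 0 ≤ C_e Q W Λ T x t := by
  unfold C_e
  split_ifs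
  · exact (Real.exp_pos _).le
  · exact le_rfl

/-- the interaction part -/
noncomputable def C_I (Q : Par) (W : Site Q.d → ℝ≥0 → ℝ) (Λ : Finset (Site Q.d)) (T : ℝ)
    (t : ℝ) (z : Λ → ℝ) (x : Site Q.d) : ℝ :=
  Real.exp (-C_c Q W T x t) * (Q.k * nsum (fun y => C_e Q W Λ T y t * max (C_ext Λ z y) 0) x)

/-- the absorption part -/
noncomputable def C_A (Q : Par) (W : Site Q.d → ℝ≥0 → ℝ) (Λ : Finset (Site Q.d)) (T R : ℝ)
    (t : ℝ) (z : Λ → ℝ) (x : Site Q.d) : ℝ :=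
  Real.exp (-C_c Q W T x t) * (Q.ep * (C_e Q W Λ T x t * min (max (C_ext Λ z x) 0) R) ^ (Q.p + 1))

/-- the vector field -/
noncomputable def C_F (Q : Par) (W : Site Q.d → ℝ≥0 → ℝ) (Λ : Finset (Site Q.d)) (T R : ℝ)
    (t : ℝ) (z : Λ → ℝ) : Λ → ℝ := fun x => C_I Q W Λ T t z x - C_A Q W Λ T R t z x

theorem C_F_cont (Q : Par) {W : Site Q.d → ℝ≥0 → ℝ} (hW : CP W) (Λ : Finset (Site Q.d))
    (T R : ℝ) : Continuous (Function.uncurry (C_F Q W Λ T R)) := by
  apply continuous_pi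
  intro x
  unfold C_F C_I C_A nsum
  simp only [Function.uncurry]
  have h1 : ∀ y, Continuous fun a : ℝ × (Λ → ℝ) => C_c Q W T y a.1 := fun y =>
    (C_c_cont Q hW T y).comp continuous_fst
  have h2 : ∀ y, Continuous fun a : ℝ × (Λ → ℝ) => C_e Q W Λ T y a.1 := fun y =>
    (C_e_cont Q hW Λ T y).comp continuous_fst
  have h3 : ∀ y, Continuous fun a : ℝ × (Λ → ℝ) => C_ext Λ a.2 y := fun y =>
    (C_ext_cont Λ y).comp continuous_snd
  refine Continuous.sub ?_ ?_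
  · refine ((h1 x).neg.rexp).mul (continuous_const.mul ?_)
    apply continuous_finsetSum
    intro e _
    exact (h2 _).mul ((h3 _).max continuous_const)
  · refine ((h1 x).neg.rexp).mul (continuous_const.mul ?_)
    exact ((h2 _).mul (((h3 _).max continuous_const).min continuous_const)).pow _

theorem C_max_lip (a b : ℝ) : |max a 0 - max b 0| ≤ |a - b| := by
  have := abs_max_sub_max_le_abs a b 0
  exact this

theorem C_pow_lip (n : ℕ) {R : ℝ} (hR : 0 ≤ R) (a b : ℝ) :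
    |min (max a 0) R ^ (n + 1) - min (max b 0) R ^ (n + 1)| ≤
      ((n + 1 : ℕ) : ℝ) * R ^ n * |a - b| := by
  have h0 : ∀ c : ℝ, |min (max c 0) R| ≤ R := by
    intro c
    rw [abs_of_nonneg (le_min (le_max_right _ _) hR)]
    exact min_le_right _ _
  have h1 := abs_pow_sub_pow_le (min (max a 0) R) (min (max b 0) R) (n + 1)
  have h2 : |min (max a 0) R - min (max b 0) R| ≤ |a - b| := by
    refine le_trans ?_ (C_max_lip a b)
    have := abs_min_sub_min_le_max (max a 0) R (max b 0) R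
    rw [sub_self, abs_zero] at this
    exact this.trans (max_le le_rfl (abs_nonneg _))
  have h3 : max |min (max a 0) R| |min (max b 0) R| ^ (n + 1 - 1) ≤ R ^ n := by
    rw [Nat.add_sub_cancel]
    exact pow_le_pow_left₀ (le_trans (abs_nonneg _) (le_max_left _ _)) (max_le (h0 a) (h0 b)) n
  calc |min (max a 0) R ^ (n + 1) - min (max b 0) R ^ (n + 1)|
      ≤ |min (max a 0) R - min (max b 0) R| * ((n + 1 : ℕ) : ℝ) *
        max |min (max a 0) R| |min (max b 0) R| ^ (n + 1 - 1) := h1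
    _ ≤ |a - b| * ((n + 1 : ℕ) : ℝ) * R ^ n := by
        apply mul_le_mul (mul_le_mul_of_nonneg_right h2 (by positivity)) h3 (by positivity)
          (by positivity)
    _ = ((n + 1 : ℕ) : ℝ) * R ^ n * |a - b| := by ring

theorem C_e_le (Q : Par) (W : Site Q.d → ℝ≥0 → ℝ) (Λ : Finset (Site Q.d)) {T M : ℝ}
    (hM : ∀ x ∈ Λ, ∀ t, |C_c Q W T x t| ≤ M) (x : Site Q.d) (t : ℝ) :
    C_e Q W Λ T x t ≤ Real.exp M := by
  unfold C_e
  split_ifs with h
  · exact Real.exp_le_exp.2 ((le_abs_self _).trans (hM x h t))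
  · exact (Real.exp_pos _).le

theorem C_I_lip (Q : Par) (W : Site Q.d → ℝ≥0 → ℝ) (Λ : Finset (Site Q.d)) {T M : ℝ}
    (hM : ∀ x ∈ Λ, ∀ t, |C_c Q W T x t| ≤ M) (t : ℝ) (z z' : Λ → ℝ) {x : Site Q.d} (hx : x ∈ Λ) :
    |C_I Q W Λ T t z x - C_I Q W Λ T t z' x| ≤
      Real.exp M * (Q.k * ((Fintype.card (Fin Q.d × Bool) : ℝ) * Real.exp M)) * ‖z - z'‖ := by
  unfold C_I nsum
  rw [← mul_sub, ← mul_sub, ← Finset.sum_sub_distrib, abs_mul, abs_mul, Real.abs_exp,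
    abs_of_nonneg Q.hk]
  have h1 : Real.exp (-C_c Q W T x t) ≤ Real.exp M :=
    Real.exp_le_exp.2 ((neg_le_abs _).trans (hM x hx t))
  have h2 : |∑ e : Fin Q.d × Bool, (C_e Q W Λ T (nb x e) t * max (C_ext Λ z (nb x e)) 0 -
      C_e Q W Λ T (nb x e) t * max (C_ext Λ z' (nb x e)) 0)| ≤
      (Fintype.card (Fin Q.d × Bool) : ℝ) * Real.exp M * ‖z - z'‖ := by
    refine (Finset.abs_sum_le_sum_abs _ _).trans ?_
    have h3 : ∀ e ∈ (Finset.univ : Finset (Fin Q.d × Bool)),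
        |C_e Q W Λ T (nb x e) t * max (C_ext Λ z (nb x e)) 0 -
          C_e Q W Λ T (nb x e) t * max (C_ext Λ z' (nb x e)) 0| ≤ Real.exp M * ‖z - z'‖ := by
      intro e _
      rw [← mul_sub, abs_mul, abs_of_nonneg (C_e_nonneg _ _ _ _ _ _)]
      exact mul_le_mul (C_e_le Q W Λ hM _ _) ((C_max_lip _ _).trans (C_ext_diff Λ z z' _))
        (abs_nonneg _) (Real.exp_pos _).le
    refine (Finset.sum_le_card_nsmul _ _ _ h3).trans ?_
    rw [nsmul_eq_mul, Finset.card_univ]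
    exact le_of_eq (by ring)
  calc Real.exp (-C_c Q W T x t) * (Q.k * _) ≤
      Real.exp M * (Q.k * ((Fintype.card (Fin Q.d × Bool) : ℝ) * Real.exp M * ‖z - z'‖)) := by
        apply mul_le_mul h1 (mul_le_mul_of_nonneg_left h2 Q.hk)
          (mul_nonneg Q.hk (abs_nonneg _)) (Real.exp_pos _).le
    _ = _ := by ring

theorem C_A_lip (Q : Par) (W : Site Q.d → ℝ≥0 → ℝ) (Λ : Finset (Site Q.d)) {T M R : ℝ}
    (hR : 0 ≤ R)
    (hM : ∀ x ∈ Λ, ∀ t, |C_c Q W T x t| ≤ M) (t : ℝ) (z z' : Λ → ℝ) {x : Site Q.d} (hx : x ∈ Λ) :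
    |C_A Q W Λ T R t z x - C_A Q W Λ T R t z' x| ≤
      Real.exp M * (Q.ep * (Real.exp M ^ (Q.p + 1) * (((Q.p + 1 : ℕ) : ℝ) * R ^ Q.p))) *
        ‖z - z'‖ := by
  unfold C_A
  rw [← mul_sub, ← mul_sub, mul_pow, mul_pow, ← mul_sub, abs_mul, abs_mul, abs_mul, Real.abs_exp,
    abs_of_nonneg Q.hep.le, abs_of_nonneg (pow_nonneg (C_e_nonneg _ _ _ _ _ _) _)]
  have h1 : Real.exp (-C_c Q W T x t) ≤ Real.exp M :=
    Real.exp_le_exp.2 ((neg_le_abs _).trans (hM x hx t))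
  have h2 := C_pow_lip Q.p hR (C_ext Λ z x) (C_ext Λ z' x)
  have h3 := C_ext_diff Λ z z' x
  have h4 : C_e Q W Λ T x t ^ (Q.p + 1) ≤ Real.exp M ^ (Q.p + 1) :=
    pow_le_pow_left₀ (C_e_nonneg _ _ _ _ _ _) (C_e_le Q W Λ hM _ _) _
  have hp1 : 0 ≤ ((Q.p + 1 : ℕ) : ℝ) * R ^ Q.p := by positivity
  have h5 : C_e Q W Λ T x t ^ (Q.p + 1) *
      |min (max (C_ext Λ z x) 0) R ^ (Q.p + 1) - min (max (C_ext Λ z' x) 0) R ^ (Q.p + 1)| ≤
      Real.exp M ^ (Q.p + 1) * (((Q.p + 1 : ℕ) : ℝ) * R ^ Q.p * ‖z - z'‖) :=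
    mul_le_mul h4 (h2.trans (mul_le_mul_of_nonneg_left h3 hp1)) (abs_nonneg _) (by positivity)
  calc _ ≤ Real.exp M * (Q.ep * (Real.exp M ^ (Q.p + 1) *
        (((Q.p + 1 : ℕ) : ℝ) * R ^ Q.p * ‖z - z'‖))) := by
        apply mul_le_mul h1 (mul_le_mul_of_nonneg_left h5 Q.hep.le)
        · have := C_e_nonneg Q W Λ T x t
          have := Q.hep.le
          positivity
        · exact (Real.exp_pos _).le
    _ = _ := by ring

theorem C_F_lip (Q : Par) (W : Site Q.d → ℝ≥0 → ℝ) (Λ : Finset (Site Q.d)) {T M R : ℝ}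
    (hR : 0 ≤ R) (hM : ∀ x ∈ Λ, ∀ t, |C_c Q W T x t| ≤ M) :
    ∃ L : NNReal, ∀ t, LipschitzWith L (C_F Q W Λ T R t) := by
  set K1 := Real.exp M * (Q.k * ((Fintype.card (Fin Q.d × Bool) : ℝ) * Real.exp M)) with hK1
  set K2 := Real.exp M * (Q.ep * (Real.exp M ^ (Q.p + 1) * (((Q.p + 1 : ℕ) : ℝ) * R ^ Q.p)))
    with hK2
  have hK1' : 0 ≤ K1 := by have := Q.hk; positivity
  have hK2' : 0 ≤ K2 := by have := Q.hep.le; positivity
  refine ⟨Real.toNNReal (K1 + K2), fun t => LipschitzWith.of_dist_le_mul fun z z' => ?_⟩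
  rw [Real.coe_toNNReal _ (add_nonneg hK1' hK2'),
    dist_pi_le_iff (mul_nonneg (add_nonneg hK1' hK2') dist_nonneg)]
  intro x
  rw [Real.dist_eq, dist_eq_norm]
  show |(C_I Q W Λ T t z x - C_A Q W Λ T R t z x) -
    (C_I Q W Λ T t z' x - C_A Q W Λ T R t z' x)| ≤ (K1 + K2) * ‖z - z'‖
  have h1 := C_I_lip Q W Λ hM t z z' x.2
  have h2 := C_A_lip Q W Λ hR hM t z z' x.2
  calc _ = |(C_I Q W Λ T t z x - C_I Q W Λ T t z' x) -
      (C_A Q W Λ T R t z x - C_A Q W Λ T R t z' x)| := by congr 1; ring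
    _ ≤ |C_I Q W Λ T t z x - C_I Q W Λ T t z' x| +
      |C_A Q W Λ T R t z x - C_A Q W Λ T R t z' x| := abs_sub _ _
    _ ≤ K1 * ‖z - z'‖ + K2 * ‖z - z'‖ := add_le_add h1 h2
    _ = (K1 + K2) * ‖z - z'‖ := by ring

theorem C_I_nonneg (Q : Par) (W : Site Q.d → ℝ≥0 → ℝ) (Λ : Finset (Site Q.d)) (T t : ℝ)
    (z : Λ → ℝ) (x : Site Q.d) : 0 ≤ C_I Q W Λ T t z x := by
  unfold C_I nsum
  apply mul_nonneg (Real.exp_pos _).le
  apply mul_nonneg Q.hk
  apply Finset.sum_nonneg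
  intro e _
  exact mul_nonneg (C_e_nonneg _ _ _ _ _ _) (le_max_right _ _)

theorem C_A_nonneg (Q : Par) (W : Site Q.d → ℝ≥0 → ℝ) (Λ : Finset (Site Q.d)) {T R : ℝ}
    (hR : 0 ≤ R) (t : ℝ) (z : Λ → ℝ) (x : Site Q.d) : 0 ≤ C_A Q W Λ T R t z x := by
  unfold C_A
  apply mul_nonneg (Real.exp_pos _).le
  apply mul_nonneg Q.hep.le
  apply pow_nonneg
  exact mul_nonneg (C_e_nonneg _ _ _ _ _ _) (le_min (le_max_right _ _) hR)

theorem C_A_zero (Q : Par) (W : Site Q.d → ℝ≥0 → ℝ) (Λ : Finset (Site Q.d)) {T R : ℝ}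
    (hR : 0 ≤ R) (t : ℝ) (z : Λ → ℝ) {x : Site Q.d} (hx : C_ext Λ z x ≤ 0) :
    C_A Q W Λ T R t z x = 0 := by
  unfold C_A
  rw [max_eq_right hx, min_eq_left hR]
  simp

theorem exists_fv (Q : Par) (Λ : Finset (Site Q.d)) {W : Site Q.d → ℝ≥0 → ℝ} (hW : CP W)
    {v : Site Q.d → ℝ} (hv : ∀ x, 0 ≤ v x) {T : ℝ} (hT : 0 ≤ T) :
    ∃ U, IsFV Q Λ W T v U := by
  obtain ⟨M, hM0, hM⟩ := C_c_bound Q hW hT Λ
  set S0 : ℝ := ∑ x ∈ Λ, v x with hS0
  have hS00 : 0 ≤ S0 := Finset.sum_nonneg fun x _ => hv x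
  set K : ℝ := (Λ.card : ℝ) *
    (Real.exp M * (Q.k * ((Fintype.card (Fin Q.d × Bool) : ℝ) * Real.exp M))) with hK
  have hK0 : 0 ≤ K := by have := Q.hk; positivity
  set R : ℝ := (S0 + 1) * Real.exp ((K + 1) * T) with hR
  have hR0 : 0 ≤ R := by positivity
  obtain ⟨L, hL⟩ := C_F_lip Q W Λ (T := T) hR0 hM
  obtain ⟨ξ, hξ0, hξ⟩ := Haraux.global_ode (C_F Q W Λ T R) L hL
    (C_F_cont Q hW Λ T R) (fun x : Λ => v x)
  have hξx : ∀ (x : Λ) (t : ℝ), HasDerivAt (fun s => ξ s x) (C_F Q W Λ T R t (ξ t) x) t :=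
    fun x t => (hasDerivAt_pi.1 (hξ t)) x
  have hξc : Continuous ξ := continuous_iff_continuousAt.2 fun t => (hξ t).continuousAt
  -- positivity
  have hpos : ∀ (x : Λ) (t : ℝ), 0 ≤ t → 0 ≤ ξ t x := by
    intro x t ht
    have key : ∀ ε : ℝ, 0 < ε → -ξ t x ≤ ε * (1 + t) := by
      intro ε hε
      have := image_le_of_deriv_right_lt_deriv_boundary (f := fun s => -ξ s x)
        (f' := fun s => -C_F Q W Λ T R s (ξ s) x) (a := 0) (b := t)
        (fun s _ => (hξx x s).neg.continuousAt.continuousWithinAt)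
        (fun s _ => (hξx x s).neg.hasDerivWithinAt)
        (B := fun s => ε * (1 + s)) (B' := fun _ => ε) ?_ ?_ ?_ (right_mem_Icc.2 ht)
      · exact this
      · have h1 : ξ 0 x = v x := by rw [hξ0]
        show -ξ 0 x ≤ ε * (1 + 0)
        rw [h1]
        have := hv x
        linarith
      · intro s
        have := ((hasDerivAt_id s).const_add 1).const_mul ε
        simpa using this
      · intro s hs hsB
        have h2 : ξ s x < 0 := by
          have h3 : -ξ s x = ε * (1 + s) := hsB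
          have h4 : 0 < ε * (1 + s) := mul_pos hε (by linarith [hs.1])
          linarith
        have h5 : C_ext Λ (ξ s) x ≤ 0 := by rw [C_ext_mem _ x.2]; exact h2.le
        show -(C_I Q W Λ T s (ξ s) x - C_A Q W Λ T R s (ξ s) x) < ε
        rw [C_A_zero Q W Λ hR0 s (ξ s) h5]
        have := C_I_nonneg Q W Λ T s (ξ s) x
        linarith
    by_contra hcon
    push Not at hcon
    have h1 := key (-ξ t x / (2 * (1 + t))) (by
      apply div_pos (by linarith) (by linarith))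
    have h2 : -ξ t x / (2 * (1 + t)) * (1 + t) = -ξ t x / 2 := by
      field_simp
    rw [h2] at h1
    linarith
  -- the sum
  set S : ℝ → ℝ := fun t => ∑ x : Λ, ξ t x with hS
  have hSle : ∀ (x : Λ) (t : ℝ), 0 ≤ t → ξ t x ≤ S t := fun x t ht =>
    Finset.single_le_sum (f := fun x : Λ => ξ t x) (fun y _ => hpos y t ht) (Finset.mem_univ x)
  have hIle : ∀ (x : Λ) (t : ℝ), 0 ≤ t → C_F Q W Λ T R t (ξ t) x ≤
      (Real.exp M * (Q.k * ((Fintype.card (Fin Q.d × Bool) : ℝ) * Real.exp M))) * S t := by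
    intro x t ht
    have h1 := C_A_nonneg Q W Λ (T := T) hR0 t (ξ t) x
    have hSt : 0 ≤ S t := Finset.sum_nonneg fun y _ => hpos y t ht
    have h2 : C_I Q W Λ T t (ξ t) x ≤
        (Real.exp M * (Q.k * ((Fintype.card (Fin Q.d × Bool) : ℝ) * Real.exp M))) * S t := by
      unfold C_I nsum
      have h3 : Real.exp (-C_c Q W T x t) ≤ Real.exp M :=
        Real.exp_le_exp.2 ((neg_le_abs _).trans (hM x x.2 t))
      have h4 : ∑ e : Fin Q.d × Bool, C_e Q W Λ T (nb x e) t * max (C_ext Λ (ξ t) (nb x e)) 0 ≤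
          (Fintype.card (Fin Q.d × Bool) : ℝ) * Real.exp M * S t := by
        have h5 : ∀ e ∈ (Finset.univ : Finset (Fin Q.d × Bool)),
            C_e Q W Λ T (nb x e) t * max (C_ext Λ (ξ t) (nb x e)) 0 ≤ Real.exp M * S t := by
          intro e _
          apply mul_le_mul (C_e_le Q W Λ hM _ _) _ (le_max_right _ _) (Real.exp_pos _).le
          apply max_le _ hSt
          by_cases hy : nb (x : Site Q.d) e ∈ Λ
          · rw [C_ext_mem _ hy]; exact hSle _ t ht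
          · rw [C_ext_not _ hy]; exact hSt
        refine (Finset.sum_le_card_nsmul _ _ _ h5).trans ?_
        rw [nsmul_eq_mul, Finset.card_univ]
        exact le_of_eq (by ring)
      have h6 : 0 ≤ ∑ e : Fin Q.d × Bool,
          C_e Q W Λ T (nb x e) t * max (C_ext Λ (ξ t) (nb x e)) 0 :=
        Finset.sum_nonneg fun e _ => mul_nonneg (C_e_nonneg _ _ _ _ _ _) (le_max_right _ _)
      calc _ ≤ Real.exp M * (Q.k * ((Fintype.card (Fin Q.d × Bool) : ℝ) * Real.exp M * S t)) := by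
            apply mul_le_mul h3 (mul_le_mul_of_nonneg_left h4 Q.hk) (mul_nonneg Q.hk h6)
              (Real.exp_pos _).le
        _ = _ := by ring
    show C_I Q W Λ T t (ξ t) x - C_A Q W Λ T R t (ξ t) x ≤ _
    linarith
  have hSd : ∀ t, HasDerivAt S (∑ x : Λ, C_F Q W Λ T R t (ξ t) x) t := fun t =>
    HasDerivAt.fun_sum fun x _ => hξx x t
  have hSR : ∀ t ∈ Icc 0 T, S t ≤ (S0 + 1) * Real.exp ((K + 1) * t) := by
    intro t ht
    refine image_le_of_deriv_right_lt_deriv_boundary (f := S)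
      (f' := fun s => ∑ x : Λ, C_F Q W Λ T R s (ξ s) x) (a := 0) (b := t)
      (fun s _ => (hSd s).continuousAt.continuousWithinAt)
      (fun s _ => (hSd s).hasDerivWithinAt)
      (B := fun s => (S0 + 1) * Real.exp ((K + 1) * s))
      (B' := fun s => (S0 + 1) * (Real.exp ((K + 1) * s) * (K + 1))) ?_ ?_ ?_
      (right_mem_Icc.2 ht.1)
    · have h1 : S 0 = S0 := by
        rw [hS, hS0]
        simp only [hξ0]
        exact Finset.sum_coe_sort Λ v
      rw [h1]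
      simp
    · intro s
      have := (((hasDerivAt_id s).const_mul (K + 1)).exp).const_mul (S0 + 1)
      simpa using this
    · intro s hs hsB
      have hsB' : S s = (S0 + 1) * Real.exp ((K + 1) * s) := hsB
      have h2 : ∑ x : Λ, C_F Q W Λ T R s (ξ s) x ≤ K * S s := by
        have h3 := Finset.sum_le_card_nsmul (Finset.univ : Finset Λ) _ _
          (fun x _ => hIle x s hs.1)
        refine h3.trans (le_of_eq ?_)
        rw [nsmul_eq_mul, Finset.card_univ, Fintype.card_coe, hK]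
        ring
      have h4 : 0 < (S0 + 1) * Real.exp ((K + 1) * s) := by positivity
      have h5 : (S0 + 1) * (Real.exp ((K + 1) * s) * (K + 1)) =
          K * ((S0 + 1) * Real.exp ((K + 1) * s)) + (S0 + 1) * Real.exp ((K + 1) * s) := by ring
      show ∑ x : Λ, C_F Q W Λ T R s (ξ s) x < (S0 + 1) * (Real.exp ((K + 1) * s) * (K + 1))
      rw [h5]
      rw [hsB'] at h2
      linarith
  have hξR : ∀ (x : Λ), ∀ t ∈ Icc 0 T, ξ t x ≤ R := by
    intro x t ht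
    refine (hSle x t ht.1).trans ((hSR t ht).trans ?_)
    rw [hR]
    apply mul_le_mul_of_nonneg_left _ (by positivity)
    apply Real.exp_le_exp.2
    exact mul_le_mul_of_nonneg_left ht.2 (by positivity)
  -- the solution
  set U : ℝ → Site Q.d → ℝ := fun t y => C_e Q W Λ T y t * C_ext Λ (ξ t) y with hU
  have hUx : ∀ t (x : Λ), U t x = Real.exp (C_c Q W T x t) * ξ t x := by
    intro t x
    show C_e Q W Λ T x t * C_ext Λ (ξ t) x = _
    unfold C_e
    rw [if_pos x.2, C_ext_mem _ x.2]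
  have hFU : ∀ s ∈ Icc 0 T, ∀ x : Λ, C_F Q W Λ T R s (ξ s) x =
      Real.exp (-C_c Q W T x s) * (Q.k * nsum (U s) x - Q.ep * U s x ^ (Q.p + 1)) := by
    intro s hs x
    show C_I Q W Λ T s (ξ s) x - C_A Q W Λ T R s (ξ s) x = _
    unfold C_I C_A
    have h1 : ∀ y, max (C_ext Λ (ξ s) y) 0 = C_ext Λ (ξ s) y := by
      intro y
      apply max_eq_left
      by_cases hy : y ∈ Λ
      · rw [C_ext_mem _ hy]; exact hpos _ s hs.1
      · rw [C_ext_not _ hy]
    have h2 : min (C_ext Λ (ξ s) x) R = C_ext Λ (ξ s) x := by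
      apply min_eq_left
      rw [C_ext_mem _ x.2]
      exact hξR x s hs
    simp_rw [h1]
    rw [h2]
    ring
  refine ⟨U, ?_, ?_, ?_, ?_, ?_⟩
  · intro t x hx
    show C_e Q W Λ T x t * C_ext Λ (ξ t) x = 0
    rw [C_ext_not _ hx, mul_zero]
  · intro t ht x
    show 0 ≤ C_e Q W Λ T x t * C_ext Λ (ξ t) x
    apply mul_nonneg (C_e_nonneg _ _ _ _ _ _)
    by_cases hy : x ∈ Λ
    · rw [C_ext_mem _ hy]; exact hpos _ t ht.1
    · rw [C_ext_not _ hy]
  · intro x _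
    apply Continuous.continuousOn
    exact (C_e_cont Q hW Λ T x).mul ((C_ext_cont Λ x).comp hξc)
  · intro x hx
    have h1 := hUx 0 ⟨x, hx⟩
    simp only at h1
    rw [h1, hξ0]
    have h2 : C_c Q W T x 0 = 0 := by
      unfold C_c
      rw [C_tau_eq ⟨le_rfl, hT⟩, sub_self]
    rw [h2, Real.exp_zero, one_mul]
  · intro t ht x hx
    have hcs : ∀ s ∈ Icc 0 T, C_c Q W T x s = bb Q W x s - bb Q W x 0 := by
      intro s hs
      unfold C_c
      rw [C_tau_eq hs]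
    have h1 := hUx t ⟨x, hx⟩
    simp only at h1
    have hint : ∫ s in (0 : ℝ)..t, C_F Q W Λ T R s (ξ s) ⟨x, hx⟩ =
        ξ t ⟨x, hx⟩ - ξ 0 ⟨x, hx⟩ := by
      apply intervalIntegral.integral_eq_sub_of_hasDerivAt (fun s _ => hξx ⟨x, hx⟩ s)
      apply Continuous.intervalIntegrable
      have := (C_F_cont Q hW Λ T R).comp (continuous_id.prodMk hξc)
      exact (continuous_apply (⟨x, hx⟩ : Λ)).comp this
    have h2 : ξ t ⟨x, hx⟩ = v x + ∫ s in (0 : ℝ)..t, C_F Q W Λ T R s (ξ s) ⟨x, hx⟩ := by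
      rw [hint, hξ0]; ring
    rw [h1, h2, mul_add, hcs t ht, ← intervalIntegral.integral_const_mul]
    congr 1
    apply intervalIntegral.integral_congr
    intro s hs
    rw [uIcc_of_le ht.1] at hs
    have hs' : s ∈ Icc 0 T := ⟨hs.1, hs.2.trans ht.2⟩
    simp only
    rw [hFU s hs' ⟨x, hx⟩, ← mul_assoc, ← Real.exp_add]
    simp only
    rw [hcs s hs']
    congr 2
    ring

end Pool.Agent.H704R2.PAM
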