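import Pool.Agent.H704R2.PAM.B

set_option autoImplicit false
open MeasureTheory ProbabilityTheory Filter Topology Set
open scoped ENNReal NNReal

namespace Pool.Agent.H704R2.PAM

/-! Module D: convergence of the scheme to the finite volume solution -/

theorem D_bb_cont (Q : Par) {W : Site Q.d → ℝ≥0 → ℝ} (hW : CP W) (x : Site Q.d) :
    Continuous (bb Q W x) := by
  unfold bb
  exact ((hW x).comp continuous_real_toNNReal).add (continuous_const.mul continuous_id)

/-- the noise with drift, normalised at time 0 -/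
noncomputable def D_c (Q : Par) (W : Site Q.d → ℝ≥0 → ℝ) (x : Site Q.d) (t : ℝ) : ℝ :=
  bb Q W x t - bb Q W x 0

theorem D_c_cont (Q : Par) {W : Site Q.d → ℝ≥0 → ℝ} (hW : CP W) (x : Site Q.d) :
    Continuous (D_c Q W x) := (D_bb_cont Q hW x).sub continuous_const

theorem D_inc (Q : Par) (W : Site Q.d → ℝ≥0 → ℝ) (h : ℝ≥0) (j : ℕ) (x : Site Q.d) :
    inc Q W h j x = D_c Q W x ((j : ℝ) * h + h) - D_c Q W x ((j : ℝ) * h) := by
  unfold inc D_c bb
  have e1 : ((j : ℝ) * h + h).toNNReal = ((j : ℝ≥0) + 1) * h := by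
    have : ((j : ℝ) * h + h) = ((((j : ℝ≥0) + 1) * h : ℝ≥0) : ℝ) := by
      push_cast; ring
    rw [this, Real.toNNReal_coe]
  have e2 : ((j : ℝ) * h).toNNReal = (j : ℝ≥0) * h := by
    have : ((j : ℝ) * h) = (((j : ℝ≥0) * h : ℝ≥0) : ℝ) := by
      push_cast; ring
    rw [this, Real.toNNReal_coe]
  rw [e1, e2]
  ring

/-- the solution with continuous time dependence on the whole line -/
structure D_Sol (Q : Par) (Λ : Finset (Site Q.d)) (W : Site Q.d → ℝ≥0 → ℝ) (T : ℝ)
    (v : Site Q.d → ℝ) (U : ℝ → Site Q.d → ℝ) : Prop where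
  zero_out : ∀ t, ∀ x ∉ Λ, U t x = 0
  nonneg : ∀ t, ∀ x, 0 ≤ U t x
  cont : ∀ x, Continuous (fun t => U t x)
  init : ∀ x ∈ Λ, U 0 x = v x
  eqn : ∀ t ∈ Icc 0 T, ∀ x ∈ Λ, Real.exp (-D_c Q W x t) * U t x = v x +
    ∫ s in (0 : ℝ)..t, Real.exp (-D_c Q W x s) *
      (Q.k * nsum (U s) x - Q.ep * U s x ^ (Q.p + 1))

theorem D_ext (Q : Par) (Λ : Finset (Site Q.d)) (W : Site Q.d → ℝ≥0 → ℝ) {T : ℝ} (hT : 0 ≤ T)
    {v : Site Q.d → ℝ} {U : ℝ → Site Q.d → ℝ} (hU : IsFV Q Λ W T v U) :
    D_Sol Q Λ W T v (fun t x => U (projIcc 0 T hT t) x) := by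
  have hproj : ∀ t ∈ Icc (0 : ℝ) T, ((projIcc 0 T hT t : Icc (0 : ℝ) T) : ℝ) = t := by
    intro t ht
    rw [projIcc_of_mem hT ht]
  refine ⟨fun t x hx => hU.zero_out _ x hx, fun t x => hU.nonneg _ (projIcc 0 T hT t).2 x, ?_, ?_,
    ?_⟩
  · intro x
    by_cases hx : x ∈ Λ
    · have h1 := hU.cont x hx
      rw [continuousOn_iff_continuous_domRestrict] at h1
      exact h1.comp continuous_projIcc
    · have : (fun t : ℝ => U (projIcc 0 T hT t) x) = fun _ => 0 := by
        funext t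
        exact hU.zero_out _ x hx
      rw [this]
      exact continuous_const
  · intro x hx
    rw [hproj 0 ⟨le_rfl, hT⟩]
    exact hU.init x hx
  · intro t ht x hx
    rw [hproj t ht, hU.eqn t ht x hx, mul_add, ← mul_assoc, ← Real.exp_add,
      ← intervalIntegral.integral_const_mul]
    congr 1
    · unfold D_c
      have : -(bb Q W x t - bb Q W x 0) + (bb Q W x t - bb Q W x 0) = 0 := by ring
      rw [this, Real.exp_zero, one_mul]
    · apply intervalIntegral.integral_congr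
      intro s hs
      rw [uIcc_of_le ht.1] at hs
      simp only
      rw [hproj s ⟨hs.1, hs.2.trans ht.2⟩, ← mul_assoc, ← Real.exp_add]
      congr 2
      unfold D_c
      ring

section
variable {Q : Par} {Λ : Finset (Site Q.d)} {W : Site Q.d → ℝ≥0 → ℝ} {T : ℝ}
  {v : Site Q.d → ℝ} {U : ℝ → Site Q.d → ℝ}

theorem D_nsum_cont (hU : D_Sol Q Λ W T v U) (x : Site Q.d) :
    Continuous (fun s => nsum (U s) x) := by
  unfold nsum
  exact continuous_finsetSum _ fun e _ => hU.cont _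

/-- consistency of the scheme -/
theorem D_consist (hW : CP W) (hU : D_Sol Q Λ W T v U) {x : Site Q.d} (hx : x ∈ Λ) {δ : ℝ}
    (hδ : 0 < δ) : ∃ η > 0, ∀ s h : ℝ, 0 ≤ s → 0 < h → h ≤ η → s + h ≤ T →
      |Real.exp (-D_c Q W x (s + h)) * absb Q.p (Q.ep * h)
          (Real.exp (D_c Q W x (s + h) - D_c Q W x s) * (U s x + h * Q.k * nsum (U s) x)) -
        Real.exp (-D_c Q W x (s + h)) * U (s + h) x| ≤ δ * h := by
  have hc := D_c_cont Q hW x
  have hn := D_nsum_cont hU x
  have hu := hU.cont x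
  have hk := Q.hk
  have hep := Q.hep
  set c := D_c Q W x with hcdef
  -- the continuous functions
  set V : ℝ × ℝ × ℝ → ℝ := fun q =>
    Real.exp (c q.2.1 - c q.1) * (U q.1 x + q.2.2 * Q.k * nsum (U q.1) x) with hV
  have hVc : Continuous V := by
    simp only [hV]
    have f1 : Continuous fun q : ℝ × ℝ × ℝ => c q.2.1 := hc.comp (by fun_prop)
    have f2 : Continuous fun q : ℝ × ℝ × ℝ => c q.1 := hc.comp (by fun_prop)
    have f3 : Continuous fun q : ℝ × ℝ × ℝ => U q.1 x := hu.comp continuous_fst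
    have f4 : Continuous fun q : ℝ × ℝ × ℝ => nsum (U q.1) x := hn.comp continuous_fst
    fun_prop
  set F : ℝ × ℝ × ℝ → ℝ := fun q =>
    Real.exp (-c q.2.1) * V q ^ (Q.p + 1) - Real.exp (-c q.1) * U q.1 x ^ (Q.p + 1) with hF
  have hFc : Continuous F := by
    simp only [hF]
    have f1 : Continuous fun q : ℝ × ℝ × ℝ => c q.2.1 := hc.comp (by fun_prop)
    have f2 : Continuous fun q : ℝ × ℝ × ℝ => c q.1 := hc.comp (by fun_prop)
    have f3 : Continuous fun q : ℝ × ℝ × ℝ => U q.1 x := hu.comp continuous_fst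
    fun_prop
  set G : ℝ → ℝ := fun s => Real.exp (-c s) * (Q.k * nsum (U s) x - Q.ep * U s x ^ (Q.p + 1))
    with hG
  have hGc : Continuous G := by
    simp only [hG]
    fun_prop
  have hK : IsCompact (Icc (0 : ℝ) T ×ˢ (Icc (0 : ℝ) T ×ˢ Icc (0 : ℝ) 1)) :=
    isCompact_Icc.prod (isCompact_Icc.prod isCompact_Icc)
  obtain ⟨B, hB⟩ := hK.exists_bound_of_continuousOn hVc.continuousOn
  obtain ⟨A, hA⟩ := (isCompact_Icc (a := (0 : ℝ)) (b := T)).exists_bound_of_continuousOn
    (f := fun s => Real.exp (-c s)) (by fun_prop)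
  have hunF := hK.uniformContinuousOn_of_continuous hFc.continuousOn
  have hunG := (isCompact_Icc (a := (0 : ℝ)) (b := T)).uniformContinuousOn_of_continuous
    hGc.continuousOn
  rw [Metric.uniformContinuousOn_iff] at hunF hunG
  obtain ⟨η1, hη1, h1⟩ := hunF (δ / (3 * Q.ep)) (by positivity)
  obtain ⟨η2, hη2, h2⟩ := hunG (δ / 3) (by positivity)
  set M : ℝ := |A| * ((Q.p + 1) * Q.ep ^ 2 * |B| ^ (2 * Q.p + 1)) + 1 with hM
  have hMpos : 0 < M := by positivity
  refine ⟨min (min (η1 / 2) (η2 / 2)) (min 1 (δ / (3 * M))), by positivity, ?_⟩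
  intro s h hs hh hhη hsT
  have k1 : h ≤ η1 / 2 := hhη.trans ((min_le_left _ _).trans (min_le_left _ _))
  have k2 : h ≤ η2 / 2 := hhη.trans ((min_le_left _ _).trans (min_le_right _ _))
  have k3 : h ≤ 1 := hhη.trans ((min_le_right _ _).trans (min_le_left _ _))
  have k4 : h ≤ δ / (3 * M) := hhη.trans ((min_le_right _ _).trans (min_le_right _ _))
  have hsI : s ∈ Icc (0 : ℝ) T := ⟨hs, by linarith⟩
  have hshI : s + h ∈ Icc (0 : ℝ) T := ⟨by linarith, hsT⟩
  have hq : (s, s + h, h) ∈ Icc (0 : ℝ) T ×ˢ (Icc (0 : ℝ) T ×ˢ Icc (0 : ℝ) 1) :=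
    ⟨hsI, hshI, hh.le, k3⟩
  have hq0 : (s, s, (0 : ℝ)) ∈ Icc (0 : ℝ) T ×ˢ (Icc (0 : ℝ) T ×ˢ Icc (0 : ℝ) 1) :=
    ⟨hsI, hsI, le_rfl, zero_le_one⟩
  -- the value of V
  set Vs : ℝ := Real.exp (c (s + h) - c s) * (U s x + h * Q.k * nsum (U s) x) with hVs
  have hVs' : V (s, s + h, h) = Vs := rfl
  have hns0 : 0 ≤ nsum (U s) x := Finset.sum_nonneg fun e _ => hU.nonneg _ _
  have hV0 : 0 ≤ Vs := by
    have := hU.nonneg s x
    positivity
  have hVB : Vs ≤ |B| := by
    have := hB _ hq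
    rw [hVs', Real.norm_eq_abs] at this
    exact (le_abs_self _).trans (this.trans (le_abs_self _))
  -- F is small
  have hF1 : |F (s, s + h, h)| ≤ δ / (3 * Q.ep) := by
    have h0 : F (s, s, 0) = 0 := by
      simp [hF, hV]
    have hd : dist (s, s + h, h) (s, s, (0 : ℝ)) < η1 := by
      simp only [Prod.dist_eq, dist_self, Real.dist_eq]
      have e1 : |s + h - s| = h := by rw [add_sub_cancel_left, abs_of_pos hh]
      have e2 : |h - 0| = h := by rw [sub_zero, abs_of_pos hh]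
      rw [e1, e2, max_self, max_eq_right hh.le]
      linarith
    have := h1 _ hq _ hq0 hd
    rw [h0, Real.dist_eq, sub_zero] at this
    exact this.le
  -- the integral
  have hint : Real.exp (-c (s + h)) * U (s + h) x =
      Real.exp (-c s) * U s x + ∫ r in s..(s + h), G r := by
    rw [hU.eqn _ hshI x hx, hU.eqn _ hsI x hx, add_assoc,
      intervalIntegral.integral_add_adjacent_intervals (hGc.intervalIntegrable _ _)
        (hGc.intervalIntegrable _ _)]
  have hE2 : |(∫ r in s..(s + h), G r) - h * G s| ≤ δ / 3 * h := by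
    have e1 : h * G s = ∫ r in s..(s + h), G s := by
      rw [intervalIntegral.integral_const, add_sub_cancel_left, smul_eq_mul]
    rw [e1, ← intervalIntegral.integral_sub (hGc.intervalIntegrable _ _)
      intervalIntegrable_const]
    have e2 := intervalIntegral.norm_integral_le_of_norm_le_const (a := s) (b := s + h)
      (C := δ / 3) (f := fun r => G r - G s) (by
        intro r hr
        rw [uIoc_of_le (by linarith)] at hr
        have hrI : r ∈ Icc (0 : ℝ) T := ⟨by linarith [hr.1], by linarith [hr.2]⟩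
        have hd : dist r s < η2 := by
          rw [Real.dist_eq, abs_of_pos (by linarith [hr.1])]
          linarith [hr.2]
        exact (h2 _ hrI _ hsI hd).le)
    rw [add_sub_cancel_left, abs_of_pos hh, Real.norm_eq_abs] at e2
    exact e2
  -- the expansion
  have hE1 : |Real.exp (-c (s + h)) * (absb Q.p (Q.ep * h) Vs - (Vs - Q.ep * h * Vs ^ (Q.p + 1)))|
      ≤ δ / 3 * h := by
    have e1 := absb_expand Q.hp (s := Q.ep * h) (v := Vs) (by positivity) hV0
    rw [abs_mul]
    have e2 : |Real.exp (-c (s + h))| ≤ |A| := by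
      have := hA _ hshI
      rw [Real.norm_eq_abs] at this
      exact this.trans (le_abs_self _)
    have e3 : Vs ^ (2 * Q.p + 1) ≤ |B| ^ (2 * Q.p + 1) := pow_le_pow_left₀ hV0 hVB _
    calc |Real.exp (-c (s + h))| * |absb Q.p (Q.ep * h) Vs - (Vs - Q.ep * h * Vs ^ (Q.p + 1))|
        ≤ |A| * ((Q.p + 1) * (Q.ep * h) ^ 2 * |B| ^ (2 * Q.p + 1)) := by
          refine mul_le_mul e2 (e1.trans ?_) (abs_nonneg _) (abs_nonneg _)
          exact mul_le_mul_of_nonneg_left e3 (by positivity)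
      _ = (|A| * ((Q.p + 1) * Q.ep ^ 2 * |B| ^ (2 * Q.p + 1))) * h * h := by ring
      _ ≤ M * h * h := by
          have : |A| * ((Q.p + 1) * Q.ep ^ 2 * |B| ^ (2 * Q.p + 1)) ≤ M := by
            rw [hM]; linarith
          gcongr
      _ ≤ M * (δ / (3 * M)) * h := by gcongr
      _ = δ / 3 * h := by field_simp
  -- assemble
  have hexp : Real.exp (-c (s + h)) * Vs = Real.exp (-c s) * (U s x + h * Q.k * nsum (U s) x) := by
    rw [hVs, ← mul_assoc, ← Real.exp_add]
    congr 2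
    ring
  have key : Real.exp (-c (s + h)) * absb Q.p (Q.ep * h) Vs -
      Real.exp (-c (s + h)) * U (s + h) x =
      Real.exp (-c (s + h)) * (absb Q.p (Q.ep * h) Vs - (Vs - Q.ep * h * Vs ^ (Q.p + 1)))
        - ((∫ r in s..(s + h), G r) - h * G s) - Q.ep * h * F (s, s + h, h) := by
    rw [hint]
    have e1 : F (s, s + h, h) = Real.exp (-c (s + h)) * Vs ^ (Q.p + 1) -
        Real.exp (-c s) * U s x ^ (Q.p + 1) := rfl
    have e2 : G s = Real.exp (-c s) * (Q.k * nsum (U s) x - Q.ep * U s x ^ (Q.p + 1)) := rfl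
    rw [e1, e2]
    linear_combination hexp
  rw [key]
  have hE3 : |Q.ep * h * F (s, s + h, h)| ≤ δ / 3 * h := by
    rw [abs_mul, abs_of_pos (by positivity : (0 : ℝ) < Q.ep * h)]
    calc Q.ep * h * |F (s, s + h, h)| ≤ Q.ep * h * (δ / (3 * Q.ep)) := by gcongr
      _ = δ / 3 * h := by field_simp
  calc |Real.exp (-c (s + h)) * (absb Q.p (Q.ep * h) Vs - (Vs - Q.ep * h * Vs ^ (Q.p + 1)))
        - ((∫ r in s..(s + h), G r) - h * G s) - Q.ep * h * F (s, s + h, h)|
      ≤ |Real.exp (-c (s + h)) * (absb Q.p (Q.ep * h) Vs - (Vs - Q.ep * h * Vs ^ (Q.p + 1)))|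
        + |(∫ r in s..(s + h), G r) - h * G s| + |Q.ep * h * F (s, s + h, h)| := by
        refine (abs_sub _ _).trans ?_
        gcongr
        exact abs_sub _ _
    _ ≤ δ / 3 * h + δ / 3 * h + δ / 3 * h := by gcongr
    _ = δ * h := by ring

theorem D_card (d : ℕ) : ((Finset.univ : Finset (Fin d × Bool)).card : ℝ) = 2 * d := by
  rw [Finset.card_univ, Fintype.card_prod, Fintype.card_fin, Fintype.card_bool]
  push_cast
  ring

/-- the error of the scheme -/
theorem D_error (hv : ∀ x, 0 ≤ v x) (hU : D_Sol Q Λ W T v U) {K : ℝ} (hK0 : 0 ≤ K)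
    (hK : ∀ x ∈ Λ, ∀ y ∈ Λ, ∀ t ∈ Icc (0 : ℝ) T, Real.exp (D_c Q W y t - D_c Q W x t) ≤ K)
    {δ η : ℝ} (hδ : 0 ≤ δ)
    (hcons : ∀ x ∈ Λ, ∀ s h : ℝ, 0 ≤ s → 0 < h → h ≤ η → s + h ≤ T →
      |Real.exp (-D_c Q W x (s + h)) * absb Q.p (Q.ep * h)
          (Real.exp (D_c Q W x (s + h) - D_c Q W x s) * (U s x + h * Q.k * nsum (U s) x)) -
        Real.exp (-D_c Q W x (s + h)) * U (s + h) x| ≤ δ * h)
    {h : ℝ≥0} (hh : 0 < h) (hhη : (h : ℝ) ≤ η) {n : ℕ} (hn : (n : ℝ) * h = T) :
    ∀ j ≤ n, ∀ x ∈ Λ, Real.exp (-D_c Q W x ((j : ℝ) * h)) *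
      |run Q Λ (h : ℝ) (inc Q W h) v j x - U ((j : ℝ) * h) x| ≤
        δ * h * j * (1 + Q.k * (2 * Q.d) * K * h) ^ j := by
  have hk := Q.hk
  have hh' : (0 : ℝ) < h := by exact_mod_cast hh
  intro j
  induction j with
  | zero =>
      intro _ x hx
      have e1 : run Q Λ (h : ℝ) (inc Q W h) v 0 x = v x := by
        simp only [run, if_pos hx]
      rw [e1]
      simp only [Nat.cast_zero, zero_mul, mul_zero, pow_zero, mul_one]
      rw [hU.init x hx, sub_self, abs_zero, mul_zero]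
  | succ j ih =>
      intro hj x hx
      have ihj := ih (by omega)
      set β : ℝ := δ * h * j * (1 + Q.k * (2 * Q.d) * K * h) ^ j with hβ
      have hβ0 : 0 ≤ β := by positivity
      set s : ℝ := (j : ℝ) * h with hs
      have hs0 : 0 ≤ s := by positivity
      have hsT : s + h ≤ T := by
        have e1 : ((j : ℝ) + 1) * h ≤ (n : ℝ) * h := by
          apply mul_le_mul_of_nonneg_right _ hh'.le
          exact_mod_cast hj
        rw [hn] at e1
        rw [hs]
        linarith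
      have hsI : s ∈ Icc (0 : ℝ) T := ⟨hs0, by linarith⟩
      have ecast : ((j + 1 : ℕ) : ℝ) * (h : ℝ) = s + h := by
        rw [hs]; push_cast; ring
      rw [ecast]
      set r := run Q Λ (h : ℝ) (inc Q W h) v j with hr
      have hr0 : ∀ y, 0 ≤ r y := fun y =>
        run_nonneg Q Λ h.2 (inc Q W h) (fun z _ => hv z) j y
      have hU0 : ∀ y, 0 ≤ U s y := fun y => hU.nonneg s y
      have hnr : 0 ≤ nsum r x := Finset.sum_nonneg fun e _ => hr0 _
      have hnu : 0 ≤ nsum (U s) x := Finset.sum_nonneg fun e _ => hU0 _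
      have e1 : run Q Λ (h : ℝ) (inc Q W h) v (j + 1) x =
          absb Q.p (Q.ep * h) (Real.exp (inc Q W h j x) * (r x + h * Q.k * nsum r x)) := by
        simp only [run, step, if_pos hx]
        rfl
      rw [e1, D_inc, ← hs]
      set c := D_c Q W x with hc
      set E : ℝ := Real.exp (c (s + h) - c s) with hE
      have hE0 : 0 < E := Real.exp_pos _
      have hEE : Real.exp (-c (s + h)) * E = Real.exp (-c s) := by
        rw [hE, ← Real.exp_add]
        congr 1
        ring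
      -- neighbours
      have hnbr : ∀ y, Real.exp (-c s) * |r y - U s y| ≤ K * β := by
        intro y
        by_cases hy : y ∈ Λ
        · have f1 := ihj y hy
          have f2 := hK x hx y hy s hsI
          have f3 : Real.exp (-c s) = Real.exp (D_c Q W y s - c s) *
              Real.exp (-D_c Q W y s) := by
            rw [← Real.exp_add]
            congr 1
            ring
          rw [f3, mul_assoc]
          exact mul_le_mul f2 f1 (by positivity) hK0
        · have f1 : r y = 0 := run_out Q Λ _ _ v j hy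
          have f2 : U s y = 0 := hU.zero_out s y hy
          rw [f1, f2, sub_self, abs_zero, mul_zero]
          positivity
      have hsum : Real.exp (-c s) * |nsum r x - nsum (U s) x| ≤ 2 * Q.d * (K * β) := by
        unfold nsum
        rw [← Finset.sum_sub_distrib]
        calc Real.exp (-c s) * |∑ e : Fin Q.d × Bool, (r (nb x e) - U s (nb x e))|
            ≤ Real.exp (-c s) * ∑ e : Fin Q.d × Bool, |r (nb x e) - U s (nb x e)| := by
              gcongr
              exact Finset.abs_sum_le_sum_abs _ _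
          _ = ∑ e : Fin Q.d × Bool, Real.exp (-c s) * |r (nb x e) - U s (nb x e)| := by
              rw [Finset.mul_sum]
          _ ≤ ∑ _e : Fin Q.d × Bool, K * β := Finset.sum_le_sum fun e _ => hnbr _
          _ = 2 * Q.d * (K * β) := by
              rw [Finset.sum_const, nsmul_eq_mul, D_card]
      have hlip : |absb Q.p (Q.ep * h) (E * (r x + h * Q.k * nsum r x)) -
          absb Q.p (Q.ep * h) (E * (U s x + h * Q.k * nsum (U s) x))| ≤
          E * (|r x - U s x| + h * Q.k * |nsum r x - nsum (U s) x|) := by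
        have hrx := hr0 x
        have hux := hU0 x
        have hep := Q.hep
        refine (absb_lip Q.hp (by positivity) (by positivity) (by positivity)).trans ?_
        have f1 : E * (r x + h * Q.k * nsum r x) - E * (U s x + h * Q.k * nsum (U s) x) =
            E * ((r x - U s x) + h * Q.k * (nsum r x - nsum (U s) x)) := by ring
        rw [f1, abs_mul, abs_of_pos hE0]
        gcongr
        refine (abs_add_le _ _).trans ?_
        rw [abs_mul (↑h * Q.k), abs_of_nonneg (by positivity : (0 : ℝ) ≤ h * Q.k)]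
      have hc2 := hcons x hx s h hs0 hh' hhη hsT
      rw [← mul_sub, abs_mul, abs_of_pos (Real.exp_pos _)] at hc2
      have hmain : Real.exp (-c (s + h)) *
          |absb Q.p (Q.ep * h) (E * (r x + h * Q.k * nsum r x)) - U (s + h) x| ≤
          β * (1 + Q.k * (2 * Q.d) * K * h) + δ * h := by
        calc Real.exp (-c (s + h)) *
            |absb Q.p (Q.ep * h) (E * (r x + h * Q.k * nsum r x)) - U (s + h) x|
            ≤ Real.exp (-c (s + h)) *
              (|absb Q.p (Q.ep * h) (E * (r x + h * Q.k * nsum r x)) -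
                absb Q.p (Q.ep * h) (E * (U s x + h * Q.k * nsum (U s) x))| +
               |absb Q.p (Q.ep * h) (E * (U s x + h * Q.k * nsum (U s) x)) - U (s + h) x|) := by
              gcongr
              exact abs_sub_le _ _ _
          _ ≤ Real.exp (-c (s + h)) *
              (E * (|r x - U s x| + h * Q.k * |nsum r x - nsum (U s) x|)) + δ * h := by
              rw [mul_add]
              gcongr
          _ = Real.exp (-c s) * |r x - U s x| +
              h * Q.k * (Real.exp (-c s) * |nsum r x - nsum (U s) x|) + δ * h := by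
              rw [← mul_assoc, hEE]; ring
          _ ≤ β + h * Q.k * (2 * Q.d * (K * β)) + δ * h := by
              have := ihj x hx
              gcongr
          _ = β * (1 + Q.k * (2 * Q.d) * K * h) + δ * h := by ring
      refine hmain.trans ?_
      have hone : 1 ≤ (1 + Q.k * (2 * Q.d) * K * (h : ℝ)) ^ (j + 1) := by
        apply one_le_pow₀
        have : 0 ≤ Q.k * (2 * Q.d) * K * (h : ℝ) := by positivity
        linarith
      have hlast : δ * h ≤ δ * h * (1 + Q.k * (2 * Q.d) * K * (h : ℝ)) ^ (j + 1) :=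
        le_mul_of_one_le_right (by positivity) hone
      push_cast
      calc β * (1 + Q.k * (2 * Q.d) * K * h) + δ * h
          ≤ β * (1 + Q.k * (2 * Q.d) * K * h) +
            δ * h * (1 + Q.k * (2 * Q.d) * K * (h : ℝ)) ^ (j + 1) := by gcongr
        _ = δ * h * (j + 1) * (1 + Q.k * (2 * Q.d) * K * h) ^ (j + 1) := by
            rw [hβ]; ring

end

theorem D_tendsto (Q : Par) (Λ : Finset (Site Q.d)) {W : Site Q.d → ℝ≥0 → ℝ} (hW : CP W)
    {v : Site Q.d → ℝ} (hv : ∀ x, 0 ≤ v x) {T : ℝ≥0} (hT : 0 < T) {U : ℝ → Site Q.d → ℝ}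
    (hU : D_Sol Q Λ W T v U) {x : Site Q.d} (hx : x ∈ Λ) :
    Tendsto (fun n : ℕ => run Q Λ ((T / n : ℝ≥0) : ℝ) (inc Q W (T / n)) v n x) atTop
      (𝓝 (U T x)) := by
  have hk := Q.hk
  have hT' : (0 : ℝ) < T := by exact_mod_cast hT
  -- the constant K
  have hKex : ∃ K : ℝ, 0 ≤ K ∧ ∀ x ∈ Λ, ∀ y ∈ Λ, ∀ t ∈ Icc (0 : ℝ) T,
      Real.exp (D_c Q W y t - D_c Q W x t) ≤ K := by
    have h1 : ∀ q : Site Q.d × Site Q.d, ∃ K : ℝ, 0 ≤ K ∧ ∀ t ∈ Icc (0 : ℝ) T,
        Real.exp (D_c Q W q.2 t - D_c Q W q.1 t) ≤ K := by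
      intro q
      have c1 := D_c_cont Q hW q.1
      have c2 := D_c_cont Q hW q.2
      obtain ⟨K, hK⟩ := (isCompact_Icc (a := (0 : ℝ)) (b := T)).exists_bound_of_continuousOn
        (f := fun t => Real.exp (D_c Q W q.2 t - D_c Q W q.1 t)) (by fun_prop)
      refine ⟨|K|, abs_nonneg _, fun t ht => ?_⟩
      have := hK t ht
      rw [Real.norm_eq_abs, abs_of_pos (Real.exp_pos _)] at this
      exact this.trans (le_abs_self _)
    choose f hf0 hf using h1
    refine ⟨∑ q ∈ Λ ×ˢ Λ, f q, Finset.sum_nonneg fun q _ => hf0 q, ?_⟩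
    intro x hx y hy t ht
    refine (hf (x, y) t ht).trans ?_
    exact Finset.single_le_sum (f := f) (fun q _ => hf0 q) (Finset.mem_product.2 ⟨hx, hy⟩)
  obtain ⟨K, hK0, hK⟩ := hKex
  rw [Metric.tendsto_atTop]
  intro ε hε
  set a : ℝ := Q.k * (2 * Q.d) * K with ha
  have ha0 : 0 ≤ a := by positivity
  set δ : ℝ := ε / (2 * (Real.exp (D_c Q W x T) * (T * Real.exp (a * T)))) with hδ
  have hδ0 : 0 < δ := by positivity
  -- consistency, uniformly on Λ
  have hcex : ∃ η > 0, ∀ x ∈ Λ, ∀ s h : ℝ, 0 ≤ s → 0 < h → h ≤ η → s + h ≤ (T : ℝ) →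
      |Real.exp (-D_c Q W x (s + h)) * absb Q.p (Q.ep * h)
          (Real.exp (D_c Q W x (s + h) - D_c Q W x s) * (U s x + h * Q.k * nsum (U s) x)) -
        Real.exp (-D_c Q W x (s + h)) * U (s + h) x| ≤ δ * h := by
    have h1 : ∀ y : Site Q.d, ∃ η > 0, y ∈ Λ → ∀ s h : ℝ, 0 ≤ s → 0 < h → h ≤ η →
        s + h ≤ (T : ℝ) →
      |Real.exp (-D_c Q W y (s + h)) * absb Q.p (Q.ep * h)
          (Real.exp (D_c Q W y (s + h) - D_c Q W y s) * (U s y + h * Q.k * nsum (U s) y)) -
        Real.exp (-D_c Q W y (s + h)) * U (s + h) y| ≤ δ * h := by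
      intro y
      by_cases hy : y ∈ Λ
      · obtain ⟨η, hη, h2⟩ := D_consist hW hU hy hδ0
        exact ⟨η, hη, fun _ => h2⟩
      · exact ⟨1, one_pos, fun h => absurd h hy⟩
    choose g hg0 hg using h1
    have hne : Λ.Nonempty := ⟨x, hx⟩
    refine ⟨Λ.inf' hne g, ?_, ?_⟩
    · rw [gt_iff_lt, Finset.lt_inf'_iff]
      exact fun y _ => hg0 y
    · intro y hy s h hs hh hhη hsh
      exact hg y hy s h hs hh (hhη.trans (Finset.inf'_le g hy)) hsh
  obtain ⟨η, hη, hcons⟩ := hcex
  obtain ⟨N, hN⟩ := exists_nat_gt ((T : ℝ) / η)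
  refine ⟨max N 1, fun n hn => ?_⟩
  have hn1 : 1 ≤ n := (le_max_right _ _).trans hn
  have hnN : N ≤ n := (le_max_left _ _).trans hn
  have hn0 : (0 : ℝ) < n := by exact_mod_cast hn1
  have hh0 : 0 < T / (n : ℝ≥0) := by
    apply div_pos hT
    exact_mod_cast hn1
  have hcast : ((T / (n : ℝ≥0) : ℝ≥0) : ℝ) = (T : ℝ) / n := by push_cast; rfl
  have hhη : ((T / (n : ℝ≥0) : ℝ≥0) : ℝ) ≤ η := by
    rw [hcast, div_le_iff₀ hn0]
    have h1 : (T : ℝ) / η < n := lt_of_lt_of_le hN (by exact_mod_cast hnN)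
    rw [div_lt_iff₀ hη] at h1
    linarith
  have hnh : (n : ℝ) * ((T / (n : ℝ≥0) : ℝ≥0) : ℝ) = T := by
    rw [hcast]
    field_simp
  have herr := D_error hv hU hK0 hK hδ0.le hcons hh0 hhη hnh n le_rfl x hx
  rw [hnh] at herr
  set e := |run Q Λ ((T / n : ℝ≥0) : ℝ) (inc Q W (T / n)) v n x - U T x| with he
  rw [Real.dist_eq, ← he]
  have hpow : (1 + Q.k * (2 * Q.d) * K * ((T / (n : ℝ≥0) : ℝ≥0) : ℝ)) ^ n ≤
      Real.exp (a * T) := by
    have h1 : 1 + Q.k * (2 * Q.d) * K * ((T / (n : ℝ≥0) : ℝ≥0) : ℝ) ≤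
        Real.exp (a * ((T / (n : ℝ≥0) : ℝ≥0) : ℝ)) := by
      rw [← ha, add_comm]
      exact Real.add_one_le_exp _
    calc (1 + Q.k * (2 * Q.d) * K * ((T / (n : ℝ≥0) : ℝ≥0) : ℝ)) ^ n
        ≤ (Real.exp (a * ((T / (n : ℝ≥0) : ℝ≥0) : ℝ))) ^ n :=
          pow_le_pow_left₀ (by positivity) h1 n
      _ = Real.exp (a * T) := by
          rw [← Real.exp_nat_mul]
          congr 1
          rw [← hnh]
          ring
  have h2 : Real.exp (-D_c Q W x T) * e ≤ δ * T * Real.exp (a * T) := by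
    refine herr.trans ?_
    have h3 : δ * ((T / (n : ℝ≥0) : ℝ≥0) : ℝ) * n = δ * T := by
      rw [mul_assoc, mul_comm (((T / (n : ℝ≥0) : ℝ≥0) : ℝ)) (n : ℝ), hnh]
    rw [h3]
    gcongr
  have h4 : e = Real.exp (D_c Q W x T) * (Real.exp (-D_c Q W x T) * e) := by
    rw [← mul_assoc, ← Real.exp_add]
    simp
  calc e = Real.exp (D_c Q W x T) * (Real.exp (-D_c Q W x T) * e) := h4
    _ ≤ Real.exp (D_c Q W x T) * (δ * T * Real.exp (a * T)) := by gcongr
    _ = ε / 2 := by
        rw [hδ]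
        field_simp
    _ < ε := by linarith

theorem run_tendsto (Q : Par) (Λ : Finset (Site Q.d)) {W : Site Q.d → ℝ≥0 → ℝ} (hW : CP W)
    {v : Site Q.d → ℝ} (hv : ∀ x, 0 ≤ v x) {T : ℝ≥0} {U : ℝ → Site Q.d → ℝ}
    (hU : IsFV Q Λ W T v U) (x : Site Q.d) :
    Tendsto (fun n : ℕ => run Q Λ ((T / n : ℝ≥0) : ℝ) (inc Q W (T / n)) v n x) atTop
      (𝓝 (U T x)) := by
  by_cases hx : x ∈ Λ
  · rcases eq_zero_or_pos T with hT | hT
    · subst hT
      have h1 : ∀ n : ℕ, run Q Λ ((0 / n : ℝ≥0) : ℝ) (inc Q W (0 / n)) v n x = v x := by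
        intro n
        have h2 : ((0 : ℝ≥0) / n) = 0 := zero_div _
        rw [h2]
        have h3 : ∀ m : ℕ, ∀ y ∈ Λ, run Q Λ ((0 : ℝ≥0) : ℝ) (inc Q W 0) v m y = v y := by
          intro m
          induction m with
          | zero => intro y hy; simp only [run, if_pos hy]
          | succ m ih =>
              intro y hy
              have h4 : inc Q W 0 m y = 0 := by simp [inc]
              simp only [run, step, if_pos hy, h4]
              rw [ih y hy]
              simp [absb_time_zero]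
        exact h3 n x hx
      refine Tendsto.congr (fun n => (h1 n).symm) ?_
      have h5 : U ((0 : ℝ≥0) : ℝ) x = v x := by
        rw [NNReal.coe_zero]
        exact hU.init x hx
      rw [h5]
      exact tendsto_const_nhds
    · have h0 : (0 : ℝ) ≤ T := T.coe_nonneg
      have h1 := D_tendsto Q Λ hW hv hT (D_ext Q Λ W h0 hU) hx
      have h2 : ((projIcc (0 : ℝ) T h0 T : Icc (0 : ℝ) T) : ℝ) = T := by
        rw [projIcc_of_mem h0 ⟨h0, le_rfl⟩]
      rw [h2] at h1
      exact h1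
  · have h1 : ∀ n : ℕ, run Q Λ ((T / n : ℝ≥0) : ℝ) (inc Q W (T / n)) v n x = 0 := fun n =>
      run_out Q Λ _ _ v n hx
    simp only [h1]
    rw [hU.zero_out T x hx]
    exact tendsto_const_nhds

end Pool.Agent.H704R2.PAM
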