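import Pool.Agent.H704R2.PAM.Pub

set_option autoImplicit false
open MeasureTheory ProbabilityTheory Filter Topology Set
open scoped ENNReal NNReal

namespace Pool.Agent.H704R2.PAM

/-- the `2d` nearest neighbours of `x` -/
def nb {d : ℕ} (x : Site d) (e : Fin d × Bool) : Site d :=
  if e.2 then x + Pi.single e.1 1 else x - Pi.single e.1 1

/-- sum over the nearest neighbours -/
def nsum {d : ℕ} (v : Site d → ℝ) (x : Site d) : ℝ := ∑ e : Fin d × Bool, v (nb x e)

/-- exact flow of `v' = -v^(p+1)` at time `s` -/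
noncomputable def absb (p : ℕ) (s v : ℝ) : ℝ := v / (1 + p * s * v ^ p) ^ ((1 : ℝ) / p)

/-- parameters; `p = gamma - 1`, `ep` = epsilon, `lam = -1/2` is the Ito reading, `lam = 0` the
Stratonovich reading -/
structure Par where
  d : ℕ
  p : ℕ
  k : ℝ
  ep : ℝ
  lam : ℝ
  hd : 0 < d
  hp : 1 ≤ p
  hk : 0 ≤ k
  hep : 0 < ep

/-- drift of the logarithm after removing the diagonal part of the Laplacian -/
noncomputable def Par.kap (Q : Par) : ℝ := Q.lam - 2 * Q.d * Q.k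

/-- growth bound -/
noncomputable def Par.al (Q : Par) : ℝ := |Q.lam| + 1 / 2

/-- one step of the scheme in the finite volume `Λ` (zero outside) -/
noncomputable def step (Q : Par) (Λ : Finset (Site Q.d)) (h : ℝ) (η v : Site Q.d → ℝ) :
    Site Q.d → ℝ := fun x =>
  if x ∈ Λ then absb Q.p (Q.ep * h) (Real.exp (η x) * (v x + h * Q.k * nsum v x)) else 0

/-- `n` steps of the scheme driven by the array `η` of logarithmic increments -/
noncomputable def run (Q : Par) (Λ : Finset (Site Q.d)) (h : ℝ) (η : ℕ → Site Q.d → ℝ)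
    (v : Site Q.d → ℝ) : ℕ → Site Q.d → ℝ
  | 0 => fun x => if x ∈ Λ then v x else 0
  | n + 1 => step Q Λ h (η n) (run Q Λ h η v n)

/-- the increments with drift `kap` of a noise path on the grid of mesh `h` -/
noncomputable def inc (Q : Par) (W : Site Q.d → ℝ≥0 → ℝ) (h : ℝ≥0) (j : ℕ) (x : Site Q.d) : ℝ :=
  W x ((j + 1) * h) - W x (j * h) + Q.kap * h

/-- the noise path with drift `kap`, as a function of real time -/
noncomputable def bb (Q : Par) (W : Site Q.d → ℝ≥0 → ℝ) (x : Site Q.d) (t : ℝ) : ℝ :=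
  W x t.toNNReal + Q.kap * t

/-- path shifted in time -/
def sh {d : ℕ} (s : ℝ≥0) (W : Site d → ℝ≥0 → ℝ) : Site d → ℝ≥0 → ℝ :=
  fun x t => W x (s + t) - W x s

/-- path shifted in space -/
def shx {d : ℕ} (y : Site d) (W : Site d → ℝ≥0 → ℝ) : Site d → ℝ≥0 → ℝ := fun x t => W (x + y) t

/-- finite volume solution at time `T` started at time 0 from `v`, as an extended real -/
noncomputable def fvE (Q : Par) (Λ : Finset (Site Q.d)) (W : Site Q.d → ℝ≥0 → ℝ)
    (v : Site Q.d → ℝ) (T : ℝ≥0) (x : Site Q.d) : ℝ≥0∞ :=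
  limsup (fun n : ℕ => ENNReal.ofReal (run Q Λ ((T / n : ℝ≥0) : ℝ) (inc Q W (T / n)) v n x)) atTop

/-- finite volume solution -/
noncomputable def fv (Q : Par) (Λ : Finset (Site Q.d)) (W : Site Q.d → ℝ≥0 → ℝ)
    (v : Site Q.d → ℝ) (T : ℝ≥0) (x : Site Q.d) : ℝ := (fvE Q Λ W v T x).toReal

/-- boxes -/
noncomputable def box (d m : ℕ) : Finset (Site d) := Fintype.piFinset fun _ => Finset.Icc (-(m : ℤ)) m

/-- infinite volume solution started from the constant `c` -/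
noncomputable def ivE (Q : Par) (W : Site Q.d → ℝ≥0 → ℝ) (c : ℝ) (T : ℝ≥0) (x : Site Q.d) :
    ℝ≥0∞ := ⨆ m : ℕ, fvE Q (box Q.d m) W (fun _ => c) T x

/-- infinite volume solution started from the constant `c`, real valued -/
noncomputable def uu (Q : Par) (W : Site Q.d → ℝ≥0 → ℝ) (c : ℝ) (T : ℝ≥0) (x : Site Q.d) : ℝ :=
  (ivE Q W c T x).toReal

/-- continuous paths -/
def CP {d : ℕ} (W : Site d → ℝ≥0 → ℝ) : Prop := ∀ x, Continuous (W x)

/-- `U` solves the finite volume system on `[0,T]` driven by the path `W` -/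
structure IsFV (Q : Par) (Λ : Finset (Site Q.d)) (W : Site Q.d → ℝ≥0 → ℝ) (T : ℝ)
    (v : Site Q.d → ℝ) (U : ℝ → Site Q.d → ℝ) : Prop where
  zero_out : ∀ t, ∀ x ∉ Λ, U t x = 0
  nonneg : ∀ t ∈ Icc 0 T, ∀ x, 0 ≤ U t x
  cont : ∀ x ∈ Λ, ContinuousOn (fun t => U t x) (Icc 0 T)
  init : ∀ x ∈ Λ, U 0 x = v x
  eqn : ∀ t ∈ Icc 0 T, ∀ x ∈ Λ, U t x = Real.exp (bb Q W x t - bb Q W x 0) * v x +
    ∫ s in (0 : ℝ)..t, Real.exp (bb Q W x t - bb Q W x s) *
      (Q.k * nsum (U s) x - Q.ep * U s x ^ (Q.p + 1))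

/-- the path at `ω` -/
def pth {Ω : Type*} {d : ℕ} (w : Site d → ℝ≥0 → Ω → ℝ) (ω : Ω) : Site d → ℝ≥0 → ℝ :=
  fun x t => w x t ω

/-- expectation of the finite volume solution started from a constant -/
noncomputable def EL {Ω : Type*} [MeasurableSpace Ω] (P : Measure Ω) (Q : Par)
    (w : Site Q.d → ℝ≥0 → Ω → ℝ) (Λ : Finset (Site Q.d)) (c : ℝ) (T : ℝ≥0) (x : Site Q.d) :
    ℝ≥0∞ := ∫⁻ ω, fvE Q Λ (pth w ω) (fun _ => c) T x ∂P

/-- expectation of the infinite volume solution started from a constant -/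
noncomputable def HH {Ω : Type*} [MeasurableSpace Ω] (P : Measure Ω) (Q : Par)
    (w : Site Q.d → ℝ≥0 → Ω → ℝ) (c : ℝ) (T : ℝ≥0) : ℝ≥0∞ :=
  ⨆ m : ℕ, EL P Q w (box Q.d m) c T 0

/-- two sided concatenation: `cat w 0` is the noise of coordinate `0`; `cat w (N+1)` uses on
`[0,1]` the noise of coordinate `N+1` and then continues with `cat w N` -/
def cat {Ω : Type*} {d : ℕ} (w : Site d → ℝ≥0 → Ω → ℝ) : ℕ → Site d → ℝ≥0 → (ℕ → Ω) → ℝ
  | 0 => fun x t ω => w x t (ω 0)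
  | N + 1 => fun x t ω => w x (min t 1) (ω (N + 1)) + cat w N x (t - 1) ω

/-- the constant in the bound at time 1 -/
noncomputable def C0 (Q : Par) : ℝ := Real.exp Q.al * (Q.p * Q.ep) ^ (-(1 : ℝ) / Q.p)

end Pool.Agent.H704R2.PAM
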