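import Pool.Agent.H704R2.PAM.B

set_option autoImplicit false
open MeasureTheory ProbabilityTheory Filter Topology Set
open scoped ENNReal NNReal

namespace Pool.Agent.H704R2.PAM

/-! Module X: extrapolation in the initial value -/

/-- `c` is at least the extrapolated value of `b` and `a` -/
structure X_Rel (p : ℕ) (m c b a : ℝ) : Prop where
  hc : 0 < c
  hb : 0 < b
  hba : b ≤ a
  rel : (c ^ p)⁻¹ ≤ (1 + m) * (b ^ p)⁻¹ - m * (a ^ p)⁻¹

theorem X_conv (p : ℕ) {x y s t : ℝ} (hx : 0 < x) (hy : 0 < y) (hs : 0 ≤ s) (ht : 0 ≤ t)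
    (hst : s + t = 1) : ((s * x + t * y) ^ p)⁻¹ ≤ s * (x ^ p)⁻¹ + t * (y ^ p)⁻¹ := by
  have h := (convexOn_zpow (𝕜 := ℝ) (-(p : ℤ))).2 (mem_Ioi.2 hx) (mem_Ioi.2 hy) hs ht hst
  simpa [zpow_neg, zpow_natCast, smul_eq_mul] using h

theorem X_rel_final {p : ℕ} (hp : 1 ≤ p) {m c b a : ℝ} (hm : 0 ≤ m) (h : X_Rel p m c b a) :
    (1 + m) * b ≤ c + m * a := by
  by_contra hcon
  push Not at hcon
  have h1m : 0 < 1 + m := by linarith
  have ha : 0 < a := h.hb.trans_le h.hba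
  have h1 := X_conv p (s := 1 / (1 + m)) (t := m / (1 + m)) h.hc ha (by positivity)
    (by positivity) (by field_simp)
  set z := 1 / (1 + m) * c + m / (1 + m) * a with hz
  have hz0 : 0 < z := by
    have := h.hc
    positivity
  have hzb : z < b := by
    rw [hz]
    have : 1 / (1 + m) * c + m / (1 + m) * a = (c + m * a) / (1 + m) := by ring
    rw [this, div_lt_iff₀ h1m]
    linarith
  have h2 : (b ^ p)⁻¹ < (z ^ p)⁻¹ := by
    apply inv_strictAnti₀ (by positivity)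
    exact pow_lt_pow_left₀ hzb hz0.le (by omega)
  have h3 := h.rel
  have h4 : (1 + m) * (b ^ p)⁻¹ < (1 + m) * (z ^ p)⁻¹ := mul_lt_mul_of_pos_left h2 h1m
  have h5 : (1 + m) * (z ^ p)⁻¹ ≤ (c ^ p)⁻¹ + m * (a ^ p)⁻¹ := by
    have := mul_le_mul_of_nonneg_left h1 h1m.le
    refine this.trans (le_of_eq ?_)
    field_simp
  linarith

theorem X_rel_scale {p : ℕ} {m c b a t : ℝ} (ht : 0 < t) (h : X_Rel p m c b a) :
    X_Rel p m (t * c) (t * b) (t * a) := by
  refine ⟨mul_pos ht h.hc, mul_pos ht h.hb, mul_le_mul_of_nonneg_left h.hba ht.le, ?_⟩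
  simp only [mul_pow, mul_inv]
  have h1 := mul_le_mul_of_nonneg_left h.rel (by positivity : 0 ≤ (t ^ p)⁻¹)
  linarith

theorem X_rel_absb {p : ℕ} (hp : 1 ≤ p) {m c b a s : ℝ} (hs : 0 ≤ s) (h : X_Rel p m c b a) :
    X_Rel p m (absb p s c) (absb p s b) (absb p s a) := by
  have ha : 0 < a := h.hb.trans_le h.hba
  refine ⟨absb_pos p hs h.hc, absb_pos p hs h.hb, absb_mono hp hs h.hb.le h.hba, ?_⟩
  rw [absb_inv hp hs h.hc, absb_inv hp hs h.hb, absb_inv hp hs ha]
  linarith [h.rel]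

/-- tangent inequality -/
theorem X_tangent {p : ℕ} (hp : 1 ≤ p) {m c b a b1 a1 S : ℝ} (hm : 0 ≤ m) (h : X_Rel p m c b a)
    (hb1 : 0 < b1) (ha1 : 0 < a1) (hS : 0 < S)
    (hrel : (S ^ p)⁻¹ = (1 + m) * (b1 ^ p)⁻¹ - m * (a1 ^ p)⁻¹) :
    S * (((1 + m) * (b1 ^ p)⁻¹ * S ^ p) * (b / b1) - (m * (a1 ^ p)⁻¹ * S ^ p) * (a / a1)) ≤ c := by
  have ha : 0 < a := h.hb.trans_le h.hba
  have hb := h.hb
  have hc := h.hc
  set l := (1 + m) * (b1 ^ p)⁻¹ * S ^ p with hl
  set μ := m * (a1 ^ p)⁻¹ * S ^ p with hμ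
  have hSp : 0 < S ^ p := by positivity
  have hlμ : l - μ = 1 := by
    have : l - μ = ((1 + m) * (b1 ^ p)⁻¹ - m * (a1 ^ p)⁻¹) * S ^ p := by rw [hl, hμ]; ring
    rw [this, ← hrel, inv_mul_cancel₀ hSp.ne']
  have hμ0 : 0 ≤ μ := by positivity
  have hl0 : 0 < l := by linarith
  set q := l * (b / b1) - μ * (a / a1) with hq
  rcases le_or_gt q 0 with hq0 | hq0
  · have : S * q ≤ 0 := mul_nonpos_of_nonneg_of_nonpos hS.le hq0
    linarith
  · have h1 := X_conv p (s := 1 / l) (t := μ / l) hq0 (div_pos ha ha1) (by positivity)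
      (by positivity) (by rw [← add_div, div_eq_one_iff_eq hl0.ne']; linarith)
    have e1 : 1 / l * q + μ / l * (a / a1) = b / b1 := by
      rw [hq]
      field_simp
      ring
    rw [e1] at h1
    have h2 := mul_le_mul_of_nonneg_left h1 hl0.le
    have e2 : l * (1 / l * (q ^ p)⁻¹ + μ / l * ((a / a1) ^ p)⁻¹) =
        (q ^ p)⁻¹ + μ * ((a / a1) ^ p)⁻¹ := by
      field_simp
    rw [e2] at h2
    have e3 : l * ((b / b1) ^ p)⁻¹ - μ * ((a / a1) ^ p)⁻¹ =
        S ^ p * ((1 + m) * (b ^ p)⁻¹ - m * (a ^ p)⁻¹) := by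
      rw [hl, hμ, div_pow, div_pow]
      field_simp
    have h3 : S ^ p * (c ^ p)⁻¹ ≤ (q ^ p)⁻¹ := by
      have := mul_le_mul_of_nonneg_left h.rel hSp.le
      linarith
    have h4 : (S * q) ^ p ≤ c ^ p := by
      rw [mul_pow]
      have hqp : 0 < q ^ p := by positivity
      have hcp : 0 < c ^ p := by positivity
      have h5 := mul_le_mul_of_nonneg_right h3 (by positivity : 0 ≤ q ^ p * c ^ p)
      have e4 : S ^ p * (c ^ p)⁻¹ * (q ^ p * c ^ p) = S ^ p * q ^ p := by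
        field_simp
      have e5 : (q ^ p)⁻¹ * (q ^ p * c ^ p) = c ^ p := by
        field_simp
      rwa [e4, e5] at h5
    exact le_of_pow_le_pow_left₀ (by omega) hc.le h4

theorem X_rel_add {p : ℕ} (hp : 1 ≤ p) {m c b a c' b' a' : ℝ} (hm : 0 ≤ m) (h : X_Rel p m c b a)
    (h' : X_Rel p m c' b' a') : X_Rel p m (c + c') (b + b') (a + a') := by
  have ha : 0 < a := h.hb.trans_le h.hba
  have ha' : 0 < a' := h'.hb.trans_le h'.hba
  have hb := h.hb
  have hb' := h'.hb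
  have hc := h.hc
  have hc' := h'.hc
  have hba : b + b' ≤ a + a' := add_le_add h.hba h'.hba
  refine ⟨by positivity, by positivity, hba, ?_⟩
  set b1 := b + b' with hb1
  set a1 := a + a' with ha1
  have hb1p : 0 < b1 := by positivity
  have ha1p : 0 < a1 := by positivity
  set y := (1 + m) * (b1 ^ p)⁻¹ - m * (a1 ^ p)⁻¹ with hy
  have hy0 : 0 < y := by
    have h1 : (a1 ^ p)⁻¹ ≤ (b1 ^ p)⁻¹ := by
      apply inv_anti₀ (by positivity)
      exact pow_le_pow_left₀ hb1p.le hba p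
    have h2 : 0 < (b1 ^ p)⁻¹ := by positivity
    have h3 := mul_le_mul_of_nonneg_left h1 hm
    linarith
  set S : ℝ := (y⁻¹) ^ ((p : ℝ)⁻¹) with hS
  have hS0 : 0 < S := Real.rpow_pos_of_pos (inv_pos.2 hy0) _
  have hSp : (S ^ p)⁻¹ = y := by
    rw [hS, Real.rpow_inv_natCast_pow (inv_pos.2 hy0).le (by omega), inv_inv]
  have t1 := X_tangent hp hm h hb1p ha1p hS0 hSp
  have t2 := X_tangent hp hm h' hb1p ha1p hS0 hSp
  have hsum : S ≤ c + c' := by
    have hSp' : 0 < S ^ p := by positivity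
    have e1 : S * (((1 + m) * (b1 ^ p)⁻¹ * S ^ p) * (b / b1) - (m * (a1 ^ p)⁻¹ * S ^ p) * (a / a1)) +
        S * (((1 + m) * (b1 ^ p)⁻¹ * S ^ p) * (b' / b1) - (m * (a1 ^ p)⁻¹ * S ^ p) * (a' / a1)) =
        S * (((1 + m) * (b1 ^ p)⁻¹ - m * (a1 ^ p)⁻¹) * S ^ p) := by
      have f1 : b / b1 + b' / b1 = 1 := by rw [← add_div, ← hb1, div_self hb1p.ne']
      have f2 : a / a1 + a' / a1 = 1 := by rw [← add_div, ← ha1, div_self ha1p.ne']
      linear_combination (S * ((1 + m) * (b1 ^ p)⁻¹ * S ^ p)) * f1 -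
        (S * (m * (a1 ^ p)⁻¹ * S ^ p)) * f2
    have e2 : S * (((1 + m) * (b1 ^ p)⁻¹ - m * (a1 ^ p)⁻¹) * S ^ p) = S := by
      rw [← hy, ← hSp, inv_mul_cancel₀ hSp'.ne', mul_one]
    rw [e2] at e1
    linarith
  rw [← hSp]
  apply inv_anti₀ (by positivity)
  exact pow_le_pow_left₀ hS0.le hsum p

theorem run_extrap (Q : Par) (Λ : Finset (Site Q.d)) {h : ℝ} (hh : 0 ≤ h)
    (η : ℕ → Site Q.d → ℝ) {c C C' m : ℝ} (hc : 0 < c) (hcC : c ≤ C) (hCC : C ≤ C') (hm : 0 ≤ m)
    (hrel : (c ^ Q.p)⁻¹ ≤ (1 + m) * (C ^ Q.p)⁻¹ - m * (C' ^ Q.p)⁻¹) (n : ℕ) (x : Site Q.d) :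
    (1 + m) * run Q Λ h η (fun _ => C) n x ≤
      run Q Λ h η (fun _ => c) n x + m * run Q Λ h η (fun _ => C') n x := by
  have hC : 0 < C := hc.trans_le hcC
  have key : ∀ n, ∀ x ∈ Λ, X_Rel Q.p m (run Q Λ h η (fun _ => c) n x)
      (run Q Λ h η (fun _ => C) n x) (run Q Λ h η (fun _ => C') n x) := by
    intro n
    induction n with
    | zero =>
      intro x hx
      simp only [run, if_pos hx]
      exact ⟨hc, hC, hCC, hrel⟩
    | succ n ih =>
      intro x hx
      simp only [run, step, if_pos hx]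
      apply X_rel_absb Q.hp (mul_nonneg Q.hep.le hh)
      apply X_rel_scale (Real.exp_pos _)
      have hθ : 0 ≤ h * Q.k := mul_nonneg hh Q.hk
      have hind : ∀ s : Finset (Fin Q.d × Bool), X_Rel Q.p m
          (run Q Λ h η (fun _ => c) n x + h * Q.k * ∑ e ∈ s, run Q Λ h η (fun _ => c) n (nb x e))
          (run Q Λ h η (fun _ => C) n x + h * Q.k * ∑ e ∈ s, run Q Λ h η (fun _ => C) n (nb x e))
          (run Q Λ h η (fun _ => C') n x +
            h * Q.k * ∑ e ∈ s, run Q Λ h η (fun _ => C') n (nb x e)) := by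
        intro s
        induction s using Finset.induction_on with
        | empty =>
          simp only [Finset.sum_empty, mul_zero, add_zero]
          exact ih x hx
        | insert e s he ihs =>
          rw [Finset.sum_insert he, Finset.sum_insert he, Finset.sum_insert he]
          by_cases hnb : nb x e ∈ Λ
          · rcases hθ.eq_or_lt with h0 | h0
            · rw [← h0] at ihs ⊢
              simpa using ihs
            · have h1 := X_rel_add Q.hp hm ihs (X_rel_scale h0 (ih _ hnb))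
              have f : ∀ u v w : ℝ, u + h * Q.k * (v + w) = u + h * Q.k * w + h * Q.k * v := by
                intro u v w
                ring
              rw [f, f, f]
              exact h1
          · rw [run_out Q Λ h η _ n hnb, run_out Q Λ h η _ n hnb, run_out Q Λ h η _ n hnb]
            simpa using ihs
      exact hind Finset.univ
  by_cases hx : x ∈ Λ
  · exact X_rel_final Q.hp hm (key n x hx)
  · rw [run_out Q Λ h η _ n hx, run_out Q Λ h η _ n hx, run_out Q Λ h η _ n hx]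
    simp

end Pool.Agent.H704R2.PAM
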