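import Pool.Agent.H704R2.PAM.C
import Pool.Agent.H704R2.PAM.D
import Pool.Agent.H704R2.PAM.X

set_option autoImplicit false
open MeasureTheory ProbabilityTheory Filter Topology Set
open scoped ENNReal NNReal

namespace Pool.Agent.H704R2.PAM

/-! Module E: properties of the finite volume solution `fv` (from C, D, B, X) -/

theorem E_restrict {Q : Par} {Λ : Finset (Site Q.d)} {W : Site Q.d → ℝ≥0 → ℝ} {T : ℝ}
    {v : Site Q.d → ℝ} {U : ℝ → Site Q.d → ℝ} (hU : IsFV Q Λ W T v U) {t : ℝ} (ht : t ≤ T) :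
    IsFV Q Λ W t v U where
  zero_out := hU.zero_out
  nonneg := fun s hs => hU.nonneg s ⟨hs.1, hs.2.trans ht⟩
  cont := fun x hx => (hU.cont x hx).mono (Icc_subset_Icc_right ht)
  init := hU.init
  eqn := fun s hs => hU.eqn s ⟨hs.1, hs.2.trans ht⟩

theorem E_core {Q : Par} {Λ : Finset (Site Q.d)} {W : Site Q.d → ℝ≥0 → ℝ} (hW : CP W)
    {v : Site Q.d → ℝ} (hv : ∀ x, 0 ≤ v x) {T : ℝ≥0} {U : ℝ → Site Q.d → ℝ}
    (hU : IsFV Q Λ W T v U) (x : Site Q.d) :
    fvE Q Λ W v T x = ENNReal.ofReal (U T x) ∧ fv Q Λ W v T x = U T x := by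
  have h1 := run_tendsto Q Λ hW hv hU x
  have h0 : 0 ≤ U T x := hU.nonneg T ⟨T.2, le_rfl⟩ x
  have h2 : fvE Q Λ W v T x = ENNReal.ofReal (U T x) := by
    unfold fvE
    exact (ENNReal.tendsto_ofReal h1).limsup_eq
  refine ⟨h2, ?_⟩
  unfold fv
  rw [h2, ENNReal.toReal_ofReal h0]

variable (Q : Par)

theorem fv_tendsto (Λ : Finset (Site Q.d)) {W : Site Q.d → ℝ≥0 → ℝ} (hW : CP W)
    {v : Site Q.d → ℝ} (hv : ∀ x, 0 ≤ v x) (T : ℝ≥0) (x : Site Q.d) :
    Tendsto (fun n : ℕ => run Q Λ ((T / n : ℝ≥0) : ℝ) (inc Q W (T / n)) v n x) atTop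
      (𝓝 (fv Q Λ W v T x)) := by
  obtain ⟨U, hU⟩ := exists_fv Q Λ hW hv T.2
  rw [(E_core hW hv hU x).2]
  exact run_tendsto Q Λ hW hv hU x

theorem fvE_eq (Λ : Finset (Site Q.d)) {W : Site Q.d → ℝ≥0 → ℝ} (hW : CP W)
    {v : Site Q.d → ℝ} (hv : ∀ x, 0 ≤ v x) (T : ℝ≥0) (x : Site Q.d) :
    fvE Q Λ W v T x = ENNReal.ofReal (fv Q Λ W v T x) := by
  obtain ⟨U, hU⟩ := exists_fv Q Λ hW hv T.2
  rw [(E_core hW hv hU x).1, (E_core hW hv hU x).2]

/-- every finite volume solution is `fv` -/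
theorem isFV_unique (Λ : Finset (Site Q.d)) {W : Site Q.d → ℝ≥0 → ℝ} (hW : CP W)
    {v : Site Q.d → ℝ} (hv : ∀ x, 0 ≤ v x) {T : ℝ} {U : ℝ → Site Q.d → ℝ}
    (hU : IsFV Q Λ W T v U) {t : ℝ} (ht : t ∈ Icc 0 T) (x : Site Q.d) :
    U t x = fv Q Λ W v t.toNNReal x := by
  have hc : ((t.toNNReal : ℝ≥0) : ℝ) = t := Real.coe_toNNReal t ht.1
  have h1 : IsFV Q Λ W (t.toNNReal : ℝ≥0) v U := by
    rw [hc]
    exact E_restrict hU ht.2
  rw [(E_core hW hv h1 x).2, hc]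

theorem fv_nonneg (Λ : Finset (Site Q.d)) (W : Site Q.d → ℝ≥0 → ℝ)
    (v : Site Q.d → ℝ) (T : ℝ≥0) (x : Site Q.d) : 0 ≤ fv Q Λ W v T x :=
  ENNReal.toReal_nonneg

theorem fv_out (Λ : Finset (Site Q.d)) (W : Site Q.d → ℝ≥0 → ℝ)
    (v : Site Q.d → ℝ) (T : ℝ≥0) {x : Site Q.d} (hx : x ∉ Λ) : fv Q Λ W v T x = 0 := by
  unfold fv fvE
  have h : (fun n : ℕ => ENNReal.ofReal
      (run Q Λ ((T / n : ℝ≥0) : ℝ) (inc Q W (T / n)) v n x)) = fun _ => 0 := by
    funext n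
    rw [run_out Q Λ _ _ _ _ hx, ENNReal.ofReal_zero]
  rw [h]
  simp

/-- `fv` is a finite volume solution -/
theorem fv_isFV (Λ : Finset (Site Q.d)) {W : Site Q.d → ℝ≥0 → ℝ} (hW : CP W)
    {v : Site Q.d → ℝ} (hv : ∀ x, 0 ≤ v x) {T : ℝ} (hT : 0 ≤ T) :
    IsFV Q Λ W T v (fun t x => fv Q Λ W v t.toNNReal x) := by
  obtain ⟨U, hU⟩ := exists_fv Q Λ hW hv hT
  have key : ∀ t ∈ Icc 0 T, ∀ x, U t x = fv Q Λ W v t.toNNReal x :=
    fun t ht x => isFV_unique Q Λ hW hv hU ht x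
  refine ⟨?_, ?_, ?_, ?_, ?_⟩
  · intro t x hx
    exact fv_out Q Λ W v _ hx
  · intro t _ x
    exact fv_nonneg Q Λ W v _ x
  · intro x hx
    exact (hU.cont x hx).congr (fun t ht => (key t ht x).symm)
  · intro x hx
    show fv Q Λ W v (0 : ℝ).toNNReal x = v x
    rw [← key 0 ⟨le_rfl, hT⟩ x]
    exact hU.init x hx
  · intro t ht x hx
    show fv Q Λ W v t.toNNReal x = _
    rw [← key t ht x, hU.eqn t ht x hx]
    congr 1
    apply intervalIntegral.integral_congr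
    intro s hs
    rw [uIcc_of_le ht.1] at hs
    have hs' : s ∈ Icc 0 T := ⟨hs.1, hs.2.trans ht.2⟩
    have h1 : nsum (U s) x = nsum (fun y => fv Q Λ W v s.toNNReal y) x := by
      unfold nsum
      exact Finset.sum_congr rfl (fun e _ => key s hs' _)
    simp only
    rw [h1, key s hs' x]

theorem fvE_mono (Λ : Finset (Site Q.d)) (W : Site Q.d → ℝ≥0 → ℝ)
    {v v' : Site Q.d → ℝ} (hv : ∀ x ∈ Λ, 0 ≤ v x) (hvv : ∀ x ∈ Λ, v x ≤ v' x) (T : ℝ≥0)
    (x : Site Q.d) : fvE Q Λ W v T x ≤ fvE Q Λ W v' T x := by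
  unfold fvE
  exact limsup_le_limsup (Eventually.of_forall fun n =>
    ENNReal.ofReal_le_ofReal (run_mono Q Λ (NNReal.coe_nonneg _) _ hv hvv n x))

theorem fvE_mono_set {Λ Λ' : Finset (Site Q.d)} (hΛ : Λ ⊆ Λ') (W : Site Q.d → ℝ≥0 → ℝ)
    {v : Site Q.d → ℝ} (hv : ∀ x ∈ Λ', 0 ≤ v x) (T : ℝ≥0) (x : Site Q.d) :
    fvE Q Λ W v T x ≤ fvE Q Λ' W v T x := by
  unfold fvE
  exact limsup_le_limsup (Eventually.of_forall fun n =>
    ENNReal.ofReal_le_ofReal (run_mono_set Q hΛ (NNReal.coe_nonneg _) _ hv n x))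

theorem fv_mono (Λ : Finset (Site Q.d)) {W : Site Q.d → ℝ≥0 → ℝ} (hW : CP W)
    {v v' : Site Q.d → ℝ} (hv : ∀ x, 0 ≤ v x) (hv' : ∀ x, 0 ≤ v' x)
    (hvv : ∀ x ∈ Λ, v x ≤ v' x) (T : ℝ≥0) (x : Site Q.d) :
    fv Q Λ W v T x ≤ fv Q Λ W v' T x :=
  le_of_tendsto_of_tendsto' (fv_tendsto Q Λ hW hv T x) (fv_tendsto Q Λ hW hv' T x)
    (fun n => run_mono Q Λ (NNReal.coe_nonneg _) _ (fun y _ => hv y) hvv n x)

/-- `fvE` depends on the increments of `W` on `Λ` and on `v` on `Λ` only -/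
theorem fvE_congr (Λ : Finset (Site Q.d)) {W W' : Site Q.d → ℝ≥0 → ℝ}
    {v v' : Site Q.d → ℝ} (T : ℝ≥0)
    (hWW : ∀ x ∈ Λ, ∀ s t, s ≤ T → t ≤ T → W x t - W x s = W' x t - W' x s)
    (hv : ∀ x ∈ Λ, v x = v' x) (x : Site Q.d) :
    fvE Q Λ W v T x = fvE Q Λ W' v' T x := by
  unfold fvE
  congr 1
  funext n
  congr 1
  have hle : ∀ j : ℕ, j ≤ n → ((j : ℕ) : ℝ≥0) * (T / n) ≤ T := by
    intro j hj
    rcases Nat.eq_zero_or_pos n with h0 | h0
    · subst h0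
      have : j = 0 := by omega
      subst this
      simp
    · have hn : ((n : ℕ) : ℝ≥0) ≠ 0 := by
        exact_mod_cast h0.ne'
      calc ((j : ℕ) : ℝ≥0) * (T / n) ≤ ((n : ℕ) : ℝ≥0) * (T / n) := by
            gcongr
        _ = T := mul_div_cancel₀ T hn
  have h : run Q Λ ((T / n : ℝ≥0) : ℝ) (inc Q W (T / n)) v n =
      run Q Λ ((T / n : ℝ≥0) : ℝ) (inc Q W' (T / n)) v' n := by
    apply run_congr
    · intro j hj y hy
      unfold inc
      have h1 : (((j : ℕ) : ℝ≥0) + 1) * (T / n) ≤ T := by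
        have := hle (j + 1) hj
        push_cast at this
        exact this
      rw [hWW y hy _ _ (hle j hj.le) h1]
    · exact hv
  rw [h]

theorem fvE_shift (Λ : Finset (Site Q.d)) (W : Site Q.d → ℝ≥0 → ℝ) (v : Site Q.d → ℝ)
    (T : ℝ≥0) (x y : Site Q.d) :
    fvE Q (Λ.image (· + y)) W v T (x + y) = fvE Q Λ (shx y W) (fun z => v (z + y)) T x := by
  unfold fvE
  congr 1
  funext n
  congr 1
  rw [run_shift]
  rfl

theorem E_contF {Λ : Finset (Site Q.d)} {W : Site Q.d → ℝ≥0 → ℝ} {T : ℝ}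
    {v : Site Q.d → ℝ} {U : ℝ → Site Q.d → ℝ} (hU : IsFV Q Λ W T v U) (x : Site Q.d) :
    ContinuousOn (fun s => U s x) (Icc 0 T) := by
  by_cases hx : x ∈ Λ
  · exact hU.cont x hx
  · have h : (fun s => U s x) = fun _ => 0 := by
      funext s
      exact hU.zero_out s x hx
    rw [h]
    exact continuousOn_const

theorem E_bb {W : Site Q.d → ℝ≥0 → ℝ} (hW : CP W) (x : Site Q.d) :
    Continuous (bb Q W x) := by
  unfold bb
  exact ((hW x).comp continuous_real_toNNReal).add (continuous_const.mul continuous_id)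

theorem E_bb_sh (W : Site Q.d → ℝ≥0 → ℝ) (S : ℝ≥0) (x : Site Q.d) {t : ℝ} (ht : 0 ≤ t) :
    bb Q (sh S W) x t = bb Q W x (S + t) - bb Q W x S := by
  unfold bb sh
  rw [Real.toNNReal_add (NNReal.coe_nonneg S) ht, Real.toNNReal_coe]
  ring

theorem fv_cocycle (Λ : Finset (Site Q.d)) {W : Site Q.d → ℝ≥0 → ℝ} (hW : CP W)
    {v : Site Q.d → ℝ} (hv : ∀ x, 0 ≤ v x) (S T : ℝ≥0) (x : Site Q.d) :
    fv Q Λ W v (S + T) x = fv Q Λ (sh S W) (fun y => fv Q Λ W v S y) T x := by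
  have hST : (0 : ℝ) ≤ S + T := add_nonneg S.2 T.2
  have hS0 : (0 : ℝ) ≤ S := S.2
  have hU := fv_isFV Q Λ hW hv hST
  have hW' : CP (sh S W) := by
    intro y
    unfold sh
    exact ((hW y).comp (continuous_const.add continuous_id)).sub continuous_const
  have hV : IsFV Q Λ (sh S W) T (fun y => fv Q Λ W v S y)
      (fun t y => fv Q Λ W v ((S : ℝ) + t).toNNReal y) := by
    refine ⟨?_, ?_, ?_, ?_, ?_⟩
    · intro t y hy
      exact fv_out Q Λ W v _ hy
    · intro t _ y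
      exact fv_nonneg Q Λ W v _ y
    · intro y hy
      refine (hU.cont y hy).comp (f := fun t : ℝ => (S : ℝ) + t)
        (continuous_const.add continuous_id).continuousOn ?_
      intro t ht
      exact ⟨add_nonneg hS0 ht.1, by have := ht.2; simp only; linarith⟩
    · intro y _
      simp only [add_zero, Real.toNNReal_coe]
    · intro t ht y hy
      have htS : (S : ℝ) + t ∈ Icc (0 : ℝ) (S + T) :=
        ⟨add_nonneg hS0 ht.1, by have := ht.2; linarith⟩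
      have hSS : (S : ℝ) ∈ Icc (0 : ℝ) (S + T) := ⟨hS0, by have := T.2; linarith [NNReal.coe_nonneg T]⟩
      have e1 := hU.eqn ((S : ℝ) + t) htS y hy
      have e2 := hU.eqn (S : ℝ) hSS y hy
      simp only [Real.toNNReal_coe] at e1 e2
      set b := bb Q W y with hb
      set F : ℝ → ℝ := fun s => Q.k * nsum (fun z => fv Q Λ W v s.toNNReal z) y -
        Q.ep * fv Q Λ W v s.toNNReal y ^ (Q.p + 1) with hF
      have hbc : Continuous b := E_bb Q hW y
      have hFc : ContinuousOn F (Icc 0 ((S : ℝ) + T)) := by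
        have hn : ContinuousOn (fun s : ℝ => nsum (fun z => fv Q Λ W v s.toNNReal z) y)
            (Icc 0 ((S : ℝ) + T)) := by
          unfold nsum
          exact continuousOn_finsetSum _ (fun e _ => E_contF Q hU _)
        exact (continuousOn_const.mul hn).sub
          (continuousOn_const.mul ((E_contF Q hU y).pow _))
      have hint : ∀ a c r : ℝ, 0 ≤ a → a ≤ c → c ≤ S + T →
          IntervalIntegrable (fun s => Real.exp (b r - b s) * F s) volume a c := by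
        intro a c r ha hac hc
        apply ContinuousOn.intervalIntegrable
        rw [uIcc_of_le hac]
        refine ContinuousOn.mul ?_ (hFc.mono (Icc_subset_Icc ha hc))
        exact (Real.continuous_exp.comp (continuous_const.sub hbc)).continuousOn
      have e1' : fv Q Λ W v ((S : ℝ) + t).toNNReal y =
          Real.exp (b (S + t) - b 0) * v y +
            ∫ s in (0 : ℝ)..((S : ℝ) + t), Real.exp (b (S + t) - b s) * F s := e1
      have e2' : fv Q Λ W v S y = Real.exp (b S - b 0) * v y +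
            ∫ s in (0 : ℝ)..(S : ℝ), Real.exp (b S - b s) * F s := e2
      rw [e1', e2']
      rw [← intervalIntegral.integral_add_adjacent_intervals
        (hint 0 S (S + t) le_rfl hS0 hSS.2) (hint S (S + t) (S + t) hS0 (by linarith [ht.1]) htS.2)]
      have h3 : ∫ s in (0 : ℝ)..(S : ℝ), Real.exp (b (S + t) - b s) * F s =
          Real.exp (b (S + t) - b S) * ∫ s in (0 : ℝ)..(S : ℝ), Real.exp (b S - b s) * F s := by
        rw [← intervalIntegral.integral_const_mul]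
        apply intervalIntegral.integral_congr
        intro s _
        simp only
        rw [← mul_assoc, ← Real.exp_add]
        congr 2
        ring
      have h4 : ∫ s in (S : ℝ)..((S : ℝ) + t), Real.exp (b (S + t) - b s) * F s =
          ∫ s in (0 : ℝ)..t, Real.exp (b (S + t) - b (S + s)) * F (S + s) := by
        have := intervalIntegral.integral_comp_add_left (a := (0 : ℝ)) (b := t)
          (fun s => Real.exp (b (S + t) - b s) * F s) (S : ℝ)
        rw [add_zero] at this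
        exact this.symm
      have h5 : ∫ s in (0 : ℝ)..t, Real.exp (b (S + t) - b (S + s)) * F (S + s) =
          ∫ s in (0 : ℝ)..t, Real.exp (bb Q (sh S W) y t - bb Q (sh S W) y s) *
            (Q.k * nsum (fun z => fv Q Λ W v ((S : ℝ) + s).toNNReal z) y -
              Q.ep * fv Q Λ W v ((S : ℝ) + s).toNNReal y ^ (Q.p + 1)) := by
        apply intervalIntegral.integral_congr
        intro s hs
        rw [uIcc_of_le ht.1] at hs
        simp only
        rw [E_bb_sh Q W S y ht.1, E_bb_sh Q W S y hs.1]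
        have : b (S + t) - b S - (b (S + s) - b S) = b (S + t) - b (S + s) := by ring
        rw [← hb, this]
      rw [h3, h4, h5, E_bb_sh Q W S y ht.1, E_bb_sh Q W S y le_rfl, ← hb]
      have h6 : Real.exp (b (S + t) - b 0) = Real.exp (b (S + t) - b S) * Real.exp (b S - b 0) := by
        rw [← Real.exp_add]
        congr 1
        ring
      have h7 : b (↑S + t) - b ↑S - (b (↑S + 0) - b ↑S) = b (↑S + t) - b ↑S := by
        rw [add_zero]; ring
      rw [h6, h7]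
      ring
  have := (E_core hW' (fun y => fv_nonneg Q Λ W v S y) hV x).2
  rw [this]
  congr 1
  rw [← NNReal.coe_add, Real.toNNReal_coe]

theorem fv_continuous (Λ : Finset (Site Q.d)) {W : Site Q.d → ℝ≥0 → ℝ} (hW : CP W)
    {v : Site Q.d → ℝ} (hv : ∀ x, 0 ≤ v x) (x : Site Q.d) :
    Continuous fun T : ℝ≥0 => fv Q Λ W v T x := by
  rw [continuous_iff_continuousAt]
  intro T
  have hT : (0 : ℝ) ≤ T + 1 := add_nonneg T.2 zero_le_one
  have hU := fv_isFV Q Λ hW hv hT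
  have hc := E_contF Q hU x (T : ℝ) ⟨T.2, by linarith⟩
  have hmap : Tendsto (fun s : ℝ≥0 => (s : ℝ)) (𝓝 T) (𝓝[Icc (0 : ℝ) (T + 1)] (T : ℝ)) := by
    refine tendsto_nhdsWithin_iff.2 ⟨(NNReal.continuous_coe.tendsto T), ?_⟩
    have : ∀ᶠ s : ℝ≥0 in 𝓝 T, s < T + 1 := by
      apply Iio_mem_nhds
      exact lt_add_one T
    filter_upwards [this] with s hs
    exact ⟨s.2, by exact_mod_cast hs.le⟩
  have h := hc.tendsto.comp hmap
  simp only [Real.toNNReal_coe] at h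
  refine (h.congr ?_)
  intro s
  simp only [Function.comp, Real.toNNReal_coe]

theorem fv_extrap (Λ : Finset (Site Q.d)) {W : Site Q.d → ℝ≥0 → ℝ} (hW : CP W)
    {c C C' m : ℝ} (hc : 0 < c) (hcC : c ≤ C) (hCC : C ≤ C') (hm : 0 ≤ m)
    (hrel : (c ^ Q.p)⁻¹ ≤ (1 + m) * (C ^ Q.p)⁻¹ - m * (C' ^ Q.p)⁻¹) (T : ℝ≥0) (x : Site Q.d) :
    (1 + m) * fv Q Λ W (fun _ => C) T x ≤
      fv Q Λ W (fun _ => c) T x + m * fv Q Λ W (fun _ => C') T x := by
  have h1 := fv_tendsto Q Λ hW (v := fun _ => c) (fun _ => hc.le) T x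
  have h2 := fv_tendsto Q Λ hW (v := fun _ => C) (fun _ => hc.le.trans hcC) T x
  have h3 := fv_tendsto Q Λ hW (v := fun _ => C') (fun _ => (hc.le.trans hcC).trans hCC) T x
  exact le_of_tendsto_of_tendsto' (h2.const_mul (1 + m)) (h1.add (h3.const_mul m))
    (fun n => run_extrap Q Λ (NNReal.coe_nonneg _) _ hc hcC hCC hm hrel n x)

theorem measurable_fvE (Λ : Finset (Site Q.d)) (T : ℝ≥0) (x : Site Q.d) :
    Measurable fun q : (Site Q.d → ℝ≥0 → ℝ) × (Site Q.d → ℝ) => fvE Q Λ q.1 q.2 T x := by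
  unfold fvE
  refine Measurable.limsup (fun n => ?_)
  refine ENNReal.measurable_ofReal.comp ?_
  have h1 : Measurable fun q : (Site Q.d → ℝ≥0 → ℝ) × (Site Q.d → ℝ) =>
      ((inc Q q.1 (T / n), q.2) : (ℕ → Site Q.d → ℝ) × (Site Q.d → ℝ)) := by
    refine Measurable.prodMk ?_ measurable_snd
    refine measurable_pi_iff.2 (fun j => measurable_pi_iff.2 (fun y => ?_))
    unfold inc
    have h2 : ∀ t : ℝ≥0, Measurable fun q : (Site Q.d → ℝ≥0 → ℝ) × (Site Q.d → ℝ) => q.1 y t :=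
      fun t => (measurable_pi_apply t).comp ((measurable_pi_apply y).comp measurable_fst)
    exact ((h2 _).sub (h2 _)).add measurable_const
  exact (measurable_run Q Λ ((T / n : ℝ≥0) : ℝ) n x).comp h1

/-- Jensen for a fixed path -/
theorem fvE_jensen (Λ : Finset (Site Q.d)) {W : Site Q.d → ℝ≥0 → ℝ} (hW : CP W)
    {Y : Type*} [MeasurableSpace Y] (μ : Measure Y) [IsProbabilityMeasure μ]
    (v : Y → Site Q.d → ℝ) (hv0 : ∀ y, ∀ x, 0 ≤ v y x) (hvm : ∀ x, Measurable fun y => v y x)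
    (hvi : ∀ x, Integrable (fun y => v y x) μ) (T : ℝ≥0) (x : Site Q.d) :
    ∫⁻ y, fvE Q Λ W (v y) T x ∂μ ≤ fvE Q Λ W (fun z => ∫ y, v y z ∂μ) T x := by
  have hlim : ∀ y, fvE Q Λ W (v y) T x = liminf (fun n : ℕ => ENNReal.ofReal
      (run Q Λ ((T / n : ℝ≥0) : ℝ) (inc Q W (T / n)) (v y) n x)) atTop := by
    intro y
    have h := ENNReal.tendsto_ofReal (fv_tendsto Q Λ hW (hv0 y) T x)
    rw [h.liminf_eq, fvE_eq Q Λ hW (hv0 y) T x]
  have hmeas : ∀ n : ℕ, Measurable (fun y => ENNReal.ofReal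
      (run Q Λ ((T / n : ℝ≥0) : ℝ) (inc Q W (T / n)) (v y) n x)) := by
    intro n
    refine ENNReal.measurable_ofReal.comp ?_
    have h1 : Measurable fun y : Y =>
        ((inc Q W (T / n), v y) : (ℕ → Site Q.d → ℝ) × (Site Q.d → ℝ)) :=
      measurable_const.prodMk (measurable_pi_iff.2 hvm)
    exact (measurable_run Q Λ ((T / n : ℝ≥0) : ℝ) n x).comp h1
  have hn : ∀ n : ℕ, ∫⁻ y, ENNReal.ofReal
      (run Q Λ ((T / n : ℝ≥0) : ℝ) (inc Q W (T / n)) (v y) n x) ∂μ ≤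
      ENNReal.ofReal (run Q Λ ((T / n : ℝ≥0) : ℝ) (inc Q W (T / n))
        (fun z => ∫ y, v y z ∂μ) n x) := by
    intro n
    obtain ⟨hi, hle⟩ := run_jensen Q Λ (NNReal.coe_nonneg (T / n)) (inc Q W (T / n)) μ v hv0 hvi n x
    rw [← ofReal_integral_eq_lintegral_ofReal hi
      (Eventually.of_forall fun y => run_nonneg Q Λ (NNReal.coe_nonneg _) _ (fun z _ => hv0 y z) n x)]
    exact ENNReal.ofReal_le_ofReal hle
  have hv' : ∀ z, 0 ≤ ∫ y, v y z ∂μ := fun z => integral_nonneg (fun y => hv0 y z)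
  have hR : fvE Q Λ W (fun z => ∫ y, v y z ∂μ) T x = liminf (fun n : ℕ => ENNReal.ofReal
      (run Q Λ ((T / n : ℝ≥0) : ℝ) (inc Q W (T / n)) (fun z => ∫ y, v y z ∂μ) n x)) atTop := by
    have h := ENNReal.tendsto_ofReal (fv_tendsto Q Λ hW hv' T x)
    rw [h.liminf_eq, fvE_eq Q Λ hW hv' T x]
  calc ∫⁻ y, fvE Q Λ W (v y) T x ∂μ
      = ∫⁻ y, liminf (fun n : ℕ => ENNReal.ofReal
        (run Q Λ ((T / n : ℝ≥0) : ℝ) (inc Q W (T / n)) (v y) n x)) atTop ∂μ :=
        lintegral_congr hlim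
    _ ≤ liminf (fun n : ℕ => ∫⁻ y, ENNReal.ofReal
        (run Q Λ ((T / n : ℝ≥0) : ℝ) (inc Q W (T / n)) (v y) n x) ∂μ) atTop :=
        lintegral_liminf_le hmeas
    _ ≤ liminf (fun n : ℕ => ENNReal.ofReal
      (run Q Λ ((T / n : ℝ≥0) : ℝ) (inc Q W (T / n)) (fun z => ∫ y, v y z ∂μ) n x)) atTop :=
        liminf_le_liminf (Eventually.of_forall hn)
    _ = fvE Q Λ W (fun z => ∫ y, v y z ∂μ) T x := hR.symm

end Pool.Agent.H704R2.PAM
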