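import Pool.Agent.H704R2.PAM.L

set_option autoImplicit false
open MeasureTheory ProbabilityTheory Filter Topology Set
open scoped ENNReal NNReal

namespace Pool.Agent.H704R2.PAM

/-! Module G2: from mixing to ergodicity -/

/-- Lipschitz approximation of the indicator of a measurable set in `L1` of a finite measure -/
theorem G2_lip_approx {E : Type*} [PseudoEMetricSpace E] [MeasurableSpace E] [BorelSpace E]
    (μ : Measure E) [IsProbabilityMeasure μ] {S : Set E} (hS : MeasurableSet S) {η : ℝ}
    (hη : 0 < η) :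
    ∃ (f : BoundedContinuousFunction E ℝ) (K : ℝ≥0), LipschitzWith K f ∧ (∀ x, 0 ≤ f x) ∧
      (∀ x, f x ≤ 1) ∧ ∫ x, |S.indicator (fun _ => (1 : ℝ)) x - f x| ∂μ ≤ η := by
  have hη' : ENNReal.ofReal (η / 2) ≠ 0 := by
    simp; linarith
  obtain ⟨F, hFS, hFc, hF⟩ := hS.exists_isClosed_sdiff_lt (measure_ne_top μ S) hη'
  have hth := tendsto_measure_thickening_of_isClosed (μ := μ) (s := F)
    ⟨1, one_pos, measure_ne_top μ _⟩ hFc
  have hlt : μ F < μ F + ENNReal.ofReal (η / 2) :=
    ENNReal.lt_add_right (measure_ne_top μ F) hη'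
  have hev := (hth.eventually (gt_mem_nhds hlt)).and self_mem_nhdsWithin
  obtain ⟨δ, hδ1, hδ2⟩ := hev.exists
  have hδ : 0 < δ := hδ2
  set g := thickenedIndicator hδ F with hg
  have hg01 : ∀ x, g x ≤ 1 := fun x => thickenedIndicator_le_one hδ F x
  have hlipg := lipschitzWith_thickenedIndicator hδ F
  obtain ⟨K, hK⟩ : ∃ K : ℝ≥0, LipschitzWith K g := ⟨_, hlipg⟩
  have hcont : Continuous fun x => ((g x : ℝ≥0) : ℝ) := NNReal.continuous_coe.comp g.continuous
  let f : BoundedContinuousFunction E ℝ := BoundedContinuousFunction.ofNormedAddCommGroup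
    (fun x => ((g x : ℝ≥0) : ℝ)) hcont 1 (by
      intro x
      rw [Real.norm_eq_abs, NNReal.abs_eq]
      exact_mod_cast hg01 x)
  refine ⟨f, K, ?_, fun x => (g x).2, fun x => by exact_mod_cast hg01 x, ?_⟩
  · intro x y
    have := hK x y
    simpa [f, edist_dist, NNReal.dist_eq, Real.dist_eq] using this
  · -- bound the difference by the indicator of (S \ F) ∪ (thickening δ F \ F)
    have hptw : ∀ x, |S.indicator (fun _ => (1 : ℝ)) x - f x| ≤
        (S \ F).indicator (fun _ => (1 : ℝ)) x +
          (Metric.thickening δ F \ F).indicator (fun _ => (1 : ℝ)) x := by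
      intro x
      have hf0 : 0 ≤ f x := (g x).2
      have hf1 : f x ≤ 1 := by exact_mod_cast hg01 x
      by_cases hxF : x ∈ F
      · have hxS : x ∈ S := hFS hxF
        have h1 : f x = 1 := by
          have : g x = 1 := thickenedIndicator_one hδ F hxF
          show ((g x : ℝ≥0) : ℝ) = 1
          rw [this]; rfl
        rw [h1]
        simp [hxS, hxF]
      · by_cases hxT : x ∈ Metric.thickening δ F
        · by_cases hxS : x ∈ S
          · simp only [indicator_of_mem hxS, indicator_of_mem (show x ∈ S \ F from ⟨hxS, hxF⟩),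
              indicator_of_mem (show x ∈ Metric.thickening δ F \ F from ⟨hxT, hxF⟩)]
            rw [abs_le]; constructor <;> linarith
          · simp only [indicator_of_notMem hxS,
              indicator_of_notMem (show x ∉ S \ F from fun h => hxS h.1),
              indicator_of_mem (show x ∈ Metric.thickening δ F \ F from ⟨hxT, hxF⟩)]
            rw [abs_le]; constructor <;> linarith
        · have h0 : f x = 0 := by
            have : g x = 0 := thickenedIndicator_zero hδ F hxT
            show ((g x : ℝ≥0) : ℝ) = 0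
            rw [this]; rfl
          rw [h0]
          by_cases hxS : x ∈ S
          · simp [hxS, hxF, hxT]
          · simp [hxS, hxT]
    have hmS : MeasurableSet (S \ F) := hS.diff hFc.measurableSet
    have hmT : MeasurableSet (Metric.thickening δ F \ F) :=
      Metric.isOpen_thickening.measurableSet.diff hFc.measurableSet
    have hint1 : Integrable ((S \ F).indicator (fun _ => (1 : ℝ))) μ :=
      (integrable_const (1 : ℝ)).indicator hmS
    have hint2 : Integrable ((Metric.thickening δ F \ F).indicator (fun _ => (1 : ℝ))) μ :=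
      (integrable_const (1 : ℝ)).indicator hmT
    have hle : ∫ x, |S.indicator (fun _ => (1 : ℝ)) x - f x| ∂μ ≤
        ∫ x, ((S \ F).indicator (fun _ => (1 : ℝ)) x +
          (Metric.thickening δ F \ F).indicator (fun _ => (1 : ℝ)) x) ∂μ := by
      apply integral_mono_of_nonneg (Eventually.of_forall fun x => abs_nonneg _)
        (hint1.add hint2) (Eventually.of_forall hptw)
    refine hle.trans ?_
    rw [integral_add hint1 hint2, integral_indicator_const _ hmS, integral_indicator_const _ hmT]
    have e1 : μ.real (S \ F) ≤ η / 2 := by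
      rw [Measure.real]
      exact ENNReal.toReal_le_of_le_ofReal (by linarith) hF.le
    have e2 : μ.real (Metric.thickening δ F \ F) ≤ η / 2 := by
      rw [Measure.real]
      apply ENNReal.toReal_le_of_le_ofReal (by linarith)
      rw [measure_sdiff (Metric.self_subset_thickening hδ F) hFc.measurableSet.nullMeasurableSet
        (measure_ne_top μ F)]
      exact tsub_le_iff_left.2 hδ1.le
    simp only [smul_eq_mul, mul_one]
    linarith

/-- approximation of the indicator of a measurable set by Lipschitz cylinder functions -/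
theorem G2_approx {d : ℕ} {ν : Measure (ℝ≥0 × Site d → ℝ)} [IsProbabilityMeasure ν]
    {A : Set (ℝ≥0 × Site d → ℝ)} (hA : MeasurableSet A) {η : ℝ} (hη : 0 < η) :
    ∃ (I : Finset (ℝ≥0 × Site d)) (f : BoundedContinuousFunction (I → ℝ) ℝ) (K : ℝ≥0),
      LipschitzWith K f ∧ (∀ x, 0 ≤ f x) ∧ (∀ x, f x ≤ 1) ∧
      ∫ z, |A.indicator (fun _ => (1 : ℝ)) z - f (fun i => z i.1)| ∂ν ≤ η := by
  have hdense := Measure.MeasureDense.of_generateFrom_isSetAlgebra_finite ν
    (𝒜 := measurableCylinders (fun _ : ℝ≥0 × Site d => ℝ))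
    ⟨empty_mem_measurableCylinders _, fun s hs => compl_mem_measurableCylinders hs,
      fun s t hs ht => union_mem_measurableCylinders hs ht⟩ generateFrom_measurableCylinders.symm
  obtain ⟨B, hB, hAB⟩ := hdense.approx A hA (measure_ne_top ν A) (η / 2) (by linarith)
  obtain ⟨I, S, hS, rfl⟩ := (mem_measurableCylinders B).1 hB
  have hr : Measurable (I.restrict : (ℝ≥0 × Site d → ℝ) → (I → ℝ)) :=
    Finset.measurable_restrict I
  have : IsProbabilityMeasure (ν.map (I.restrict : (ℝ≥0 × Site d → ℝ) → (I → ℝ))) :=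
    Measure.isProbabilityMeasure_map hr.aemeasurable
  obtain ⟨f, K, hfK, hf0, hf1, hf⟩ := G2_lip_approx
    (ν.map (I.restrict : (ℝ≥0 × Site d → ℝ) → (I → ℝ))) hS (half_pos hη)
  refine ⟨I, f, K, hfK, hf0, hf1, ?_⟩
  have hfm : Measurable (f : (I → ℝ) → ℝ) := f.continuous.measurable
  have hSm : Measurable (S.indicator (fun _ => (1 : ℝ))) := measurable_const.indicator hS
  rw [integral_map hr.aemeasurable (by
    exact ((hSm.sub hfm).abs).aestronglyMeasurable)] at hf
  have hcylm : MeasurableSet (cylinder I S) := hdense.measurable _ hB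
  have hptw : ∀ z, |A.indicator (fun _ => (1 : ℝ)) z - f (fun i => z i.1)| ≤
      (symmDiff A (cylinder I S)).indicator (fun _ => (1 : ℝ)) z +
        |S.indicator (fun _ => (1 : ℝ)) (I.restrict z) - f (I.restrict z)| := by
    intro z
    have e : (fun i : I => z i.1) = I.restrict z := rfl
    rw [e]
    have h1 : |A.indicator (fun _ => (1 : ℝ)) z - f (I.restrict z)| ≤
        |A.indicator (fun _ => (1 : ℝ)) z - S.indicator (fun _ => (1 : ℝ)) (I.restrict z)| +
        |S.indicator (fun _ => (1 : ℝ)) (I.restrict z) - f (I.restrict z)| := abs_sub_le _ _ _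
    refine h1.trans (add_le_add_left ?_ _)
    by_cases hzA : z ∈ A <;> by_cases hzS : I.restrict z ∈ S
    · rw [indicator_of_mem hzA, indicator_of_mem hzS, sub_self, abs_zero]
      exact indicator_nonneg (fun _ _ => zero_le_one) _
    · have hz : z ∉ cylinder I S := hzS
      rw [indicator_of_mem hzA, indicator_of_notMem hzS,
        indicator_of_mem (show z ∈ symmDiff A (cylinder I S) from Or.inl ⟨hzA, hz⟩)]
      simp
    · have hz : z ∈ cylinder I S := hzS
      rw [indicator_of_notMem hzA, indicator_of_mem hzS,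
        indicator_of_mem (show z ∈ symmDiff A (cylinder I S) from Or.inr ⟨hz, hzA⟩)]
      simp
    · have : z ∉ cylinder I S := hzS
      rw [indicator_of_notMem hzA, indicator_of_notMem hzS]
      simp only [sub_zero, abs_zero]
      exact indicator_nonneg (fun _ _ => zero_le_one) _
  have hmd : MeasurableSet (symmDiff A (cylinder I S)) := hA.symmDiff hcylm
  have hint1 : Integrable ((symmDiff A (cylinder I S)).indicator (fun _ => (1 : ℝ))) ν :=
    (integrable_const (1 : ℝ)).indicator hmd
  have hint2 : Integrable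
      (fun z => |S.indicator (fun _ => (1 : ℝ)) (I.restrict z) - f (I.restrict z)|) ν := by
    apply Integrable.of_bound (C := 1)
    · exact (((hSm.sub hfm).abs).comp hr).aestronglyMeasurable
    · refine Eventually.of_forall fun z => ?_
      have a0 := hf0 (I.restrict z)
      have a1 := hf1 (I.restrict z)
      rw [Real.norm_eq_abs, abs_abs]
      by_cases h : I.restrict z ∈ S
      · rw [indicator_of_mem h, abs_le]; constructor <;> linarith
      · rw [indicator_of_notMem h, abs_le]; constructor <;> linarith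
  have hle := integral_mono_of_nonneg (μ := ν)
    (Eventually.of_forall fun z => abs_nonneg
      (A.indicator (fun _ => (1 : ℝ)) z - f (fun i => z i.1)))
    (hint1.add hint2) (Eventually.of_forall hptw)
  refine hle.trans ?_
  refine (integral_add hint1 hint2).le.trans ?_
  rw [integral_indicator_const _ hmd]
  have e1 : ν.real (symmDiff A (cylinder I S)) ≤ η / 2 := by
    rw [Measure.real]
    exact ENNReal.toReal_le_of_le_ofReal (by linarith) hAB.le
  simp only [smul_eq_mul, mul_one]
  linarith

/-- from mixing on cylinders to ergodicity (abstract) -/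
theorem ergodic_of_mixing {d : ℕ} {ν : Measure (ℝ≥0 × Site d → ℝ)} [IsProbabilityMeasure ν]
    (hinv : ∀ s y, ν.map (shf s y) = ν)
    (hmix : ∀ (I : Finset (ℝ≥0 × Site d)) (f : BoundedContinuousFunction (I → ℝ) ℝ)
      (K : ℝ≥0), LipschitzWith K f → ∀ η : ℝ, 0 < η →
      ∃ y : Site d, |∫ z, f (fun i => z i.1) * f (fun i => z (i.1.1, i.1.2 + y)) ∂ν -
        (∫ z, f (fun i => z i.1) ∂ν) ^ 2| ≤ η)
    {A : Set (ℝ≥0 × Site d → ℝ)} (hA : MeasurableSet A)
    (hAinv : ∀ s y, shf s y ⁻¹' A =ᵐ[ν] A) : ν A = 0 ∨ ν A = 1 := by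
  set a := ν.real A with ha
  have ha0 : 0 ≤ a := measureReal_nonneg
  have ha1 : a ≤ 1 := measureReal_le_one
  have key : ∀ η : ℝ, 0 < η → |a - a ^ 2| ≤ 5 * η := by
    intro η hη
    obtain ⟨I, f, K, hfK, hf0, hf1, hf⟩ := G2_approx (ν := ν) hA hη
    obtain ⟨y, hy⟩ := hmix I f K hfK η hη
    have hshm : Measurable (shf (d := d) 0 y) := by
      unfold shf
      exact measurable_pi_lambda _ fun q => measurable_pi_apply _
    set φ : (ℝ≥0 × Site d → ℝ) → ℝ := fun z => f (fun i => z i.1) with hφ
    set χ : (ℝ≥0 × Site d → ℝ) → ℝ := A.indicator (fun _ => (1 : ℝ)) with hχ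
    have hφm : Measurable φ := f.continuous.measurable.comp
      (measurable_pi_lambda _ fun i => measurable_pi_apply _)
    have hχm : Measurable χ := measurable_const.indicator hA
    have hφ0 : ∀ z, 0 ≤ φ z := fun z => hf0 _
    have hφ1 : ∀ z, φ z ≤ 1 := fun z => hf1 _
    have hχ0 : ∀ z, 0 ≤ χ z := fun z => indicator_nonneg (fun _ _ => zero_le_one) _
    have hχ1 : ∀ z, χ z ≤ 1 := fun z => indicator_le_self' (fun _ _ => zero_le_one) _
    have hφsh : ∀ z, f (fun i => z (i.1.1, i.1.2 + y)) = φ (shf 0 y z) := by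
      intro z
      simp only [hφ, shf, zero_add]
    have hχa : ∫ z, χ z ∂ν = a := by
      rw [hχ, integral_indicator_const _ hA]; simp [ha]
    -- invariance
    have hinvI : ∀ g : (ℝ≥0 × Site d → ℝ) → ℝ, Measurable g →
        ∫ z, g (shf 0 y z) ∂ν = ∫ z, g z ∂ν := by
      intro g hg
      conv_rhs => rw [← hinv 0 y]
      rw [integral_map hshm.aemeasurable hg.aestronglyMeasurable]
    have bint : ∀ g : (ℝ≥0 × Site d → ℝ) → ℝ, Measurable g → (∀ z, |g z| ≤ 1) →
        Integrable g ν := by
      intro g hg hb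
      exact Integrable.of_bound hg.aestronglyMeasurable 1
        (Eventually.of_forall fun z => by rw [Real.norm_eq_abs]; exact hb z)
    have h1 : ∫ z, χ z * χ (shf 0 y z) ∂ν = a := by
      rw [← hχa]
      apply integral_congr_ae
      filter_upwards [hAinv 0 y] with z hz
      have hz' : (shf 0 y z ∈ A) = (z ∈ A) := hz
      by_cases hzA : z ∈ A
      · have : shf 0 y z ∈ A := by rw [hz']; exact hzA
        simp [hχ, hzA, this]
      · have : shf 0 y z ∉ A := by rw [hz']; exact hzA
        simp [hχ, hzA]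
    have hIχφ : Integrable (fun z => |χ z - φ z|) ν := by
      apply bint _ (hχm.sub hφm).abs
      intro z
      show |(|χ z - φ z|)| ≤ 1
      rw [abs_abs, abs_le]
      have := hφ0 z; have := hφ1 z; have := hχ0 z; have := hχ1 z
      constructor <;> linarith
    have h2 : |∫ z, χ z * χ (shf 0 y z) ∂ν - ∫ z, φ z * φ (shf 0 y z) ∂ν| ≤ 2 * η := by
      have hi1 : Integrable (fun z => χ z * χ (shf 0 y z)) ν := by
        apply bint _ (hχm.mul (hχm.comp hshm))
        intro z
        show |χ z * χ (shf 0 y z)| ≤ 1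
        rw [abs_mul, abs_of_nonneg (hχ0 _), abs_of_nonneg (hχ0 _)]
        exact mul_le_one₀ (hχ1 _) (hχ0 _) (hχ1 _)
      have hi2 : Integrable (fun z => φ z * φ (shf 0 y z)) ν := by
        apply bint _ (hφm.mul (hφm.comp hshm))
        intro z
        show |φ z * φ (shf 0 y z)| ≤ 1
        rw [abs_mul, abs_of_nonneg (hφ0 _), abs_of_nonneg (hφ0 _)]
        exact mul_le_one₀ (hφ1 _) (hφ0 _) (hφ1 _)
      rw [← integral_sub hi1 hi2]
      have hD : Integrable (fun z => |χ z - φ z| + |χ (shf 0 y z) - φ (shf 0 y z)|) ν := by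
        apply hIχφ.add
        apply bint _ ((hχm.sub hφm).abs.comp hshm)
        intro z
        show |(|χ (shf 0 y z) - φ (shf 0 y z)|)| ≤ 1
        rw [abs_abs, abs_le]
        have := hφ0 (shf 0 y z); have := hφ1 (shf 0 y z)
        have := hχ0 (shf 0 y z); have := hχ1 (shf 0 y z)
        constructor <;> linarith
      have hI2 : Integrable (fun z => |χ (shf 0 y z) - φ (shf 0 y z)|) ν := by
        apply bint _ ((hχm.sub hφm).abs.comp hshm)
        intro z
        show |(|χ (shf 0 y z) - φ (shf 0 y z)|)| ≤ 1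
        rw [abs_abs, abs_le]
        have := hφ0 (shf 0 y z); have := hφ1 (shf 0 y z)
        have := hχ0 (shf 0 y z); have := hχ1 (shf 0 y z)
        constructor <;> linarith
      calc |∫ z, (χ z * χ (shf 0 y z) - φ z * φ (shf 0 y z)) ∂ν|
          ≤ ∫ z, |χ z * χ (shf 0 y z) - φ z * φ (shf 0 y z)| ∂ν := abs_integral_le_integral_abs
        _ ≤ ∫ z, (|χ z - φ z| + |χ (shf 0 y z) - φ (shf 0 y z)|) ∂ν := by
            apply integral_mono_of_nonneg (Eventually.of_forall fun z => abs_nonneg _) hD
            refine Eventually.of_forall fun z => ?_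
            show |χ z * χ (shf 0 y z) - φ z * φ (shf 0 y z)| ≤ _
            have e : χ z * χ (shf 0 y z) - φ z * φ (shf 0 y z) =
              (χ z - φ z) * χ (shf 0 y z) + φ z * (χ (shf 0 y z) - φ (shf 0 y z)) := by ring
            rw [e]
            refine (abs_add_le _ _).trans ?_
            rw [abs_mul, abs_mul, abs_of_nonneg (hχ0 (shf 0 y z)), abs_of_nonneg (hφ0 z)]
            have q1 := mul_le_mul_of_nonneg_left (hχ1 (shf 0 y z)) (abs_nonneg (χ z - φ z))
            have q2 := mul_le_mul_of_nonneg_right (hφ1 z)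
              (abs_nonneg (χ (shf 0 y z) - φ (shf 0 y z)))
            linarith
        _ = ∫ z, |χ z - φ z| ∂ν + ∫ z, |χ (shf 0 y z) - φ (shf 0 y z)| ∂ν :=
            integral_add hIχφ hI2
        _ ≤ 2 * η := by
            have := hinvI (fun z => |χ z - φ z|) (hχm.sub hφm).abs
            rw [this]
            have hf' : ∫ z, |χ z - φ z| ∂ν ≤ η := hf
            linarith
    have h3 : |∫ z, φ z * φ (shf 0 y z) ∂ν - (∫ z, φ z ∂ν) ^ 2| ≤ η := by
      have e : (fun z => f (fun i => z i.1) * f (fun i => z (i.1.1, i.1.2 + y))) =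
          fun z => φ z * φ (shf 0 y z) := by
        funext z; rw [hφsh z]
      rw [e] at hy
      exact hy
    have hφI : Integrable φ ν := by
      apply bint _ hφm
      intro z; rw [abs_of_nonneg (hφ0 z)]; exact hφ1 z
    have hχI : Integrable χ ν := by
      apply bint _ hχm
      intro z; rw [abs_of_nonneg (hχ0 z)]; exact hχ1 z
    have h4 : |a - ∫ z, φ z ∂ν| ≤ η := by
      rw [← hχa, ← integral_sub hχI hφI]
      exact abs_integral_le_integral_abs.trans hf
    have hb0 : 0 ≤ ∫ z, φ z ∂ν := integral_nonneg hφ0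
    have hb1 : ∫ z, φ z ∂ν ≤ 1 := by
      have := integral_mono hφI (integrable_const (1 : ℝ)) hφ1
      simpa using this
    have h5 : |(∫ z, φ z ∂ν) ^ 2 - a ^ 2| ≤ 2 * η := by
      have e : (∫ z, φ z ∂ν) ^ 2 - a ^ 2 = -((a - ∫ z, φ z ∂ν) * (a + ∫ z, φ z ∂ν)) := by ring
      rw [e, abs_neg, abs_mul, abs_of_nonneg (add_nonneg ha0 hb0)]
      have : |a - ∫ z, φ z ∂ν| * (a + ∫ z, φ z ∂ν) ≤ η * 2 :=
        mul_le_mul h4 (by linarith) (add_nonneg ha0 hb0) hη.le
      linarith
    rw [h1] at h2
    have t1 := abs_le.1 h2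
    have t2 := abs_le.1 h3
    have t3 := abs_le.1 h5
    rw [abs_le]
    constructor <;> linarith [t1.1, t1.2, t2.1, t2.2, t3.1, t3.2]
  have h0 : a - a ^ 2 = 0 := by
    by_contra hne
    have hpos : 0 < |a - a ^ 2| := abs_pos.2 hne
    have := key (|a - a ^ 2| / 10) (by linarith)
    linarith
  have h01 : a = 0 ∨ a = 1 := by
    have : a * (1 - a) = 0 := by nlinarith
    rcases mul_eq_zero.1 this with h | h
    · exact Or.inl h
    · exact Or.inr (by linarith)
  rcases h01 with h | h
  · left
    exact (measureReal_eq_zero_iff (measure_ne_top ν A)).1 h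
  · right
    have : (ν A).toReal = 1 := h
    rw [← ENNReal.ofReal_toReal (measure_ne_top ν A), this]; simp

end Pool.Agent.H704R2.PAM
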