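import Pool.Agent.H704R2.PAM.L

set_option autoImplicit false
open MeasureTheory ProbabilityTheory Filter Topology Set
open scoped ENNReal NNReal

namespace Pool.Agent.H704R2.PAM

/-! Module G1: mixing of the limit law -/

section aux

variable {Ω : Type*} [MeasurableSpace Ω] {P : Measure Ω} [IsProbabilityMeasure P]

theorem G1_meas_f {ι : Type*} [Fintype ι] (f : BoundedContinuousFunction (ι → ℝ) ℝ)
    {X : Ω → ι → ℝ} (hX : Measurable X) : Measurable fun ω => f (X ω) :=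
  f.continuous.measurable.comp hX

theorem G1_int_f {ι : Type*} [Fintype ι] (f : BoundedContinuousFunction (ι → ℝ) ℝ)
    {X : Ω → ι → ℝ} (hX : Measurable X) : Integrable (fun ω => f (X ω)) P :=
  Integrable.of_bound (G1_meas_f f hX).aestronglyMeasurable ‖f‖
    (Eventually.of_forall fun ω => f.norm_coe_le_norm _)

theorem G1_err {ι : Type*} [Fintype ι] (f : BoundedContinuousFunction (ι → ℝ) ℝ) {K : ℝ≥0}
    (hf : LipschitzWith K f) {X G : Ω → ι → ℝ} (hX : Measurable X) (hG : Measurable G) {ε : ℝ}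
    (hε : 0 ≤ ε) (h : ∀ i, ∫⁻ ω, ENNReal.ofReal |X ω i - G ω i| ∂P ≤ ENNReal.ofReal ε) :
    ∫ ω, |f (X ω) - f (G ω)| ∂P ≤ K * (Fintype.card ι * ε) := by
  have hmi : ∀ i, Measurable fun ω => ENNReal.ofReal |X ω i - G ω i| := fun i =>
    (((measurable_pi_apply i).comp hX).sub ((measurable_pi_apply i).comp hG)).norm.ennreal_ofReal
  have hm : Measurable fun ω => |f (X ω) - f (G ω)| :=
    ((G1_meas_f f hX).sub (G1_meas_f f hG)).norm
  rw [integral_eq_lintegral_of_nonneg_ae (Eventually.of_forall fun ω => abs_nonneg _)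
    hm.aestronglyMeasurable]
  refine ENNReal.toReal_le_of_le_ofReal (by positivity) ?_
  have h1 : ∀ ω, ENNReal.ofReal |f (X ω) - f (G ω)| ≤
      K * ∑ i, ENNReal.ofReal |X ω i - G ω i| := by
    intro ω
    have h2 : |f (X ω) - f (G ω)| ≤ K * ∑ i, |X ω i - G ω i| := by
      have h3 := hf.dist_le_mul (X ω) (G ω)
      rw [Real.dist_eq] at h3
      refine h3.trans (mul_le_mul_of_nonneg_left ?_ K.2)
      rw [dist_pi_le_iff (Finset.sum_nonneg fun i _ => abs_nonneg _)]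
      intro i
      rw [Real.dist_eq]
      exact Finset.single_le_sum (f := fun i => |X ω i - G ω i|) (fun i _ => abs_nonneg _)
        (Finset.mem_univ i)
    refine (ENNReal.ofReal_le_ofReal h2).trans (le_of_eq ?_)
    rw [ENNReal.ofReal_mul (NNReal.coe_nonneg K), ENNReal.ofReal_coe_nnreal,
      ENNReal.ofReal_sum_of_nonneg fun i _ => abs_nonneg _]
  calc ∫⁻ ω, ENNReal.ofReal |f (X ω) - f (G ω)| ∂P
      ≤ ∫⁻ ω, K * ∑ i, ENNReal.ofReal |X ω i - G ω i| ∂P := lintegral_mono h1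
    _ = K * ∑ i, ∫⁻ ω, ENNReal.ofReal |X ω i - G ω i| ∂P := by
        rw [lintegral_const_mul _ (Finset.measurable_sum _ fun i _ => hmi i),
          lintegral_finsetSum _ fun i _ => hmi i]
    _ ≤ K * ∑ i : ι, ENNReal.ofReal ε :=
        mul_le_mul_right (Finset.sum_le_sum fun i _ => h i) _
    _ = ENNReal.ofReal (K * (Fintype.card ι * ε)) := by
        rw [Finset.sum_const, Finset.card_univ, nsmul_eq_mul,
          ENNReal.ofReal_mul (NNReal.coe_nonneg K), ENNReal.ofReal_mul (Nat.cast_nonneg _),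
          ENNReal.ofReal_coe_nnreal, ENNReal.ofReal_natCast]

/-- the product of two approximations -/
theorem G1_prod {a b a' b' : Ω → ℝ} {B e : ℝ} (ha : Measurable a) (hb : Measurable b)
    (ha' : Measurable a') (hb' : Measurable b') (hB : ∀ ω, |a ω| ≤ B) (hB' : ∀ ω, |b' ω| ≤ B)
    (hBb : ∀ ω, |b ω| ≤ B) (hBa : ∀ ω, |a' ω| ≤ B)
    (h1 : ∫ ω, |a ω - a' ω| ∂P ≤ e) (h2 : ∫ ω, |b ω - b' ω| ∂P ≤ e) :
    |∫ ω, a ω * b ω ∂P - ∫ ω, a' ω * b' ω ∂P| ≤ 2 * B * e := by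
  have hB0 : 0 ≤ B := by
    by_contra hcon
    push Not at hcon
    have : IsProbabilityMeasure P := inferInstance
    obtain ⟨ω⟩ : Nonempty Ω := by
      by_contra hne
      rw [not_nonempty_iff] at hne
      have := this.measure_univ
      rw [univ_eq_empty_iff.2 hne, measure_empty] at this
      exact zero_ne_one this
    have := (abs_nonneg _).trans (hB ω)
    linarith
  have iab : Integrable (fun ω => a ω * b ω) P := by
    refine Integrable.of_bound (ha.mul hb).aestronglyMeasurable (B * B)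
      (Eventually.of_forall fun ω => ?_)
    rw [Real.norm_eq_abs, abs_mul]
    exact mul_le_mul (hB ω) (hBb ω) (abs_nonneg _) hB0
  have iab' : Integrable (fun ω => a' ω * b' ω) P := by
    refine Integrable.of_bound (ha'.mul hb').aestronglyMeasurable (B * B)
      (Eventually.of_forall fun ω => ?_)
    rw [Real.norm_eq_abs, abs_mul]
    exact mul_le_mul (hBa ω) (hB' ω) (abs_nonneg _) hB0
  have i1 : Integrable (fun ω => |a ω - a' ω|) P := by
    refine Integrable.of_bound (ha.sub ha').norm.aestronglyMeasurable (B + B)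
      (Eventually.of_forall fun ω => ?_)
    rw [Real.norm_eq_abs, abs_abs]
    exact (abs_sub _ _).trans (add_le_add (hB ω) (hBa ω))
  have i2 : Integrable (fun ω => |b ω - b' ω|) P := by
    refine Integrable.of_bound (hb.sub hb').norm.aestronglyMeasurable (B + B)
      (Eventually.of_forall fun ω => ?_)
    rw [Real.norm_eq_abs, abs_abs]
    exact (abs_sub _ _).trans (add_le_add (hBb ω) (hB' ω))
  rw [← integral_sub iab iab']
  calc |∫ ω, (a ω * b ω - a' ω * b' ω) ∂P|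
      ≤ ∫ ω, |a ω * b ω - a' ω * b' ω| ∂P := abs_integral_le_integral_abs
    _ ≤ ∫ ω, (B * |a ω - a' ω| + B * |b ω - b' ω|) ∂P := by
        refine integral_mono_of_nonneg (Eventually.of_forall fun ω => abs_nonneg _)
          ((i1.const_mul B).add (i2.const_mul B)) (Eventually.of_forall fun ω => ?_)
        simp only
        have e : a ω * b ω - a' ω * b' ω = (a ω - a' ω) * b ω + a' ω * (b ω - b' ω) := by ring
        rw [e]
        refine (abs_add_le _ _).trans ?_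
        rw [abs_mul, abs_mul]
        refine add_le_add ?_ ?_
        · rw [mul_comm]
          exact mul_le_mul_of_nonneg_right (hBb ω) (abs_nonneg _)
        · exact mul_le_mul_of_nonneg_right (hBa ω) (abs_nonneg _)
    _ = B * ∫ ω, |a ω - a' ω| ∂P + B * ∫ ω, |b ω - b' ω| ∂P := by
        rw [integral_add (i1.const_mul B) (i2.const_mul B), integral_const_mul,
          integral_const_mul]
    _ ≤ B * e + B * e :=
        add_le_add (mul_le_mul_of_nonneg_left h1 hB0) (mul_le_mul_of_nonneg_left h2 hB0)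
    _ = 2 * B * e := by ring

end aux

section main

variable {Ω : Type*} [MeasurableSpace Ω] {P : Measure Ω} [IsProbabilityMeasure P] (Q : Par)
  {w : Site Q.d → ℝ≥0 → Ω → ℝ}

/-- finite volume approximation -/
noncomputable def G1_E (S T : ℝ≥0) (C : ℝ) (m : ℕ) (x : Site Q.d) (W : Site Q.d → ℝ≥0 → ℝ) :
    ℝ≥0∞ := fvE Q (box Q.d m) (shx x (sh S W)) (fun _ => C) T 0

/-- finite volume approximation -/
noncomputable def G1_G (S T : ℝ≥0) (C : ℝ) (m : ℕ) (x : Site Q.d) (W : Site Q.d → ℝ≥0 → ℝ) : ℝ :=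
  (G1_E Q S T C m x W).toReal

theorem G1_fv_meas (T : ℝ≥0) (C : ℝ) (m : ℕ) :
    Measurable fun W : Site Q.d → ℝ≥0 → ℝ => fvE Q (box Q.d m) W (fun _ => C) T 0 := by
  have h1 : Measurable fun W : Site Q.d → ℝ≥0 → ℝ =>
      ((W, (fun _ => C)) : (Site Q.d → ℝ≥0 → ℝ) × (Site Q.d → ℝ)) :=
    measurable_id.prodMk measurable_const
  have h2 := (measurable_fvE Q (box Q.d m) T 0).comp h1
  have h3 : (fun W : Site Q.d → ℝ≥0 → ℝ => fvE Q (box Q.d m) W (fun _ => C) T 0) =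
      (fun q : (Site Q.d → ℝ≥0 → ℝ) × (Site Q.d → ℝ) => fvE Q (box Q.d m) q.1 q.2 T 0) ∘
        (fun W : Site Q.d → ℝ≥0 → ℝ =>
      ((W, (fun _ => C)) : (Site Q.d → ℝ≥0 → ℝ) × (Site Q.d → ℝ))) := by
    funext W
    rfl
  rw [h3]
  exact h2

theorem G1_G_meas (S T : ℝ≥0) (C : ℝ) (m : ℕ) (x : Site Q.d) : Measurable (G1_G Q S T C m x) := by
  have h1 : Measurable fun W : Site Q.d → ℝ≥0 → ℝ => shx x (sh S W) :=
    (measurable_shx x).comp (measurable_sh S)
  have h3 : G1_E Q S T C m x = (fun W : Site Q.d → ℝ≥0 → ℝ =>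
      fvE Q (box Q.d m) W (fun _ => C) T 0) ∘ (fun W : Site Q.d → ℝ≥0 → ℝ => shx x (sh S W)) := by
    funext W
    rfl
  have h2 : Measurable (G1_E Q S T C m x) := by
    rw [h3]
    exact (G1_fv_meas Q T C m).comp h1
  exact h2.ennreal_toReal

theorem G1_box_mono {d m m' : ℕ} (h : m ≤ m') : box d m ⊆ box d m' := by
  intro x hx
  unfold box at hx ⊢
  rw [Fintype.mem_piFinset] at hx ⊢
  intro a
  have := hx a
  rw [Finset.mem_Icc] at this ⊢
  constructor <;> omega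

theorem G1_ne_top (hw : Noise P w) {c : ℝ} (hc : 0 ≤ c) (T : ℝ≥0) : HH P Q w c T ≠ ⊤ :=
  ne_top_of_le_ne_top ENNReal.ofReal_ne_top (HH_le_exp Q hw hc T)

theorem G1_abs' {a b : ℝ≥0∞} (hb : b ≠ ⊤) (hab : a ≤ b) :
    ENNReal.ofReal |b.toReal - a.toReal| + a = b := by
  have ha : a ≠ ⊤ := ne_top_of_le_ne_top hb hab
  lift a to ℝ≥0 using ha
  lift b to ℝ≥0 using hb
  simp only [ENNReal.coe_toReal]
  have h : (a : ℝ) ≤ b := by exact_mod_cast hab
  have h0 : ENNReal.ofReal |(b : ℝ) - a| + (a : ℝ≥0∞) = ENNReal.ofReal (|(b : ℝ) - a| + a) := by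
    rw [ENNReal.ofReal_add (abs_nonneg _) (NNReal.coe_nonneg a), ENNReal.ofReal_coe_nnreal]
  rw [h0, abs_of_nonneg (by linarith)]
  have : (b : ℝ) - a + a = b := by ring
  rw [this, ENNReal.ofReal_coe_nnreal]

theorem G1_vol0 (hw : Noise P w) {C : ℝ} (hC : 0 ≤ C) (T : ℝ≥0) (m : ℕ) :
    ∫⁻ ω, ENNReal.ofReal |(ivE Q (pth w ω) C T 0).toReal -
      (fvE Q (box Q.d m) (pth w ω) (fun _ => C) T 0).toReal| ∂P ≤
      HH P Q w C T - EL P Q w (box Q.d m) C T 0 := by
  have hm1 : Measurable fun ω => ivE Q (pth w ω) C T 0 :=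
    (measurable_ivE Q C T 0).comp (measurable_pth hw)
  have hm2 : Measurable fun ω => fvE Q (box Q.d m) (pth w ω) (fun _ => C) T 0 :=
    (G1_fv_meas Q T C m).comp (measurable_pth hw)
  have hfin : ∀ᵐ ω ∂P, ivE Q (pth w ω) C T 0 < ⊤ := by
    refine ae_lt_top hm1 ?_
    rw [lintegral_ivE Q hw hC T 0]
    exact G1_ne_top Q hw hC T
  have h1 : ∫⁻ ω, (ENNReal.ofReal |(ivE Q (pth w ω) C T 0).toReal -
      (fvE Q (box Q.d m) (pth w ω) (fun _ => C) T 0).toReal| +
      fvE Q (box Q.d m) (pth w ω) (fun _ => C) T 0) ∂P =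
      ∫⁻ ω, ivE Q (pth w ω) C T 0 ∂P := by
    refine lintegral_congr_ae ?_
    filter_upwards [hfin] with ω hω
    refine G1_abs' hω.ne ?_
    exact le_iSup (fun m => fvE Q (box Q.d m) (pth w ω) (fun _ => C) T 0) m
  rw [lintegral_add_right _ hm2, lintegral_ivE Q hw hC T 0] at h1
  have h3 : EL P Q w (box Q.d m) C T 0 ≠ ⊤ :=
    ne_top_of_le_ne_top (G1_ne_top Q hw hC T) (EL_le_HH Q hw _ hC T 0)
  exact ENNReal.le_sub_of_add_le_right h3 h1.le

theorem G1_vol (hw : Noise P w) {C : ℝ} (hC : 0 ≤ C) (S T : ℝ≥0) (m : ℕ) (x : Site Q.d) :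
    ∫⁻ ω, ENNReal.ofReal |uu Q (sh S (pth w ω)) C T x - G1_G Q S T C m x (pth w ω)| ∂P ≤
      HH P Q w C T - EL P Q w (box Q.d m) C T 0 := by
  obtain ⟨w2, hw2def⟩ : ∃ w2 : Site Q.d → ℝ≥0 → Ω → ℝ,
      w2 = fun z t ω => w (z + x) (S + t) ω - w (z + x) S ω := ⟨_, rfl⟩
  have hw2 : Noise P w2 := by
    rw [hw2def]
    exact noise_shx (noise_sh hw S) x
  have hpth : ∀ ω, shx x (sh S (pth w ω)) = pth w2 ω := by
    intro ω
    rw [hw2def]
    rfl
  have e1 : ∀ ω, uu Q (sh S (pth w ω)) C T x = (ivE Q (pth w2 ω) C T 0).toReal := by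
    intro ω
    have := ivE_shx Q (sh S (pth w ω)) hC T 0 x
    rw [zero_add, hpth] at this
    unfold uu
    rw [this]
  have e2 : ∀ ω, G1_G Q S T C m x (pth w ω) =
      (fvE Q (box Q.d m) (pth w2 ω) (fun _ => C) T 0).toReal := by
    intro ω
    unfold G1_G G1_E
    rw [hpth]
  have h1 := G1_vol0 Q hw2 hC T m
  rw [HH_law Q hw2 hw C T, EL_law Q hw2 hw (box Q.d m) C T 0] at h1
  simp only [e1, e2]
  exact h1

theorem G1_lim (hw : Noise P w) {C : ℝ} (hC : 0 ≤ C) (T : ℝ≥0) :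
    Tendsto (fun m => HH P Q w C T - EL P Q w (box Q.d m) C T 0) atTop (𝓝 0) := by
  have hmono : Monotone fun m => EL P Q w (box Q.d m) C T 0 := fun m m' h =>
    lintegral_mono fun ω => fvE_mono_set Q (G1_box_mono h) _ (fun _ _ => hC) T 0
  have h1 : Tendsto (fun m => EL P Q w (box Q.d m) C T 0) atTop (𝓝 (HH P Q w C T)) :=
    tendsto_atTop_iSup hmono
  have h2 := ENNReal.Tendsto.sub (tendsto_const_nhds (x := HH P Q w C T)) h1
    (Or.inl (G1_ne_top Q hw hC T))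
  rwa [tsub_self] at h2

/-- the approximation -/
theorem G1_approx (hw : Noise P w) : ∃ C : ℝ, 0 ≤ C ∧ ∀ ε : ℝ, 0 < ε → ∀ F : Finset ℝ≥0,
    ∃ (N : ℝ≥0) (m : ℕ), ∀ S : ℝ≥0, 1 ≤ S → ∀ τ ∈ F, ∀ x : Site Q.d,
      ∫⁻ ω, ENNReal.ofReal |uu Q (pth w ω) 1 (S + (N + τ)) x -
        G1_G Q S (N + τ) C m x (pth w ω)| ∂P ≤ ENNReal.ofReal ε := by
  obtain ⟨C, hC1, δ, hδa, hδ, hcl⟩ := l1_close Q
  have hC : 0 ≤ C := by linarith
  refine ⟨C, hC, fun ε hε F => ?_⟩
  rw [ENNReal.tendsto_atTop_zero] at hδ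
  obtain ⟨N, hN⟩ := hδ (ENNReal.ofReal (ε / 2)) (ENNReal.ofReal_pos.2 (by linarith))
  have hm : ∀ τ : ℝ≥0, ∃ m0, ∀ m ≥ m0,
      HH P Q w C (N + τ) - EL P Q w (box Q.d m) C (N + τ) 0 ≤ ENNReal.ofReal (ε / 2) := by
    intro τ
    exact (ENNReal.tendsto_atTop_zero.1 (G1_lim Q hw hC (N + τ))) _
      (ENNReal.ofReal_pos.2 (by linarith))
  choose M hM using hm
  refine ⟨N, F.sup M, fun S hS τ hτ x => ?_⟩
  have h1 := (hcl Ω P w hw S (N + τ) hS x).1
  have h2 := G1_vol Q hw hC S (N + τ) (F.sup M) x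
  have h3 := hM τ (F.sup M) (Finset.le_sup hτ)
  have h4 : δ (N + τ) ≤ ENNReal.ofReal (ε / 2) := hN _ le_self_add
  have hu : Measurable fun ω => uu Q (pth w ω) 1 (S + (N + τ)) x :=
    ((measurable_ivE Q 1 _ x).comp (measurable_pth hw)).ennreal_toReal
  have hu2 : Measurable fun ω => uu Q (sh S (pth w ω)) C (N + τ) x :=
    ((measurable_ivE Q C _ x).comp ((measurable_sh S).comp (measurable_pth hw))).ennreal_toReal
  calc _ ≤ ∫⁻ ω, (ENNReal.ofReal |uu Q (pth w ω) 1 (S + (N + τ)) x -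
          uu Q (sh S (pth w ω)) C (N + τ) x| +
        ENNReal.ofReal |uu Q (sh S (pth w ω)) C (N + τ) x -
          G1_G Q S (N + τ) C (F.sup M) x (pth w ω)|) ∂P := by
        refine lintegral_mono fun ω => ?_
        rw [← ENNReal.ofReal_add (abs_nonneg _) (abs_nonneg _)]
        exact ENNReal.ofReal_le_ofReal (abs_sub_le _ _ _)
    _ = _ := lintegral_add_left ((hu.sub hu2).norm.ennreal_ofReal) _
    _ ≤ ENNReal.ofReal (ε / 2) + ENNReal.ofReal (ε / 2) :=
        add_le_add (h1.trans h4) (h2.trans h3)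
    _ = ENNReal.ofReal ε := by
        rw [← ENNReal.ofReal_add (by linarith) (by linarith)]
        congr 1
        ring

/-- extension by zero -/
noncomputable def G1_ext {d : ℕ} (Λ : Finset (Site d)) (r : Λ → ℝ≥0 → ℝ) : Site d → ℝ≥0 → ℝ :=
  fun x t => if h : x ∈ Λ then r ⟨x, h⟩ t else 0

theorem G1_ext_meas {d : ℕ} (Λ : Finset (Site d)) : Measurable (G1_ext Λ) := by
  refine measurable_pi_lambda _ fun x => measurable_pi_lambda _ fun t => ?_
  unfold G1_ext
  by_cases h : x ∈ Λ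
  · simp only [h, dif_pos]
    exact (measurable_pi_apply t).comp (measurable_pi_apply (⟨x, h⟩ : Λ))
  · simp only [h, dif_neg, not_false_eq_true]
    exact measurable_const

theorem G1_G_ext (S T : ℝ≥0) (C : ℝ) (m : ℕ) (x : Site Q.d) (Λ : Finset (Site Q.d))
    (hx : ∀ z ∈ box Q.d m, z + x ∈ Λ) (ω : Ω) :
    G1_G Q S T C m x (pth w ω) = G1_G Q S T C m x (G1_ext Λ (fun z t => w z t ω)) := by
  unfold G1_G G1_E
  congr 1
  refine fvE_congr Q (box Q.d m) T ?_ (fun _ _ => rfl) 0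
  intro z hz s t _ _
  have h1 : ∀ t : ℝ≥0, G1_ext Λ (fun z t => w z t ω) (z + x) t = w (z + x) t ω := by
    intro t
    unfold G1_ext
    rw [dif_pos (hx z hz)]
  simp only [shx, sh, pth, h1]

theorem G1_indep (hw : Noise P w) {ι : Type*} [Fintype ι] {Λ Λ' : Finset (Site Q.d)}
    (hd : Disjoint Λ Λ') (S : ℝ≥0) (C : ℝ) (m : ℕ) (T : ι → ℝ≥0) (x x' : ι → Site Q.d)
    (hx : ∀ i, ∀ z ∈ box Q.d m, z + x i ∈ Λ) (hx' : ∀ i, ∀ z ∈ box Q.d m, z + x' i ∈ Λ') :
    IndepFun (fun ω i => G1_G Q S (T i) C m (x i) (pth w ω))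
      (fun ω i => G1_G Q S (T i) C m (x' i) (pth w ω)) P := by
  have h1 := noise_disjoint hw hd
  have hφ : Measurable fun (r : Λ → ℝ≥0 → ℝ) (i : ι) =>
      G1_G Q S (T i) C m (x i) (G1_ext Λ r) :=
    measurable_pi_lambda _ fun i => (G1_G_meas Q S (T i) C m (x i)).comp (G1_ext_meas Λ)
  have hψ : Measurable fun (r : Λ' → ℝ≥0 → ℝ) (i : ι) =>
      G1_G Q S (T i) C m (x' i) (G1_ext Λ' r) :=
    measurable_pi_lambda _ fun i => (G1_G_meas Q S (T i) C m (x' i)).comp (G1_ext_meas Λ')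
  have h2 := h1.comp hφ hψ
  have e1 : (fun ω i => G1_G Q S (T i) C m (x i) (pth w ω)) =
      (fun (r : Λ → ℝ≥0 → ℝ) (i : ι) => G1_G Q S (T i) C m (x i) (G1_ext Λ r)) ∘
        (fun ω (x : Λ) (t : ℝ≥0) => w x t ω) := by
    funext ω i
    exact G1_G_ext Q S (T i) C m (x i) Λ (hx i) ω
  have e2 : (fun ω i => G1_G Q S (T i) C m (x' i) (pth w ω)) =
      (fun (r : Λ' → ℝ≥0 → ℝ) (i : ι) => G1_G Q S (T i) C m (x' i) (G1_ext Λ' r)) ∘
        (fun ω (x : Λ') (t : ℝ≥0) => w x t ω) := by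
    funext ω i
    exact G1_G_ext Q S (T i) C m (x' i) Λ' (hx' i) ω
  rw [e1, e2]
  exact h2

theorem G1_transl (hw : Noise P w) {ι : Type*} [Fintype ι] (S : ℝ≥0) (C : ℝ) (m : ℕ)
    (T : ι → ℝ≥0) (x : ι → Site Q.d) (y : Site Q.d)
    (f : BoundedContinuousFunction (ι → ℝ) ℝ) :
    ∫ ω, f (fun i => G1_G Q S (T i) C m (x i + y) (pth w ω)) ∂P =
      ∫ ω, f (fun i => G1_G Q S (T i) C m (x i) (pth w ω)) ∂P := by
  have hw2 : Noise P (fun z t ω => w (z + y) t ω) := noise_shx hw y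
  have hΦ : Measurable fun W : Site Q.d → ℝ≥0 → ℝ =>
      f (fun i => G1_G Q S (T i) C m (x i) W) :=
    f.continuous.measurable.comp (measurable_pi_lambda _ fun i => G1_G_meas Q S (T i) C m (x i))
  have e1 : ∀ ω, f (fun i => G1_G Q S (T i) C m (x i + y) (pth w ω)) =
      f (fun i => G1_G Q S (T i) C m (x i) (pth (fun z t ω => w (z + y) t ω) ω)) := by
    intro ω
    congr 1
    funext i
    unfold G1_G G1_E
    have : shx (x i + y) (sh S (pth w ω)) =
        shx (x i) (sh S (pth (fun z t ω => w (z + y) t ω) ω)) := by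
      funext z t
      simp only [shx, sh, pth, add_assoc]
    rw [this]
  have h3 := integral_map (measurable_pth hw2).aemeasurable (μ := P)
    (f := fun W => f (fun i => G1_G Q S (T i) C m (x i) W)) hΦ.aestronglyMeasurable
  have h4 := integral_map (measurable_pth hw).aemeasurable (μ := P)
    (f := fun W => f (fun i => G1_G Q S (T i) C m (x i) W)) hΦ.aestronglyMeasurable
  calc _ = ∫ ω, f (fun i => G1_G Q S (T i) C m (x i)
        (pth (fun z t ω => w (z + y) t ω) ω)) ∂P := integral_congr_ae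
          (Eventually.of_forall e1)
    _ = _ := by rw [← h3, noise_law hw2 hw, h4]

/-- separation of two finite sets by a translation -/
theorem G1_sep {d : ℕ} (hd : 0 < d) (Λ : Finset (Site d)) :
    ∃ y : Site d, Disjoint Λ (Λ.image (· + y)) := by
  haveI : Nonempty (Fin d) := ⟨⟨0, hd⟩⟩
  obtain ⟨y, hy⟩ := Infinite.exists_notMem_finset
    ((Λ ×ˢ Λ).image fun q => q.1 - q.2)
  refine ⟨y, ?_⟩
  rw [Finset.disjoint_left]
  intro z hz hz'
  rw [Finset.mem_image] at hz'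
  obtain ⟨z', hz', h⟩ := hz'
  apply hy
  rw [Finset.mem_image]
  refine ⟨(z, z'), Finset.mem_product.2 ⟨hz, hz'⟩, ?_⟩
  simp only
  rw [← h, add_sub_cancel_left]

end main

/-- asymptotic independence of far away cylinder functions under the limit law -/
theorem limit_mixing {Ω : Type*} [MeasurableSpace Ω] {P : Measure Ω} [IsProbabilityMeasure P]
    (Q : Par) {w : Site Q.d → ℝ≥0 → Ω → ℝ} (hw : Noise P w)
    {ν : Measure (ℝ≥0 × Site Q.d → ℝ)} [IsProbabilityMeasure ν]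
    (hν : FddTendsto P (fun t x ω => uu Q (pth w ω) 1 t x) ν)
    (I : Finset (ℝ≥0 × Site Q.d)) (f : BoundedContinuousFunction (I → ℝ) ℝ)
    (K : ℝ≥0) (hf : LipschitzWith K f) {η : ℝ} (hη : 0 < η) :
    ∃ y : Site Q.d, |∫ z, f (fun i => z i.1) * f (fun i => z (i.1.1, i.1.2 + y)) ∂ν -
      (∫ z, f (fun i => z i.1) ∂ν) ^ 2| ≤ η := by
  classical
  obtain ⟨C, hC, happ⟩ := G1_approx Q hw
  set B : ℝ := ‖f‖ with hB
  have hB0 : 0 ≤ B := norm_nonneg _
  have hfB : ∀ z, |f z| ≤ B := fun z => f.norm_coe_le_norm z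
  set ε : ℝ := η / (4 * (B + 1) * (K + 1) * (Fintype.card I + 1)) with hε
  have hε0 : 0 < ε := by positivity
  obtain ⟨N, m, hNm⟩ := happ ε hε0 (I.image Prod.fst)
  set Λ : Finset (Site Q.d) := I.biUnion fun q => (box Q.d m).image (· + q.2) with hΛ
  obtain ⟨y, hy⟩ := G1_sep Q.hd Λ
  refine ⟨y, ?_⟩
  -- the limits
  have hlim1 := hν I f
  set J : Finset (ℝ≥0 × Site Q.d) := I ∪ I.image (fun q => (q.1, q.2 + y)) with hJ
  set a : I → J := fun i => ⟨i.1, Finset.mem_union_left _ i.2⟩ with ha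
  set b : I → J := fun i => ⟨(i.1.1, i.1.2 + y),
    Finset.mem_union_right _ (Finset.mem_image_of_mem _ i.2)⟩ with hb
  have hca : Continuous fun (z : J → ℝ) (i : I) => z (a i) :=
    continuous_pi fun i => continuous_apply _
  have hcb : Continuous fun (z : J → ℝ) (i : I) => z (b i) :=
    continuous_pi fun i => continuous_apply _
  set g : BoundedContinuousFunction (J → ℝ) ℝ :=
    (f.compContinuous ⟨_, hca⟩) * (f.compContinuous ⟨_, hcb⟩) with hg
  have hlim2 := hν J g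
  have hgz : ∀ z : J → ℝ, g z = f (fun i => z (a i)) * f (fun i => z (b i)) := fun z => rfl
  have hlim3 : Tendsto (fun t : ℝ≥0 =>
      |∫ ω, g (fun i => uu Q (pth w ω) 1 (t + i.1.1) i.1.2) ∂P -
        (∫ ω, f (fun i => uu Q (pth w ω) 1 (t + i.1.1) i.1.2) ∂P) ^ 2|) atTop
      (𝓝 |∫ z, g (fun i => z i.1) ∂ν - (∫ z, f (fun i => z i.1) ∂ν) ^ 2|) :=
    (hlim2.sub (hlim1.pow 2)).abs
  have hgν : ∫ z, g (fun i => z i.1) ∂ν =
      ∫ z, f (fun i => z i.1) * f (fun i => z (i.1.1, i.1.2 + y)) ∂ν := rfl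
  rw [← hgν]
  refine le_of_tendsto hlim3 ?_
  filter_upwards [eventually_ge_atTop (N + 1)] with t ht
  -- fixed time
  set S : ℝ≥0 := t - N with hS
  have hS1 : 1 ≤ S := le_tsub_of_add_le_left ht
  have htS : ∀ τ : ℝ≥0, t + τ = S + (N + τ) := by
    intro τ
    have h1 : S + N = t := tsub_add_cancel_of_le (le_self_add.trans ht)
    rw [← add_assoc, h1]
  have hum : ∀ (T : ℝ≥0) (x : Site Q.d), Measurable fun ω => uu Q (pth w ω) 1 T x := fun T x =>
    ((measurable_ivE Q 1 T x).comp (measurable_pth hw)).ennreal_toReal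
  have hGm : ∀ (T : ℝ≥0) (x : Site Q.d), Measurable fun ω => G1_G Q S T C m x (pth w ω) :=
    fun T x => (G1_G_meas Q S T C m x).comp (measurable_pth hw)
  set X : Ω → I → ℝ := fun ω i => uu Q (pth w ω) 1 (t + i.1.1) i.1.2 with hX
  set X' : Ω → I → ℝ := fun ω i => uu Q (pth w ω) 1 (t + i.1.1) (i.1.2 + y) with hX'
  set G : Ω → I → ℝ := fun ω i => G1_G Q S (N + i.1.1) C m i.1.2 (pth w ω) with hG
  set G' : Ω → I → ℝ := fun ω i => G1_G Q S (N + i.1.1) C m (i.1.2 + y) (pth w ω) with hG'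
  have mX : Measurable X := measurable_pi_lambda _ fun i => hum _ _
  have mX' : Measurable X' := measurable_pi_lambda _ fun i => hum _ _
  have mG : Measurable G := measurable_pi_lambda _ fun i => hGm _ _
  have mG' : Measurable G' := measurable_pi_lambda _ fun i => hGm _ _
  set e : ℝ := K * (Fintype.card I * ε) with he
  have he1 : ∫ ω, |f (X ω) - f (G ω)| ∂P ≤ e := by
    refine G1_err f hf mX mG hε0.le fun i => ?_
    have := hNm S hS1 i.1.1 (Finset.mem_image_of_mem _ i.2) i.1.2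
    rw [← htS] at this
    exact this
  have he2 : ∫ ω, |f (X' ω) - f (G' ω)| ∂P ≤ e := by
    refine G1_err f hf mX' mG' hε0.le fun i => ?_
    have := hNm S hS1 i.1.1 (Finset.mem_image_of_mem _ i.2) (i.1.2 + y)
    rw [← htS] at this
    exact this
  have hp := G1_prod (P := P) (a := fun ω => f (X ω)) (b := fun ω => f (X' ω))
    (a' := fun ω => f (G ω)) (b' := fun ω => f (G' ω)) (B := B) (e := e)
    (G1_meas_f f mX) (G1_meas_f f mX') (G1_meas_f f mG) (G1_meas_f f mG')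
    (fun ω => hfB _) (fun ω => hfB _) (fun ω => hfB _) (fun ω => hfB _) he1 he2
  have hind : ∫ ω, f (G ω) * f (G' ω) ∂P = (∫ ω, f (G ω) ∂P) * ∫ ω, f (G' ω) ∂P := by
    have h1 := G1_indep Q hw hy S C m (fun i : I => N + i.1.1) (fun i => i.1.2)
      (fun i => i.1.2 + y) (fun i z hz => by
        rw [hΛ, Finset.mem_biUnion]
        exact ⟨i.1, i.2, Finset.mem_image_of_mem _ hz⟩) (fun i z hz => by
        rw [Finset.mem_image]
        refine ⟨z + i.1.2, ?_, by simp only [add_assoc]⟩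
        rw [hΛ, Finset.mem_biUnion]
        exact ⟨i.1, i.2, Finset.mem_image_of_mem _ hz⟩)
    have h2 := h1.comp f.continuous.measurable f.continuous.measurable
    exact h2.integral_fun_mul_eq_mul_integral (G1_meas_f f mG).aestronglyMeasurable
      (G1_meas_f f mG').aestronglyMeasurable
  have htr : ∫ ω, f (G' ω) ∂P = ∫ ω, f (G ω) ∂P :=
    G1_transl Q hw S C m (fun i : I => N + i.1.1) (fun i => i.1.2) y f
  rw [hind, htr] at hp
  have hEX : |∫ ω, f (X ω) ∂P| ≤ B := by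
    have h1 := norm_integral_le_of_norm_le_const (μ := P) (f := fun ω => f (X ω)) (C := B)
      (Eventually.of_forall fun ω => hfB _)
    simpa using h1
  have hEG : |∫ ω, f (G ω) ∂P| ≤ B := by
    have h1 := norm_integral_le_of_norm_le_const (μ := P) (f := fun ω => f (G ω)) (C := B)
      (Eventually.of_forall fun ω => hfB _)
    simpa using h1
  have hdiff : |∫ ω, f (X ω) ∂P - ∫ ω, f (G ω) ∂P| ≤ e := by
    rw [← integral_sub (G1_int_f f mX) (G1_int_f f mG)]
    exact abs_integral_le_integral_abs.trans he1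
  have hsq : |(∫ ω, f (G ω) ∂P) * (∫ ω, f (G ω) ∂P) - (∫ ω, f (X ω) ∂P) ^ 2| ≤ 2 * B * e := by
    have h1 : (∫ ω, f (G ω) ∂P) * (∫ ω, f (G ω) ∂P) - (∫ ω, f (X ω) ∂P) ^ 2 =
        -((∫ ω, f (X ω) ∂P - ∫ ω, f (G ω) ∂P) * (∫ ω, f (X ω) ∂P + ∫ ω, f (G ω) ∂P)) := by ring
    rw [h1, abs_neg, abs_mul]
    calc _ ≤ e * (B + B) := mul_le_mul hdiff ((abs_add_le _ _).trans (add_le_add hEX hEG))
          (abs_nonneg _) ((abs_nonneg _).trans hdiff)
      _ = 2 * B * e := by ring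
  have hgX : ∫ ω, g (fun i => uu Q (pth w ω) 1 (t + i.1.1) i.1.2) ∂P =
      ∫ ω, f (X ω) * f (X' ω) ∂P := rfl
  rw [hgX]
  have hfin : 4 * B * e ≤ η := by
    have h1 : 4 * B * e = 4 * B * K * Fintype.card I * ε := by rw [he]; ring
    rw [h1, hε, mul_div_assoc', div_le_iff₀ (by positivity), mul_comm]
    refine mul_le_mul_of_nonneg_left ?_ hη.le
    have hK0 : (0 : ℝ) ≤ K := K.2
    have hc0 : (0 : ℝ) ≤ Fintype.card I := Nat.cast_nonneg _
    gcongr <;> linarith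
  calc _ = |(∫ ω, f (X ω) * f (X' ω) ∂P - (∫ ω, f (G ω) ∂P) * (∫ ω, f (G ω) ∂P)) +
        ((∫ ω, f (G ω) ∂P) * (∫ ω, f (G ω) ∂P) - (∫ ω, f (X ω) ∂P) ^ 2)| := by
        congr 1
        ring
    _ ≤ 2 * B * e + 2 * B * e := (abs_add_le _ _).trans (add_le_add hp hsq)
    _ = 4 * B * e := by ring
    _ ≤ η := hfin

end Pool.Agent.H704R2.PAM
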