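import Pool.Agent.H704R2.PAM.E

set_option autoImplicit false
open MeasureTheory ProbabilityTheory Filter Topology Set
open scoped ENNReal NNReal

namespace Pool.Agent.H704R2.PAM

/-! Module H, first part: the infinite volume solution -/

variable {Ω : Type*} [MeasurableSpace Ω] {P : Measure Ω} [IsProbabilityMeasure P] (Q : Par)
  {w : Site Q.d → ℝ≥0 → Ω → ℝ}

theorem H1_mem_box {d m : ℕ} {x : Site d} :
    x ∈ box d m ↔ ∀ i, -(m : ℤ) ≤ x i ∧ x i ≤ m := by
  simp [box, Fintype.mem_piFinset]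

theorem H1_box_mono {d m n : ℕ} (h : m ≤ n) : box d m ⊆ box d n := by
  intro x hx
  rw [H1_mem_box] at hx ⊢
  intro i
  have h' : (m : ℤ) ≤ n := by exact_mod_cast h
  exact ⟨by linarith [(hx i).1], by linarith [(hx i).2]⟩

theorem H1_subset_box {d : ℕ} (Λ : Finset (Site d)) : ∃ M, Λ ⊆ box d M := by
  refine ⟨∑ x ∈ Λ, ∑ i, (x i).natAbs, ?_⟩
  intro x hx
  rw [H1_mem_box]
  intro i
  have h1 : (x i).natAbs ≤ ∑ i, (x i).natAbs :=
    Finset.single_le_sum (f := fun i => (x i).natAbs) (fun _ _ => Nat.zero_le _) (Finset.mem_univ i)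
  have h2 : ∑ i, (x i).natAbs ≤ ∑ x ∈ Λ, ∑ i, (x i).natAbs :=
    Finset.single_le_sum (f := fun x : Site d => ∑ i, (x i).natAbs) (fun _ _ => Nat.zero_le _) hx
  have h3 := h1.trans h2
  have h4 : ((x i).natAbs : ℤ) ≤ ((∑ x ∈ Λ, ∑ i, (x i).natAbs : ℕ) : ℤ) := by exact_mod_cast h3
  rw [Int.natCast_natAbs] at h4
  exact abs_le.1 h4

theorem measurable_ivE (c : ℝ) (T : ℝ≥0) (x : Site Q.d) :
    Measurable fun W : Site Q.d → ℝ≥0 → ℝ => ivE Q W c T x := by
  unfold ivE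
  refine Measurable.iSup fun m => ?_
  have h := measurable_fvE Q (box Q.d m) T x
  have h2 : Measurable fun W : Site Q.d → ℝ≥0 → ℝ =>
      ((W, fun _ => c) : (Site Q.d → ℝ≥0 → ℝ) × (Site Q.d → ℝ)) :=
    measurable_id.prodMk measurable_const
  have h3 := h.comp h2
  simpa only [Function.comp_def] using h3

/-- `ivE` depends on the increments only -/
theorem ivE_congr {W W' : Site Q.d → ℝ≥0 → ℝ} (c : ℝ) (T : ℝ≥0)
    (hWW : ∀ x s t, s ≤ T → t ≤ T → W x t - W x s = W' x t - W' x s) (x : Site Q.d) :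
    ivE Q W c T x = ivE Q W' c T x := by
  unfold ivE
  exact iSup_congr fun m => fvE_congr Q _ T (fun x _ s t hs ht => hWW x s t hs ht)
    (fun _ _ => rfl) x

theorem ivE_shx (W : Site Q.d → ℝ≥0 → ℝ) {c : ℝ} (hc : 0 ≤ c) (T : ℝ≥0) (x y : Site Q.d) :
    ivE Q W c T (x + y) = ivE Q (shx y W) c T x := by
  unfold ivE
  apply le_antisymm
  · refine iSup_le fun m => ?_
    obtain ⟨M, hM⟩ := H1_subset_box ((box Q.d m).image (fun z => z - y))
    refine le_trans ?_ (le_iSup (fun m => fvE Q (box Q.d m) (shx y W) (fun _ => c) T x) M)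
    have h1 := fvE_shift Q (box Q.d M) W (fun _ => c) T x y
    refine le_trans ?_ h1.le
    refine fvE_mono_set Q ?_ W (fun _ _ => hc) T (x + y)
    intro z hz
    rw [Finset.mem_image]
    refine ⟨z - y, hM (Finset.mem_image_of_mem _ hz), ?_⟩
    simp
  · refine iSup_le fun m => ?_
    obtain ⟨M, hM⟩ := H1_subset_box ((box Q.d m).image (fun z => z + y))
    refine le_trans ?_ (le_iSup (fun m => fvE Q (box Q.d m) W (fun _ => c) T (x + y)) M)
    have h1 := fvE_shift Q (box Q.d m) W (fun _ => c) T x y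
    refine le_trans h1.ge ?_
    exact fvE_mono_set Q hM W (fun _ _ => hc) T (x + y)

theorem ivE_extrap {W : Site Q.d → ℝ≥0 → ℝ} (hW : CP W)
    {c C C' m : ℝ} (hc : 0 < c) (hcC : c ≤ C) (hCC : C ≤ C') (hm : 0 ≤ m)
    (hrel : (c ^ Q.p)⁻¹ ≤ (1 + m) * (C ^ Q.p)⁻¹ - m * (C' ^ Q.p)⁻¹) (T : ℝ≥0) (x : Site Q.d) :
    ENNReal.ofReal (1 + m) * ivE Q W C T x ≤
      ivE Q W c T x + ENNReal.ofReal m * ivE Q W C' T x := by
  unfold ivE
  rw [ENNReal.mul_iSup]
  refine iSup_le fun n => ?_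
  have hC : 0 < C := lt_of_lt_of_le hc hcC
  have hC' : 0 < C' := lt_of_lt_of_le hC hCC
  have h := fv_extrap Q (box Q.d n) hW hc hcC hCC hm hrel T x
  have e1 := fvE_eq Q (box Q.d n) hW (v := fun _ => C) (fun _ => hC.le) T x
  have e2 := fvE_eq Q (box Q.d n) hW (v := fun _ => c) (fun _ => hc.le) T x
  have e3 := fvE_eq Q (box Q.d n) hW (v := fun _ => C') (fun _ => hC'.le) T x
  refine le_trans ?_ (add_le_add
    (le_iSup (fun n => fvE Q (box Q.d n) W (fun _ => c) T x) n)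
    (mul_le_mul_right (le_iSup (fun n => fvE Q (box Q.d n) W (fun _ => C') T x) n)
      (ENNReal.ofReal m)))
  simp only [e1, e2, e3]
  rw [← ENNReal.ofReal_mul (by linarith), ← ENNReal.ofReal_mul hm, ← ENNReal.ofReal_add
    (fv_nonneg Q _ _ _ _ _) (mul_nonneg hm (fv_nonneg Q _ _ _ _ _))]
  exact ENNReal.ofReal_le_ofReal h

theorem HH_mono {c c' : ℝ} (hc : 0 ≤ c) (hcc : c ≤ c') (T : ℝ≥0) :
    HH P Q w c T ≤ HH P Q w c' T := by
  unfold HH EL
  exact iSup_mono fun m => lintegral_mono fun ω =>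
    fvE_mono Q (box Q.d m) (pth w ω) (fun _ _ => hc) (fun _ _ => hcc) T 0

end Pool.Agent.H704R2.PAM
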