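import Pool.Agent.H704R2.PAM.N2

set_option autoImplicit false
open MeasureTheory ProbabilityTheory Filter Topology Set
open scoped ENNReal NNReal

namespace Pool.Agent.H704R2.PAM

/-! Module N1: independence -/

variable {Ω : Type*} [MeasurableSpace Ω] {P : Measure Ω} [IsProbabilityMeasure P] {d : ℕ}
  {w : Site d → ℝ≥0 → Ω → ℝ}

theorem N1_bool {α : Type*} [MeasurableSpace α] {f : Bool → Ω → α}
    (h : IndepFun (f false) (f true) P) : iIndepFun f P := by
  rw [iIndepFun_iff_measure_inter_preimage_eq_mul]
  intro S sets hS
  have key := (indepFun_iff_measure_inter_preimage_eq_mul.1 h)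
  by_cases hf : false ∈ S <;> by_cases ht : true ∈ S
  · have : S = {false, true} := by
      ext b; cases b <;> simp [hf, ht]
    subst this
    rw [Finset.prod_pair (by simp)]
    rw [← key _ _ (hS false (by simp)) (hS true (by simp))]
    congr 1
    ext ω
    simp
  · have : S = {false} := by
      ext b; cases b <;> simp [hf, ht]
    subst this
    simp
  · have : S = {true} := by
      ext b; cases b <;> simp [hf, ht]
    subst this
    simp
  · have : S = ∅ := by
      ext b; cases b <;> simp [hf, ht]
    subst this
    simp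

/-- past and future, as a family indexed by `Site × Bool` -/
noncomputable def N1_pf (w : Site d → ℝ≥0 → Ω → ℝ) (s : ℝ≥0) (x : Site d) : Bool → Ω → ℝ≥0 → ℝ
  | false => fun ω t => w x (min t s) ω
  | true => fun ω t => w x (s + t) ω - w x s ω

theorem N1_pf_meas (hw : Noise P w) (s : ℝ≥0) (x : Site d) (b : Bool) :
    Measurable (N1_pf w s x b) := by
  have h := hw.meas x
  cases b
  · exact measurable_pi_iff.2 fun t => h _
  · exact measurable_pi_iff.2 fun t => (h _).sub (h _)

theorem N1_pf_indep (hw : Noise P w) (s : ℝ≥0) :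
    iIndepFun (fun (p : Site d × Bool) ω => N1_pf w s p.1 p.2 ω) P := by
  refine iIndepFun_uncurry' (X := fun x b => N1_pf w s x b) (fun x b => N1_pf_meas hw s x b) ?_ ?_
  · have := hw.indep.comp (fun _ (z : ℝ≥0 → ℝ) (b : Bool) (t : ℝ≥0) =>
      if b then z (s + t) - z s else z (min t s)) (fun _ => by
        refine measurable_pi_iff.2 fun b => measurable_pi_iff.2 fun t => ?_
        cases b
        · simpa using measurable_pi_apply (min t s)
        · have : Measurable fun z : ℝ≥0 → ℝ => z (s + t) - z s :=
            (measurable_pi_apply (s + t)).sub (measurable_pi_apply s)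
          simpa using this)
    convert this using 1
    funext x ω b t
    cases b <;> simp [N1_pf]
  · intro x
    refine N1_bool ?_
    have h := ((hw.bm x).toIsPreBrownianReal.indepFun_shift s).symm
    have hm : ∀ t : ℝ≥0, min t s ∈ Set.Iic s := fun t => min_le_right t s
    have h2 := h.comp (φ := fun (z : Set.Iic s → ℝ) (t : ℝ≥0) => z ⟨min t s, hm t⟩)
      (ψ := id) (measurable_pi_iff.2 fun t => measurable_pi_apply _) measurable_id
    exact h2

/-- past and future are independent -/
theorem past_future (hw : Noise P w) (s : ℝ≥0) :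
    IndepFun (fun ω (q : Site d × Set.Iic s) => w q.1 q.2 ω) (fun ω => sh s (pth w ω)) P := by
  have h1 : IndepFun (fun ω (x : Site d) => N1_pf w s x false ω)
      (fun ω (x : Site d) => N1_pf w s x true ω) P := by
    refine IndepFun.process_indepFun_process (fun x => N1_pf_meas hw s x false)
      (fun x => N1_pf_meas hw s x true) fun I J => ?_
    classical
    have h := (N1_pf_indep hw s).indepFun_finset (I ×ˢ {false}) (J ×ˢ {true}) (by
      rw [Finset.disjoint_left]
      rintro ⟨x, b⟩ hx hy
      simp only [Finset.mem_product, Finset.mem_singleton] at hx hy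
      rw [hx.2] at hy
      simp at hy) (fun p => N1_pf_meas hw s p.1 p.2)
    have hI : ∀ i : I, (i.1, false) ∈ I ×ˢ ({false} : Finset Bool) := fun i => by simp
    have hJ : ∀ j : J, (j.1, true) ∈ J ×ˢ ({true} : Finset Bool) := fun j => by simp
    exact h.comp (φ := fun z (i : I) => z ⟨(i.1, false), hI i⟩)
      (ψ := fun z (j : J) => z ⟨(j.1, true), hJ j⟩)
      (measurable_pi_iff.2 fun i => measurable_pi_apply _)
      (measurable_pi_iff.2 fun i => measurable_pi_apply _)
  have h2 := h1.comp (φ := fun z (q : Site d × Set.Iic s) => z q.1 q.2) (ψ := id)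
    (by fun_prop) measurable_id
  have e1 : (fun ω (q : Site d × Set.Iic s) => w q.1 q.2 ω) =
      ((fun z (q : Site d × Set.Iic s) => z q.1 q.2) ∘ fun ω (x : Site d) =>
        N1_pf w s x false ω) := by
    funext ω q
    show w q.1 q.2 ω = w q.1 (min (q.2 : ℝ≥0) s) ω
    rw [min_eq_left q.2.2]
  have e2 : (fun ω => sh s (pth w ω)) = id ∘ fun ω (x : Site d) => N1_pf w s x true ω := by
    funext ω x t
    rfl
  rw [e1, e2]
  exact h2

/-- the noises in disjoint finite sets are independent -/
theorem noise_disjoint (hw : Noise P w) {Λ Λ' : Finset (Site d)} (h : Disjoint Λ Λ') :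
    IndepFun (fun ω (x : Λ) (t : ℝ≥0) => w x t ω) (fun ω (x : Λ') (t : ℝ≥0) => w x t ω) P :=
  hw.indep.indepFun_finset Λ Λ' h (fun x => N2_path hw x)

end Pool.Agent.H704R2.PAM
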