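import Pool.Agent.H704R2.PAM.M
import Pool.Agent.H704R2.PAM.N1
import Pool.Agent.H704R2.PAM.H1

set_option autoImplicit false
open MeasureTheory ProbabilityTheory Filter Topology Set
open scoped ENNReal NNReal

namespace Pool.Agent.H704R2.PAM

/-! Module H, second part: the expectation `HH c T` -/

variable {Ω : Type*} [MeasurableSpace Ω] {P : Measure Ω} [IsProbabilityMeasure P] (Q : Par)
  {w : Site Q.d → ℝ≥0 → Ω → ℝ}

theorem H2_meas (Λ : Finset (Site Q.d)) (c : ℝ) (T : ℝ≥0) (x : Site Q.d) :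
    Measurable fun W : Site Q.d → ℝ≥0 → ℝ => fvE Q Λ W (fun _ => c) T x := by
  have h := measurable_fvE Q Λ T x
  have h2 : Measurable fun W : Site Q.d → ℝ≥0 → ℝ =>
      ((W, fun _ => c) : (Site Q.d → ℝ≥0 → ℝ) × (Site Q.d → ℝ)) :=
    measurable_id.prodMk measurable_const
  have h3 := h.comp h2
  simpa only [Function.comp_def] using h3

theorem H2_EL_map (hw : Noise P w) (Λ : Finset (Site Q.d)) (c : ℝ) (T : ℝ≥0) (x : Site Q.d) :
    EL P Q w Λ c T x = ∫⁻ W, fvE Q Λ W (fun _ => c) T x ∂(P.map (pth w)) := by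
  rw [lintegral_map (H2_meas Q Λ c T x) (measurable_pth hw)]
  unfold EL
  rfl

/-- the expectation does not depend on the realisation of the noise -/
theorem EL_law {Ω' : Type*} [MeasurableSpace Ω'] {P' : Measure Ω'} [IsProbabilityMeasure P']
    {w' : Site Q.d → ℝ≥0 → Ω' → ℝ} (hw : Noise P w) (hw' : Noise P' w')
    (Λ : Finset (Site Q.d)) (c : ℝ) (T : ℝ≥0) (x : Site Q.d) :
    EL P Q w Λ c T x = EL P' Q w' Λ c T x := by
  rw [H2_EL_map Q hw, H2_EL_map Q hw', noise_law hw hw']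

theorem HH_law {Ω' : Type*} [MeasurableSpace Ω'] {P' : Measure Ω'} [IsProbabilityMeasure P']
    {w' : Site Q.d → ℝ≥0 → Ω' → ℝ} (hw : Noise P w) (hw' : Noise P' w') (c : ℝ) (T : ℝ≥0) :
    HH P Q w c T = HH P' Q w' c T := by
  unfold HH
  exact iSup_congr fun m => EL_law Q hw hw' _ c T 0

theorem EL_le_HH (hw : Noise P w) (Λ : Finset (Site Q.d)) {c : ℝ} (hc : 0 ≤ c) (T : ℝ≥0)
    (x : Site Q.d) : EL P Q w Λ c T x ≤ HH P Q w c T := by
  obtain ⟨M, hM⟩ := H1_subset_box (Λ.image (fun z => z - x))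
  have h1 : Λ ⊆ (box Q.d M).image (· + x) := by
    intro z hz
    rw [Finset.mem_image]
    refine ⟨z - x, hM (Finset.mem_image_of_mem _ hz), ?_⟩
    simp
  have h2 : EL P Q w Λ c T x ≤ EL P Q w ((box Q.d M).image (· + x)) c T x := by
    unfold EL
    exact lintegral_mono fun ω => fvE_mono_set Q h1 (pth w ω) (fun _ _ => hc) T x
  have h3 : EL P Q w ((box Q.d M).image (· + x)) c T x =
      EL P Q (fun z t ω => w (z + x) t ω) (box Q.d M) c T 0 := by
    unfold EL
    refine lintegral_congr fun ω => ?_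
    have := fvE_shift Q (box Q.d M) (pth w ω) (fun _ => c) T 0 x
    rw [zero_add] at this
    rw [this]
    rfl
  rw [h3, ← EL_law Q hw (noise_shx hw x)] at h2
  refine h2.trans ?_
  unfold HH
  exact le_iSup (fun m => EL P Q w (box Q.d m) c T 0) M

theorem HH_le_exp (hw : Noise P w) {c : ℝ} (hc : 0 ≤ c) (T : ℝ≥0) :
    HH P Q w c T ≤ ENNReal.ofReal (c * Real.exp (Q.al * T)) := by
  unfold HH
  exact iSup_le fun m => EL_le_exp Q hw _ hc T 0

theorem HH_le_C0 (hw : Noise P w) {c : ℝ} (hc : 0 ≤ c) :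
    HH P Q w c 1 ≤ ENNReal.ofReal (C0 Q) := by
  unfold HH
  exact iSup_le fun m => EL_le_C0 Q hw _ hc 0

theorem H2_lint0 (hw : Noise P w) {c : ℝ} (hc : 0 ≤ c) (T : ℝ≥0) :
    ∫⁻ ω, ivE Q (pth w ω) c T 0 ∂P = HH P Q w c T := by
  unfold ivE HH EL
  rw [lintegral_iSup]
  · intro m
    have h3 := (H2_meas Q (box Q.d m) c T 0).comp (measurable_pth hw)
    simpa only [Function.comp_def] using h3
  · intro m n hmn ω
    exact fvE_mono_set Q (H1_box_mono hmn) _ (fun _ _ => hc) T 0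

theorem lintegral_ivE (hw : Noise P w) {c : ℝ} (hc : 0 ≤ c) (T : ℝ≥0) (x : Site Q.d) :
    ∫⁻ ω, ivE Q (pth w ω) c T x ∂P = HH P Q w c T := by
  have h1 : ∀ ω, ivE Q (pth w ω) c T x =
      ivE Q (pth (fun z t ω => w (z + x) t ω) ω) c T 0 := by
    intro ω
    have := ivE_shx Q (pth w ω) hc T 0 x
    rw [zero_add] at this
    rw [this]
    rfl
  rw [lintegral_congr h1, H2_lint0 Q (noise_shx hw x) hc T, HH_law Q (noise_shx hw x) hw]

end Pool.Agent.H704R2.PAM
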