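import Pool.Agent.H704R2.PAM.E
import Pool.Agent.H704R2.PAM.N1

set_option autoImplicit false
open MeasureTheory ProbabilityTheory Filter Topology Set
open scoped ENNReal NNReal

namespace Pool.Agent.H704R2.PAM

/-! Module H, third part: Jensen for a random initial field -/

variable {Ω : Type*} [MeasurableSpace Ω] {P : Measure Ω} [IsProbabilityMeasure P] (Q : Par)
  {w : Site Q.d → ℝ≥0 → Ω → ℝ}

/-- Jensen for a random initial field which depends on the past -/
theorem EL_jensen (hw : Noise P w) (Λ : Finset (Site Q.d)) (S T : ℝ≥0)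
    (G : (Site Q.d × Set.Iic S → ℝ) → Site Q.d → ℝ) (hG : Measurable G) (hG0 : ∀ z x, 0 ≤ G z x)
    (hGi : ∀ x, Integrable (fun ω => G (fun q => w q.1 q.2 ω) x) P) (x : Site Q.d) :
    ∫⁻ ω, fvE Q Λ (sh S (pth w ω)) (G (fun q => w q.1 q.2 ω)) T x ∂P ≤
      ∫⁻ ω, fvE Q Λ (sh S (pth w ω)) (fun y => ∫ ω', G (fun q => w q.1 q.2 ω') y ∂P) T x ∂P := by
  set A : Ω → (Site Q.d × Set.Iic S → ℝ) := fun ω q => w q.1 q.2 ω with hA
  have hAm : Measurable A := by
    rw [measurable_pi_iff]
    intro q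
    exact hw.meas q.1 q.2
  have hBm : Measurable fun ω => sh S (pth w ω) := by
    have h3 := (measurable_sh (d := Q.d) S).comp (measurable_pth hw)
    simpa only [Function.comp_def] using h3
  have hind : P.map (fun ω => (A ω, sh S (pth w ω))) =
      (P.map A).prod (P.map fun ω => sh S (pth w ω)) :=
    (indepFun_iff_map_prod_eq_prod_map_map hAm.aemeasurable hBm.aemeasurable).1
      (past_future hw S)
  have hPA : IsProbabilityMeasure (P.map A) := Measure.isProbabilityMeasure_map hAm.aemeasurable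
  have hPB : IsProbabilityMeasure (P.map fun ω => sh S (pth w ω)) :=
    Measure.isProbabilityMeasure_map hBm.aemeasurable
  -- the joint map
  have hF : Measurable fun q : (Site Q.d × Set.Iic S → ℝ) × (Site Q.d → ℝ≥0 → ℝ) =>
      fvE Q Λ q.2 (G q.1) T x := by
    have h1 := measurable_fvE Q Λ T x
    have h2 : Measurable fun q : (Site Q.d × Set.Iic S → ℝ) × (Site Q.d → ℝ≥0 → ℝ) =>
        ((q.2, G q.1) : (Site Q.d → ℝ≥0 → ℝ) × (Site Q.d → ℝ)) :=
      measurable_snd.prodMk (hG.comp measurable_fst)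
    have h3 := h1.comp h2
    simpa only [Function.comp_def] using h3
  have e1 : ∫⁻ ω, fvE Q Λ (sh S (pth w ω)) (G (A ω)) T x ∂P =
      ∫⁻ q, fvE Q Λ q.2 (G q.1) T x ∂(P.map (fun ω => (A ω, sh S (pth w ω)))) := by
    rw [lintegral_map hF (hAm.prodMk hBm)]
  have e2 : ∫⁻ q, fvE Q Λ q.2 (G q.1) T x ∂((P.map A).prod (P.map fun ω => sh S (pth w ω))) =
      ∫⁻ W, (∫⁻ z, fvE Q Λ W (G z) T x ∂(P.map A)) ∂(P.map fun ω => sh S (pth w ω)) := by
    rw [lintegral_prod_symm _ hF.aemeasurable]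
  have e3 : ∫⁻ W, (∫⁻ z, fvE Q Λ W (G z) T x ∂(P.map A)) ∂(P.map fun ω => sh S (pth w ω)) =
      ∫⁻ ω', (∫⁻ z, fvE Q Λ (sh S (pth w ω')) (G z) T x ∂(P.map A)) ∂P := by
    rw [lintegral_map _ hBm]
    exact hF.lintegral_prod_left'
  rw [e1, hind, e2, e3]
  refine lintegral_mono fun ω' => ?_
  have hCP : CP (sh S (pth w ω')) := by
    intro y
    have hc := hw.cont y ω'
    unfold sh pth
    fun_prop
  have hgm : ∀ y, Measurable fun z => G z y := fun y => (measurable_pi_apply y).comp hG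
  have hgi : ∀ y, Integrable (fun z => G z y) (P.map A) := by
    intro y
    rw [integrable_map_measure (hgm y).aestronglyMeasurable hAm.aemeasurable]
    exact hGi y
  have hj := fvE_jensen Q Λ hCP (P.map A) G hG0 hgm hgi T x
  have he : (fun y => ∫ z, G z y ∂(P.map A)) = fun y => ∫ ω', G (A ω') y ∂P := by
    funext y
    exact integral_map hAm.aemeasurable (hgm y).aestronglyMeasurable
  rw [he] at hj
  exact hj

end Pool.Agent.H704R2.PAM
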