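import Pool.Agent.H704R2.PAM.H

set_option autoImplicit false
open MeasureTheory ProbabilityTheory Filter Topology Set
open scoped ENNReal NNReal

namespace Pool.Agent.H704R2.PAM

/-! Module I: the two key inequalities -/

variable {Ω : Type*} [MeasurableSpace Ω] {P : Measure Ω} [IsProbabilityMeasure P] (Q : Par)
  {w : Site Q.d → ℝ≥0 → Ω → ℝ}

/-- the field at time `S` as a function of the past -/
noncomputable def I_G (Λ : Finset (Site Q.d)) (c : ℝ) (S : ℝ≥0) (z : Site Q.d × Set.Iic S → ℝ)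
    (x : Site Q.d) : ℝ :=
  fv Q Λ (fun y t => z (y, ⟨min t S, min_le_right t S⟩)) (fun _ => c) S x

theorem I_comp {α : Type*} [MeasurableSpace α] (Λ : Finset (Site Q.d)) (T : ℝ≥0) (x : Site Q.d)
    (f : α → Site Q.d → ℝ≥0 → ℝ) (g : α → Site Q.d → ℝ) (hf : Measurable f) (hg : Measurable g) :
    Measurable fun a => fvE Q Λ (f a) (g a) T x := by
  have h1 := measurable_fvE Q Λ T x
  have h2 : Measurable fun a => (f a, g a) := hf.prodMk hg
  have h3 := Measurable.comp h1 h2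
  exact h3

/-- the path frozen at time `S` -/
def I_frz {d : ℕ} (S : ℝ≥0) (z : Site d × Set.Iic S → ℝ) : Site d → ℝ≥0 → ℝ :=
  fun y t => z (y, ⟨min t S, min_le_right t S⟩)

theorem I_frz_meas {d : ℕ} (S : ℝ≥0) : Measurable (I_frz (d := d) S) := by
  refine measurable_pi_iff.2 fun y => measurable_pi_iff.2 fun t => ?_
  exact measurable_pi_apply (y, (⟨min t S, min_le_right t S⟩ : Set.Iic S))

theorem I_G_eq (Λ : Finset (Site Q.d)) (c : ℝ) (S : ℝ≥0) (z : Site Q.d × Set.Iic S → ℝ)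
    (x : Site Q.d) : I_G Q Λ c S z x = (fvE Q Λ (I_frz S z) (fun _ => c) S x).toReal := rfl

theorem I_G_meas (Λ : Finset (Site Q.d)) (c : ℝ) (S : ℝ≥0) : Measurable (I_G Q Λ c S) := by
  refine measurable_pi_iff.2 fun x => ?_
  have h1 := I_comp Q Λ S x (I_frz S) (fun _ _ => c) (I_frz_meas S) measurable_const
  have h2 := h1.ennreal_toReal
  simp only [I_G_eq]
  exact h2

theorem I_G_nonneg (Λ : Finset (Site Q.d)) (c : ℝ) (S : ℝ≥0) (z : Site Q.d × Set.Iic S → ℝ)
    (x : Site Q.d) : 0 ≤ I_G Q Λ c S z x := fv_nonneg Q Λ _ _ S x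

theorem I_G_past (Λ : Finset (Site Q.d)) (c : ℝ) (S : ℝ≥0) (ω : Ω) (x : Site Q.d) :
    I_G Q Λ c S (fun q => w q.1 q.2 ω) x = fv Q Λ (pth w ω) (fun _ => c) S x := by
  unfold I_G fv
  congr 1
  apply fvE_congr
  · intro y _ s t hs ht
    simp only [min_eq_left hs, min_eq_left ht]
    rfl
  · intro y _
    rfl

theorem I_CP (hw : Noise P w) (ω : Ω) : CP (pth w ω) := fun x => hw.cont x ω

theorem I_CPsh (hw : Noise P w) (S : ℝ≥0) (ω : Ω) : CP (sh S (pth w ω)) := fun x => by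
  unfold sh
  have h : Continuous fun t : ℝ≥0 => pth w ω x t := I_CP Q hw ω x
  exact (h.comp (continuous_const.add continuous_id)).sub continuous_const

theorem I_meas (hw : Noise P w) (Λ : Finset (Site Q.d)) (c : ℝ) (T : ℝ≥0) (x : Site Q.d) :
    Measurable fun ω => fvE Q Λ (pth w ω) (fun _ => c) T x :=
  I_comp Q Λ T x (pth w) (fun _ _ => c) (measurable_pth hw) measurable_const

theorem I_meas_sh (hw : Noise P w) (Λ : Finset (Site Q.d)) (c : ℝ) (S T : ℝ≥0) (x : Site Q.d) :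
    Measurable fun ω => fvE Q Λ (sh S (pth w ω)) (fun _ => c) T x :=
  I_comp Q Λ T x (fun ω => sh S (pth w ω)) (fun _ _ => c)
    ((measurable_sh S).comp (measurable_pth hw)) measurable_const

theorem I_EL_ne (hw : Noise P w) (Λ : Finset (Site Q.d)) {c : ℝ} (hc : 0 ≤ c) (S : ℝ≥0)
    (x : Site Q.d) : EL P Q w Λ c S x ≠ ∞ :=
  ne_top_of_le_ne_top ENNReal.ofReal_ne_top (EL_le_exp Q hw Λ hc S x)

theorem I_HH_ne (hw : Noise P w) {c : ℝ} (hc : 0 ≤ c) (S : ℝ≥0) : HH P Q w c S ≠ ∞ :=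
  ne_top_of_le_ne_top ENNReal.ofReal_ne_top (HH_le_exp Q hw hc S)

theorem I_G_int (hw : Noise P w) (Λ : Finset (Site Q.d)) {c : ℝ} (hc : 0 ≤ c) (S : ℝ≥0)
    (x : Site Q.d) : Integrable (fun ω => I_G Q Λ c S (fun q => w q.1 q.2 ω) x) P := by
  simp only [I_G_past]
  unfold fv
  exact integrable_toReal_of_lintegral_ne_top (I_meas Q hw Λ c S x).aemeasurable
    (I_EL_ne Q hw Λ hc S x)

theorem I_G_mean (hw : Noise P w) (Λ : Finset (Site Q.d)) {c : ℝ} (hc : 0 ≤ c) (S : ℝ≥0)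
    (x : Site Q.d) : ∫ ω, I_G Q Λ c S (fun q => w q.1 q.2 ω) x ∂P ≤ (HH P Q w c S).toReal := by
  simp only [I_G_past]
  unfold fv
  rw [integral_toReal (I_meas Q hw Λ c S x).aemeasurable]
  · exact ENNReal.toReal_mono (I_HH_ne Q hw hc S) (EL_le_HH Q hw Λ hc S x)
  · refine Filter.Eventually.of_forall fun ω => ?_
    rw [fvE_eq Q Λ (I_CP Q hw ω) (fun _ => hc) S x]
    exact ENNReal.ofReal_lt_top

theorem I_cocycle (hw : Noise P w) (Λ : Finset (Site Q.d)) {c : ℝ} (hc : 0 ≤ c) (S T : ℝ≥0)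
    (x : Site Q.d) (ω : Ω) : fvE Q Λ (pth w ω) (fun _ => c) (S + T) x =
      fvE Q Λ (sh S (pth w ω)) (I_G Q Λ c S (fun q => w q.1 q.2 ω)) T x := by
  rw [fvE_eq Q Λ (I_CP Q hw ω) (fun _ => hc) (S + T) x,
    fvE_eq Q Λ (I_CPsh Q hw S ω) (fun y => I_G_nonneg Q Λ c S _ y) T x,
    fv_cocycle Q Λ (I_CP Q hw ω) (fun _ => hc) S T x]
  congr 3
  ext y
  exact (I_G_past Q Λ c S ω y).symm

theorem I_shift_le (hw : Noise P w) (Λ : Finset (Site Q.d)) {a : ℝ} (ha : 0 ≤ a) (S T : ℝ≥0)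
    (v : Site Q.d → ℝ) (hv0 : ∀ y, 0 ≤ v y) (hv : ∀ y, v y ≤ a) (x : Site Q.d) :
    ∫⁻ ω, fvE Q Λ (sh S (pth w ω)) v T x ∂P ≤ HH P Q w a T := by
  calc ∫⁻ ω, fvE Q Λ (sh S (pth w ω)) v T x ∂P
      ≤ ∫⁻ ω, fvE Q Λ (sh S (pth w ω)) (fun _ => a) T x ∂P :=
        lintegral_mono fun ω => fvE_mono Q Λ _ (fun y _ => hv0 y) (fun y _ => hv y) T x
    _ = EL P Q (fun x t ω => w x (S + t) ω - w x S ω) Λ a T x := rfl
    _ = EL P Q w Λ a T x := EL_law Q (noise_sh hw S) hw Λ a T x
    _ ≤ _ := EL_le_HH Q hw Λ ha T x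

/-- `H(c, S+T) ≤ H(H(c,S), T)` -/
theorem HH_submult (hw : Noise P w) {c : ℝ} (hc : 0 ≤ c) (S T : ℝ≥0) :
    HH P Q w c (S + T) ≤ HH P Q w (HH P Q w c S).toReal T := by
  refine iSup_le fun m => ?_
  unfold EL
  simp only [I_cocycle Q hw _ hc S T]
  refine (EL_jensen Q hw (box Q.d m) S T (I_G Q (box Q.d m) c S) (I_G_meas Q _ c S)
    (I_G_nonneg Q _ c S) (I_G_int Q hw _ hc S) 0).trans ?_
  exact I_shift_le Q hw _ ENNReal.toReal_nonneg S T _
    (fun y => integral_nonneg fun ω => I_G_nonneg Q _ c S _ y) (I_G_mean Q hw _ hc S) 0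

theorem I_box_mono (d : ℕ) {m n : ℕ} (h : m ≤ n) : box d m ⊆ box d n := by
  unfold box
  apply Fintype.piFinset_subset
  intro i
  apply Finset.Icc_subset_Icc
  · simpa using h
  · exact_mod_cast h

/-- comparison of the solution started at time 0 with the solution started at time `S` -/
theorem lintegral_max_le (hw : Noise P w) {C : ℝ} (hC : 0 ≤ C) (S T : ℝ≥0)
    (hS : HH P Q w C S ≤ ENNReal.ofReal C) (x : Site Q.d) :
    ∫⁻ ω, max (ivE Q (pth w ω) C (S + T) x) (ivE Q (sh S (pth w ω)) C T x) ∂P ≤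
      HH P Q w (2 * C) T := by
  have h1 : ∀ ω, max (ivE Q (pth w ω) C (S + T) x) (ivE Q (sh S (pth w ω)) C T x) =
      ⨆ m : ℕ, max (fvE Q (box Q.d m) (pth w ω) (fun _ => C) (S + T) x)
        (fvE Q (box Q.d m) (sh S (pth w ω)) (fun _ => C) T x) := by
    intro ω
    unfold ivE
    exact iSup_sup_eq.symm
  simp only [h1]
  rw [lintegral_iSup]
  · refine iSup_le fun m => ?_
    have hGm : Measurable fun (z : Site Q.d × Set.Iic S → ℝ) (y : Site Q.d) =>
        max (I_G Q (box Q.d m) C S z y) C := by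
      refine measurable_pi_iff.2 fun y => ?_
      exact (measurable_pi_iff.1 (I_G_meas Q (box Q.d m) C S) y).max measurable_const
    have hGi := I_G_int Q hw (box Q.d m) hC S
    have hGi' : ∀ y, Integrable
        (fun ω => max (I_G Q (box Q.d m) C S (fun q => w q.1 q.2 ω) y) C) P := fun y =>
      (hGi y).sup (integrable_const C)
    calc ∫⁻ ω, max (fvE Q (box Q.d m) (pth w ω) (fun _ => C) (S + T) x)
          (fvE Q (box Q.d m) (sh S (pth w ω)) (fun _ => C) T x) ∂P
        ≤ ∫⁻ ω, fvE Q (box Q.d m) (sh S (pth w ω))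
            (fun y => max (I_G Q (box Q.d m) C S (fun q => w q.1 q.2 ω) y) C) T x ∂P := by
          refine lintegral_mono fun ω => ?_
          rw [I_cocycle Q hw _ hC S T]
          refine max_le ?_ ?_
          · exact fvE_mono Q _ _ (fun y _ => I_G_nonneg Q _ C S _ y) (fun y _ => le_max_left _ _)
              T x
          · exact fvE_mono Q _ _ (fun y _ => hC) (fun y _ => le_max_right _ _) T x
      _ ≤ ∫⁻ ω, fvE Q (box Q.d m) (sh S (pth w ω))
            (fun y => ∫ ω', max (I_G Q (box Q.d m) C S (fun q => w q.1 q.2 ω') y) C ∂P) T x ∂P :=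
          EL_jensen Q hw (box Q.d m) S T
            (fun z y => max (I_G Q (box Q.d m) C S z y) C) hGm
            (fun z y => hC.trans (le_max_right _ _)) hGi' x
      _ ≤ HH P Q w (2 * C) T := by
          refine I_shift_le Q hw _ (by positivity) S T _
            (fun y => integral_nonneg fun ω => hC.trans (le_max_right _ _)) (fun y => ?_) x
          calc ∫ ω', max (I_G Q (box Q.d m) C S (fun q => w q.1 q.2 ω') y) C ∂P
              ≤ ∫ ω', (I_G Q (box Q.d m) C S (fun q => w q.1 q.2 ω') y + C) ∂P := by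
                refine integral_mono (hGi' y) ((hGi y).add (integrable_const C)) fun ω => ?_
                have := I_G_nonneg Q (box Q.d m) C S (fun q => w q.1 q.2 ω) y
                exact max_le (by linarith) (by linarith)
            _ = ∫ ω', I_G Q (box Q.d m) C S (fun q => w q.1 q.2 ω') y ∂P + C := by
                rw [integral_add (hGi y) (integrable_const C)]
                simp
            _ ≤ C + C := by
                refine add_le_add ((I_G_mean Q hw _ hC S y).trans ?_) le_rfl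
                calc (HH P Q w C S).toReal ≤ (ENNReal.ofReal C).toReal :=
                      ENNReal.toReal_mono ENNReal.ofReal_ne_top hS
                  _ = C := ENNReal.toReal_ofReal hC
            _ = 2 * C := by ring
  · intro m
    exact (I_meas Q hw _ C (S + T) x).max (I_meas_sh Q hw _ C S T x)
  · intro m n hmn ω
    exact max_le_max (fvE_mono_set Q (I_box_mono Q.d hmn) _ (fun _ _ => hC) _ x)
      (fvE_mono_set Q (I_box_mono Q.d hmn) _ (fun _ _ => hC) _ x)

end Pool.Agent.H704R2.PAM
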