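import Pool.Agent.H704R2.PAM.N1

set_option autoImplicit false
open MeasureTheory ProbabilityTheory Filter Topology Set
open scoped ENNReal NNReal

namespace Pool.Agent.H704R2.PAM

/-! Module K: the concatenated noises -/

/-- grouping an independent family indexed by pairs -/
theorem K_group {Ω : Type*} [MeasurableSpace Ω] {P : Measure Ω} [IsProbabilityMeasure P]
    {ι κ X : Type*} [MeasurableSpace X] {G : ι → κ → Ω → X} (hG : ∀ i j, Measurable (G i j))
    (h : iIndepFun (fun (p : ι × κ) ω => G p.1 p.2 ω) P) :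
    iIndepFun (fun i ω j => G i j ω) P := by
  have hpr : ∀ i j, IsProbabilityMeasure (P.map (G i j)) :=
    fun i j => Measure.isProbabilityMeasure_map (hG i j).aemeasurable
  have hm1 : ∀ p : ι × κ, Measurable (fun ω => G p.1 p.2 ω) := fun p => hG p.1 p.2
  have h1 := (iIndepFun_iff_map_fun_eq_infinitePi_map hm1).1 h
  have hm2 : ∀ i, Measurable (fun ω j => G i j ω) := fun i => measurable_pi_lambda _ fun j => hG i j
  rw [iIndepFun_iff_map_fun_eq_infinitePi_map hm2]
  have e1 : ∀ i, P.map (fun ω j => G i j ω) = Measure.infinitePi fun j => P.map (G i j) := by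
    intro i
    have hi : iIndepFun (fun j ω => G i j ω) P := by
      have := h.precomp (g := fun j : κ => (i, j)) (fun a b hab => by simpa using hab)
      exact this
    exact (iIndepFun_iff_map_fun_eq_infinitePi_map (hG i)).1 hi
  simp_rw [e1]
  have h2 : (fun ω i j => G i j ω) =
      (MeasurableEquiv.curry ι κ X) ∘ (fun ω (p : ι × κ) => G p.1 p.2 ω) := by
    funext ω i j; rfl
  rw [h2, ← Measure.map_map (by fun_prop) (by fun_prop), h1,
    Measure.infinitePi_map_curry (fun i j => P.map (G i j))]

/-- transport of an independent family by a measure preserving map -/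
theorem K_indep_comp {Ω Ω' : Type*} [MeasurableSpace Ω] [MeasurableSpace Ω'] {P : Measure Ω}
    {P' : Measure Ω'} [IsProbabilityMeasure P] [IsProbabilityMeasure P'] {φ : Ω' → Ω}
    (hφ : MeasurePreserving φ P' P) {ι X : Type*} [MeasurableSpace X] {G : ι → Ω → X}
    (hG : ∀ i, Measurable (G i)) (h : iIndepFun G P) : iIndepFun (fun i ω => G i (φ ω)) P' := by
  have hGφ : ∀ i, Measurable (fun ω => G i (φ ω)) := fun i => (hG i).comp hφ.measurable
  rw [iIndepFun_iff_map_fun_eq_infinitePi_map hGφ]
  have h1 := (iIndepFun_iff_map_fun_eq_infinitePi_map hG).1 h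
  have hm : Measurable (fun ω i => G i ω) := measurable_pi_lambda _ hG
  have e1 : P'.map (fun ω i => G i (φ ω)) = P.map (fun ω i => G i ω) := by
    rw [← hφ.map_eq, Measure.map_map hm hφ.measurable]; rfl
  have e2 : ∀ i, P'.map (fun ω => G i (φ ω)) = P.map (G i) := by
    intro i
    rw [← hφ.map_eq, Measure.map_map (hG i) hφ.measurable]; rfl
  rw [e1, h1]
  simp_rw [e2]

/-- transport of a pre-Brownian motion by a measure preserving map -/
theorem K_bm_comp {Ω Ω' : Type*} [MeasurableSpace Ω] [MeasurableSpace Ω'] {P : Measure Ω}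
    {P' : Measure Ω'} {φ : Ω' → Ω} (hφ : MeasurePreserving φ P' P) {B : ℝ≥0 → Ω → ℝ}
    (hm : ∀ t, Measurable (B t)) (hB : IsPreBrownianReal B P) :
    IsPreBrownianReal (fun t ω => B t (φ ω)) P' where
  hasLaw I := by
    have h := hB.hasLaw I
    have hmI : Measurable (fun ω => I.restrict (B · ω)) :=
      measurable_pi_lambda _ fun i => hm i
    refine ⟨(hmI.comp hφ.measurable).aemeasurable, ?_⟩
    rw [← h.map_eq, ← hφ.map_eq, Measure.map_map hmI hφ.measurable]; rfl

/-- concatenation of two independent pre-Brownian motions at time 1 -/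
theorem K_concat {Ω : Type*} [MeasurableSpace Ω] {P : Measure Ω} [IsProbabilityMeasure P]
    {X Y : ℝ≥0 → Ω → ℝ} (hX : IsPreBrownianReal X P) (hY : IsPreBrownianReal Y P)
    (h : IndepFun (fun ω t => X t ω) (fun ω t => Y t ω) P) :
    IsPreBrownianReal (fun t ω => X (min t 1) ω + Y (t - 1) ω) P := by
  have mX : ∀ t, MemLp (X t) 2 P := fun t =>
    (hX.isGaussianProcess.hasGaussianLaw_eval t).memLp_two
  have mY : ∀ t, MemLp (Y t) 2 P := fun t =>
    (hY.isGaussianProcess.hasGaussianLaw_eval t).memLp_two
  have hXY : ∀ s t, IndepFun (X s) (Y t) P := fun s t =>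
    h.comp (φ := fun f : ℝ≥0 → ℝ => f s) (ψ := fun f : ℝ≥0 → ℝ => f t)
      (measurable_pi_apply s) (measurable_pi_apply t)
  refine IsGaussianProcess.isPreBrownianReal_of_covariance ⟨fun I => ?_⟩ (fun t => ?_)
    (fun s t hst => ?_)
  · have hX' := (hX.isGaussianProcess.comp_right (fun t : ℝ≥0 => min t 1)).hasGaussianLaw I
    have hY' := (hY.isGaussianProcess.comp_right (fun t : ℝ≥0 => t - 1)).hasGaussianLaw I
    have hind : IndepFun (fun ω => I.restrict ((X ∘ (fun t : ℝ≥0 => min t 1)) · ω))
        (fun ω => I.restrict ((Y ∘ (fun t : ℝ≥0 => t - 1)) · ω)) P :=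
      h.comp (φ := fun (f : ℝ≥0 → ℝ) (i : I) => f (min i.1 1))
        (ψ := fun (f : ℝ≥0 → ℝ) (i : I) => f (i.1 - 1))
        (measurable_pi_lambda _ fun i => measurable_pi_apply _)
        (measurable_pi_lambda _ fun i => measurable_pi_apply _)
    exact (hind.hasGaussianLaw hX' hY').add
  · rw [integral_add (hX.integrable_eval _) (hY.integrable_eval _), hX.integral_eval,
      hY.integral_eval, add_zero]
  · show cov[X (min s 1) + Y (s - 1), X (min t 1) + Y (t - 1); P] = s
    rw [covariance_add_left (mX _) (mY _) ((mX _).add (mY _)),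
      covariance_add_right (mX _) (mX _) (mY _),
      covariance_add_right (mY _) (mX _) (mY _),
      hX.covariance_eval, hY.covariance_eval,
      (hXY _ _).covariance_eq_zero (mX _) (mY _),
      covariance_comm (Y (s - 1)), (hXY _ _).covariance_eq_zero (mX _) (mY _)]
    have h1 : min (min s 1) (min t 1) = min s 1 := by
      rw [min_eq_left]; exact min_le_min_right _ hst
    have h2 : min (s - 1) (t - 1) = s - 1 := min_eq_left (tsub_le_tsub_right hst 1)
    rw [h1, h2]
    have h3 : min s 1 + (s - 1) = s := by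
      rcases le_total s 1 with hs | hs
      · rw [min_eq_left hs, tsub_eq_zero_of_le hs, add_zero]
      · rw [min_eq_right hs, add_tsub_cancel_of_le hs]
    have h4 : ((min s 1 : ℝ≥0) : ℝ) + ((s - 1 : ℝ≥0) : ℝ) = s := by exact_mod_cast h3
    simpa using h4

/-- the concatenation as a deterministic function of the family of paths -/
noncomputable def K_cat : ℕ → (ℕ → ℝ≥0 → ℝ) → ℝ≥0 → ℝ
  | 0 => fun g t => g 0 t
  | N + 1 => fun g t => g (N + 1) (min t 1) + K_cat N g (t - 1)

theorem K_cat_meas (N : ℕ) : Measurable (K_cat N) := by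
  induction N with
  | zero => exact measurable_pi_lambda _ fun t => by unfold K_cat; fun_prop
  | succ N ih =>
    refine measurable_pi_lambda _ fun t => ?_
    show Measurable fun g : ℕ → ℝ≥0 → ℝ => g (N + 1) (min t 1) + K_cat N g (t - 1)
    have h2 : Measurable fun g : ℕ → ℝ≥0 → ℝ => K_cat N g (t - 1) :=
      (measurable_pi_apply (t - 1)).comp ih
    have h1 : Measurable fun g : ℕ → ℝ≥0 → ℝ => g (N + 1) (min t 1) := by fun_prop
    exact h1.add h2

theorem K_cat_congr (N : ℕ) (g g' : ℕ → ℝ≥0 → ℝ) (h : ∀ n ≤ N, g n = g' n) :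
    K_cat N g = K_cat N g' := by
  induction N with
  | zero => funext t; show g 0 t = g' 0 t; rw [h 0 le_rfl]
  | succ N ih =>
    funext t
    show g (N + 1) (min t 1) + K_cat N g (t - 1) = g' (N + 1) (min t 1) + K_cat N g' (t - 1)
    rw [h (N + 1) le_rfl, ih fun n hn => h n (by omega)]

theorem K_cat_eq {Ω : Type*} {d : ℕ} (w : Site d → ℝ≥0 → Ω → ℝ) (N : ℕ) (x : Site d) (t : ℝ≥0)
    (ω : ℕ → Ω) : cat w N x t ω = K_cat N (fun n t => w x t (ω n)) t := by
  induction N generalizing t with
  | zero => rfl
  | succ N ih =>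
    show w x (min t 1) (ω (N + 1)) + cat w N x (t - 1) ω = _
    rw [ih]; rfl

theorem noise_cat {Ω : Type*} [MeasurableSpace Ω] {P : Measure Ω} [IsProbabilityMeasure P] {d : ℕ}
    {w : Site d → ℝ≥0 → Ω → ℝ} (hw : Noise P w) (N : ℕ) :
    Noise (Measure.infinitePi fun _ : ℕ => P) (cat w N) := by
  set Q : Measure (ℕ → Ω) := Measure.infinitePi fun _ : ℕ => P with hQ
  have hev : ∀ n : ℕ, MeasurePreserving (fun ω : ℕ → Ω => ω n) Q P := fun n =>
    measurePreserving_eval_infinitePi (fun _ : ℕ => P) n
  have hmp : ∀ x, Measurable (fun ω t => w x t ω) := fun x =>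
    measurable_pi_lambda _ fun t => hw.meas x t
  -- the independent family of paths
  have hfam : iIndepFun (fun (p : ℕ × Site d) (ω : ℕ → Ω) => fun t => w p.2 t (ω p.1)) Q := by
    refine iIndepFun_uncurry' (X := fun (n : ℕ) (x : Site d) (ω : ℕ → Ω) => fun t => w x t (ω n))
      (fun n x => (hmp x).comp (hev n).measurable) ?_ fun n => ?_
    · exact iIndepFun_infinitePi (P := fun _ : ℕ => P) (X := fun (_ : ℕ) ω x t => w x t ω)
        (fun _ => measurable_pi_lambda _ fun x => hmp x)
    · exact K_indep_comp (hev n) hmp hw.indep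
  have hfam' : iIndepFun (fun (p : Site d × ℕ) (ω : ℕ → Ω) => fun t => w p.1 t (ω p.2)) Q := by
    have := hfam.precomp (g := (Equiv.prodComm (Site d) ℕ)) (Equiv.injective _)
    exact this
  have hgrp := K_group (G := fun (x : Site d) (n : ℕ) (ω : ℕ → Ω) => fun t => w x t (ω n))
    (fun x n => (hmp x).comp (hev n).measurable) hfam'
  have hmeas : ∀ N x t, Measurable (cat w N x t) := by
    intro N x t
    have : cat w N x t = fun ω => K_cat N (fun n t => w x t (ω n)) t := by
      funext ω; exact K_cat_eq w N x t ω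
    rw [this]
    have h1 : Measurable (fun (ω : ℕ → Ω) (n : ℕ) => fun t => w x t (ω n)) :=
      measurable_pi_lambda _ fun n => (hmp x).comp (hev n).measurable
    exact (measurable_pi_apply t).comp ((K_cat_meas N).comp h1)
  have hcont : ∀ N x ω, Continuous fun t => cat w N x t ω := by
    intro N
    induction N with
    | zero => intro x ω; exact hw.cont x (ω 0)
    | succ N ih =>
      intro x ω
      show Continuous fun t => w x (min t 1) (ω (N + 1)) + cat w N x (t - 1) ω
      have h1 : Continuous fun t : ℝ≥0 => min t 1 := by fun_prop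
      have h2 : Continuous fun t : ℝ≥0 => t - 1 := by fun_prop
      exact ((hw.cont x (ω (N + 1))).comp h1).add ((ih x ω).comp h2)
  have hbm : ∀ N x, IsPreBrownianReal (cat w N x) Q := by
    intro N
    induction N with
    | zero =>
      intro x
      exact K_bm_comp (hev 0) (hw.meas x) (hw.bm x).toIsPreBrownianReal
    | succ N ih =>
      intro x
      have hx : iIndepFun (fun (n : ℕ) (ω : ℕ → Ω) => fun t => w x t (ω n)) Q := by
        have := hfam.precomp (g := fun n : ℕ => (n, x)) (fun a b hab => by simpa using hab)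
        exact this
      have hdis : Disjoint ({N + 1} : Finset ℕ) (Finset.range (N + 1)) := by simp
      have hfin := hx.indepFun_finset {N + 1} (Finset.range (N + 1)) hdis
        (fun n => (hmp x).comp (hev n).measurable)
      have hφ : Measurable fun (f : ({N + 1} : Finset ℕ) → ℝ≥0 → ℝ) =>
          f ⟨N + 1, Finset.mem_singleton_self _⟩ := measurable_pi_apply _
      have hψ : Measurable fun (f : (Finset.range (N + 1)) → ℝ≥0 → ℝ) =>
          K_cat N (fun n => if hn : n ∈ Finset.range (N + 1) then f ⟨n, hn⟩ else 0) := by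
        refine (K_cat_meas N).comp (measurable_pi_lambda _ fun n => ?_)
        by_cases hn : n ∈ Finset.range (N + 1)
        · simp only [hn, dite_true]; exact measurable_pi_apply _
        · simp only [hn, dite_false]; exact measurable_const
      have hind : IndepFun (fun (ω : ℕ → Ω) t => w x t (ω (N + 1)))
          (fun (ω : ℕ → Ω) t => cat w N x t ω) Q := by
        have := hfin.comp hφ hψ
        have e : (fun (ω : ℕ → Ω) t => cat w N x t ω) =
            (fun (f : (Finset.range (N + 1)) → ℝ≥0 → ℝ) =>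
              K_cat N (fun n => if hn : n ∈ Finset.range (N + 1) then f ⟨n, hn⟩ else 0)) ∘
            (fun (ω : ℕ → Ω) (i : Finset.range (N + 1)) => fun t => w x t (ω i)) := by
          funext ω
          show (fun t => cat w N x t ω) = K_cat N _
          have e1 : (fun t => cat w N x t ω) = K_cat N (fun n t => w x t (ω n)) := by
            funext t; exact K_cat_eq w N x t ω
          rw [e1]
          apply K_cat_congr
          intro n hn
          have : n ∈ Finset.range (N + 1) := Finset.mem_range.2 (by omega)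
          simp only [this, dite_true]
        rw [e]
        exact this
      exact K_concat (X := fun t ω => w x t (ω (N + 1))) (Y := cat w N x)
        (K_bm_comp (hev (N + 1)) (hw.meas x) (hw.bm x).toIsPreBrownianReal) (ih x) hind
  refine ⟨hmeas N, fun x => ⟨hbm N x, Eventually.of_forall fun ω => hcont N x ω⟩, hcont N, ?_⟩
  have := hgrp.comp (fun _ => K_cat N) (fun _ => K_cat_meas N)
  have e : (fun x (ω : ℕ → Ω) t => cat w N x t ω) =
      fun x => K_cat N ∘ fun (ω : ℕ → Ω) (n : ℕ) => fun t => w x t (ω n) := by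
    funext x ω t
    exact K_cat_eq w N x t ω
  rw [e]
  exact this

theorem sh_cat {Ω : Type*} {d : ℕ} (w : Site d → ℝ≥0 → Ω → ℝ) (N M : ℕ) (ω : ℕ → Ω) :
    sh (M : ℝ≥0) (pth (cat w (N + M)) ω) = sh 0 (pth (cat w N) ω) := by
  induction M with
  | zero => simp
  | succ M ih =>
    rw [← ih]
    funext x t
    have e1 : ((M + 1 : ℕ) : ℝ≥0) + t - 1 = M + t := by
      push_cast
      rw [add_right_comm]; exact add_tsub_cancel_right _ _
    have e2 : ((M + 1 : ℕ) : ℝ≥0) - 1 = M := by push_cast; exact add_tsub_cancel_right _ _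
    have m1 : min (((M + 1 : ℕ) : ℝ≥0) + t) 1 = 1 := by
      apply min_eq_right; push_cast
      exact le_add_right (le_add_of_nonneg_left zero_le)
    have m2 : min ((M + 1 : ℕ) : ℝ≥0) 1 = 1 := by
      apply min_eq_right; push_cast
      exact le_add_of_nonneg_left zero_le
    show (w x (min (((M + 1 : ℕ) : ℝ≥0) + t) 1) (ω (N + M + 1)) +
        cat w (N + M) x (((M + 1 : ℕ) : ℝ≥0) + t - 1) ω) -
      (w x (min ((M + 1 : ℕ) : ℝ≥0) 1) (ω (N + M + 1)) +
        cat w (N + M) x (((M + 1 : ℕ) : ℝ≥0) - 1) ω) =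
      cat w (N + M) x (M + t) ω - cat w (N + M) x M ω
    rw [e1, e2, m1, m2]
    ring

end Pool.Agent.H704R2.PAM
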