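import Pool.Agent.H704R2.PAM.I

set_option autoImplicit false
open MeasureTheory ProbabilityTheory Filter Topology Set
open scoped ENNReal NNReal

namespace Pool.Agent.H704R2.PAM

/-! Module L: loss of memory in L1, uniformly -/

universe u

section aux

variable {Ω : Type*} [MeasurableSpace Ω] {P : Measure Ω} [IsProbabilityMeasure P] (Q : Par)
  {w : Site Q.d → ℝ≥0 → Ω → ℝ}

theorem L_ne_top (hw : Noise P w) {c : ℝ} (hc : 0 ≤ c) (T : ℝ≥0) : HH P Q w c T ≠ ⊤ :=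
  ne_top_of_le_ne_top ENNReal.ofReal_ne_top (HH_le_exp Q hw hc T)

theorem L_C0_pos : 0 < C0 Q := by
  have h1 : (0 : ℝ) < Q.p := by
    have := Q.hp
    exact_mod_cast this
  have h2 := Q.hep
  unfold C0
  have : 0 < (Q.p * Q.ep) ^ (-(1 : ℝ) / Q.p) := Real.rpow_pos_of_pos (by positivity) _
  positivity

theorem L_step (hw : Noise P w) {c : ℝ} (hc : 0 ≤ c) {S : ℝ≥0} (hS : 1 ≤ S) :
    HH P Q w c S ≤ ENNReal.ofReal (C0 Q) := by
  have h1 : S = (S - 1) + 1 := (tsub_add_cancel_of_le hS).symm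
  rw [h1]
  exact (HH_submult Q hw hc (S - 1) 1).trans (HH_le_C0 Q hw ENNReal.toReal_nonneg)

theorem L_sub (hw : Noise P w) {c C : ℝ} (hc : 0 ≤ c) (hC : C0 Q ≤ C) {S : ℝ≥0} (hS : 1 ≤ S)
    (T : ℝ≥0) : HH P Q w c (S + T) ≤ HH P Q w C T := by
  refine (HH_submult Q hw hc S T).trans (HH_mono Q ENNReal.toReal_nonneg ?_ T)
  refine le_trans ?_ hC
  exact ENNReal.toReal_le_of_le_ofReal (L_C0_pos Q).le (L_step Q hw hc hS)

theorem L_ivE_mono (W : Site Q.d → ℝ≥0 → ℝ) {c c' : ℝ} (hc : 0 ≤ c) (hcc : c ≤ c') (T : ℝ≥0)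
    (x : Site Q.d) : ivE Q W c T x ≤ ivE Q W c' T x := by
  unfold ivE
  exact iSup_mono fun m => fvE_mono Q (box Q.d m) W (fun _ _ => hc) (fun _ _ => hcc) T x

theorem L_meas1 (hw : Noise P w) (c : ℝ) (T : ℝ≥0) (x : Site Q.d) :
    Measurable fun ω => ivE Q (pth w ω) c T x :=
  (measurable_ivE Q c T x).comp (measurable_pth hw)

theorem L_meas2 (hw : Noise P w) (c : ℝ) (S T : ℝ≥0) (x : Site Q.d) :
    Measurable fun ω => ivE Q (sh S (pth w ω)) c T x :=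
  (measurable_ivE Q c T x).comp ((measurable_sh S).comp (measurable_pth hw))

theorem L_lint_sh (hw : Noise P w) {c : ℝ} (hc : 0 ≤ c) (S T : ℝ≥0) (x : Site Q.d) :
    ∫⁻ ω, ivE Q (sh S (pth w ω)) c T x ∂P = HH P Q w c T := by
  have hw' := noise_sh hw S
  have h1 := lintegral_ivE Q hw' hc T x
  rw [HH_law Q hw' hw c T] at h1
  exact h1

theorem L_fin1 (hw : Noise P w) {c : ℝ} (hc : 0 ≤ c) (T : ℝ≥0) (x : Site Q.d) :
    ∀ᵐ ω ∂P, ivE Q (pth w ω) c T x < ⊤ := by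
  refine ae_lt_top (L_meas1 Q hw c T x) ?_
  rw [lintegral_ivE Q hw hc T x]
  exact L_ne_top Q hw hc T

theorem L_fin2 (hw : Noise P w) {c : ℝ} (hc : 0 ≤ c) (S T : ℝ≥0) (x : Site Q.d) :
    ∀ᵐ ω ∂P, ivE Q (sh S (pth w ω)) c T x < ⊤ := by
  refine ae_lt_top (L_meas2 Q hw c S T x) ?_
  rw [L_lint_sh Q hw hc S T x]
  exact L_ne_top Q hw hc T

/-- `|a - b| + a + b = 2 max a b` -/
theorem L_abs {a b : ℝ≥0∞} (ha : a ≠ ⊤) (hb : b ≠ ⊤) :
    ENNReal.ofReal |a.toReal - b.toReal| + (a + b) = 2 * max a b := by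
  lift a to ℝ≥0 using ha
  lift b to ℝ≥0 using hb
  simp only [ENNReal.coe_toReal]
  have h1 : ENNReal.ofReal |(a : ℝ) - b| + ((a : ℝ≥0∞) + b) =
      ENNReal.ofReal (|(a : ℝ) - b| + (a + b)) := by
    rw [ENNReal.ofReal_add (abs_nonneg _) (by positivity),
      ENNReal.ofReal_add (NNReal.coe_nonneg a) (NNReal.coe_nonneg b), ENNReal.ofReal_coe_nnreal, ENNReal.ofReal_coe_nnreal]
  have h2 : (2 : ℝ≥0∞) * max (a : ℝ≥0∞) b = ENNReal.ofReal (2 * max (a : ℝ) b) := by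
    rw [ENNReal.ofReal_mul (by norm_num)]
    congr 1
    · simp
    · rcases le_total a b with h | h
      · rw [max_eq_right (by exact_mod_cast h), max_eq_right (by exact_mod_cast h),
          ENNReal.ofReal_coe_nnreal]
      · rw [max_eq_left (by exact_mod_cast h), max_eq_left (by exact_mod_cast h),
          ENNReal.ofReal_coe_nnreal]
  rw [h1, h2]
  congr 1
  rcases le_total (a : ℝ) b with h | h
  · rw [abs_of_nonpos (by linarith), max_eq_right h]; ring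
  · rw [abs_of_nonneg (by linarith), max_eq_left h]; ring

/-- `|a - b| + a = b` if `a ≤ b` -/
theorem L_abs' {a b : ℝ≥0∞} (hb : b ≠ ⊤) (hab : a ≤ b) :
    ENNReal.ofReal |a.toReal - b.toReal| + a = b := by
  have ha : a ≠ ⊤ := ne_top_of_le_ne_top hb hab
  lift a to ℝ≥0 using ha
  lift b to ℝ≥0 using hb
  simp only [ENNReal.coe_toReal]
  have h : (a : ℝ) ≤ b := by exact_mod_cast hab
  have h0 : ENNReal.ofReal |(a : ℝ) - b| + (a : ℝ≥0∞) = ENNReal.ofReal (|(a : ℝ) - b| + a) := by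
    rw [ENNReal.ofReal_add (abs_nonneg _) (NNReal.coe_nonneg a), ENNReal.ofReal_coe_nnreal]
  rw [h0, abs_of_nonpos (by linarith)]
  have : -((a : ℝ) - b) + a = b := by ring
  rw [this, ENNReal.ofReal_coe_nnreal]

/-- comparison of the two solutions started from `C` -/
theorem L_close (hw : Noise P w) {C : ℝ} (hC : C0 Q ≤ C) {l : ℝ≥0∞}
    (hl : ∀ T, l ≤ HH P Q w C T) {S : ℝ≥0} (hS : 1 ≤ S) (T : ℝ≥0) (x : Site Q.d) :
    ∫⁻ ω, ENNReal.ofReal |uu Q (pth w ω) C (S + T) x - uu Q (sh S (pth w ω)) C T x| ∂P ≤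
      2 * (HH P Q w (2 * C) T - l) := by
  have hC' : 0 ≤ C := (L_C0_pos Q).le.trans hC
  have h1 := lintegral_max_le Q hw hC' S T
    ((L_step Q hw hC' hS).trans (ENNReal.ofReal_le_ofReal hC)) x
  have h2 : ∫⁻ ω, (ENNReal.ofReal |uu Q (pth w ω) C (S + T) x - uu Q (sh S (pth w ω)) C T x| +
      (ivE Q (pth w ω) C (S + T) x + ivE Q (sh S (pth w ω)) C T x)) ∂P =
      ∫⁻ ω, 2 * max (ivE Q (pth w ω) C (S + T) x) (ivE Q (sh S (pth w ω)) C T x) ∂P := by
    refine lintegral_congr_ae ?_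
    filter_upwards [L_fin1 Q hw hC' (S + T) x, L_fin2 Q hw hC' S T x] with ω ha hb
    exact L_abs ha.ne hb.ne
  have h3 : Measurable fun ω =>
      (ivE Q (pth w ω) C (S + T) x + ivE Q (sh S (pth w ω)) C T x) :=
    (L_meas1 Q hw C (S + T) x).add (L_meas2 Q hw C S T x)
  rw [lintegral_add_right _ h3, lintegral_add_right _ (L_meas2 Q hw C S T x),
    lintegral_const_mul _ ((L_meas1 Q hw C (S + T) x).max (L_meas2 Q hw C S T x)),
    lintegral_ivE Q hw hC', L_lint_sh Q hw hC'] at h2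
  have h4 : ∫⁻ ω, ENNReal.ofReal |uu Q (pth w ω) C (S + T) x -
      uu Q (sh S (pth w ω)) C T x| ∂P + 2 * l ≤ 2 * HH P Q w (2 * C) T := by
    calc _ ≤ ∫⁻ ω, ENNReal.ofReal |uu Q (pth w ω) C (S + T) x -
        uu Q (sh S (pth w ω)) C T x| ∂P + (HH P Q w C (S + T) + HH P Q w C T) := by
          rw [two_mul]
          exact add_le_add le_rfl (add_le_add (hl _) (hl _))
      _ = _ := h2
      _ ≤ _ := mul_le_mul_right h1 2
  have hlt : l ≠ ⊤ := ne_top_of_le_ne_top (L_ne_top Q hw hC' T) (hl T)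
  rw [ENNReal.mul_sub (fun _ _ => by norm_num)]
  exact ENNReal.le_sub_of_add_le_right (ENNReal.mul_ne_top (by norm_num) hlt) h4

/-- comparison of the solutions started from `1` and from `C` -/
theorem L_close_one (hw : Noise P w) {C : ℝ} (hC : C0 Q ≤ C) (hC1 : 1 ≤ C) {l : ℝ≥0∞}
    (hl : ∀ T, l ≤ HH P Q w C T) {m : ℝ} (hm : 0 ≤ m)
    (hrel : ((1 : ℝ) ^ Q.p)⁻¹ ≤ (1 + m) * (C ^ Q.p)⁻¹ - m * ((2 * C) ^ Q.p)⁻¹)
    (T : ℝ≥0) (x : Site Q.d) :
    ∫⁻ ω, ENNReal.ofReal |uu Q (pth w ω) 1 T x - uu Q (pth w ω) C T x| ∂P ≤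
      ENNReal.ofReal m * (HH P Q w (2 * C) T - l) := by
  have hC' : 0 ≤ C := (L_C0_pos Q).le.trans hC
  have h1 : ∀ᵐ ω ∂P, ENNReal.ofReal |uu Q (pth w ω) 1 T x - uu Q (pth w ω) C T x| +
      ENNReal.ofReal m * ivE Q (pth w ω) C T x ≤
      ENNReal.ofReal m * ivE Q (pth w ω) (2 * C) T x := by
    filter_upwards [L_fin1 Q hw hC' T x, L_fin1 Q hw zero_le_one T x] with ω hb ha
    have hmono := L_ivE_mono Q (pth w ω) zero_le_one hC1 T x
    have h2 := L_abs' hb.ne hmono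
    have h3 := ivE_extrap Q (W := pth w ω) (fun x => hw.cont x ω) one_pos hC1
      (show C ≤ 2 * C by linarith) hm hrel T x
    rw [ENNReal.ofReal_add zero_le_one hm, ENNReal.ofReal_one, add_mul, one_mul] at h3
    have h4 : ivE Q (pth w ω) 1 T x +
        (ENNReal.ofReal |uu Q (pth w ω) 1 T x - uu Q (pth w ω) C T x| +
        ENNReal.ofReal m * ivE Q (pth w ω) C T x) ≤
        ivE Q (pth w ω) 1 T x + ENNReal.ofReal m * ivE Q (pth w ω) (2 * C) T x := by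
      refine le_trans (le_of_eq ?_) h3
      rw [← add_assoc]
      congr 1
      rw [add_comm]
      exact h2
    exact (ENNReal.add_le_add_iff_left ha.ne).1 h4
  have h2 := lintegral_mono_ae h1
  rw [lintegral_add_right _ ((L_meas1 Q hw C T x).const_mul _),
    lintegral_const_mul _ (L_meas1 Q hw C T x),
    lintegral_const_mul _ (L_meas1 Q hw (2 * C) T x), lintegral_ivE Q hw hC',
    lintegral_ivE Q hw (show (0 : ℝ) ≤ 2 * C by linarith)] at h2
  have hlt : l ≠ ⊤ := ne_top_of_le_ne_top (L_ne_top Q hw hC' T) (hl T)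
  rw [ENNReal.mul_sub (fun _ _ => ENNReal.ofReal_ne_top)]
  refine ENNReal.le_sub_of_add_le_right (ENNReal.mul_ne_top ENNReal.ofReal_ne_top hlt) ?_
  refine le_trans ?_ h2
  exact add_le_add le_rfl (mul_le_mul_right (hl T) _)

end aux

theorem l1_close (Q : Par) : ∃ C : ℝ, 1 ≤ C ∧ ∃ δ : ℝ≥0 → ℝ≥0∞, Antitone δ ∧
    Tendsto δ atTop (𝓝 0) ∧
    ∀ (Ω : Type u) [MeasurableSpace Ω] (P : Measure Ω) [IsProbabilityMeasure P]
      (w : Site Q.d → ℝ≥0 → Ω → ℝ), Noise P w → ∀ (S T : ℝ≥0), 1 ≤ S → ∀ x : Site Q.d,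
      ∫⁻ ω, ENNReal.ofReal |uu Q (pth w ω) 1 (S + T) x - uu Q (sh S (pth w ω)) C T x| ∂P ≤ δ T ∧
      ∫⁻ ω, ENNReal.ofReal |uu Q (pth w ω) C (S + T) x - uu Q (sh S (pth w ω)) C T x| ∂P ≤ δ T := by
  by_cases hex : ∃ (Ω : Type u) (_ : MeasurableSpace Ω) (P : Measure Ω)
      (_ : IsProbabilityMeasure P) (w : Site Q.d → ℝ≥0 → Ω → ℝ), Noise P w
  swap
  · refine ⟨1, le_rfl, fun _ => 0, fun _ _ _ => le_rfl, tendsto_const_nhds, ?_⟩
    intro Ω _ P _ w hw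
    exact absurd ⟨Ω, inferInstance, P, inferInstance, w, hw⟩ hex
  obtain ⟨Ω0, _, P0, _, w0, hw0⟩ := hex
  set C : ℝ := max (C0 Q) 1 with hCdef
  have hC1 : 1 ≤ C := le_max_right _ _
  have hC0 : C0 Q ≤ C := le_max_left _ _
  have hCpos : 0 < C := by linarith
  -- the constant of the extrapolation
  obtain ⟨m, hm, hrel⟩ : ∃ m : ℝ, 0 ≤ m ∧
      ((1 : ℝ) ^ Q.p)⁻¹ ≤ (1 + m) * (C ^ Q.p)⁻¹ - m * ((2 * C) ^ Q.p)⁻¹ := by
    have hCp : 1 ≤ C ^ Q.p := one_le_pow₀ hC1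
    have h2p : (2 : ℝ) ≤ 2 ^ Q.p := by
      calc (2 : ℝ) = 2 ^ 1 := (pow_one _).symm
        _ ≤ 2 ^ Q.p := pow_le_pow_right₀ (by norm_num) Q.hp
    have hd : 0 < 1 - ((2 : ℝ) ^ Q.p)⁻¹ := by
      have : ((2 : ℝ) ^ Q.p)⁻¹ ≤ 2⁻¹ := inv_anti₀ (by norm_num) h2p
      norm_num at this ⊢
      linarith
    refine ⟨(C ^ Q.p - 1) / (1 - ((2 : ℝ) ^ Q.p)⁻¹), div_nonneg (by linarith) hd.le, ?_⟩
    rw [one_pow, inv_one, mul_pow, mul_inv]
    set m := (C ^ Q.p - 1) / (1 - ((2 : ℝ) ^ Q.p)⁻¹) with hm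
    have h3 : m * (1 - ((2 : ℝ) ^ Q.p)⁻¹) = C ^ Q.p - 1 := by
      rw [hm, div_mul_cancel₀ _ hd.ne']
    have h4 : (1 + m) * (C ^ Q.p)⁻¹ - m * (((2 : ℝ) ^ Q.p)⁻¹ * (C ^ Q.p)⁻¹) =
        (1 + m * (1 - ((2 : ℝ) ^ Q.p)⁻¹)) * (C ^ Q.p)⁻¹ := by ring
    rw [h4, h3]
    have h5 : (1 + (C ^ Q.p - 1)) * (C ^ Q.p)⁻¹ = 1 := by
      rw [add_sub_cancel, mul_inv_cancel₀ (by positivity)]
    rw [h5]
  -- the limit
  set H : ℝ → ℝ≥0 → ℝ≥0∞ := fun c T => HH P0 Q w0 c T with hH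
  set l : ℝ≥0∞ := ⨅ T, H C T with hl
  have hlle : ∀ T, l ≤ H C T := fun T => iInf_le _ T
  have hmono2 : ∀ T, H C T ≤ H (2 * C) T := fun T => HH_mono Q hCpos.le (by linarith) T
  set g : ℝ≥0 → ℝ≥0∞ := fun T => ⨆ T' : ℝ≥0, ⨆ _ : T ≤ T', H (2 * C) T' with hg
  have hganti : Antitone g := by
    intro T T' hTT
    refine iSup_le fun T1 => iSup_le fun h => ?_
    exact le_iSup_of_le T1 (le_iSup_of_le (hTT.trans h) le_rfl)
  have hgle : ∀ T T', T ≤ T' → H (2 * C) T' ≤ g T := fun T T' h =>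
    le_iSup_of_le T' (le_iSup_of_le h le_rfl)
  have hgbd : ∀ T0 T, T0 + 1 ≤ T → g T ≤ H C T0 := by
    intro T0 T hT
    refine iSup_le fun T' => iSup_le fun h => ?_
    have h1 : 1 + T0 ≤ T' := by rw [add_comm]; exact hT.trans h
    have h2 : T' = (T' - T0) + T0 := (tsub_add_cancel_of_le (le_trans (by
      exact le_add_of_nonneg_left zero_le_one) h1)).symm
    have h3 : 1 ≤ T' - T0 := le_tsub_of_add_le_right h1
    rw [h2]
    exact L_sub Q hw0 (by linarith) hC0 h3 T0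
  refine ⟨C, hC1, fun T => ENNReal.ofReal (m + 2) * (g T - l), ?_, ?_, ?_⟩
  · intro T T' h
    exact mul_le_mul_right (tsub_le_tsub_right (hganti h) l) _
  · have h1 : Tendsto (fun T => g T - l) atTop (𝓝 0) := by
      rw [ENNReal.tendsto_atTop_zero]
      intro ε hε
      have h2 : l < l + ε := by
        have hlt : l ≠ ⊤ := ne_top_of_le_ne_top (L_ne_top Q hw0 hCpos.le 0) (hlle 0)
        exact ENNReal.lt_add_right hlt hε.ne'
      obtain ⟨T0, hT0⟩ := iInf_lt_iff.1 (hl ▸ h2)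
      refine ⟨T0 + 1, fun T hT => ?_⟩
      rw [tsub_le_iff_left]
      exact (hgbd T0 T hT).trans hT0.le
    have h2 := ENNReal.Tendsto.const_mul (a := ENNReal.ofReal (m + 2)) h1
      (Or.inr ENNReal.ofReal_ne_top)
    rw [mul_zero] at h2
    exact h2
  · intro Ω _ P _ w hw S T hS x
    have hHH : ∀ c T, HH P Q w c T = H c T := fun c T => HH_law Q hw hw0 c T
    have hl' : ∀ T, l ≤ HH P Q w C T := fun T => by rw [hHH]; exact hlle T
    have h1 : ∫⁻ ω, ENNReal.ofReal |uu Q (pth w ω) C (S + T) x -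
        uu Q (sh S (pth w ω)) C T x| ∂P ≤ 2 * (g T - l) := by
      refine (L_close Q hw hC0 hl' hS T x).trans ?_
      rw [hHH]
      exact mul_le_mul_right (tsub_le_tsub_right (hgle T T le_rfl) l) _
    have h2 : ∫⁻ ω, ENNReal.ofReal |uu Q (pth w ω) 1 (S + T) x -
        uu Q (pth w ω) C (S + T) x| ∂P ≤ ENNReal.ofReal m * (g T - l) := by
      refine (L_close_one Q hw hC0 hC1 hl' hm hrel (S + T) x).trans ?_
      rw [hHH]
      exact mul_le_mul_right (tsub_le_tsub_right (hgle T (S + T) (by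
        exact le_add_of_nonneg_left zero_le)) l) _
    have h3 : ENNReal.ofReal (m + 2) = ENNReal.ofReal m + 2 := by
      rw [ENNReal.ofReal_add hm (by norm_num)]
      congr 1
      simp
    constructor
    · calc ∫⁻ ω, ENNReal.ofReal |uu Q (pth w ω) 1 (S + T) x -
            uu Q (sh S (pth w ω)) C T x| ∂P
          ≤ ∫⁻ ω, (ENNReal.ofReal |uu Q (pth w ω) 1 (S + T) x - uu Q (pth w ω) C (S + T) x| +
            ENNReal.ofReal |uu Q (pth w ω) C (S + T) x - uu Q (sh S (pth w ω)) C T x|) ∂P := by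
            refine lintegral_mono fun ω => ?_
            rw [← ENNReal.ofReal_add (abs_nonneg _) (abs_nonneg _)]
            exact ENNReal.ofReal_le_ofReal (abs_sub_le _ _ _)
        _ = _ := by
            refine lintegral_add_left ?_ _
            have h4 : Measurable fun ω => uu Q (pth w ω) 1 (S + T) x :=
              (L_meas1 Q hw 1 (S + T) x).ennreal_toReal
            have h5 : Measurable fun ω => uu Q (pth w ω) C (S + T) x :=
              (L_meas1 Q hw C (S + T) x).ennreal_toReal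
            exact (h4.sub h5).norm.ennreal_ofReal
        _ ≤ ENNReal.ofReal m * (g T - l) + 2 * (g T - l) := add_le_add h2 h1
        _ = ENNReal.ofReal (m + 2) * (g T - l) := by rw [h3, add_mul]
    · refine h1.trans ?_
      rw [h3]
      exact mul_le_mul_left (le_add_self) _

end Pool.Agent.H704R2.PAM
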