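import Pool.Agent.H704R2.PAM.E
import Pool.Agent.H704R2.PAM.N1

set_option autoImplicit false
open MeasureTheory ProbabilityTheory Filter Topology Set
open scoped ENNReal NNReal

namespace Pool.Agent.H704R2.PAM

/-! Module M: first moment bounds -/

variable {Ω : Type*} [MeasurableSpace Ω] {P : Measure Ω} [IsProbabilityMeasure P] (Q : Par)
  {w : Site Q.d → ℝ≥0 → Ω → ℝ}

lemma M_measurable_inc (hw : Noise P w) (h : ℝ≥0) : Measurable fun ω => inc Q (pth w ω) h := by
  refine measurable_pi_iff.2 fun j => measurable_pi_iff.2 fun x => ?_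
  unfold inc pth
  exact ((hw.meas x _).sub (hw.meas x _)).add_const _

lemma M_measurable_V (hw : Noise P w) (Λ : Finset (Site Q.d)) (h : ℝ≥0) (c : ℝ) (j : ℕ)
    (x : Site Q.d) : Measurable fun ω => run Q Λ h (inc Q (pth w ω) h) (fun _ => c) j x :=
  (measurable_run Q Λ h j x).comp ((M_measurable_inc Q hw h).prodMk measurable_const)

/-- the increments as functions of the past -/
noncomputable def M_pinc (h s : ℝ≥0) (q : Site Q.d × Set.Iic s → ℝ) (i : ℕ) (z : Site Q.d) : ℝ :=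
  if hi : ((i : ℝ≥0) + 1) * h ≤ s ∧ (i : ℝ≥0) * h ≤ s then
    q (z, ⟨(i + 1) * h, hi.1⟩) - q (z, ⟨i * h, hi.2⟩) + Q.kap * h else 0

lemma M_measurable_pinc (h s : ℝ≥0) : Measurable (M_pinc Q h s) := by
  refine measurable_pi_iff.2 fun j => measurable_pi_iff.2 fun x => ?_
  unfold M_pinc
  by_cases hi : ((j : ℝ≥0) + 1) * h ≤ s ∧ (j : ℝ≥0) * h ≤ s
  · simp only [dif_pos hi]
    exact ((measurable_pi_apply (X := fun _ : Site Q.d × Set.Iic s => ℝ)
      (x, ⟨(j + 1) * h, hi.1⟩)).sub (measurable_pi_apply (X := fun _ : Site Q.d × Set.Iic s => ℝ)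
      (x, ⟨j * h, hi.2⟩))).add_const _
  · simp only [dif_neg hi]
    exact measurable_const

lemma M_run_past (Λ : Finset (Site Q.d)) (h : ℝ≥0) (c : ℝ) (j : ℕ) (ω : Ω) :
    run Q Λ h (inc Q (pth w ω) h) (fun _ => c) j =
      run Q Λ h (M_pinc Q h (j * h) (fun q => w q.1 q.2 ω)) (fun _ => c) j := by
  refine run_congr Q Λ h (fun i hi x _ => ?_) (fun _ _ => rfl)
  have h1 : ((i : ℝ≥0) + 1) * h ≤ j * h := by
    have : ((i : ℝ≥0) + 1) ≤ j := by exact_mod_cast hi
    gcongr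
  have h2 : (i : ℝ≥0) * h ≤ j * h := by
    have : (i : ℝ≥0) ≤ j := by exact_mod_cast hi.le
    gcongr
  unfold M_pinc inc pth
  rw [dif_pos ⟨h1, h2⟩]

lemma M_al_nonneg : 0 ≤ Q.al := by
  unfold Par.al; positivity

/-- the expectation of one step of the scheme -/
lemma M_step (hw : Noise P w) (Λ : Finset (Site Q.d)) (h : ℝ≥0) {c : ℝ} (hc : 0 ≤ c) (j : ℕ)
    {m : ℝ} (hm : 0 ≤ m)
    (H : ∀ x, ∫⁻ ω, ENNReal.ofReal (run Q Λ h (inc Q (pth w ω) h) (fun _ => c) j x) ∂P ≤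
      ENNReal.ofReal m) (x : Site Q.d) :
    ∫⁻ ω, ENNReal.ofReal (run Q Λ h (inc Q (pth w ω) h) (fun _ => c) (j + 1) x) ∂P ≤
      ENNReal.ofReal (absb Q.p (Q.ep * h) (Real.exp (Q.al * h) * m)) := by
  have hh : (0 : ℝ) ≤ (h : ℝ) := h.2
  have hs : 0 ≤ Q.ep * (h : ℝ) := mul_nonneg Q.hep.le hh
  by_cases hx : x ∈ Λ
  swap
  · have : ∀ ω, run Q Λ h (inc Q (pth w ω) h) (fun _ => c) (j + 1) x = 0 := fun ω =>
      run_out Q Λ h _ _ _ hx
    simp only [this, ENNReal.ofReal_zero, lintegral_zero]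
    exact bot_le
  -- the random field at time `j`
  obtain ⟨V, hV⟩ : ∃ V : Site Q.d → Ω → ℝ,
      V = fun y ω => run Q Λ h (inc Q (pth w ω) h) (fun _ => c) j y := ⟨_, rfl⟩
  have hVm : ∀ y, Measurable (V y) := fun y => by
    rw [hV]; exact M_measurable_V Q hw Λ h c j y
  have hV0 : ∀ y ω, 0 ≤ V y ω := fun y ω => by
    rw [hV]; exact run_nonneg Q Λ hh _ (fun _ _ => hc) j y
  obtain ⟨g, hg⟩ : ∃ g : Ω → ℝ,
      g = fun ω => V x ω + h * Q.k * nsum (fun y => V y ω) x := ⟨_, rfl⟩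
  have hgm : Measurable g := by
    rw [hg]
    refine (hVm x).add (measurable_const.mul ?_)
    unfold nsum
    exact Finset.measurable_sum _ fun e _ => hVm _
  have hg0 : ∀ ω, 0 ≤ g ω := fun ω => by
    rw [hg]
    refine add_nonneg (hV0 _ _) (mul_nonneg (mul_nonneg hh Q.hk) ?_)
    exact Finset.sum_nonneg fun e _ => hV0 _ _
  obtain ⟨E, hE⟩ : ∃ E : Ω → ℝ, E = fun ω => Real.exp (inc Q (pth w ω) h j x) := ⟨_, rfl⟩
  have hEm : Measurable E := by
    rw [hE]
    exact Real.measurable_exp.comp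
      ((measurable_pi_apply x).comp ((measurable_pi_apply j).comp (M_measurable_inc Q hw h)))
  have hE0 : ∀ ω, 0 ≤ E ω := fun ω => by rw [hE]; exact (Real.exp_pos _).le
  have hstep : ∀ ω, run Q Λ h (inc Q (pth w ω) h) (fun _ => c) (j + 1) x =
      absb Q.p (Q.ep * h) (E ω * g ω) := by
    intro ω
    simp only [run, step, if_pos hx, hE, hg, hV]
  -- independence
  have hind : IndepFun E g P := by
    have h0 := past_future hw ((j : ℝ≥0) * h)
    obtain ⟨φ, hφ⟩ : ∃ φ : (Site Q.d × Set.Iic ((j : ℝ≥0) * h) → ℝ) → ℝ, φ = fun q =>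
      run Q Λ h (M_pinc Q h (j * h) q) (fun _ => c) j x +
        h * Q.k * nsum (run Q Λ h (M_pinc Q h (j * h) q) (fun _ => c) j) x := ⟨_, rfl⟩
    have hm1 : ∀ y, Measurable fun q : (Site Q.d × Set.Iic ((j : ℝ≥0) * h) → ℝ) =>
        run Q Λ h (M_pinc Q h (j * h) q) (fun _ => c) j y := fun y =>
      (measurable_run Q Λ h j y).comp ((M_measurable_pinc Q h (j * h)).prodMk measurable_const)
    have hφm : Measurable φ := by
      rw [hφ]
      refine (hm1 x).add (measurable_const.mul ?_)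
      unfold nsum
      exact Finset.measurable_sum _ fun e _ => hm1 _
    obtain ⟨ψ, hψ⟩ : ∃ ψ : (Site Q.d → ℝ≥0 → ℝ) → ℝ,
      ψ = fun W => Real.exp (W x h + Q.kap * h) := ⟨_, rfl⟩
    have hψm : Measurable ψ := by
      rw [hψ]
      refine Real.measurable_exp.comp (Measurable.add_const ?_ _)
      exact (measurable_pi_apply h).comp (measurable_pi_apply x)
    have h1 := h0.comp hφm hψm
    have e1 : g = φ ∘ fun ω (q : Site Q.d × Set.Iic ((j : ℝ≥0) * h)) => w q.1 q.2 ω := by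
      funext ω
      simp only [hg, hV, hφ, Function.comp_apply, M_run_past Q (w := w) Λ h c j ω]
    have e2 : E = ψ ∘ fun ω => sh ((j : ℝ≥0) * h) (pth w ω) := by
      funext ω
      simp only [hE, hψ, Function.comp_apply, inc, sh]
      rw [show ((j : ℝ≥0) + 1) * h = j * h + h by ring]
    rw [e1, e2]
    exact h1.symm
  -- expectation of the exponential
  have hEexp : ∫⁻ ω, ENNReal.ofReal (E ω) ∂P = ENNReal.ofReal (Real.exp (Q.kap * h + h / 2)) := by
    have h1 : ∀ ω, ENNReal.ofReal (E ω) = ENNReal.ofReal (Real.exp (Q.kap * h)) *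
        ENNReal.ofReal (Real.exp (w x ((j : ℝ≥0) * h + h) ω - w x ((j : ℝ≥0) * h) ω)) := by
      intro ω
      rw [← ENNReal.ofReal_mul (Real.exp_pos _).le, ← Real.exp_add, hE]
      simp only [inc, pth]
      rw [show ((j : ℝ≥0) + 1) * h = j * h + h by ring, add_comm]
    simp only [h1]
    rw [lintegral_const_mul' _ _ ENNReal.ofReal_ne_top, noise_exp hw x _ h,
      ← ENNReal.ofReal_mul (Real.exp_pos _).le, ← Real.exp_add]
  -- expectation of `g`
  have hgexp : ∫⁻ ω, ENNReal.ofReal (g ω) ∂P ≤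
      ENNReal.ofReal ((1 + 2 * Q.d * Q.k * h) * m) := by
    have h1 : ∀ ω, ENNReal.ofReal (g ω) = ENNReal.ofReal (V x ω) +
        ENNReal.ofReal (h * Q.k) * ∑ e : Fin Q.d × Bool, ENNReal.ofReal (V (nb x e) ω) := by
      intro ω
      rw [← ENNReal.ofReal_sum_of_nonneg (fun e _ => hV0 _ _),
        ← ENNReal.ofReal_mul (mul_nonneg hh Q.hk), ← ENNReal.ofReal_add (hV0 _ _)
          (mul_nonneg (mul_nonneg hh Q.hk) (Finset.sum_nonneg fun e _ => hV0 _ _)), hg]
      rfl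
    simp only [h1]
    rw [lintegral_add_left (hVm x).ennreal_ofReal, lintegral_const_mul' _ _ ENNReal.ofReal_ne_top,
      lintegral_finsetSum _ (fun e _ => (hVm _).ennreal_ofReal)]
    have h2 : ∀ y, ∫⁻ ω, ENNReal.ofReal (V y ω) ∂P ≤ ENNReal.ofReal m := fun y => by
      rw [hV]; exact H y
    calc _ ≤ ENNReal.ofReal m + ENNReal.ofReal (h * Q.k) *
          ∑ e : Fin Q.d × Bool, ENNReal.ofReal m := by
            gcongr with e _
            · exact h2 x
            · exact h2 _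
      _ = ENNReal.ofReal ((1 + 2 * Q.d * Q.k * h) * m) := by
        rw [Finset.sum_const, Finset.card_univ, Fintype.card_prod, Fintype.card_fin,
          Fintype.card_bool, nsmul_eq_mul, ← ENNReal.ofReal_natCast,
          ← ENNReal.ofReal_mul (by positivity), ← ENNReal.ofReal_mul (mul_nonneg hh Q.hk),
          ← ENNReal.ofReal_add hm (by have := Q.hk; positivity)]
        congr 1
        push_cast
        ring
  -- expectation of the product
  have hY : ∫⁻ ω, ENNReal.ofReal (E ω * g ω) ∂P ≤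
      ENNReal.ofReal (Real.exp (Q.al * h) * m) := by
    have h1 : ∀ ω, ENNReal.ofReal (E ω * g ω) = ENNReal.ofReal (E ω) * ENNReal.ofReal (g ω) :=
      fun ω => ENNReal.ofReal_mul (hE0 ω)
    simp only [h1]
    have h2 : IndepFun (fun ω => ENNReal.ofReal (E ω)) (fun ω => ENNReal.ofReal (g ω)) P :=
      hind.comp (φ := ENNReal.ofReal) (ψ := ENNReal.ofReal) ENNReal.measurable_ofReal
        ENNReal.measurable_ofReal
    rw [lintegral_mul_eq_lintegral_mul_lintegral_of_indepFun'' hEm.ennreal_ofReal.aemeasurable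
      hgm.ennreal_ofReal.aemeasurable h2, hEexp]
    refine (mul_le_mul_right hgexp _).trans ?_
    rw [← ENNReal.ofReal_mul (Real.exp_pos _).le]
    refine ENNReal.ofReal_le_ofReal ?_
    rw [← mul_assoc]
    refine mul_le_mul_of_nonneg_right ?_ hm
    have h3 : 1 + 2 * Q.d * Q.k * h ≤ Real.exp (2 * Q.d * Q.k * h) := by
      have := Real.add_one_le_exp (2 * Q.d * Q.k * (h : ℝ))
      linarith
    calc Real.exp (Q.kap * h + h / 2) * (1 + 2 * Q.d * Q.k * h)
        ≤ Real.exp (Q.kap * h + h / 2) * Real.exp (2 * Q.d * Q.k * h) :=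
          mul_le_mul_of_nonneg_left h3 (Real.exp_pos _).le
      _ = Real.exp ((Q.lam + 1 / 2) * h) := by
          rw [← Real.exp_add]
          congr 1
          unfold Par.kap
          ring
      _ ≤ Real.exp (Q.al * h) := by
          refine Real.exp_le_exp.2 (mul_le_mul_of_nonneg_right ?_ hh)
          unfold Par.al
          have := le_abs_self Q.lam
          linarith
  -- Jensen
  have hYm : Measurable fun ω => E ω * g ω := hEm.mul hgm
  have hYi : Integrable (fun ω => E ω * g ω) P := by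
    refine ⟨hYm.aestronglyMeasurable, ?_⟩
    rw [hasFiniteIntegral_iff_ofReal (ae_of_all _ fun ω => mul_nonneg (hE0 ω) (hg0 ω))]
    exact hY.trans_lt ENNReal.ofReal_lt_top
  have hY0 : ∀ ω, 0 ≤ E ω * g ω := fun ω => mul_nonneg (hE0 ω) (hg0 ω)
  have hAi : Integrable (absb Q.p (Q.ep * h) ∘ fun ω => E ω * g ω) P := by
    refine hYi.mono ((measurable_absb _ _).comp hYm).aestronglyMeasurable (ae_of_all _ fun ω => ?_)
    simp only [Function.comp_apply, Real.norm_eq_abs]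
    rw [abs_of_nonneg (absb_nonneg _ hs (hY0 ω)), abs_of_nonneg (hY0 ω)]
    exact absb_le _ hs (hY0 ω)
  have hJ := (absb_concave Q.hp hs).le_map_integral (continuousOn_absb Q.hp hs) isClosed_Ici
    (ae_of_all P hY0) hYi hAi
  have hint : ∫ ω, E ω * g ω ∂P ≤ Real.exp (Q.al * h) * m := by
    rw [integral_eq_lintegral_of_nonneg_ae (ae_of_all _ hY0) hYm.aestronglyMeasurable]
    refine ENNReal.toReal_le_of_le_ofReal (by positivity) hY
  simp only [hstep]
  rw [← ofReal_integral_eq_lintegral_ofReal (f := fun ω => absb Q.p (Q.ep * h) (E ω * g ω)) hAi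
    (ae_of_all _ fun ω => absb_nonneg _ hs (hY0 ω))]
  refine ENNReal.ofReal_le_ofReal (hJ.trans ?_)
  exact absb_mono Q.hp hs (integral_nonneg hY0) hint

/-- the deterministic recursion -/
noncomputable def M_rec (h : ℝ≥0) (c : ℝ) : ℕ → ℝ
  | 0 => c
  | j + 1 => absb Q.p (Q.ep * h) (Real.exp (Q.al * h) * M_rec h c j)

lemma M_rec_nonneg (h : ℝ≥0) {c : ℝ} (hc : 0 ≤ c) (j : ℕ) : 0 ≤ M_rec Q h c j := by
  induction j with
  | zero => exact hc
  | succ j ih =>
    exact absb_nonneg _ (mul_nonneg Q.hep.le h.2) (mul_nonneg (Real.exp_pos _).le ih)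

lemma M_rec_pos (h : ℝ≥0) {c : ℝ} (hc : 0 < c) (j : ℕ) : 0 < M_rec Q h c j := by
  induction j with
  | zero => exact hc
  | succ j ih =>
    exact absb_pos _ (mul_nonneg Q.hep.le h.2) (mul_pos (Real.exp_pos _) ih)

lemma M_bound (hw : Noise P w) (Λ : Finset (Site Q.d)) (h : ℝ≥0) {c c' : ℝ} (hc : 0 ≤ c)
    (hcc : c ≤ c') (j : ℕ) (x : Site Q.d) :
    ∫⁻ ω, ENNReal.ofReal (run Q Λ h (inc Q (pth w ω) h) (fun _ => c) j x) ∂P ≤
      ENNReal.ofReal (M_rec Q h c' j) := by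
  induction j generalizing x with
  | zero =>
    have h1 : ∀ ω, ENNReal.ofReal (run Q Λ h (inc Q (pth w ω) h) (fun _ => c) 0 x) ≤
        ENNReal.ofReal c' := by
      intro ω
      refine ENNReal.ofReal_le_ofReal ?_
      simp only [run]
      split_ifs
      · exact hcc
      · exact hc.trans hcc
    refine (lintegral_mono h1).trans ?_
    simp [M_rec]
  | succ j ih =>
    exact M_step Q hw Λ h hc j (M_rec_nonneg Q h (hc.trans hcc) j) ih x

lemma M_rec_le_exp (h : ℝ≥0) {c : ℝ} (hc : 0 ≤ c) (j : ℕ) :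
    M_rec Q h c j ≤ c * Real.exp (Q.al * (j * h)) := by
  induction j with
  | zero => simp [M_rec]
  | succ j ih =>
    have h1 := absb_le Q.p (mul_nonneg Q.hep.le h.2)
      (mul_nonneg (Real.exp_pos (Q.al * h)).le (M_rec_nonneg Q h hc j))
    refine h1.trans ?_
    calc Real.exp (Q.al * h) * M_rec Q h c j ≤
        Real.exp (Q.al * h) * (c * Real.exp (Q.al * (j * h))) :=
          mul_le_mul_of_nonneg_left ih (Real.exp_pos _).le
      _ = c * Real.exp (Q.al * ((j + 1 : ℕ) * h)) := by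
          push_cast
          rw [show Q.al * (((j : ℝ) + 1) * h) = Q.al * h + Q.al * (j * h) by ring, Real.exp_add]
          ring

lemma M_rec_inv (h : ℝ≥0) {c : ℝ} (hc : 0 < c) (j : ℕ) :
    Q.p * (Q.ep * (j * h)) ≤
      ((Real.exp (-(Q.al * (j * h))) * M_rec Q h c j) ^ Q.p)⁻¹ := by
  induction j with
  | zero =>
    simp only [Nat.cast_zero, zero_mul, mul_zero]
    have := M_rec_pos Q h hc 0
    positivity
  | succ j ih =>
    have hs : 0 ≤ Q.ep * (h : ℝ) := mul_nonneg Q.hep.le h.2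
    obtain ⟨g, hg⟩ : ∃ g, g = Real.exp (-(Q.al * (j * h))) * M_rec Q h c j := ⟨_, rfl⟩
    have hg0 : 0 < g := by
      rw [hg]; exact mul_pos (Real.exp_pos _) (M_rec_pos Q h hc j)
    rw [← hg] at ih
    have hX : 1 ≤ Real.exp (Q.al * ((j + 1 : ℕ) * h)) := by
      apply Real.one_le_exp
      have := M_al_nonneg Q
      positivity
    have h1 : Real.exp (Q.al * h) * M_rec Q h c j = Real.exp (Q.al * ((j + 1 : ℕ) * h)) * g := by
      rw [hg, ← mul_assoc, ← Real.exp_add]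
      congr 2
      push_cast
      ring
    have h2 : M_rec Q h c (j + 1) ≤
        Real.exp (Q.al * ((j + 1 : ℕ) * h)) * absb Q.p (Q.ep * h) g := by
      show absb Q.p (Q.ep * h) (Real.exp (Q.al * h) * M_rec Q h c j) ≤ _
      rw [h1]
      exact absb_scale Q.hp hs hX hg0.le
    have h3 : Real.exp (-(Q.al * ((j + 1 : ℕ) * h))) * M_rec Q h c (j + 1) ≤
        absb Q.p (Q.ep * h) g := by
      calc _ ≤ Real.exp (-(Q.al * ((j + 1 : ℕ) * h))) *
            (Real.exp (Q.al * ((j + 1 : ℕ) * h)) * absb Q.p (Q.ep * h) g) :=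
            mul_le_mul_of_nonneg_left h2 (Real.exp_pos _).le
        _ = absb Q.p (Q.ep * h) g := by
            rw [← mul_assoc, ← Real.exp_add, neg_add_cancel, Real.exp_zero, one_mul]
    have h4 : 0 < Real.exp (-(Q.al * ((j + 1 : ℕ) * h))) * M_rec Q h c (j + 1) :=
      mul_pos (Real.exp_pos _) (M_rec_pos Q h hc _)
    have h5 : (absb Q.p (Q.ep * h) g ^ Q.p)⁻¹ ≤
        ((Real.exp (-(Q.al * ((j + 1 : ℕ) * h))) * M_rec Q h c (j + 1)) ^ Q.p)⁻¹ := by
      apply inv_anti₀ (pow_pos h4 _)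
      exact pow_le_pow_left₀ h4.le h3 _
    rw [absb_inv Q.hp hs hg0] at h5
    refine le_trans ?_ h5
    push_cast
    nlinarith [ih]

lemma M_rec_le_C0 {n : ℕ} (hn : 1 ≤ n) {c : ℝ} (hc : 0 < c) :
    M_rec Q (1 / n) c n ≤ C0 Q := by
  have h1 := M_rec_inv Q (1 / n) hc n
  have hn' : (n : ℝ) ≠ 0 := by positivity
  have h2 : (n : ℝ) * ((1 / n : ℝ≥0) : ℝ) = 1 := by
    push_cast
    field_simp
  rw [h2, mul_one, mul_one] at h1
  obtain ⟨g, hg⟩ : ∃ g, g = Real.exp (-Q.al) * M_rec Q (1 / n) c n := ⟨_, rfl⟩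
  have hg0 : 0 < g := by
    rw [hg]; exact mul_pos (Real.exp_pos _) (M_rec_pos Q _ hc n)
  rw [← hg] at h1
  have hp0 : (0 : ℝ) < Q.p := by exact_mod_cast Q.hp
  have hpe : 0 < (Q.p : ℝ) * Q.ep := mul_pos hp0 Q.hep
  have h3 : g ^ Q.p ≤ ((Q.p : ℝ) * Q.ep)⁻¹ := by
    rw [le_inv_comm₀ (pow_pos hg0 _) hpe]
    exact h1
  have h4 : g ≤ (Q.p * Q.ep) ^ (-(1 : ℝ) / Q.p) := by
    have h5 : g = (g ^ Q.p) ^ ((1 : ℝ) / Q.p) := by
      rw [← Real.rpow_natCast, ← Real.rpow_mul hg0.le, mul_one_div_cancel hp0.ne', Real.rpow_one]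
    rw [h5, neg_div, Real.rpow_neg hpe.le, ← Real.inv_rpow hpe.le]
    exact Real.rpow_le_rpow (pow_pos hg0 _).le h3 (by positivity)
  have h6 : M_rec Q (1 / n) c n = Real.exp Q.al * g := by
    rw [hg, ← mul_assoc, ← Real.exp_add, add_neg_cancel, Real.exp_zero, one_mul]
  rw [h6]
  exact mul_le_mul_of_nonneg_left h4 (Real.exp_pos _).le

lemma M_fatou (hw : Noise P w) (Λ : Finset (Site Q.d)) {c : ℝ} (hc : 0 ≤ c) (T : ℝ≥0)
    (x : Site Q.d) {B : ℝ≥0∞}
    (hB : ∀ n : ℕ, 1 ≤ n → ∫⁻ ω, ENNReal.ofReal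
      (run Q Λ ((T / n : ℝ≥0) : ℝ) (inc Q (pth w ω) (T / n)) (fun _ => c) n x) ∂P ≤ B) :
    EL P Q w Λ c T x ≤ B := by
  unfold EL
  have hlim : ∀ ω, fvE Q Λ (pth w ω) (fun _ => c) T x = liminf (fun n : ℕ => ENNReal.ofReal
      (run Q Λ ((T / n : ℝ≥0) : ℝ) (inc Q (pth w ω) (T / n)) (fun _ => c) n x)) atTop := by
    intro ω
    have hCP : CP (pth w ω) := fun y => hw.cont y ω
    have h1 := fv_tendsto Q Λ hCP (v := fun _ => c) (fun _ => hc) T x
    rw [fvE_eq Q Λ hCP (v := fun _ => c) (fun _ => hc) T x]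
    exact (ENNReal.tendsto_ofReal h1).liminf_eq.symm
  simp only [hlim]
  refine (lintegral_liminf_le (u := atTop) fun n : ℕ =>
    (M_measurable_V Q hw Λ (T / n) c n x).ennreal_ofReal).trans ?_
  refine liminf_le_of_frequently_le' ?_
  exact (eventually_atTop.2 ⟨1, fun n hn => hB n hn⟩).frequently

theorem EL_le_exp (hw : Noise P w) (Λ : Finset (Site Q.d)) {c : ℝ} (hc : 0 ≤ c) (T : ℝ≥0)
    (x : Site Q.d) : EL P Q w Λ c T x ≤ ENNReal.ofReal (c * Real.exp (Q.al * T)) := by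
  refine M_fatou Q hw Λ hc T x fun n hn => ?_
  refine (M_bound Q hw Λ (T / n) hc le_rfl n x).trans (ENNReal.ofReal_le_ofReal ?_)
  refine (M_rec_le_exp Q (T / n) hc n).trans (le_of_eq ?_)
  have hn' : (n : ℝ) ≠ 0 := by positivity
  congr 3
  push_cast
  field_simp

/-- at time 1 the expectation is bounded uniformly in the initial value -/
theorem EL_le_C0 (hw : Noise P w) (Λ : Finset (Site Q.d)) {c : ℝ} (hc : 0 ≤ c)
    (x : Site Q.d) : EL P Q w Λ c 1 x ≤ ENNReal.ofReal (C0 Q) := by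
  refine M_fatou Q hw Λ hc 1 x fun n hn => ?_
  exact (M_bound Q hw Λ (1 / n) hc (show c ≤ c + 1 by linarith) n x).trans
    (ENNReal.ofReal_le_ofReal (M_rec_le_C0 Q hn (by linarith)))

end Pool.Agent.H704R2.PAM
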