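import Pool.Agent.H704R2.PAM.Defs

set_option autoImplicit false
open MeasureTheory ProbabilityTheory Filter Topology Set
open scoped ENNReal NNReal

namespace Pool.Agent.H704R2.PAM

/-! Module N2: uniqueness of the law of the noise, shifts, exponential moment -/

variable {Ω : Type*} [MeasurableSpace Ω] {P : Measure Ω} [IsProbabilityMeasure P] {d : ℕ}
  {w : Site d → ℝ≥0 → Ω → ℝ}

theorem measurable_pth (hw : Noise P w) : Measurable (pth w) :=
  measurable_pi_iff.2 fun x => measurable_pi_iff.2 fun t => hw.meas x t

theorem measurable_sh (s : ℝ≥0) : Measurable (sh (d := d) s) := by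
  unfold sh
  fun_prop

theorem measurable_shx (y : Site d) : Measurable (shx (d := d) y) := by
  unfold shx
  fun_prop

theorem N2_path (hw : Noise P w) (x : Site d) : Measurable fun ω t => w x t ω :=
  measurable_pi_iff.2 fun t => hw.meas x t

theorem N2_marg {Ω' : Type*} [MeasurableSpace Ω'] {P' : Measure Ω'} [IsProbabilityMeasure P']
    {w' : Site d → ℝ≥0 → Ω' → ℝ} (hw : Noise P w) (hw' : Noise P' w') (x : Site d) :
    P.map (fun ω t => w x t ω) = P'.map (fun ω t => w' x t ω) := by
  have h1 : IsProjectiveLimit (P.map fun ω t => w x t ω)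
      (fun I => BrownianReal.projectiveFamily I) := by
    have h := isProjectiveLimit_map (X := w x) (P := P) (N2_path hw x).aemeasurable
    intro I
    rw [h I]
    exact ((hw.bm x).hasLaw I).map_eq
  have h2 : IsProjectiveLimit (P'.map fun ω t => w' x t ω)
      (fun I => BrownianReal.projectiveFamily I) := by
    have h := isProjectiveLimit_map (X := w' x) (P := P') (N2_path hw' x).aemeasurable
    intro I
    rw [h I]
    exact ((hw'.bm x).hasLaw I).map_eq
  have : IsProbabilityMeasure (P.map fun ω t => w x t ω) :=
    Measure.isProbabilityMeasure_map (N2_path hw x).aemeasurable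
  have : ∀ I : Finset ℝ≥0, IsFiniteMeasure (BrownianReal.projectiveFamily I) := by
    intro I
    have e : (P.map fun ω t => w x t ω).map I.restrict = BrownianReal.projectiveFamily I := h1 I
    rw [← e]
    infer_instance
  exact h1.unique h2

/-- the law of the noise is unique -/
theorem noise_law {Ω' : Type*} [MeasurableSpace Ω'] {P' : Measure Ω'} [IsProbabilityMeasure P']
    {w' : Site d → ℝ≥0 → Ω' → ℝ} (hw : Noise P w) (hw' : Noise P' w') :
    P.map (pth w) = P'.map (pth w') := by
  have h1 := hw.indep.map_fun_eq_infinitePi_map (fun x => N2_path hw x)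
  have h2 := hw'.indep.map_fun_eq_infinitePi_map (fun x => N2_path hw' x)
  show P.map (fun ω x t => w x t ω) = P'.map (fun ω x t => w' x t ω)
  rw [h1, h2]
  simp_rw [N2_marg hw hw']

theorem noise_sh (hw : Noise P w) (s : ℝ≥0) :
    Noise P (fun x t ω => w x (s + t) ω - w x s ω) where
  meas x t := (hw.meas x _).sub (hw.meas x _)
  bm x := (hw.bm x).shift s
  cont x ω := ((hw.cont x ω).comp (by fun_prop)).sub continuous_const
  indep := hw.indep.comp (fun _ (z : ℝ≥0 → ℝ) t => z (s + t) - z s) (fun _ => by fun_prop)

theorem noise_shx (hw : Noise P w) (y : Site d) : Noise P (fun x t ω => w (x + y) t ω) where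
  meas x t := hw.meas _ _
  bm x := hw.bm _
  cont x ω := hw.cont _ _
  indep := hw.indep.precomp (g := fun x => x + y) (add_left_injective y)

theorem noise_exp (hw : Noise P w) (x : Site d) (s h : ℝ≥0) :
    ∫⁻ ω, ENNReal.ofReal (Real.exp (w x (s + h) ω - w x s ω)) ∂P =
      ENNReal.ofReal (Real.exp (h / 2)) := by
  have hl := ((hw.bm x).toIsPreBrownianReal.shift s).hasLaw_eval h
  have hm : P.map (fun ω => w x (s + h) ω - w x s ω) = gaussianReal 0 h := hl.map_eq
  have hmgf := mgf_gaussianReal hm 1
  have hint : Integrable (fun ω => Real.exp (w x (s + h) ω - w x s ω)) P := by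
    have h1 : Integrable (fun z : ℝ => Real.exp (1 * z)) (gaussianReal 0 h) :=
      integrable_exp_mul_gaussianReal 1
    rw [← hm] at h1
    have h2 := (integrable_map_measure h1.aestronglyMeasurable
      (((hw.meas x _).sub (hw.meas x _)).aemeasurable)).1 h1
    simpa [Function.comp_def] using h2
  rw [← ofReal_integral_eq_lintegral_ofReal hint (Eventually.of_forall fun _ => (Real.exp_pos _).le)]
  congr 1
  have : ∫ ω, Real.exp (w x (s + h) ω - w x s ω) ∂P = mgf (fun ω => w x (s + h) ω - w x s ω) P 1 := by
    simp [mgf]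
  rw [this, hmgf]
  congr 1
  ring

end Pool.Agent.H704R2.PAM
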