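import Mathlib

set_option autoImplicit false
open MeasureTheory ProbabilityTheory Filter Topology Set
open scoped ENNReal NNReal

namespace Pool.Agent.H704R2.PAM

/-- the lattice `Z^d` -/
abbrev Site (d : ℕ) := Fin d → ℤ

/-- lattice Laplacian -/
def lap {d : ℕ} (f : Site d → ℝ) (x : Site d) : ℝ :=
  ∑ i : Fin d, (f (x + Pi.single i 1) + f (x - Pi.single i 1) - 2 * f x)

/-- a family of independent standard Brownian motions with continuous paths -/
structure Noise {Ω : Type*} [MeasurableSpace Ω] (P : Measure Ω) {d : ℕ}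
    (w : Site d → ℝ≥0 → Ω → ℝ) : Prop where
  meas : ∀ x t, Measurable (w x t)
  bm : ∀ x, IsBrownianReal (w x) P
  cont : ∀ x ω, Continuous fun t => w x t ω
  indep : iIndepFun (fun x ω t => w x t ω) P

/-- `ℱ` is a filtration for the noise: `w` is adapted and its increments after `s` are
independent of `ℱ s` -/
structure NoiseFilt {Ω : Type*} [mΩ : MeasurableSpace Ω] (P : Measure Ω) (ℱ : Filtration ℝ≥0 mΩ)
    {d : ℕ} (w : Site d → ℝ≥0 → Ω → ℝ) : Prop where
  adapted : ∀ x t, Measurable[ℱ t] (w x t)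
  indep : ∀ s, Indep (ℱ s)
    (MeasurableSpace.comap (fun ω (q : Site d × ℝ≥0) => w q.1 (s + q.2) ω - w q.1 s ω)
      MeasurableSpace.pi) P

/-- Adapted nonnegative solutions of `du = (k Δ u - ε u^γ) dt + u dw` with `u(0,x)=1`, in integrated
form relative to the geometric factor `exp (w_t(x) + lam t)`: `lam = -1/2` is the Ito equation,
`lam = 0` the Stratonovich equation.  The last field says that the first moment is bounded
uniformly in space and locally in time. -/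
structure IsSol {Ω : Type*} [mΩ : MeasurableSpace Ω] (P : Measure Ω) (ℱ : Filtration ℝ≥0 mΩ) {d : ℕ}
    (γ : ℕ) (k ε lam : ℝ) (w : Site d → ℝ≥0 → Ω → ℝ) (u : ℝ≥0 → Site d → Ω → ℝ) : Prop where
  adapted : ∀ t x, Measurable[ℱ t] (u t x)
  nonneg : ∀ᵐ ω ∂P, ∀ t x, 0 ≤ u t x ω
  cont : ∀ᵐ ω ∂P, ∀ x, Continuous fun t => u t x ω
  eqn : ∀ᵐ ω ∂P, ∀ (t : ℝ≥0) (x : Site d), u t x ω = Real.exp (w x t ω + lam * t) *
    (1 + ∫ s in (0 : ℝ)..t, Real.exp (-(w x s.toNNReal ω + lam * s)) *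
      (k * lap (fun y => u s.toNNReal y ω) x - ε * u s.toNNReal x ω ^ γ))
  bound : ∀ T : ℝ≥0, ∃ C : ℝ, ∀ t ≤ T, ∀ x, Integrable (u t x) P ∧ ∫ ω, u t x ω ∂P ≤ C

/-- convergence of all finite dimensional distributions of `u(t + ·, ·)` to those of `ν` -/
def FddTendsto {Ω : Type*} [MeasurableSpace Ω] (P : Measure Ω) {d : ℕ}
    (u : ℝ≥0 → Site d → Ω → ℝ) (ν : Measure (ℝ≥0 × Site d → ℝ)) : Prop :=
  ∀ (I : Finset (ℝ≥0 × Site d)) (f : BoundedContinuousFunction (I → ℝ) ℝ),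
    Tendsto (fun t : ℝ≥0 => ∫ ω, f (fun i => u (t + i.1.1) i.1.2 ω) ∂P) atTop
      (𝓝 (∫ z, f (fun i => z i.1) ∂ν))

/-- shift of a space-time field by `s` in time and `y` in space -/
def shf {d : ℕ} (s : ℝ≥0) (y : Site d) (z : ℝ≥0 × Site d → ℝ) : ℝ≥0 × Site d → ℝ :=
  fun q => z (s + q.1, q.2 + y)

end Pool.Agent.H704R2.PAM
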