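import Pool.Agent.H704R2.PAM.Defs

set_option autoImplicit false
open MeasureTheory ProbabilityTheory Filter Topology Set
open scoped ENNReal NNReal

namespace Pool.Agent.H704R2.PAM

/-! Module S1b: product rule -/

theorem S1b_abs {z f : ℝ → ℝ} (hz : Continuous z) (hf : Continuous f) (a c : ℝ) :
    (∀ T : ℝ, 0 ≤ T → Real.exp (c * T) * z T = a + ∫ s in (0 : ℝ)..T, Real.exp (c * s) * f s) ↔
    (∀ T : ℝ, 0 ≤ T → z T = a + ∫ s in (0 : ℝ)..T, (f s - c * z s)) := by
  have hexp : Continuous fun s : ℝ => Real.exp (c * s) := by fun_prop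
  have hder : ∀ T : ℝ, HasDerivAt (fun s : ℝ => Real.exp (c * s)) (Real.exp (c * T) * c) T := by
    intro T
    have := ((hasDerivAt_id T).const_mul c).exp
    simpa using this
  constructor
  · intro h T hT
    set Z : ℝ → ℝ := fun T => Real.exp (-(c * T)) * (a + ∫ s in (0 : ℝ)..T, Real.exp (c * s) * f s)
      with hZ
    have hd : ∀ t, HasDerivAt Z (f t - c * Z t) t := by
      intro t
      have h1 : HasDerivAt (fun T => a + ∫ s in (0 : ℝ)..T, Real.exp (c * s) * f s)
          (Real.exp (c * t) * f t) t :=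
        ((hexp.mul hf).integral_hasStrictDerivAt 0 t).hasDerivAt.const_add a
      have h2 : HasDerivAt (fun s : ℝ => Real.exp (-(c * s))) (Real.exp (-(c * t)) * (-c)) t := by
        have := (((hasDerivAt_id t).const_mul c).neg).exp
        simpa using this
      have h3 := h2.mul h1
      refine h3.congr_deriv ?_
      rw [hZ]
      have : Real.exp (-(c * t)) * Real.exp (c * t) = 1 := by
        rw [← Real.exp_add]; simp
      linear_combination (f t) * this
    have hcZ : Continuous Z := continuous_iff_continuousAt.2 fun t => (hd t).continuousAt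
    have hzZ : ∀ t, 0 ≤ t → z t = Z t := by
      intro t ht
      rw [hZ]
      simp only
      rw [← h t ht, ← mul_assoc, ← Real.exp_add]; simp
    have hint : ∫ s in (0 : ℝ)..T, (f s - c * Z s) = Z T - Z 0 :=
      intervalIntegral.integral_eq_sub_of_hasDerivAt (fun t _ => hd t)
        ((hf.sub (hcZ.const_mul c)).intervalIntegrable _ _)
    have hZ0 : Z 0 = a := by simp [hZ]
    have hcongr : ∫ s in (0 : ℝ)..T, (f s - c * z s) = ∫ s in (0 : ℝ)..T, (f s - c * Z s) := by
      apply intervalIntegral.integral_congr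
      intro s hs
      rw [uIcc_of_le hT] at hs
      simp only
      rw [hzZ s hs.1]
    rw [hcongr, hint, hZ0, hzZ T hT]
    ring
  · intro h T hT
    set Z : ℝ → ℝ := fun T => a + ∫ s in (0 : ℝ)..T, (f s - c * z s) with hZ
    have hd : ∀ t, HasDerivAt Z (f t - c * z t) t := by
      intro t
      exact ((hf.sub (hz.const_mul c)).integral_hasStrictDerivAt 0 t).hasDerivAt.const_add a
    have hcZ : Continuous Z := continuous_iff_continuousAt.2 fun t => (hd t).continuousAt
    have hd2 : ∀ t, HasDerivAt (fun s => Real.exp (c * s) * Z s)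
        (Real.exp (c * t) * (c * Z t + f t - c * z t)) t := by
      intro t
      refine ((hder t).mul (hd t)).congr_deriv ?_
      ring
    have hint : ∫ s in (0 : ℝ)..T, Real.exp (c * s) * (c * Z s + f s - c * z s) =
        Real.exp (c * T) * Z T - Real.exp (c * 0) * Z 0 :=
      intervalIntegral.integral_eq_sub_of_hasDerivAt (fun t _ => hd2 t)
        ((hexp.mul (((hcZ.const_mul c).add hf).sub (hz.const_mul c))).intervalIntegrable _ _)
    have hZ0 : Z 0 = a := by simp [hZ]
    have hcongr : ∫ s in (0 : ℝ)..T, Real.exp (c * s) * (c * Z s + f s - c * z s) =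
        ∫ s in (0 : ℝ)..T, Real.exp (c * s) * f s := by
      apply intervalIntegral.integral_congr
      intro s hs
      rw [uIcc_of_le hT] at hs
      simp only
      rw [h s hs.1]
      show Real.exp (c * s) * (c * Z s + f s - c * Z s) = _
      ring
    rw [← hcongr, hint, hZ0, h T hT]
    simp [hZ]

theorem S1b_lap {d : ℕ} (f : Site d → ℝ) (x : Site d) : lap f x = nsum f x - 2 * d * f x := by
  unfold lap nsum nb
  rw [Fintype.sum_prod_type]
  simp only [Fintype.sum_bool, if_true]
  rw [Finset.sum_sub_distrib]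
  simp
  ring

/-- passing from the sum over neighbours to the Laplacian (product rule) -/
theorem lap_form (Q : Par) {W : Site Q.d → ℝ≥0 → ℝ} (hW : CP W) {U : ℝ≥0 → Site Q.d → ℝ}
    (hU : ∀ x, Continuous fun t => U t x) (x : Site Q.d) (a : ℝ) :
    (∀ T : ℝ≥0, U T x = Real.exp (bb Q W x T) * a +
        ∫ s in (0 : ℝ)..T, Real.exp (bb Q W x T - bb Q W x s) *
          (Q.k * nsum (U s.toNNReal) x - Q.ep * U s.toNNReal x ^ (Q.p + 1))) ↔
    (∀ T : ℝ≥0, U T x = Real.exp (W x T + Q.lam * T) * (a + ∫ s in (0 : ℝ)..T,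
        Real.exp (-(W x s.toNNReal + Q.lam * s)) *
          (Q.k * lap (U s.toNNReal) x - Q.ep * U s.toNNReal x ^ (Q.p + 1)))) := by
  set V : ℝ → ℝ := fun s => W x s.toNNReal + Q.lam * s with hV
  set F : ℝ → ℝ := fun s => Q.k * nsum (U s.toNNReal) x - Q.ep * U s.toNNReal x ^ (Q.p + 1) with hF
  set c : ℝ := 2 * Q.d * Q.k with hc
  have hUc : ∀ y, Continuous fun s : ℝ => U s.toNNReal y := fun y =>
    (hU y).comp continuous_real_toNNReal
  have hVc : Continuous V := ((hW x).comp continuous_real_toNNReal).add (by fun_prop)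
  have hFc : Continuous F := by
    rw [hF]
    unfold nsum
    refine (continuous_const.mul (continuous_finset_sum _ fun e _ => hUc _)).sub
      (continuous_const.mul ((hUc x).pow _))
  set z : ℝ → ℝ := fun s => Real.exp (-V s) * U s.toNNReal x with hz
  set f : ℝ → ℝ := fun s => Real.exp (-V s) * F s with hf
  have hzc : Continuous z := (Real.continuous_exp.comp hVc.neg).mul (hUc x)
  have hfc : Continuous f := (Real.continuous_exp.comp hVc.neg).mul hFc
  have hbb : ∀ s, bb Q W x s = V s - c * s := by
    intro s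
    simp only [bb, hV, hc, Par.kap]
    ring
  have hkey := S1b_abs hzc hfc a c
  have hA : (∀ T : ℝ≥0, U T x = Real.exp (bb Q W x T) * a +
        ∫ s in (0 : ℝ)..T, Real.exp (bb Q W x T - bb Q W x s) *
          (Q.k * nsum (U s.toNNReal) x - Q.ep * U s.toNNReal x ^ (Q.p + 1))) ↔
      (∀ T : ℝ, 0 ≤ T → Real.exp (c * T) * z T = a + ∫ s in (0 : ℝ)..T, Real.exp (c * s) * f s) := by
    have hT : ∀ T : ℝ≥0, (U T x = Real.exp (bb Q W x T) * a +
        ∫ s in (0 : ℝ)..T, Real.exp (bb Q W x T - bb Q W x s) *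
          (Q.k * nsum (U s.toNNReal) x - Q.ep * U s.toNNReal x ^ (Q.p + 1))) ↔
        (Real.exp (c * T) * z T = a + ∫ s in (0 : ℝ)..T, Real.exp (c * s) * f s) := by
      intro T
      have e1 : ∫ s in (0 : ℝ)..T, Real.exp (bb Q W x T - bb Q W x s) *
          (Q.k * nsum (U s.toNNReal) x - Q.ep * U s.toNNReal x ^ (Q.p + 1)) =
          Real.exp (bb Q W x T) * ∫ s in (0 : ℝ)..T, Real.exp (c * s) * f s := by
        rw [← intervalIntegral.integral_const_mul]
        apply intervalIntegral.integral_congr
        intro s _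
        show Real.exp (bb Q W x T - bb Q W x s) * F s =
          Real.exp (bb Q W x T) * (Real.exp (c * s) * (Real.exp (-V s) * F s))
        rw [hbb s, ← mul_assoc, ← mul_assoc, ← Real.exp_add, ← Real.exp_add]
        congr 2
        ring
      rw [e1, ← mul_add]
      have e2 : Real.exp (c * T) * z T = Real.exp (-bb Q W x T) * U T x := by
        show Real.exp (c * T) * (Real.exp (-V T) * U (T : ℝ).toNNReal x) = _
        rw [Real.toNNReal_coe, hbb, ← mul_assoc, ← Real.exp_add]
        congr 2
        ring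
      rw [e2]
      constructor
      · intro h
        rw [h, ← mul_assoc, ← Real.exp_add]; simp
      · intro h
        rw [← h, ← mul_assoc, ← Real.exp_add]; simp
    constructor
    · intro h T hT0
      have := (hT ⟨T, hT0⟩).1 (h ⟨T, hT0⟩)
      exact this
    · intro h T
      exact (hT T).2 (h T T.2)
  have hB : (∀ T : ℝ≥0, U T x = Real.exp (W x T + Q.lam * T) * (a + ∫ s in (0 : ℝ)..T,
        Real.exp (-(W x s.toNNReal + Q.lam * s)) *
          (Q.k * lap (U s.toNNReal) x - Q.ep * U s.toNNReal x ^ (Q.p + 1)))) ↔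
      (∀ T : ℝ, 0 ≤ T → z T = a + ∫ s in (0 : ℝ)..T, (f s - c * z s)) := by
    have hT : ∀ T : ℝ≥0, (U T x = Real.exp (W x T + Q.lam * T) * (a + ∫ s in (0 : ℝ)..T,
        Real.exp (-(W x s.toNNReal + Q.lam * s)) *
          (Q.k * lap (U s.toNNReal) x - Q.ep * U s.toNNReal x ^ (Q.p + 1)))) ↔
        (z T = a + ∫ s in (0 : ℝ)..T, (f s - c * z s)) := by
      intro T
      have e1 : ∫ s in (0 : ℝ)..T, Real.exp (-(W x s.toNNReal + Q.lam * s)) *
          (Q.k * lap (U s.toNNReal) x - Q.ep * U s.toNNReal x ^ (Q.p + 1)) =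
          ∫ s in (0 : ℝ)..T, (f s - c * z s) := by
        apply intervalIntegral.integral_congr
        intro s _
        show Real.exp (-V s) * (Q.k * lap (U s.toNNReal) x - Q.ep * U s.toNNReal x ^ (Q.p + 1)) =
          Real.exp (-V s) * F s - c * (Real.exp (-V s) * U s.toNNReal x)
        rw [S1b_lap]
        simp only [hF, hc]
        ring
      rw [e1]
      have e2 : z T = Real.exp (-(W x T + Q.lam * T)) * U T x := by
        show Real.exp (-V T) * U (T : ℝ).toNNReal x = _
        simp only [hV, Real.toNNReal_coe]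
      rw [e2]
      constructor
      · intro h
        rw [h, ← mul_assoc, ← Real.exp_add]; simp
      · intro h
        rw [← h, ← mul_assoc, ← Real.exp_add]; simp
    constructor
    · intro h T hT0
      have := (hT ⟨T, hT0⟩).1 (h ⟨T, hT0⟩)
      exact this
    · intro h T
      exact (hT T).2 (h T T.2)
  rw [hA, hB]
  exact hkey

end Pool.Agent.H704R2.PAM
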