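import Pool.Agent.H704R2.PAM.H

set_option autoImplicit false
open MeasureTheory ProbabilityTheory Filter Topology Set
open scoped ENNReal NNReal

namespace Pool.Agent.H704R2.PAM

/-! Module S1a: existence (the infinite volume limit solves the equation) -/

theorem S1a_box_mono (d : ℕ) {m m' : ℕ} (h : m ≤ m') : box d m ⊆ box d m' := by
  intro x hx
  unfold box at *
  rw [Fintype.mem_piFinset] at *
  intro i
  have := Finset.mem_Icc.1 (hx i)
  rw [Finset.mem_Icc]
  constructor <;> omega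

theorem S1a_box_mem {d : ℕ} (x : Site d) : ∃ m0 : ℕ, ∀ m, m0 ≤ m → x ∈ box d m := by
  refine ⟨∑ i, (x i).natAbs, fun m hm => ?_⟩
  unfold box
  rw [Fintype.mem_piFinset]
  intro i
  have h1 : (x i).natAbs ≤ ∑ i, (x i).natAbs :=
    Finset.single_le_sum (f := fun i => (x i).natAbs) (fun _ _ => Nat.zero_le _)
      (Finset.mem_univ i)
  rw [Finset.mem_Icc]
  omega

theorem S1a_bb_cont (Q : Par) {W : Site Q.d → ℝ≥0 → ℝ} (hW : CP W) (x : Site Q.d) :
    Continuous (bb Q W x) := by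
  unfold bb
  exact ((hW x).comp continuous_real_toNNReal).add (by fun_prop)

section det

variable (Q : Par) {W : Site Q.d → ℝ≥0 → ℝ} (hW : CP W) {c : ℝ} (hc : 0 ≤ c)

include hc in
theorem S1a_mono (W : Site Q.d → ℝ≥0 → ℝ) (s : ℝ≥0) (x : Site Q.d) :
    Monotone fun m : ℕ => fvE Q (box Q.d m) W (fun _ => c) s x :=
  fun _ _ h => fvE_mono_set Q (S1a_box_mono Q.d h) W (fun _ _ => hc) s x

include hc in
theorem S1a_lim (W : Site Q.d → ℝ≥0 → ℝ) (s : ℝ≥0) (x : Site Q.d) :
    Tendsto (fun m : ℕ => fvE Q (box Q.d m) W (fun _ => c) s x) atTop (𝓝 (ivE Q W c s x)) :=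
  tendsto_atTop_iSup (S1a_mono Q hc W s x)

include hW hc in
theorem S1a_cont (m : ℕ) (x : Site Q.d) :
    Continuous fun s : ℝ => fv Q (box Q.d m) W (fun _ => c) s.toNNReal x :=
  (fv_continuous Q (box Q.d m) hW (fun _ => hc) x).comp continuous_real_toNNReal

include hW hc in
theorem S1a_meas (m : ℕ) (x : Site Q.d) :
    Measurable fun s : ℝ => fvE Q (box Q.d m) W (fun _ => c) s.toNNReal x := by
  have h1 : (fun s : ℝ => fvE Q (box Q.d m) W (fun _ => c) s.toNNReal x) =
      fun s : ℝ => ENNReal.ofReal (fv Q (box Q.d m) W (fun _ => c) s.toNNReal x) := by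
    funext s
    exact fvE_eq Q _ hW (fun _ => hc) _ _
  rw [h1]
  exact (S1a_cont Q hW hc m x).measurable.ennreal_ofReal

include hW hc in
theorem S1a_meas_iv (x : Site Q.d) :
    Measurable fun s : ℝ => ivE Q W c s.toNNReal x := by
  unfold ivE
  exact Measurable.iSup fun m => S1a_meas Q hW hc m x

include hW hc in
/-- the equation in a box, in `ℝ≥0∞` -/
theorem S1a_box (T : ℝ≥0) (m : ℕ) {x : Site Q.d} (hx : x ∈ box Q.d m) :
    fvE Q (box Q.d m) W (fun _ => c) T x + ∫⁻ s in Ioc (0 : ℝ) T,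
      ENNReal.ofReal (Real.exp (bb Q W x T - bb Q W x s) * Q.ep) *
        fvE Q (box Q.d m) W (fun _ => c) s.toNNReal x ^ (Q.p + 1) =
    ENNReal.ofReal (Real.exp (bb Q W x T - bb Q W x 0) * c) + ∫⁻ s in Ioc (0 : ℝ) T,
      ENNReal.ofReal (Real.exp (bb Q W x T - bb Q W x s) * Q.k) *
        ∑ e : Fin Q.d × Bool, fvE Q (box Q.d m) W (fun _ => c) s.toNNReal (nb x e) := by
  set u : ℝ → Site Q.d → ℝ := fun s y => fv Q (box Q.d m) W (fun _ => c) s.toNNReal y with hu
  have hu0 : ∀ s y, 0 ≤ u s y := fun s y => fv_nonneg Q _ _ _ _ _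
  have huc : ∀ y, Continuous fun s => u s y := fun y => S1a_cont Q hW hc m y
  have hE : ∀ (s : ℝ≥0) y, fvE Q (box Q.d m) W (fun _ => c) s y =
      ENNReal.ofReal (fv Q (box Q.d m) W (fun _ => c) s y) := fun s y =>
    fvE_eq Q _ hW (fun _ => hc) _ _
  have hE' : ∀ (s : ℝ) y, fvE Q (box Q.d m) W (fun _ => c) s.toNNReal y =
      ENNReal.ofReal (u s y) := fun s y => hE _ _
  have hbb := S1a_bb_cont Q hW x
  set A : ℝ → ℝ := fun s => Real.exp (bb Q W x T - bb Q W x s) * (Q.ep * u s x ^ (Q.p + 1)) with hA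
  set B : ℝ → ℝ := fun s => Real.exp (bb Q W x T - bb Q W x s) * (Q.k * nsum (u s) x) with hB
  have hexpc : Continuous fun s => Real.exp (bb Q W x T - bb Q W x s) :=
    (continuous_const.sub hbb).rexp
  have hAc : Continuous A := hexpc.mul (continuous_const.mul ((huc x).pow _))
  have hBc : Continuous B := by
    apply hexpc.mul (continuous_const.mul _)
    unfold nsum
    exact continuous_finsetSum _ fun e _ => huc _
  have hA0 : ∀ s, 0 ≤ A s := fun s =>
    mul_nonneg (Real.exp_pos _).le (mul_nonneg Q.hep.le (pow_nonneg (hu0 _ _) _))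
  have hB0 : ∀ s, 0 ≤ B s := fun s =>
    mul_nonneg (Real.exp_pos _).le (mul_nonneg Q.hk (Finset.sum_nonneg fun e _ => hu0 _ _))
  have hT0 : (0 : ℝ) ≤ T := T.2
  have heq := (fv_isFV Q (box Q.d m) hW (v := fun _ => c) (fun _ => hc) hT0).eqn T ⟨hT0, le_rfl⟩ x hx
  have hsplit : ∫ s in (0 : ℝ)..T, Real.exp (bb Q W x T - bb Q W x s) *
      (Q.k * nsum (fun y => fv Q (box Q.d m) W (fun _ => c) s.toNNReal y) x -
        Q.ep * fv Q (box Q.d m) W (fun _ => c) s.toNNReal x ^ (Q.p + 1)) =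
      (∫ s in (0 : ℝ)..T, B s) - ∫ s in (0 : ℝ)..T, A s := by
    rw [← intervalIntegral.integral_sub (hBc.intervalIntegrable _ _)
      (hAc.intervalIntegrable _ _)]
    apply intervalIntegral.integral_congr
    intro s _
    simp only [hA, hB, hu]
    ring
  have h1 : fv Q (box Q.d m) W (fun _ => c) T x + ∫ s in (0 : ℝ)..T, A s =
      Real.exp (bb Q W x T - bb Q W x 0) * c + ∫ s in (0 : ℝ)..T, B s := by
    have h2 : fv Q (box Q.d m) W (fun _ => c) T x = Real.exp (bb Q W x T - bb Q W x 0) * c +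
      ((∫ s in (0 : ℝ)..T, B s) - ∫ s in (0 : ℝ)..T, A s) := by
      rw [← hsplit, ← heq, Real.toNNReal_coe]
    rw [h2]; ring
  have hconv : ∀ g : ℝ → ℝ, Continuous g → (∀ s, 0 ≤ g s) →
      ENNReal.ofReal (∫ s in (0 : ℝ)..T, g s) = ∫⁻ s in Ioc (0 : ℝ) T, ENNReal.ofReal (g s) := by
    intro g hg hg0
    rw [intervalIntegral.integral_of_le hT0, ofReal_integral_eq_lintegral_ofReal
      ((hg.intervalIntegrable 0 T).1) (Eventually.of_forall hg0)]
  have h3 := congrArg ENNReal.ofReal h1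
  rw [ENNReal.ofReal_add (fv_nonneg Q _ _ _ _ _)
      (intervalIntegral.integral_nonneg hT0 fun s _ => hA0 s),
    ENNReal.ofReal_add (mul_nonneg (Real.exp_pos _).le hc)
      (intervalIntegral.integral_nonneg hT0 fun s _ => hB0 s),
    hconv A hAc hA0, hconv B hBc hB0, ← hE] at h3
  have h4 : ∀ s, ENNReal.ofReal (Real.exp (bb Q W x T - bb Q W x s) * Q.ep) *
      fvE Q (box Q.d m) W (fun _ => c) s.toNNReal x ^ (Q.p + 1) = ENNReal.ofReal (A s) := by
    intro s
    rw [hE', ← ENNReal.ofReal_pow (hu0 _ _), ← ENNReal.ofReal_mul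
      (mul_nonneg (Real.exp_pos _).le Q.hep.le)]
    congr 1
    simp only [hA]
    ring
  have h5 : ∀ s, ENNReal.ofReal (Real.exp (bb Q W x T - bb Q W x s) * Q.k) *
      ∑ e : Fin Q.d × Bool, fvE Q (box Q.d m) W (fun _ => c) s.toNNReal (nb x e) =
        ENNReal.ofReal (B s) := by
    intro s
    have h6 : ∑ e : Fin Q.d × Bool, fvE Q (box Q.d m) W (fun _ => c) s.toNNReal (nb x e) =
        ENNReal.ofReal (nsum (u s) x) := by
      unfold nsum
      rw [ENNReal.ofReal_sum_of_nonneg fun e _ => hu0 _ _]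
      exact Finset.sum_congr rfl fun e _ => hE' _ _
    rw [h6, ← ENNReal.ofReal_mul (mul_nonneg (Real.exp_pos _).le Q.hk)]
    congr 1
    simp only [hB]
    ring
  simp_rw [h4, h5]
  exact h3

include hW hc in
/-- the equation in the infinite volume, in `ℝ≥0∞` -/
theorem S1a_eq (T : ℝ≥0) (x : Site Q.d) :
    ivE Q W c T x + ∫⁻ s in Ioc (0 : ℝ) T,
      ENNReal.ofReal (Real.exp (bb Q W x T - bb Q W x s) * Q.ep) *
        ivE Q W c s.toNNReal x ^ (Q.p + 1) =
    ENNReal.ofReal (Real.exp (bb Q W x T - bb Q W x 0) * c) + ∫⁻ s in Ioc (0 : ℝ) T,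
      ENNReal.ofReal (Real.exp (bb Q W x T - bb Q W x s) * Q.k) *
        ∑ e : Fin Q.d × Bool, ivE Q W c s.toNNReal (nb x e) := by
  have hbb := (S1a_bb_cont Q hW x).measurable
  have h1 : Tendsto (fun m : ℕ => fvE Q (box Q.d m) W (fun _ => c) T x + ∫⁻ s in Ioc (0 : ℝ) T,
      ENNReal.ofReal (Real.exp (bb Q W x T - bb Q W x s) * Q.ep) *
        fvE Q (box Q.d m) W (fun _ => c) s.toNNReal x ^ (Q.p + 1)) atTop
      (𝓝 (ivE Q W c T x + ∫⁻ s in Ioc (0 : ℝ) T,
      ENNReal.ofReal (Real.exp (bb Q W x T - bb Q W x s) * Q.ep) *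
        ivE Q W c s.toNNReal x ^ (Q.p + 1))) := by
    apply (S1a_lim Q hc W T x).add
    apply lintegral_tendsto_of_tendsto_of_monotone
    · intro m
      exact (Measurable.mul (by fun_prop) ((S1a_meas Q hW hc m x).pow_const _)).aemeasurable
    · apply Eventually.of_forall
      intro s m m' h
      exact mul_le_mul_right (pow_le_pow_left' (S1a_mono Q hc W _ x h) _) _
    · apply Eventually.of_forall
      intro s
      exact ENNReal.Tendsto.const_mul
        (((ENNReal.continuous_pow _).tendsto _).comp (S1a_lim Q hc W s.toNNReal x))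
        (Or.inr ENNReal.ofReal_ne_top)
  have h2 : Tendsto (fun m : ℕ => ENNReal.ofReal (Real.exp (bb Q W x T - bb Q W x 0) * c) +
      ∫⁻ s in Ioc (0 : ℝ) T,
      ENNReal.ofReal (Real.exp (bb Q W x T - bb Q W x s) * Q.k) *
        ∑ e : Fin Q.d × Bool, fvE Q (box Q.d m) W (fun _ => c) s.toNNReal (nb x e)) atTop
      (𝓝 (ENNReal.ofReal (Real.exp (bb Q W x T - bb Q W x 0) * c) + ∫⁻ s in Ioc (0 : ℝ) T,
      ENNReal.ofReal (Real.exp (bb Q W x T - bb Q W x s) * Q.k) *
        ∑ e : Fin Q.d × Bool, ivE Q W c s.toNNReal (nb x e))) := by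
    apply tendsto_const_nhds.add
    apply lintegral_tendsto_of_tendsto_of_monotone
    · intro m
      exact (Measurable.mul (by fun_prop)
        (Finset.measurable_sum _ fun e _ => S1a_meas Q hW hc m _)).aemeasurable
    · apply Eventually.of_forall
      intro s m m' h
      exact mul_le_mul_right (Finset.sum_le_sum fun e _ => S1a_mono Q hc W _ _ h) _
    · apply Eventually.of_forall
      intro s
      exact ENNReal.Tendsto.const_mul
        (tendsto_finsetSum _ fun e _ => S1a_lim Q hc W s.toNNReal (nb x e))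
        (Or.inr ENNReal.ofReal_ne_top)
  obtain ⟨m0, hm0⟩ := S1a_box_mem x
  refine tendsto_nhds_unique (h1.congr' ?_) h2
  filter_upwards [eventually_ge_atTop m0] with m hm
  exact S1a_box Q hW hc T m (hm0 m hm)

include hW in
theorem S1a_exp_bound (x : Site Q.d) (T : ℝ≥0) (a : ℝ) :
    ∃ C : ℝ, 0 ≤ C ∧ ∀ s ∈ Ioc (0 : ℝ) T, Real.exp (bb Q W x T - bb Q W x s) * a ≤ C := by
  have hcont : ContinuousOn (fun s => Real.exp (bb Q W x T - bb Q W x s) * a) (Icc (0 : ℝ) T) :=
    (((continuous_const.sub (S1a_bb_cont Q hW x)).rexp).mul continuous_const).continuousOn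
  obtain ⟨C, hC⟩ := isCompact_Icc.exists_bound_of_continuousOn hcont
  refine ⟨|C|, abs_nonneg _, fun s hs => ?_⟩
  have := hC s ⟨hs.1.le, hs.2⟩
  exact (le_abs_self _).trans (this.trans (le_abs_self _))

include hW hc in
theorem S1a_rhs_fin (hfin : ∀ (N : ℕ) (x : Site Q.d),
      ∫⁻ s in Ioc (0 : ℝ) N, ivE Q W c s.toNNReal x ≠ ⊤) (T : ℝ≥0) (x : Site Q.d) :
    ∫⁻ s in Ioc (0 : ℝ) T,
      ENNReal.ofReal (Real.exp (bb Q W x T - bb Q W x s) * Q.k) *
        ∑ e : Fin Q.d × Bool, ivE Q W c s.toNNReal (nb x e) ≠ ⊤ := by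
  obtain ⟨C, hC0, hC⟩ := S1a_exp_bound Q hW x T Q.k
  obtain ⟨N, hN⟩ := exists_nat_ge (T : ℝ)
  have h1 : ∫⁻ s in Ioc (0 : ℝ) T,
      ENNReal.ofReal (Real.exp (bb Q W x T - bb Q W x s) * Q.k) *
        ∑ e : Fin Q.d × Bool, ivE Q W c s.toNNReal (nb x e) ≤
      ∫⁻ s in Ioc (0 : ℝ) T, ENNReal.ofReal C *
        ∑ e : Fin Q.d × Bool, ivE Q W c s.toNNReal (nb x e) := by
    apply setLIntegral_mono' measurableSet_Ioc
    intro s hs
    exact mul_le_mul_left (ENNReal.ofReal_le_ofReal (hC s hs)) _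
  have h2 : ∫⁻ s in Ioc (0 : ℝ) T, ENNReal.ofReal C *
        ∑ e : Fin Q.d × Bool, ivE Q W c s.toNNReal (nb x e) =
      ENNReal.ofReal C * ∑ e : Fin Q.d × Bool,
        ∫⁻ s in Ioc (0 : ℝ) T, ivE Q W c s.toNNReal (nb x e) := by
    rw [lintegral_const_mul' _ _ ENNReal.ofReal_ne_top,
      lintegral_finsetSum _ fun e _ => S1a_meas_iv Q hW hc _]
  have h3 : ∀ y, ∫⁻ s in Ioc (0 : ℝ) T, ivE Q W c s.toNNReal y ≠ ⊤ := by
    intro y
    apply ne_top_of_le_ne_top (hfin N y)
    apply lintegral_mono_set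
    exact Ioc_subset_Ioc_right hN
  apply ne_top_of_le_ne_top _ h1
  rw [h2]
  apply ENNReal.mul_ne_top ENNReal.ofReal_ne_top
  exact ENNReal.sum_ne_top.2 fun e _ => h3 _

include hW hc in
theorem S1a_det (hfin : ∀ (N : ℕ) (x : Site Q.d),
      ∫⁻ s in Ioc (0 : ℝ) N, ivE Q W c s.toNNReal x ≠ ⊤) :
    (∀ (T : ℝ≥0) (x : Site Q.d), ivE Q W c T x ≠ ⊤) ∧
      (∀ x : Site Q.d, Continuous fun T : ℝ≥0 => uu Q W c T x) ∧
      ∀ (T : ℝ≥0) (x : Site Q.d), uu Q W c T x =
        Real.exp (bb Q W x T - bb Q W x 0) * c +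
        ∫ s in (0 : ℝ)..T, Real.exp (bb Q W x T - bb Q W x s) *
          (Q.k * nsum (fun y => uu Q W c s.toNNReal y) x -
            Q.ep * uu Q W c s.toNNReal x ^ (Q.p + 1)) := by
  have hrhs := S1a_rhs_fin Q hW hc hfin
  have hlhs : ∀ (T : ℝ≥0) (x : Site Q.d), ivE Q W c T x + ∫⁻ s in Ioc (0 : ℝ) T,
      ENNReal.ofReal (Real.exp (bb Q W x T - bb Q W x s) * Q.ep) *
        ivE Q W c s.toNNReal x ^ (Q.p + 1) ≠ ⊤ := by
    intro T x
    rw [S1a_eq Q hW hc T x]
    exact ENNReal.add_ne_top.2 ⟨ENNReal.ofReal_ne_top, hrhs T x⟩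
  have hiv : ∀ (T : ℝ≥0) (x : Site Q.d), ivE Q W c T x ≠ ⊤ := fun T x =>
    (ENNReal.add_ne_top.1 (hlhs T x)).1
  have huu : ∀ (T : ℝ≥0) (x : Site Q.d), ivE Q W c T x = ENNReal.ofReal (uu Q W c T x) :=
    fun T x => (ENNReal.ofReal_toReal (hiv T x)).symm
  have hu0 : ∀ (T : ℝ≥0) (x : Site Q.d), 0 ≤ uu Q W c T x := fun T x => ENNReal.toReal_nonneg
  have hum : ∀ x : Site Q.d, Measurable fun s : ℝ => uu Q W c s.toNNReal x := fun x =>
    (S1a_meas_iv Q hW hc x).ennreal_toReal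
  have hexpm : ∀ (T : ℝ≥0) (x : Site Q.d),
      Measurable fun s : ℝ => Real.exp (bb Q W x T - bb Q W x s) := fun T x =>
    ((continuous_const.sub (S1a_bb_cont Q hW x)).rexp).measurable
  -- the two nonnegative parts
  have hAi : ∀ (T : ℝ≥0) (x : Site Q.d), IntegrableOn (fun s : ℝ =>
      Real.exp (bb Q W x T - bb Q W x s) * (Q.ep * uu Q W c s.toNNReal x ^ (Q.p + 1)))
      (Ioc (0 : ℝ) T) := by
    intro T x
    rw [IntegrableOn, ← lintegral_ofReal_ne_top_iff_integrable]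
    · have h1 : ∀ s : ℝ, ENNReal.ofReal (Real.exp (bb Q W x T - bb Q W x s) *
          (Q.ep * uu Q W c s.toNNReal x ^ (Q.p + 1))) =
          ENNReal.ofReal (Real.exp (bb Q W x T - bb Q W x s) * Q.ep) *
            ivE Q W c s.toNNReal x ^ (Q.p + 1) := by
        intro s
        rw [huu, ← ENNReal.ofReal_pow (hu0 _ _), ← ENNReal.ofReal_mul
          (mul_nonneg (Real.exp_pos _).le Q.hep.le)]
        congr 1
        ring
      simp_rw [h1]
      exact (ENNReal.add_ne_top.1 (hlhs T x)).2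
    · apply Measurable.aestronglyMeasurable
      exact (hexpm T x).mul (measurable_const.mul ((hum x).pow_const _))
    · apply Eventually.of_forall
      intro s
      exact mul_nonneg (Real.exp_pos _).le (mul_nonneg Q.hep.le (pow_nonneg (hu0 _ _) _))
  have hBi : ∀ (T : ℝ≥0) (x : Site Q.d), IntegrableOn (fun s : ℝ =>
      Real.exp (bb Q W x T - bb Q W x s) * (Q.k * nsum (fun y => uu Q W c s.toNNReal y) x))
      (Ioc (0 : ℝ) T) := by
    intro T x
    rw [IntegrableOn, ← lintegral_ofReal_ne_top_iff_integrable]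
    · have h1 : ∀ s : ℝ, ENNReal.ofReal (Real.exp (bb Q W x T - bb Q W x s) *
          (Q.k * nsum (fun y => uu Q W c s.toNNReal y) x)) =
          ENNReal.ofReal (Real.exp (bb Q W x T - bb Q W x s) * Q.k) *
            ∑ e : Fin Q.d × Bool, ivE Q W c s.toNNReal (nb x e) := by
        intro s
        have h2 : ∑ e : Fin Q.d × Bool, ivE Q W c s.toNNReal (nb x e) =
            ENNReal.ofReal (nsum (fun y => uu Q W c s.toNNReal y) x) := by
          unfold nsum
          rw [ENNReal.ofReal_sum_of_nonneg fun e _ => hu0 _ _]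
          exact Finset.sum_congr rfl fun e _ => huu _ _
        rw [h2, ← ENNReal.ofReal_mul (mul_nonneg (Real.exp_pos _).le Q.hk)]
        congr 1
        ring
      simp_rw [h1]
      exact hrhs T x
    · apply Measurable.aestronglyMeasurable
      apply (hexpm T x).mul (measurable_const.mul _)
      unfold nsum
      exact Finset.measurable_sum _ fun e _ => hum _
    · apply Eventually.of_forall
      intro s
      exact mul_nonneg (Real.exp_pos _).le (mul_nonneg Q.hk
        (Finset.sum_nonneg fun e _ => hu0 _ _))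
  -- the equation
  have heqn : ∀ (T : ℝ≥0) (x : Site Q.d), uu Q W c T x =
        Real.exp (bb Q W x T - bb Q W x 0) * c +
        ∫ s in (0 : ℝ)..T, Real.exp (bb Q W x T - bb Q W x s) *
          (Q.k * nsum (fun y => uu Q W c s.toNNReal y) x -
            Q.ep * uu Q W c s.toNNReal x ^ (Q.p + 1)) := by
    intro T x
    have hT0 : (0 : ℝ) ≤ T := T.2
    have h1 := S1a_eq Q hW hc T x
    have h2 : ∫⁻ s in Ioc (0 : ℝ) T,
        ENNReal.ofReal (Real.exp (bb Q W x T - bb Q W x s) * Q.ep) *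
          ivE Q W c s.toNNReal x ^ (Q.p + 1) =
        ENNReal.ofReal (∫ s in (0 : ℝ)..T, Real.exp (bb Q W x T - bb Q W x s) *
          (Q.ep * uu Q W c s.toNNReal x ^ (Q.p + 1))) := by
      rw [intervalIntegral.integral_of_le hT0, ofReal_integral_eq_lintegral_ofReal (hAi T x)
        (Eventually.of_forall fun s =>
          mul_nonneg (Real.exp_pos _).le (mul_nonneg Q.hep.le (pow_nonneg (hu0 _ _) _)))]
      apply lintegral_congr
      intro s
      rw [huu, ← ENNReal.ofReal_pow (hu0 _ _), ← ENNReal.ofReal_mul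
          (mul_nonneg (Real.exp_pos _).le Q.hep.le)]
      congr 1
      ring
    have h3 : ∫⁻ s in Ioc (0 : ℝ) T,
        ENNReal.ofReal (Real.exp (bb Q W x T - bb Q W x s) * Q.k) *
          ∑ e : Fin Q.d × Bool, ivE Q W c s.toNNReal (nb x e) =
        ENNReal.ofReal (∫ s in (0 : ℝ)..T, Real.exp (bb Q W x T - bb Q W x s) *
          (Q.k * nsum (fun y => uu Q W c s.toNNReal y) x)) := by
      rw [intervalIntegral.integral_of_le hT0, ofReal_integral_eq_lintegral_ofReal (hBi T x)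
        (Eventually.of_forall fun s => mul_nonneg (Real.exp_pos _).le (mul_nonneg Q.hk
          (Finset.sum_nonneg fun e _ => hu0 _ _)))]
      apply lintegral_congr
      intro s
      have h2 : ∑ e : Fin Q.d × Bool, ivE Q W c s.toNNReal (nb x e) =
          ENNReal.ofReal (nsum (fun y => uu Q W c s.toNNReal y) x) := by
        unfold nsum
        rw [ENNReal.ofReal_sum_of_nonneg fun e _ => hu0 _ _]
        exact Finset.sum_congr rfl fun e _ => huu _ _
      rw [h2, ← ENNReal.ofReal_mul (mul_nonneg (Real.exp_pos _).le Q.hk)]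
      congr 1
      ring
    have hA0 : 0 ≤ ∫ s in (0 : ℝ)..T, Real.exp (bb Q W x T - bb Q W x s) *
          (Q.ep * uu Q W c s.toNNReal x ^ (Q.p + 1)) :=
      intervalIntegral.integral_nonneg hT0 fun s _ =>
          mul_nonneg (Real.exp_pos _).le (mul_nonneg Q.hep.le (pow_nonneg (hu0 _ _) _))
    have hB0 : 0 ≤ ∫ s in (0 : ℝ)..T, Real.exp (bb Q W x T - bb Q W x s) *
          (Q.k * nsum (fun y => uu Q W c s.toNNReal y) x) :=
      intervalIntegral.integral_nonneg hT0 fun s _ =>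
        mul_nonneg (Real.exp_pos _).le (mul_nonneg Q.hk (Finset.sum_nonneg fun e _ => hu0 _ _))
    have hC0 : 0 ≤ Real.exp (bb Q W x T - bb Q W x 0) * c := mul_nonneg (Real.exp_pos _).le hc
    rw [h2, h3, huu, ← ENNReal.ofReal_add (hu0 _ _) hA0, ← ENNReal.ofReal_add hC0 hB0,
      ENNReal.ofReal_eq_ofReal_iff (add_nonneg (hu0 _ _) hA0) (add_nonneg hC0 hB0)] at h1
    have h4 : ∫ s in (0 : ℝ)..T, Real.exp (bb Q W x T - bb Q W x s) *
          (Q.k * nsum (fun y => uu Q W c s.toNNReal y) x -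
            Q.ep * uu Q W c s.toNNReal x ^ (Q.p + 1)) =
        (∫ s in (0 : ℝ)..T, Real.exp (bb Q W x T - bb Q W x s) *
          (Q.k * nsum (fun y => uu Q W c s.toNNReal y) x)) -
        ∫ s in (0 : ℝ)..T, Real.exp (bb Q W x T - bb Q W x s) *
          (Q.ep * uu Q W c s.toNNReal x ^ (Q.p + 1)) := by
      rw [← intervalIntegral.integral_sub
        ((intervalIntegrable_iff_integrableOn_Ioc_of_le hT0).2 (hBi T x))
        ((intervalIntegrable_iff_integrableOn_Ioc_of_le hT0).2 (hAi T x))]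
      apply intervalIntegral.integral_congr
      intro s _
      simp only
      ring
    rw [h4]
    linarith
  refine ⟨hiv, fun x => ?_, heqn⟩
  -- continuity
  rw [continuous_iff_continuousAt]
  intro T0
  obtain ⟨N, hN⟩ := exists_nat_gt (T0 : ℝ)
  have hN0 : (0 : ℝ) ≤ N := by positivity
  set g : ℝ → ℝ := fun s => Real.exp (-bb Q W x s) *
    (Q.k * nsum (fun y => uu Q W c s.toNNReal y) x -
      Q.ep * uu Q W c s.toNNReal x ^ (Q.p + 1)) with hg
  have hfac : ∀ (T : ℝ) (s : ℝ), Real.exp (bb Q W x T - bb Q W x s) *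
      (Q.k * nsum (fun y => uu Q W c s.toNNReal y) x -
        Q.ep * uu Q W c s.toNNReal x ^ (Q.p + 1)) = Real.exp (bb Q W x T) * g s := by
    intro T s
    rw [hg, ← mul_assoc, ← Real.exp_add]
    rfl
  have hgi : IntegrableOn g (uIcc (0 : ℝ) N) := by
    rw [uIcc_of_le hN0, integrableOn_Icc_iff_integrableOn_Ioc]
    have h1 := ((hBi N x).sub (hAi N x)).const_mul (Real.exp (-bb Q W x ((N : ℝ≥0) : ℝ)))
    have h2 : (((N : ℝ≥0) : ℝ)) = N := by norm_num
    rw [h2] at h1
    refine h1.congr (Eventually.of_forall fun s => ?_)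
    simp only [Pi.sub_apply, hg]
    rw [← mul_sub, ← mul_assoc, ← Real.exp_add]
    congr 2
    ring
  have hprim := intervalIntegral.continuousOn_primitive_interval hgi
  rw [uIcc_of_le hN0] at hprim
  have hform : (fun T : ℝ≥0 => uu Q W c T x) = fun T : ℝ≥0 =>
      Real.exp (bb Q W x T - bb Q W x 0) * c +
        Real.exp (bb Q W x T) * ∫ s in (0 : ℝ)..T, g s := by
    funext T
    rw [heqn T x, ← intervalIntegral.integral_const_mul]
    congr 1
    apply intervalIntegral.integral_congr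
    intro s _
    exact hfac T s
  rw [hform]
  have hbc : Continuous fun T : ℝ≥0 => bb Q W x T := (S1a_bb_cont Q hW x).comp NNReal.continuous_coe
  have hmem : (T0 : ℝ) ∈ Icc (0 : ℝ) N := ⟨T0.2, hN.le⟩
  have hp : ContinuousAt (fun T : ℝ≥0 => ∫ s in (0 : ℝ)..T, g s) T0 := by
    have h1 := hprim T0 hmem
    refine h1.tendsto.comp ?_
    rw [tendsto_nhdsWithin_iff]
    refine ⟨(NNReal.continuous_coe.tendsto T0), ?_⟩
    have h2 : ∀ᶠ T : ℝ≥0 in 𝓝 T0, (T : ℝ) < N :=
      (NNReal.continuous_coe.continuousAt).eventually_lt_const hN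
    filter_upwards [h2] with T hT
    exact ⟨T.2, hT.le⟩
  exact (((hbc.sub continuous_const).rexp.continuousAt).mul continuousAt_const).add
    ((hbc.rexp.continuousAt).mul hp)

end det

theorem S1a_swap {Ω : Type*} [MeasurableSpace Ω] {g : ℝ≥0 → Ω → ℝ≥0∞}
    (hg : Measurable (Function.uncurry g)) :
    Measurable (Function.uncurry fun (ω : Ω) (s : ℝ) => g s.toNNReal ω) := by
  have h0 : Measurable fun q : Ω × ℝ => (q.2.toNNReal, q.1) :=
    (measurable_real_toNNReal.comp measurable_snd).prodMk measurable_fst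
  exact hg.comp h0

/-- almost surely the infinite volume solution is finite, continuous in time and solves the
integral equation -/
theorem uu_eqn {Ω : Type*} [MeasurableSpace Ω] {P : Measure Ω} [IsProbabilityMeasure P] (Q : Par)
    {w : Site Q.d → ℝ≥0 → Ω → ℝ} (hw : Noise P w) {c : ℝ} (hc : 0 ≤ c) :
    ∀ᵐ ω ∂P, (∀ (T : ℝ≥0) (x : Site Q.d), ivE Q (pth w ω) c T x ≠ ⊤) ∧
      (∀ x : Site Q.d, Continuous fun T : ℝ≥0 => uu Q (pth w ω) c T x) ∧
      ∀ (T : ℝ≥0) (x : Site Q.d), uu Q (pth w ω) c T x =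
        Real.exp (bb Q (pth w ω) x T - bb Q (pth w ω) x 0) * c +
        ∫ s in (0 : ℝ)..T, Real.exp (bb Q (pth w ω) x T - bb Q (pth w ω) x s) *
          (Q.k * nsum (fun y => uu Q (pth w ω) c s.toNNReal y) x -
            Q.ep * uu Q (pth w ω) c s.toNNReal x ^ (Q.p + 1)) := by
  have hCP : ∀ ω, CP (pth w ω) := fun ω x => hw.cont x ω
  -- joint measurability
  have hjoint : ∀ x : Site Q.d, Measurable (Function.uncurry fun (s : ℝ≥0) (ω : Ω) =>
      ivE Q (pth w ω) c s x) := by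
    intro x
    have h1 : (Function.uncurry fun (s : ℝ≥0) (ω : Ω) => ivE Q (pth w ω) c s x) =
        fun q => ⨆ m : ℕ, ENNReal.ofReal ((Function.uncurry fun (s : ℝ≥0) (ω : Ω) =>
          fv Q (box Q.d m) (pth w ω) (fun _ => c) s x) q) := by
      funext q
      obtain ⟨s, ω⟩ := q
      show ivE Q (pth w ω) c s x = _
      unfold ivE
      congr 1
      funext m
      exact fvE_eq Q _ (hCP ω) (fun _ => hc) s x
    rw [h1]
    apply Measurable.iSup
    intro m
    apply Measurable.ennreal_ofReal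
    apply measurable_uncurry_of_continuous_of_measurable
    · intro ω
      exact fv_continuous Q _ (hCP ω) (fun _ => hc) x
    · intro s
      have h2 := (measurable_fvE Q (box Q.d m) s x).comp
        ((measurable_pth hw).prodMk (measurable_const (a := fun _ : Site Q.d => c)))
      exact h2.ennreal_toReal
  have hfin : ∀ (N : ℕ) (x : Site Q.d), ∀ᵐ ω ∂P,
      ∫⁻ s in Ioc (0 : ℝ) N, ivE Q (pth w ω) c s.toNNReal x ≠ ⊤ := by
    intro N x
    have hm : Measurable (Function.uncurry fun (ω : Ω) (s : ℝ) =>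
        ivE Q (pth w ω) c s.toNNReal x) :=
      S1a_swap (g := fun s ω => ivE Q (pth w ω) c s x) (hjoint x)
    have h1 : ∫⁻ ω, (∫⁻ s in Ioc (0 : ℝ) N, ivE Q (pth w ω) c s.toNNReal x) ∂P ≠ ⊤ := by
      rw [lintegral_lintegral_swap hm.aemeasurable]
      have h2 : ∫⁻ s in Ioc (0 : ℝ) N, (∫⁻ ω, ivE Q (pth w ω) c s.toNNReal x ∂P) ≤
          ∫⁻ _ in Ioc (0 : ℝ) N, ENNReal.ofReal (c * Real.exp (Q.al * N)) := by
        apply setLIntegral_mono' measurableSet_Ioc
        intro s hs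
        rw [lintegral_ivE Q hw hc]
        refine (HH_le_exp Q hw hc _).trans (ENNReal.ofReal_le_ofReal ?_)
        apply mul_le_mul_of_nonneg_left _ hc
        apply Real.exp_le_exp.2
        rw [Real.coe_toNNReal _ hs.1.le]
        apply mul_le_mul_of_nonneg_left hs.2
        unfold Par.al
        positivity
      apply ne_top_of_le_ne_top _ h2
      rw [setLIntegral_const]
      exact ENNReal.mul_ne_top ENNReal.ofReal_ne_top (by simp)
    have h3 : Measurable fun ω => ∫⁻ s in Ioc (0 : ℝ) N, ivE Q (pth w ω) c s.toNNReal x :=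
      hm.lintegral_prod_right'
    filter_upwards [ae_lt_top h3 h1] with ω hω
    exact hω.ne
  have hall : ∀ᵐ ω ∂P, ∀ (N : ℕ) (x : Site Q.d),
      ∫⁻ s in Ioc (0 : ℝ) N, ivE Q (pth w ω) c s.toNNReal x ≠ ⊤ := by
    rw [ae_all_iff]
    intro N
    rw [ae_all_iff]
    intro x
    exact hfin N x
  filter_upwards [hall] with ω hω
  exact S1a_det Q (hCP ω) hc hω

end Pool.Agent.H704R2.PAM
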