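import Pool.Agent.H704R2.PAM.S1
import Pool.Agent.H704R2.PAM.NF

set_option autoImplicit false
open MeasureTheory ProbabilityTheory Filter Topology Set
open scoped ENNReal NNReal

namespace Pool.Agent.H704R2.PAM

/-! Module S2b: uniqueness -/

theorem S2b_real (g q : ℝ → ℝ) (hg : Continuous g) (hq : Continuous q)
    (hs : ∀ t, 0 ≤ t → 0 ≤ q t * ∫ s in (0 : ℝ)..t, (g s - q s)) (t : ℝ) (ht : 0 ≤ t) :
    |∫ s in (0 : ℝ)..t, (g s - q s)| ≤ ∫ s in (0 : ℝ)..t, |g s| := by
  set D : ℝ → ℝ := fun t => ∫ s in (0 : ℝ)..t, (g s - q s) with hD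
  have hDd : ∀ t, HasDerivAt D (g t - q t) t := fun t =>
    (hg.sub hq).integral_hasStrictDerivAt 0 t |>.hasDerivAt
  have hGd : ∀ t, HasDerivAt (fun t => ∫ s in (0 : ℝ)..t, |g s|) |g t| t := fun t =>
    (hg.abs).integral_hasStrictDerivAt 0 t |>.hasDerivAt
  refine le_of_forall_pos_le_add fun δ hδ => ?_
  set φ : ℝ → ℝ := fun t => (∫ s in (0 : ℝ)..t, |g s|) - Real.sqrt (D t ^ 2 + δ ^ 2) with hφ
  have hpos : ∀ t, 0 < D t ^ 2 + δ ^ 2 := fun t => by positivity
  have hφd : ∀ t, HasDerivAt φ (|g t| - (2 * D t * (g t - q t)) /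
      (2 * Real.sqrt (D t ^ 2 + δ ^ 2))) t := by
    intro t
    have h1 : HasDerivAt (fun t => D t ^ 2 + δ ^ 2) (2 * D t * (g t - q t)) t := by
      have := ((hDd t).pow 2).add_const (δ ^ 2)
      simpa using this
    exact (hGd t).sub (h1.sqrt (hpos t).ne')
  have hmono : MonotoneOn φ (Ici 0) := by
    refine monotoneOn_of_deriv_nonneg (convex_Ici 0)
      (fun t _ => (hφd t).continuousAt.continuousWithinAt)
      (fun t _ => (hφd t).differentiableAt.differentiableWithinAt) fun t ht => ?_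
    rw [interior_Ici] at ht
    rw [(hφd t).deriv]
    have h0 : 0 < Real.sqrt (D t ^ 2 + δ ^ 2) := Real.sqrt_pos.2 (hpos t)
    have h1 : |D t| ≤ Real.sqrt (D t ^ 2 + δ ^ 2) := by
      rw [← Real.sqrt_sq_eq_abs]
      exact Real.sqrt_le_sqrt (by nlinarith [sq_nonneg δ])
    rw [mul_assoc, mul_div_mul_left _ _ two_ne_zero, sub_nonneg, div_le_iff₀ h0]
    have h2 : D t * g t ≤ |D t| * |g t| := by
      rw [← abs_mul]
      exact le_abs_self _
    have h3 := hs t (le_of_lt ht)
    have h4 : |D t| * |g t| ≤ Real.sqrt (D t ^ 2 + δ ^ 2) * |g t| :=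
      mul_le_mul_of_nonneg_right h1 (abs_nonneg _)
    have h5 : 0 ≤ q t * D t := h3
    nlinarith
  have h6 := hmono (mem_Ici.2 le_rfl) (mem_Ici.2 ht) ht
  simp only [hφ, hD, intervalIntegral.integral_same] at h6
  have h7 : |∫ s in (0 : ℝ)..t, (g s - q s)| ≤
      Real.sqrt ((∫ s in (0 : ℝ)..t, (g s - q s)) ^ 2 + δ ^ 2) := by
    rw [← Real.sqrt_sq_eq_abs]
    exact Real.sqrt_le_sqrt (by nlinarith [sq_nonneg δ])
  have h8 : Real.sqrt (0 ^ 2 + δ ^ 2) = δ := by
    rw [zero_pow two_ne_zero, zero_add, Real.sqrt_sq hδ.le]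
  linarith

theorem S2b_bb_cont (Q : Par) {W : Site Q.d → ℝ≥0 → ℝ} (hW : CP W) (x : Site Q.d) :
    Continuous (bb Q W x) := by
  unfold bb
  exact ((hW x).comp continuous_real_toNNReal).add (continuous_const.mul continuous_id)

theorem S2b_path (Q : Par) {W : Site Q.d → ℝ≥0 → ℝ} (hW : CP W) {U U' : ℝ≥0 → Site Q.d → ℝ}
    (hU : ∀ x, Continuous fun t => U t x) (hU' : ∀ x, Continuous fun t => U' t x)
    (h0 : ∀ t x, 0 ≤ U t x) (h0' : ∀ t x, 0 ≤ U' t x)
    (x : Site Q.d)
    (hE : ∀ T : ℝ≥0, U T x = Real.exp (bb Q W x T) * 1 +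
        ∫ s in (0 : ℝ)..T, Real.exp (bb Q W x T - bb Q W x s) *
          (Q.k * nsum (U s.toNNReal) x - Q.ep * U s.toNNReal x ^ (Q.p + 1)))
    (hE' : ∀ T : ℝ≥0, U' T x = Real.exp (bb Q W x T) * 1 +
        ∫ s in (0 : ℝ)..T, Real.exp (bb Q W x T - bb Q W x s) *
          (Q.k * nsum (U' s.toNNReal) x - Q.ep * U' s.toNNReal x ^ (Q.p + 1)))
    (t : ℝ≥0) :
    |U t x - U' t x| ≤ ∫ s in (0 : ℝ)..t, Real.exp (bb Q W x t - bb Q W x s) *
      (Q.k * ∑ e, |U s.toNNReal (nb x e) - U' s.toNNReal (nb x e)|) := by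
  have hbb := S2b_bb_cont Q hW x
  have hUr : ∀ y, Continuous fun s : ℝ => U s.toNNReal y := fun y =>
    (hU y).comp continuous_real_toNNReal
  have hUr' : ∀ y, Continuous fun s : ℝ => U' s.toNNReal y := fun y =>
    (hU' y).comp continuous_real_toNNReal
  have hns : Continuous fun s : ℝ => nsum (U s.toNNReal) x := by
    unfold nsum
    exact continuous_finsetSum _ fun e _ => hUr _
  have hns' : Continuous fun s : ℝ => nsum (U' s.toNNReal) x := by
    unfold nsum
    exact continuous_finsetSum _ fun e _ => hUr' _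
  set g : ℝ → ℝ := fun s => Real.exp (-bb Q W x s) *
    (Q.k * (nsum (U s.toNNReal) x - nsum (U' s.toNNReal) x)) with hg
  set q : ℝ → ℝ := fun s => Real.exp (-bb Q W x s) *
    (Q.ep * (U s.toNNReal x ^ (Q.p + 1) - U' s.toNNReal x ^ (Q.p + 1))) with hq
  have hgc : Continuous g := by
    have := hns.sub hns'
    fun_prop
  have hqc : Continuous q := by
    have := hUr x
    have := hUr' x
    fun_prop
  have hD : ∀ T : ℝ≥0, Real.exp (-bb Q W x T) * (U T x - U' T x) =
      ∫ s in (0 : ℝ)..T, (g s - q s) := by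
    intro T
    have hc1 : Continuous fun s : ℝ => Real.exp (bb Q W x T - bb Q W x s) *
          (Q.k * nsum (U s.toNNReal) x - Q.ep * U s.toNNReal x ^ (Q.p + 1)) := by
      have := hUr x
      fun_prop
    have hc2 : Continuous fun s : ℝ => Real.exp (bb Q W x T - bb Q W x s) *
          (Q.k * nsum (U' s.toNNReal) x - Q.ep * U' s.toNNReal x ^ (Q.p + 1)) := by
      have := hUr' x
      fun_prop
    rw [hE T, hE' T, add_sub_add_left_eq_sub, ← intervalIntegral.integral_sub
      (hc1.intervalIntegrable _ _) (hc2.intervalIntegrable _ _),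
      ← intervalIntegral.integral_const_mul]
    refine intervalIntegral.integral_congr fun s _ => ?_
    simp only [hg, hq]
    rw [sub_eq_add_neg (bb Q W x T), Real.exp_add, Real.exp_neg (bb Q W x T)]
    have hne := (Real.exp_pos (bb Q W x T)).ne'
    field_simp
    ring
  have hsign : ∀ s : ℝ, 0 ≤ s → 0 ≤ q s * ∫ r in (0 : ℝ)..s, (g r - q r) := by
    intro s hs
    have h1 := hD s.toNNReal
    rw [Real.coe_toNNReal s hs] at h1
    rw [← h1]
    simp only [hq]
    have h2 : 0 ≤ (U s.toNNReal x ^ (Q.p + 1) - U' s.toNNReal x ^ (Q.p + 1)) *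
        (U s.toNNReal x - U' s.toNNReal x) := by
      rcases le_total (U s.toNNReal x) (U' s.toNNReal x) with h | h
      · have h3 := pow_le_pow_left₀ (h0 s.toNNReal x) h (Q.p + 1)
        nlinarith
      · have h3 := pow_le_pow_left₀ (h0' s.toNNReal x) h (Q.p + 1)
        nlinarith
    have h4 : Real.exp (-bb Q W x s) *
        (Q.ep * (U s.toNNReal x ^ (Q.p + 1) - U' s.toNNReal x ^ (Q.p + 1))) *
        (Real.exp (-bb Q W x s) * (U s.toNNReal x - U' s.toNNReal x)) =
        (Real.exp (-bb Q W x s)) ^ 2 * Q.ep *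
        ((U s.toNNReal x ^ (Q.p + 1) - U' s.toNNReal x ^ (Q.p + 1)) *
        (U s.toNNReal x - U' s.toNNReal x)) := by ring
    rw [h4]
    have := Q.hep
    positivity
  have h1 := S2b_real g q hgc hqc hsign t t.2
  have h2 := hD t
  have h3 : |U t x - U' t x| = Real.exp (bb Q W x t) * |∫ s in (0 : ℝ)..t, (g s - q s)| := by
    rw [← h2, abs_mul, Real.abs_exp, ← mul_assoc, ← Real.exp_add, add_neg_cancel, Real.exp_zero,
      one_mul]
  rw [h3]
  refine (mul_le_mul_of_nonneg_left h1 (Real.exp_pos _).le).trans ?_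
  rw [← intervalIntegral.integral_const_mul]
  have hgc2 : Continuous fun s : ℝ => Real.exp (bb Q W x t) * |g s| := by fun_prop
  have hfc : Continuous fun s : ℝ => Real.exp (bb Q W x t - bb Q W x s) *
      (Q.k * ∑ e, |U s.toNNReal (nb x e) - U' s.toNNReal (nb x e)|) := by
    have : Continuous fun s : ℝ => ∑ e, |U s.toNNReal (nb x e) - U' s.toNNReal (nb x e)| :=
      continuous_finsetSum _ fun e _ => ((hUr _).sub (hUr' _)).abs
    fun_prop
  refine intervalIntegral.integral_mono_on t.2 (hgc2.intervalIntegrable _ _)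
    (hfc.intervalIntegrable _ _) fun s _ => ?_
  simp only [hg]
  rw [abs_mul, Real.abs_exp, abs_mul, abs_of_nonneg Q.hk, ← mul_assoc, ← Real.exp_add,
    ← sub_eq_add_neg]
  refine mul_le_mul_of_nonneg_left (mul_le_mul_of_nonneg_left ?_ Q.hk) (Real.exp_pos _).le
  unfold nsum
  rw [← Finset.sum_sub_distrib]
  exact Finset.abs_sum_le_sum_abs _ _


theorem S2b_iter (K B T : ℝ) (hK : 0 ≤ K) (hB : 0 ≤ B) {X : Type*} (m : ℝ≥0 → X → ℝ≥0∞)
    (h0 : ∀ t : ℝ≥0, (t : ℝ) ≤ T → ∀ x, m t x ≤ ENNReal.ofReal B)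
    (h1 : ∀ (F : ℝ → ℝ≥0∞) (t : ℝ≥0), (t : ℝ) ≤ T → (∀ s ∈ Ioc (0 : ℝ) t, ∀ x,
      m s.toNNReal x ≤ F s) → ∀ x, m t x ≤ ∫⁻ s in Ioc (0 : ℝ) t, ENNReal.ofReal K * F s)
    (t : ℝ≥0) (ht : (t : ℝ) ≤ T) (x : X) : m t x = 0 := by
  have hn : ∀ (n : ℕ) (t : ℝ≥0), (t : ℝ) ≤ T → ∀ x,
      m t x ≤ ENNReal.ofReal (B * (K * t) ^ n / (n.factorial : ℝ)) := by
    intro n
    induction n with
    | zero => intro t ht x; simpa using h0 t ht x
    | succ n ih =>
      intro t ht x
      have h2 := h1 (fun s => ENNReal.ofReal (B * (K * s) ^ n / (n.factorial : ℝ))) t ht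
        (fun s hs x => by
          have h3 := ih s.toNNReal (by rw [Real.coe_toNNReal s hs.1.le]; exact hs.2.trans ht) x
          rwa [Real.coe_toNNReal s hs.1.le] at h3) x
      refine h2.trans (le_of_eq ?_)
      have hc : Continuous fun s : ℝ => K * (B * (K * s) ^ n / (n.factorial : ℝ)) := by fun_prop
      have e1 : ∫⁻ s in Ioc (0 : ℝ) t, ENNReal.ofReal K *
          ENNReal.ofReal (B * (K * s) ^ n / (n.factorial : ℝ)) =
          ∫⁻ s in Ioc (0 : ℝ) t, ENNReal.ofReal (K * (B * (K * s) ^ n / (n.factorial : ℝ))) := by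
        refine lintegral_congr fun s => ?_
        rw [ENNReal.ofReal_mul hK]
      rw [e1, ← ofReal_integral_eq_lintegral_ofReal]
      · rw [← intervalIntegral.integral_of_le (NNReal.coe_nonneg t)]
        congr 1
        have h4 : ∀ s : ℝ, K * (B * (K * s) ^ n / (n.factorial : ℝ)) =
            (K ^ (n + 1) * B / (n.factorial : ℝ)) * s ^ n := by
          intro s
          rw [mul_pow, pow_succ]
          ring
        simp only [h4]
        rw [intervalIntegral.integral_const_mul, integral_pow, Nat.factorial_succ]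
        push_cast
        have h5 : (n.factorial : ℝ) ≠ 0 := by positivity
        have h6 : ((n : ℝ) + 1) ≠ 0 := by positivity
        field_simp
        ring
      · exact hc.integrableOn_Ioc
      · refine (ae_restrict_iff' measurableSet_Ioc).2 (Eventually.of_forall fun s hs => ?_)
        have := hs.1.le
        simp only [Pi.zero_apply]
        positivity
  have hlim : Tendsto (fun n : ℕ => ENNReal.ofReal (B * (K * t) ^ n / (n.factorial : ℝ))) atTop
      (𝓝 0) := by
    rw [← ENNReal.ofReal_zero]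
    refine ENNReal.tendsto_ofReal ?_
    have h2 := (FloorSemiring.tendsto_pow_div_factorial_atTop (K * t)).const_mul B
    rw [mul_zero] at h2
    refine h2.congr fun n => ?_
    rw [mul_div_assoc]
  exact le_antisymm (ge_of_tendsto' hlim fun n => hn n t ht x) bot_le

theorem S2b_indep {Ω : Type*} [mΩ : MeasurableSpace Ω] {P : Measure Ω} [IsProbabilityMeasure P]
    (Q : Par) {ℱ : Filtration ℝ≥0 mΩ} {w : Site Q.d → ℝ≥0 → Ω → ℝ} (hw : Noise P w)
    (hF : NoiseFilt P ℱ w) (σ h : ℝ≥0) (x : Site Q.d) (g : Ω → ℝ≥0∞) (hg : Measurable[ℱ σ] g) :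
    ∫⁻ ω, g ω * ENNReal.ofReal (Real.exp (bb Q (pth w ω) x ((σ + h : ℝ≥0) : ℝ) -
      bb Q (pth w ω) x (σ : ℝ))) ∂P =
      (∫⁻ ω, g ω ∂P) * ENNReal.ofReal (Real.exp (Q.kap * h + h / 2)) := by
  have e1 : ∀ ω, bb Q (pth w ω) x ((σ + h : ℝ≥0) : ℝ) - bb Q (pth w ω) x (σ : ℝ) =
      Q.kap * h + (w x (σ + h) ω - w x σ ω) := by
    intro ω
    unfold bb pth
    rw [Real.toNNReal_coe, Real.toNNReal_coe]
    push_cast
    ring
  simp only [e1]
  have hle : MeasurableSpace.comap (fun ω (q : Site Q.d × ℝ≥0) => w q.1 (σ + q.2) ω - w q.1 σ ω)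
      MeasurableSpace.pi ≤ mΩ := by
    refine Measurable.comap_le ?_
    exact measurable_pi_iff.2 fun q => (hw.meas _ _).sub (hw.meas _ _)
  have hm : Measurable[MeasurableSpace.comap (fun ω (q : Site Q.d × ℝ≥0) =>
      w q.1 (σ + q.2) ω - w q.1 σ ω) MeasurableSpace.pi] (fun ω => ENNReal.ofReal
        (Real.exp (Q.kap * h + (w x (σ + h) ω - w x σ ω)))) := by
    have h1 : Measurable fun z : Site Q.d × ℝ≥0 → ℝ => ENNReal.ofReal
        (Real.exp (Q.kap * h + z (x, h))) := by fun_prop
    exact h1.comp (comap_measurable _)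
  rw [lintegral_mul_eq_lintegral_mul_lintegral_of_independent_measurableSpace (ℱ.le σ) hle
    (hF.indep σ) hg hm]
  congr 1
  have e2 : ∀ ω, ENNReal.ofReal (Real.exp (Q.kap * h + (w x (σ + h) ω - w x σ ω))) =
      ENNReal.ofReal (Real.exp (Q.kap * h)) *
        ENNReal.ofReal (Real.exp (w x (σ + h) ω - w x σ ω)) := by
    intro ω
    rw [Real.exp_add, ENNReal.ofReal_mul (Real.exp_pos _).le]
  simp only [e2]
  rw [lintegral_const_mul' _ _ ENNReal.ofReal_ne_top, noise_exp hw x σ h,
    ← ENNReal.ofReal_mul (Real.exp_pos _).le, ← Real.exp_add]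

theorem isSol_unique {Ω : Type*} [mΩ : MeasurableSpace Ω] {P : Measure Ω} [IsProbabilityMeasure P]
    (Q : Par) {ℱ : Filtration ℝ≥0 mΩ} {w : Site Q.d → ℝ≥0 → Ω → ℝ} (hw : Noise P w)
    (hF : NoiseFilt P ℱ w) {u u' : ℝ≥0 → Site Q.d → Ω → ℝ}
    (hu : IsSol P ℱ (Q.p + 1) Q.k Q.ep Q.lam w u)
    (hu' : IsSol P ℱ (Q.p + 1) Q.k Q.ep Q.lam w u') :
    ∀ᵐ ω ∂P, ∀ t x, u t x ω = u' t x ω := by
  have hCP : ∀ ω, CP (pth w ω) := fun ω x => hw.cont x ω
  -- the good set
  have hgood : ∀ᵐ ω ∂P, (∀ x, Continuous fun t => u t x ω) ∧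
      (∀ x, Continuous fun t => u' t x ω) ∧
      ∀ (t : ℝ≥0) (x : Site Q.d), |u t x ω - u' t x ω| ≤
        ∫ s in (0 : ℝ)..t, Real.exp (bb Q (pth w ω) x t - bb Q (pth w ω) x s) *
          (Q.k * ∑ e, |u s.toNNReal (nb x e) ω - u' s.toNNReal (nb x e) ω|) := by
    filter_upwards [hu.nonneg, hu.cont, hu.eqn, hu'.nonneg, hu'.cont, hu'.eqn] with ω h1 h2 h3
      h1' h2' h3'
    refine ⟨h2, h2', fun t x => ?_⟩
    exact S2b_path Q (hCP ω) (U := fun t x => u t x ω) (U' := fun t x => u' t x ω) h2 h2' h1 h1' x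
      ((lap_form Q (hCP ω) (U := fun t x => u t x ω) h2 x 1).2 fun T => h3 T x)
      ((lap_form Q (hCP ω) (U := fun t x => u' t x ω) h2' x 1).2 fun T => h3' T x) t
  obtain ⟨G, hGae, hGm, hG⟩ := Filter.Eventually.exists_measurable_mem hgood
  have hum : ∀ t x, Measurable (u t x) := fun t x => (hu.adapted t x).mono (ℱ.le t) le_rfl
  have hum' : ∀ t x, Measurable (u' t x) := fun t x => (hu'.adapted t x).mono (ℱ.le t) le_rfl
  -- the modified difference
  set v : ℝ≥0 → Site Q.d → Ω → ℝ := fun t x ω => G.indicator (fun ω => |u t x ω - u' t x ω|) ω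
    with hv
  have hv0 : ∀ t x ω, 0 ≤ v t x ω := fun t x ω => indicator_nonneg (fun _ _ => abs_nonneg _) ω
  have hvm : ∀ t x, Measurable (v t x) := fun t x =>
    (measurable_norm.comp ((hum t x).sub (hum' t x))).indicator hGm
  have hvc : ∀ x ω, Continuous fun t => v t x ω := by
    intro x ω
    by_cases hω : ω ∈ G
    · simp only [hv, indicator_of_mem hω]
      exact (((hG ω hω).1 x).sub ((hG ω hω).2.1 x)).abs
    · simp only [hv, indicator_of_notMem hω]
      exact continuous_const
  have hvj : ∀ x, Measurable (Function.uncurry fun (t : ℝ≥0) (ω : Ω) => v t x ω) := fun x =>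
    measurable_uncurry_of_continuous_of_measurable (fun ω => hvc x ω) fun t => hvm t x
  have hvae : ∀ t x, ∀ᵐ ω ∂P, v t x ω = |u t x ω - u' t x ω| := by
    intro t x
    filter_upwards [hGae] with ω hω
    simp only [hv, indicator_of_mem hω]
  -- the pathwise inequality
  have hpath : ∀ (t : ℝ≥0) (x : Site Q.d) (ω : Ω), ENNReal.ofReal (v t x ω) ≤
      ∫⁻ s in Ioc (0 : ℝ) t, ENNReal.ofReal (Real.exp (bb Q (pth w ω) x t -
        bb Q (pth w ω) x s)) * (ENNReal.ofReal Q.k *
          ∑ e, ENNReal.ofReal (v s.toNNReal (nb x e) ω)) := by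
    intro t x ω
    by_cases hω : ω ∈ G
    · have h1 := (hG ω hω).2.2 t x
      have hbb := S2b_bb_cont Q (hCP ω) x
      have hc : Continuous fun s : ℝ => Real.exp (bb Q (pth w ω) x t - bb Q (pth w ω) x s) *
          (Q.k * ∑ e, v s.toNNReal (nb x e) ω) := by
        have : Continuous fun s : ℝ => ∑ e, v s.toNNReal (nb x e) ω :=
          continuous_finsetSum _ fun e _ => (hvc _ ω).comp continuous_real_toNNReal
        fun_prop
      have e1 : ∫ s in (0 : ℝ)..t, Real.exp (bb Q (pth w ω) x t - bb Q (pth w ω) x s) *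
          (Q.k * ∑ e, |u s.toNNReal (nb x e) ω - u' s.toNNReal (nb x e) ω|) =
          ∫ s in (0 : ℝ)..t, Real.exp (bb Q (pth w ω) x t - bb Q (pth w ω) x s) *
          (Q.k * ∑ e, v s.toNNReal (nb x e) ω) := by
        refine intervalIntegral.integral_congr fun s _ => ?_
        simp only [hv, indicator_of_mem hω]
      have e2 : v t x ω = |u t x ω - u' t x ω| := by simp only [hv, indicator_of_mem hω]
      rw [e2]
      refine (ENNReal.ofReal_le_ofReal (h1.trans (le_of_eq e1))).trans ?_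
      rw [intervalIntegral.integral_of_le (NNReal.coe_nonneg t),
        ofReal_integral_eq_lintegral_ofReal hc.integrableOn_Ioc]
      · refine le_of_eq (lintegral_congr fun s => ?_)
        rw [ENNReal.ofReal_mul (Real.exp_pos _).le, ENNReal.ofReal_mul Q.hk,
          ENNReal.ofReal_sum_of_nonneg fun e _ => hv0 _ _ _]
      · refine Eventually.of_forall fun s => ?_
        exact mul_nonneg (Real.exp_pos _).le (mul_nonneg Q.hk
          (Finset.sum_nonneg fun e _ => hv0 _ _ _))
    · have : v t x ω = 0 := by simp only [hv, indicator_of_notMem hω]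
      rw [this, ENNReal.ofReal_zero]
      exact bot_le
  -- the first moments
  set m : ℝ≥0 → Site Q.d → ℝ≥0∞ := fun t x => ∫⁻ ω, ENNReal.ofReal (v t x ω) ∂P with hm
  have hzero : ∀ t x, m t x = 0 := by
    intro T x
    obtain ⟨C, hC⟩ := hu.bound T
    obtain ⟨C', hC'⟩ := hu'.bound T
    set A : ℝ := Real.exp ((|Q.kap| + 1 / 2) * T) with hA
    set K : ℝ := Q.k * (2 * Q.d * A) with hK
    have hA0 : 0 < A := Real.exp_pos _
    have hK0 : 0 ≤ K := by
      have := Q.hk
      positivity
    refine S2b_iter K (max 0 (C + C')) T hK0 (le_max_left _ _) m ?_ ?_ T le_rfl x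
    · -- the a priori bound
      intro t ht x
      have ht' : t ≤ T := by exact_mod_cast ht
      obtain ⟨hi, hb⟩ := hC t ht' x
      obtain ⟨hi', hb'⟩ := hC' t ht' x
      have h1 : m t x ≤ ∫⁻ ω, ENNReal.ofReal (u t x ω + u' t x ω) ∂P := by
        refine lintegral_mono_ae ?_
        filter_upwards [hvae t x, hu.nonneg, hu'.nonneg] with ω h1 h2 h3
        rw [h1]
        refine ENNReal.ofReal_le_ofReal ?_
        have := h2 t x
        have := h3 t x
        rw [abs_le]
        constructor <;> linarith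
      refine h1.trans ?_
      have hii : Integrable (fun ω => u t x ω + u' t x ω) P := hi.add hi'
      rw [← ofReal_integral_eq_lintegral_ofReal hii]
      · refine ENNReal.ofReal_le_ofReal ?_
        have e1 : ∫ ω, (u t x ω + u' t x ω) ∂P = ∫ ω, u t x ω ∂P + ∫ ω, u' t x ω ∂P :=
          integral_add hi hi'
        exact (e1.le.trans (add_le_add hb hb')).trans (le_max_right _ _)
      · filter_upwards [hu.nonneg, hu'.nonneg] with ω h2 h3
        exact add_nonneg (h2 t x) (h3 t x)
    · -- the Gronwall inequality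
      intro F t ht hFs x
      have hkey : ∀ s ∈ Ioc (0 : ℝ) t, ∫⁻ ω, ENNReal.ofReal (Real.exp (bb Q (pth w ω) x t -
          bb Q (pth w ω) x s)) * (ENNReal.ofReal Q.k *
          ∑ e, ENNReal.ofReal (v s.toNNReal (nb x e) ω)) ∂P ≤ ENNReal.ofReal K * F s := by
        intro s hs
        set σ : ℝ≥0 := s.toNNReal with hσ
        have hσs : (σ : ℝ) = s := Real.coe_toNNReal s hs.1.le
        have hσt : σ ≤ t := by
          rw [← NNReal.coe_le_coe, hσs]
          exact hs.2
        obtain ⟨h, hh⟩ : ∃ h : ℝ≥0, t = σ + h := ⟨t - σ, (add_tsub_cancel_of_le hσt).symm⟩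
        have hht : (h : ℝ) ≤ T := by
          refine le_trans ?_ ht
          rw [hh]
          push_cast
          exact le_add_of_nonneg_left (NNReal.coe_nonneg σ)
        have hterm : ∀ y : Site Q.d, ∫⁻ ω, ENNReal.ofReal (v σ y ω) * ENNReal.ofReal
            (Real.exp (bb Q (pth w ω) x t - bb Q (pth w ω) x s)) ∂P ≤
            ENNReal.ofReal A * F s := by
          intro y
          have e1 : ∫⁻ ω, ENNReal.ofReal (v σ y ω) * ENNReal.ofReal
              (Real.exp (bb Q (pth w ω) x t - bb Q (pth w ω) x s)) ∂P =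
              ∫⁻ ω, ENNReal.ofReal |u σ y ω - u' σ y ω| * ENNReal.ofReal
              (Real.exp (bb Q (pth w ω) x ((σ + h : ℝ≥0) : ℝ) -
                bb Q (pth w ω) x (σ : ℝ))) ∂P := by
            refine lintegral_congr_ae ?_
            filter_upwards [hvae σ y] with ω hω
            rw [hω, hσs, ← hh]
          have e2 := S2b_indep Q hw hF σ h x (fun ω => ENNReal.ofReal |u σ y ω - u' σ y ω|)
            ((measurable_norm.comp ((hu.adapted σ y).sub (hu'.adapted σ y))).ennreal_ofReal)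
          rw [e1, e2]
          have e3 : ∫⁻ ω, ENNReal.ofReal |u σ y ω - u' σ y ω| ∂P = m σ y := by
            refine lintegral_congr_ae ?_
            filter_upwards [hvae σ y] with ω hω
            rw [hω]
          rw [e3, mul_comm]
          refine mul_le_mul' (ENNReal.ofReal_le_ofReal ?_) (hFs s hs y)
          rw [hA]
          refine Real.exp_le_exp.2 ?_
          have h1 : Q.kap * h ≤ |Q.kap| * h :=
            mul_le_mul_of_nonneg_right (le_abs_self _) (NNReal.coe_nonneg h)
          have h2 : (|Q.kap| + 1 / 2) * h ≤ (|Q.kap| + 1 / 2) * T :=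
            mul_le_mul_of_nonneg_left hht (by positivity)
          linarith
        have e1 : ∫⁻ ω, ENNReal.ofReal (Real.exp (bb Q (pth w ω) x t -
            bb Q (pth w ω) x s)) * (ENNReal.ofReal Q.k *
            ∑ e, ENNReal.ofReal (v σ (nb x e) ω)) ∂P =
            ENNReal.ofReal Q.k * ∑ e, ∫⁻ ω, ENNReal.ofReal (v σ (nb x e) ω) * ENNReal.ofReal
            (Real.exp (bb Q (pth w ω) x t - bb Q (pth w ω) x s)) ∂P := by
          rw [← lintegral_finsetSum']
          · rw [← lintegral_const_mul' _ _ ENNReal.ofReal_ne_top]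
            refine lintegral_congr fun ω => ?_
            rw [← Finset.sum_mul]
            ring
          · intro e _
            refine Measurable.aemeasurable ?_
            have hbbt : ∀ r : ℝ, Measurable fun ω : Ω => bb Q (pth w ω) x r := by
              intro r
              unfold bb pth
              exact (hw.meas x _).add_const _
            exact (hvm _ _).ennreal_ofReal.mul
              (((hbbt t).sub (hbbt s)).exp).ennreal_ofReal
        rw [e1]
        calc ENNReal.ofReal Q.k * ∑ e, ∫⁻ ω, ENNReal.ofReal (v σ (nb x e) ω) * ENNReal.ofReal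
              (Real.exp (bb Q (pth w ω) x t - bb Q (pth w ω) x s)) ∂P
            ≤ ENNReal.ofReal Q.k * ∑ _e : Fin Q.d × Bool, ENNReal.ofReal A * F s :=
              mul_le_mul_right (Finset.sum_le_sum fun e _ => hterm (nb x e)) _
          _ = ENNReal.ofReal K * F s := by
              rw [Finset.sum_const, Finset.card_univ, Fintype.card_prod, Fintype.card_fin,
                Fintype.card_bool, nsmul_eq_mul, hK, ENNReal.ofReal_mul Q.hk,
                ENNReal.ofReal_mul (by positivity)]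
              have : ENNReal.ofReal (2 * (Q.d : ℝ)) = ((Q.d * 2 : ℕ) : ℝ≥0∞) := by
                rw [← ENNReal.ofReal_natCast]
                congr 1
                push_cast
                ring
              rw [this]
              ring
      have hjm : AEMeasurable (Function.uncurry fun (ω : Ω) (s : ℝ) =>
          ENNReal.ofReal (Real.exp (bb Q (pth w ω) x t - bb Q (pth w ω) x s)) *
          (ENNReal.ofReal Q.k * ∑ e, ENNReal.ofReal (v s.toNNReal (nb x e) ω)))
          (P.prod (volume.restrict (Ioc (0 : ℝ) t))) := by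
        refine Measurable.aemeasurable ?_
        have hbbj : Measurable (Function.uncurry fun (s : ℝ) (ω : Ω) => bb Q (pth w ω) x s) := by
          refine measurable_uncurry_of_continuous_of_measurable
            (fun ω => S2b_bb_cont Q (hCP ω) x) fun s => ?_
          unfold bb pth
          exact (hw.meas x _).add_const _
        have hbbt : Measurable fun ω : Ω => bb Q (pth w ω) x t := by
          unfold bb pth
          exact (hw.meas x _).add_const _
        have h1 : Measurable fun p : Ω × ℝ => Real.exp (bb Q (pth w p.1) x t -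
            bb Q (pth w p.1) x p.2) :=
          ((hbbt.comp measurable_fst).sub (hbbj.comp measurable_swap)).exp
        have h2 : ∀ e, Measurable fun p : Ω × ℝ => v p.2.toNNReal (nb x e) p.1 := fun e =>
          (hvj (nb x e)).comp (f := fun p : Ω × ℝ => (p.2.toNNReal, p.1)) (by fun_prop)
        exact h1.ennreal_ofReal.mul (measurable_const.mul
          (Finset.measurable_fun_sum _ fun e _ => (h2 e).ennreal_ofReal))
      calc m t x ≤ ∫⁻ ω, (∫⁻ s in Ioc (0 : ℝ) t, ENNReal.ofReal (Real.exp (bb Q (pth w ω) x t -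
            bb Q (pth w ω) x s)) * (ENNReal.ofReal Q.k *
            ∑ e, ENNReal.ofReal (v s.toNNReal (nb x e) ω))) ∂P :=
            lintegral_mono fun ω => hpath t x ω
        _ = ∫⁻ s in Ioc (0 : ℝ) t, (∫⁻ ω, ENNReal.ofReal (Real.exp (bb Q (pth w ω) x t -
            bb Q (pth w ω) x s)) * (ENNReal.ofReal Q.k *
            ∑ e, ENNReal.ofReal (v s.toNNReal (nb x e) ω)) ∂P) :=
            lintegral_lintegral_swap hjm
        _ ≤ ∫⁻ s in Ioc (0 : ℝ) t, ENNReal.ofReal K * F s :=
            setLIntegral_mono' measurableSet_Ioc hkey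
  -- conclusion
  have hae : ∀ᵐ ω ∂P, ∀ (n : ℕ) (x : Site Q.d), v (TopologicalSpace.denseSeq ℝ≥0 n) x ω = 0 := by
    rw [ae_all_iff]
    intro n
    rw [ae_all_iff]
    intro x
    have h1 := hzero (TopologicalSpace.denseSeq ℝ≥0 n) x
    simp only [hm] at h1
    rw [lintegral_eq_zero_iff (hvm _ _).ennreal_ofReal] at h1
    filter_upwards [h1] with ω hω
    have h2 : v (TopologicalSpace.denseSeq ℝ≥0 n) x ω ≤ 0 := ENNReal.ofReal_eq_zero.1 hω
    exact le_antisymm h2 (hv0 _ _ _)
  filter_upwards [hae, hGae] with ω h1 hω t x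
  have h2 : (fun t => v t x ω) = fun _ => 0 :=
    Continuous.ext_on (TopologicalSpace.denseRange_denseSeq ℝ≥0) (hvc x ω) continuous_const
      (by rintro _ ⟨n, rfl⟩; exact h1 n x)
  have h3 := congrFun h2 t
  simp only [hv, indicator_of_mem hω, abs_eq_zero] at h3
  linarith

end Pool.Agent.H704R2.PAM
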