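import Pool.Agent.H704R2.PAM.S1

set_option autoImplicit false
open MeasureTheory ProbabilityTheory Filter Topology Set
open scoped ENNReal NNReal

namespace Pool.Agent.H704R2.PAM

/-! Task S2a: the constructed solution is a solution in the class `IsSol` -/

/-- the stopped path is adapted -/
theorem S2a_meas_stop {Ω : Type*} [mΩ : MeasurableSpace Ω] {P : Measure Ω} [IsProbabilityMeasure P]
    {d : ℕ} {ℱ : Filtration ℝ≥0 mΩ} {w : Site d → ℝ≥0 → Ω → ℝ}
    (hF : NoiseFilt P ℱ w) (t : ℝ≥0) :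
    Measurable[ℱ t] (fun ω => (fun (y : Site d) (s : ℝ≥0) => w y (min s t) ω)) := by
  refine @measurable_pi_lambda _ _ _ (ℱ t) _ _ fun y => ?_
  refine @measurable_pi_lambda _ _ _ (ℱ t) _ _ fun s => ?_
  exact (hF.adapted y (min s t)).mono (ℱ.mono (min_le_right s t)) le_rfl

theorem S2a_uu_stop (Q : Par) (W : Site Q.d → ℝ≥0 → ℝ) (c : ℝ) (t : ℝ≥0) (x : Site Q.d) :
    uu Q W c t x = (ivE Q (fun y s => W y (min s t)) c t x).toReal := by
  unfold uu
  rw [ivE_congr Q (W := W) (W' := fun y s => W y (min s t)) c t]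
  intro y s r hs hr
  simp only [min_eq_left hs, min_eq_left hr]

theorem S2a_zero {Ω : Type*} [mΩ : MeasurableSpace Ω] {P : Measure Ω} [IsProbabilityMeasure P]
    {d : ℕ} {w : Site d → ℝ≥0 → Ω → ℝ} (hw : Noise P w) :
    ∀ᵐ ω ∂P, ∀ x, w x 0 ω = 0 := by
  rw [ae_all_iff]
  intro x
  exact (hw.bm x).eval_zero_ae_eq_zero

theorem isSol_uu {Ω : Type*} [mΩ : MeasurableSpace Ω] {P : Measure Ω} [IsProbabilityMeasure P]
    (Q : Par) {ℱ : Filtration ℝ≥0 mΩ} {w : Site Q.d → ℝ≥0 → Ω → ℝ} (hw : Noise P w)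
    (hF : NoiseFilt P ℱ w) :
    IsSol P ℱ (Q.p + 1) Q.k Q.ep Q.lam w (fun t x ω => uu Q (pth w ω) 1 t x) := by
  have heq := uu_eqn Q hw (c := 1) zero_le_one
  refine ⟨?_, ?_, ?_, ?_, ?_⟩
  · intro t x
    have h1 : (fun ω => uu Q (pth w ω) 1 t x) =
        fun ω => (ivE Q (fun y s => w y (min s t) ω) 1 t x).toReal := by
      funext ω
      exact S2a_uu_stop Q (pth w ω) 1 t x
    change Measurable[ℱ t] (fun ω => uu Q (pth w ω) 1 t x)
    rw [h1]
    exact ENNReal.measurable_toReal.comp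
      ((measurable_ivE Q 1 t x).comp (S2a_meas_stop hF t))
  · exact Eventually.of_forall fun ω t x => ENNReal.toReal_nonneg
  · filter_upwards [heq] with ω h x
    exact h.2.1 x
  · filter_upwards [heq, S2a_zero hw] with ω h h0 t x
    have hW : CP (pth w ω) := fun y => hw.cont y ω
    have key := (lap_form Q hW (U := fun t x => uu Q (pth w ω) 1 t x) h.2.1 x 1).1
    have hb : bb Q (pth w ω) x 0 = 0 := by
      simp [bb, pth, h0 x]
    have := key (fun T => by
      have := h.2.2 T x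
      rw [hb, sub_zero] at this
      exact this) t
    simpa [pth] using this
  · intro T
    refine ⟨Real.exp (Q.al * T), fun t ht x => ?_⟩
    have hint : ∫⁻ ω, ivE Q (pth w ω) 1 t x ∂P ≤ ENNReal.ofReal (Real.exp (Q.al * t)) := by
      rw [lintegral_ivE Q hw zero_le_one]
      refine (HH_le_exp Q hw zero_le_one t).trans ?_
      rw [one_mul]
    have hm : AEMeasurable (fun ω => ivE Q (pth w ω) 1 t x) P :=
      ((measurable_ivE Q 1 t x).comp (measurable_pth hw)).aemeasurable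
    have hne : ∫⁻ ω, ivE Q (pth w ω) 1 t x ∂P ≠ ⊤ := (hint.trans_lt ENNReal.ofReal_lt_top).ne
    have hal : 0 ≤ Q.al := by unfold Par.al; positivity
    refine ⟨integrable_toReal_of_lintegral_ne_top hm hne, ?_⟩
    have hfin : ∀ᵐ ω ∂P, ivE Q (pth w ω) 1 t x < ⊤ := ae_lt_top' hm hne
    change ∫ ω, (ivE Q (pth w ω) 1 t x).toReal ∂P ≤ _
    rw [integral_toReal hm hfin]
    refine (ENNReal.toReal_mono ENNReal.ofReal_ne_top hint).trans ?_
    rw [ENNReal.toReal_ofReal (Real.exp_pos _).le]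
    apply Real.exp_le_exp.2
    exact mul_le_mul_of_nonneg_left (by exact_mod_cast ht) hal

end Pool.Agent.H704R2.PAM
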