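import Pool.Agent.H704R2.PAM.Defs

set_option autoImplicit false
open MeasureTheory ProbabilityTheory Filter Topology Set
open scoped ENNReal NNReal

namespace Pool.Agent.H704R2.PAM

/-! Module A: the absorption map -/

theorem absb_zero (p : ℕ) (s : ℝ) : absb p s 0 = 0 := by sorry

theorem absb_time_zero (p : ℕ) (v : ℝ) : absb p 0 v = v := by sorry

theorem absb_nonneg (p : ℕ) {s v : ℝ} (hs : 0 ≤ s) (hv : 0 ≤ v) : 0 ≤ absb p s v := by sorry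

theorem absb_pos (p : ℕ) {s v : ℝ} (hs : 0 ≤ s) (hv : 0 < v) : 0 < absb p s v := by sorry

theorem absb_le (p : ℕ) {s v : ℝ} (hs : 0 ≤ s) (hv : 0 ≤ v) : absb p s v ≤ v := by sorry

theorem absb_mono {p : ℕ} (hp : 1 ≤ p) {s v v' : ℝ} (hs : 0 ≤ s) (hv : 0 ≤ v) (h : v ≤ v') :
    absb p s v ≤ absb p s v' := by sorry

theorem absb_lip {p : ℕ} (hp : 1 ≤ p) {s v v' : ℝ} (hs : 0 ≤ s) (hv : 0 ≤ v) (hv' : 0 ≤ v') :
    |absb p s v - absb p s v'| ≤ |v - v'| := by sorry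

theorem absb_concave {p : ℕ} (hp : 1 ≤ p) {s : ℝ} (hs : 0 ≤ s) :
    ConcaveOn ℝ (Ici 0) (absb p s) := by sorry

/-- `(absb v)^{-p} = v^{-p} + p s` -/
theorem absb_inv {p : ℕ} (hp : 1 ≤ p) {s v : ℝ} (hs : 0 ≤ s) (hv : 0 < v) :
    (absb p s v ^ p)⁻¹ = (v ^ p)⁻¹ + p * s := by sorry

theorem absb_expand {p : ℕ} (hp : 1 ≤ p) {s v : ℝ} (hs : 0 ≤ s) (hv : 0 ≤ v) :
    |absb p s v - (v - s * v ^ (p + 1))| ≤ (p + 1) * s ^ 2 * v ^ (2 * p + 1) := by sorry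

theorem absb_scale {p : ℕ} (hp : 1 ≤ p) {s X v : ℝ} (hs : 0 ≤ s) (hX : 1 ≤ X) (hv : 0 ≤ v) :
    absb p s (X * v) ≤ X * absb p s v := by sorry

theorem measurable_absb (p : ℕ) (s : ℝ) : Measurable (absb p s) := by sorry

theorem continuousOn_absb {p : ℕ} (hp : 1 ≤ p) {s : ℝ} (hs : 0 ≤ s) :
    ContinuousOn (absb p s) (Ici 0) := by sorry

end Pool.Agent.H704R2.PAM
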