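import Pool.Agent.H704R2.PAM.SA

set_option autoImplicit false
open MeasureTheory ProbabilityTheory Filter Topology Set
open scoped ENNReal NNReal

namespace Pool.Agent.H704R2.PAM

/-! Module B: basic properties of the scheme -/

variable (Q : Par)

theorem run_nonneg (Λ : Finset (Site Q.d)) {h : ℝ} (hh : 0 ≤ h) (η : ℕ → Site Q.d → ℝ)
    {v : Site Q.d → ℝ} (hv : ∀ x ∈ Λ, 0 ≤ v x) (n : ℕ) (x : Site Q.d) :
    0 ≤ run Q Λ h η v n x := by sorry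

theorem run_out (Λ : Finset (Site Q.d)) (h : ℝ) (η : ℕ → Site Q.d → ℝ)
    (v : Site Q.d → ℝ) (n : ℕ) {x : Site Q.d} (hx : x ∉ Λ) : run Q Λ h η v n x = 0 := by sorry

theorem run_mono (Λ : Finset (Site Q.d)) {h : ℝ} (hh : 0 ≤ h) (η : ℕ → Site Q.d → ℝ)
    {v v' : Site Q.d → ℝ} (hv : ∀ x ∈ Λ, 0 ≤ v x) (hvv : ∀ x ∈ Λ, v x ≤ v' x) (n : ℕ)
    (x : Site Q.d) : run Q Λ h η v n x ≤ run Q Λ h η v' n x := by sorry

theorem run_mono_set {Λ Λ' : Finset (Site Q.d)} (hΛ : Λ ⊆ Λ') {h : ℝ} (hh : 0 ≤ h)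
    (η : ℕ → Site Q.d → ℝ) {v : Site Q.d → ℝ} (hv : ∀ x ∈ Λ', 0 ≤ v x) (n : ℕ)
    (x : Site Q.d) : run Q Λ h η v n x ≤ run Q Λ' h η v n x := by sorry

theorem run_congr (Λ : Finset (Site Q.d)) (h : ℝ) {η η' : ℕ → Site Q.d → ℝ}
    {v v' : Site Q.d → ℝ} {n : ℕ} (hη : ∀ j < n, ∀ x ∈ Λ, η j x = η' j x)
    (hv : ∀ x ∈ Λ, v x = v' x) : run Q Λ h η v n = run Q Λ h η' v' n := by sorry

theorem run_shift (Λ : Finset (Site Q.d)) (h : ℝ) (η : ℕ → Site Q.d → ℝ) (v : Site Q.d → ℝ)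
    (n : ℕ) (x y : Site Q.d) :
    run Q (Λ.image (· + y)) h η v n (x + y) =
      run Q Λ h (fun j z => η j (z + y)) (fun z => v (z + y)) n x := by sorry

theorem measurable_run (Λ : Finset (Site Q.d)) (h : ℝ) (n : ℕ) (x : Site Q.d) :
    Measurable fun q : (ℕ → Site Q.d → ℝ) × (Site Q.d → ℝ) => run Q Λ h q.1 q.2 n x := by sorry

theorem run_jensen (Λ : Finset (Site Q.d)) {h : ℝ} (hh : 0 ≤ h) (η : ℕ → Site Q.d → ℝ)
    {Y : Type*} [MeasurableSpace Y] (μ : Measure Y) [IsProbabilityMeasure μ]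
    (v : Y → Site Q.d → ℝ) (hv0 : ∀ y, ∀ x, 0 ≤ v y x) (hvi : ∀ x, Integrable (fun y => v y x) μ)
    (n : ℕ) (x : Site Q.d) :
    Integrable (fun y => run Q Λ h η (v y) n x) μ ∧
      ∫ y, run Q Λ h η (v y) n x ∂μ ≤ run Q Λ h η (fun z => ∫ y, v y z ∂μ) n x := by sorry

end Pool.Agent.H704R2.PAM
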