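import Pool.Agent.H704R2.PAM.Defs

set_option autoImplicit false
open MeasureTheory ProbabilityTheory Filter Topology Set
open scoped ENNReal NNReal

namespace Pool.Agent.H704R2.PAM

/-! Module C: existence of finite volume solutions -/

theorem exists_fv (Q : Par) (Λ : Finset (Site Q.d)) {W : Site Q.d → ℝ≥0 → ℝ} (hW : CP W)
    {v : Site Q.d → ℝ} (hv : ∀ x, 0 ≤ v x) {T : ℝ} (hT : 0 ≤ T) :
    ∃ U, IsFV Q Λ W T v U := by sorry

end Pool.Agent.H704R2.PAM
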