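import Pool.Agent.H704R2.PAM.SB

set_option autoImplicit false
open MeasureTheory ProbabilityTheory Filter Topology Set
open scoped ENNReal NNReal

namespace Pool.Agent.H704R2.PAM

/-! Module D: convergence of the scheme to the finite volume solution -/

theorem run_tendsto (Q : Par) (Λ : Finset (Site Q.d)) {W : Site Q.d → ℝ≥0 → ℝ} (hW : CP W)
    {v : Site Q.d → ℝ} (hv : ∀ x, 0 ≤ v x) {T : ℝ≥0} {U : ℝ → Site Q.d → ℝ}
    (hU : IsFV Q Λ W T v U) (x : Site Q.d) :
    Tendsto (fun n : ℕ => run Q Λ ((T / n : ℝ≥0) : ℝ) (inc Q W (T / n)) v n x) atTop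
      (𝓝 (U T x)) := by sorry

end Pool.Agent.H704R2.PAM
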