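import Pool.Agent.H704R2.PAM.SB

set_option autoImplicit false
open MeasureTheory ProbabilityTheory Filter Topology Set
open scoped ENNReal NNReal

namespace Pool.Agent.H704R2.PAM

/-! Module X: extrapolation in the initial value -/

theorem run_extrap (Q : Par) (Λ : Finset (Site Q.d)) {h : ℝ} (hh : 0 ≤ h)
    (η : ℕ → Site Q.d → ℝ) {c C C' m : ℝ} (hc : 0 < c) (hcC : c ≤ C) (hCC : C ≤ C') (hm : 0 ≤ m)
    (hrel : (c ^ Q.p)⁻¹ ≤ (1 + m) * (C ^ Q.p)⁻¹ - m * (C' ^ Q.p)⁻¹) (n : ℕ) (x : Site Q.d) :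
    (1 + m) * run Q Λ h η (fun _ => C) n x ≤
      run Q Λ h η (fun _ => c) n x + m * run Q Λ h η (fun _ => C') n x := by sorry

end Pool.Agent.H704R2.PAM
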