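import Pool.Agent.H704R2.PAM.SC
import Pool.Agent.H704R2.PAM.SD
import Pool.Agent.H704R2.PAM.SX

set_option autoImplicit false
open MeasureTheory ProbabilityTheory Filter Topology Set
open scoped ENNReal NNReal

namespace Pool.Agent.H704R2.PAM

/-! Module E: properties of the finite volume solution `fv` (from C, D, B, X) -/

variable (Q : Par)

theorem fv_tendsto (Λ : Finset (Site Q.d)) {W : Site Q.d → ℝ≥0 → ℝ} (hW : CP W)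
    {v : Site Q.d → ℝ} (hv : ∀ x, 0 ≤ v x) (T : ℝ≥0) (x : Site Q.d) :
    Tendsto (fun n : ℕ => run Q Λ ((T / n : ℝ≥0) : ℝ) (inc Q W (T / n)) v n x) atTop
      (𝓝 (fv Q Λ W v T x)) := by sorry

theorem fvE_eq (Λ : Finset (Site Q.d)) {W : Site Q.d → ℝ≥0 → ℝ} (hW : CP W)
    {v : Site Q.d → ℝ} (hv : ∀ x, 0 ≤ v x) (T : ℝ≥0) (x : Site Q.d) :
    fvE Q Λ W v T x = ENNReal.ofReal (fv Q Λ W v T x) := by sorry

/-- every finite volume solution is `fv` -/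
theorem isFV_unique (Λ : Finset (Site Q.d)) {W : Site Q.d → ℝ≥0 → ℝ} (hW : CP W)
    {v : Site Q.d → ℝ} (hv : ∀ x, 0 ≤ v x) {T : ℝ} {U : ℝ → Site Q.d → ℝ}
    (hU : IsFV Q Λ W T v U) {t : ℝ} (ht : t ∈ Icc 0 T) (x : Site Q.d) :
    U t x = fv Q Λ W v t.toNNReal x := by sorry

/-- `fv` is a finite volume solution -/
theorem fv_isFV (Λ : Finset (Site Q.d)) {W : Site Q.d → ℝ≥0 → ℝ} (hW : CP W)
    {v : Site Q.d → ℝ} (hv : ∀ x, 0 ≤ v x) {T : ℝ} (hT : 0 ≤ T) :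
    IsFV Q Λ W T v (fun t x => fv Q Λ W v t.toNNReal x) := by sorry

theorem fv_nonneg (Λ : Finset (Site Q.d)) (W : Site Q.d → ℝ≥0 → ℝ)
    (v : Site Q.d → ℝ) (T : ℝ≥0) (x : Site Q.d) : 0 ≤ fv Q Λ W v T x := by sorry

theorem fv_out (Λ : Finset (Site Q.d)) (W : Site Q.d → ℝ≥0 → ℝ)
    (v : Site Q.d → ℝ) (T : ℝ≥0) {x : Site Q.d} (hx : x ∉ Λ) : fv Q Λ W v T x = 0 := by sorry

theorem fvE_mono (Λ : Finset (Site Q.d)) (W : Site Q.d → ℝ≥0 → ℝ)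
    {v v' : Site Q.d → ℝ} (hv : ∀ x ∈ Λ, 0 ≤ v x) (hvv : ∀ x ∈ Λ, v x ≤ v' x) (T : ℝ≥0)
    (x : Site Q.d) : fvE Q Λ W v T x ≤ fvE Q Λ W v' T x := by sorry

theorem fvE_mono_set {Λ Λ' : Finset (Site Q.d)} (hΛ : Λ ⊆ Λ') (W : Site Q.d → ℝ≥0 → ℝ)
    {v : Site Q.d → ℝ} (hv : ∀ x ∈ Λ', 0 ≤ v x) (T : ℝ≥0) (x : Site Q.d) :
    fvE Q Λ W v T x ≤ fvE Q Λ' W v T x := by sorry

theorem fv_mono (Λ : Finset (Site Q.d)) {W : Site Q.d → ℝ≥0 → ℝ} (hW : CP W)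
    {v v' : Site Q.d → ℝ} (hv : ∀ x, 0 ≤ v x) (hv' : ∀ x, 0 ≤ v' x)
    (hvv : ∀ x ∈ Λ, v x ≤ v' x) (T : ℝ≥0) (x : Site Q.d) :
    fv Q Λ W v T x ≤ fv Q Λ W v' T x := by sorry

/-- `fvE` depends on the increments of `W` on `Λ` and on `v` on `Λ` only -/
theorem fvE_congr (Λ : Finset (Site Q.d)) {W W' : Site Q.d → ℝ≥0 → ℝ}
    {v v' : Site Q.d → ℝ} (T : ℝ≥0)
    (hWW : ∀ x ∈ Λ, ∀ s t, s ≤ T → t ≤ T → W x t - W x s = W' x t - W' x s)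
    (hv : ∀ x ∈ Λ, v x = v' x) (x : Site Q.d) :
    fvE Q Λ W v T x = fvE Q Λ W' v' T x := by sorry

theorem fvE_shift (Λ : Finset (Site Q.d)) (W : Site Q.d → ℝ≥0 → ℝ) (v : Site Q.d → ℝ)
    (T : ℝ≥0) (x y : Site Q.d) :
    fvE Q (Λ.image (· + y)) W v T (x + y) = fvE Q Λ (shx y W) (fun z => v (z + y)) T x := by sorry

theorem fv_cocycle (Λ : Finset (Site Q.d)) {W : Site Q.d → ℝ≥0 → ℝ} (hW : CP W)
    {v : Site Q.d → ℝ} (hv : ∀ x, 0 ≤ v x) (S T : ℝ≥0) (x : Site Q.d) :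
    fv Q Λ W v (S + T) x = fv Q Λ (sh S W) (fun y => fv Q Λ W v S y) T x := by sorry

theorem fv_continuous (Λ : Finset (Site Q.d)) {W : Site Q.d → ℝ≥0 → ℝ} (hW : CP W)
    {v : Site Q.d → ℝ} (hv : ∀ x, 0 ≤ v x) (x : Site Q.d) :
    Continuous fun T : ℝ≥0 => fv Q Λ W v T x := by sorry

theorem fv_extrap (Λ : Finset (Site Q.d)) {W : Site Q.d → ℝ≥0 → ℝ} (hW : CP W)
    {c C C' m : ℝ} (hc : 0 < c) (hcC : c ≤ C) (hCC : C ≤ C') (hm : 0 ≤ m)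
    (hrel : (c ^ Q.p)⁻¹ ≤ (1 + m) * (C ^ Q.p)⁻¹ - m * (C' ^ Q.p)⁻¹) (T : ℝ≥0) (x : Site Q.d) :
    (1 + m) * fv Q Λ W (fun _ => C) T x ≤
      fv Q Λ W (fun _ => c) T x + m * fv Q Λ W (fun _ => C') T x := by sorry

/-- Jensen for a fixed path -/
theorem fvE_jensen (Λ : Finset (Site Q.d)) {W : Site Q.d → ℝ≥0 → ℝ} (hW : CP W)
    {Y : Type*} [MeasurableSpace Y] (μ : Measure Y) [IsProbabilityMeasure μ]
    (v : Y → Site Q.d → ℝ) (hv0 : ∀ y, ∀ x, 0 ≤ v y x) (hvm : ∀ x, Measurable fun y => v y x)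
    (hvi : ∀ x, Integrable (fun y => v y x) μ) (T : ℝ≥0) (x : Site Q.d) :
    ∫⁻ y, fvE Q Λ W (v y) T x ∂μ ≤ fvE Q Λ W (fun z => ∫ y, v y z ∂μ) T x := by sorry

theorem measurable_fvE (Λ : Finset (Site Q.d)) (T : ℝ≥0) (x : Site Q.d) :
    Measurable fun q : (Site Q.d → ℝ≥0 → ℝ) × (Site Q.d → ℝ) => fvE Q Λ q.1 q.2 T x := by sorry

end Pool.Agent.H704R2.PAM
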