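import Pool.Agent.H704R2.PAM.SL

set_option autoImplicit false
open MeasureTheory ProbabilityTheory Filter Topology Set
open scoped ENNReal NNReal

namespace Pool.Agent.H704R2.PAM

/-! Module G: mixing and ergodicity of the limit law -/

/-- asymptotic independence of far away cylinder functions under the limit law -/
theorem limit_mixing {Ω : Type*} [MeasurableSpace Ω] {P : Measure Ω} [IsProbabilityMeasure P]
    (Q : Par) {w : Site Q.d → ℝ≥0 → Ω → ℝ} (hw : Noise P w)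
    {ν : Measure (ℝ≥0 × Site Q.d → ℝ)} [IsProbabilityMeasure ν]
    (hν : FddTendsto P (fun t x ω => uu Q (pth w ω) 1 t x) ν)
    (I : Finset (ℝ≥0 × Site Q.d)) (f : BoundedContinuousFunction (I → ℝ) ℝ)
    (K : ℝ≥0) (hf : LipschitzWith K f) {η : ℝ} (hη : 0 < η) :
    ∃ y : Site Q.d, |∫ z, f (fun i => z i.1) * f (fun i => z (i.1.1, i.1.2 + y)) ∂ν -
      (∫ z, f (fun i => z i.1) ∂ν) ^ 2| ≤ η := by sorry

/-- from mixing on cylinders to ergodicity (abstract) -/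
theorem ergodic_of_mixing {d : ℕ} {ν : Measure (ℝ≥0 × Site d → ℝ)} [IsProbabilityMeasure ν]
    (hinv : ∀ s y, ν.map (shf s y) = ν)
    (hmix : ∀ (I : Finset (ℝ≥0 × Site d)) (f : BoundedContinuousFunction (I → ℝ) ℝ)
      (K : ℝ≥0), LipschitzWith K f → ∀ η : ℝ, 0 < η →
      ∃ y : Site d, |∫ z, f (fun i => z i.1) * f (fun i => z (i.1.1, i.1.2 + y)) ∂ν -
        (∫ z, f (fun i => z i.1) ∂ν) ^ 2| ≤ η)
    {A : Set (ℝ≥0 × Site d → ℝ)} (hA : MeasurableSet A)
    (hAinv : ∀ s y, shf s y ⁻¹' A =ᵐ[ν] A) : ν A = 0 ∨ ν A = 1 := by sorry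

end Pool.Agent.H704R2.PAM
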