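import Pool.Agent.H704R2.PAM.SM

set_option autoImplicit false
open MeasureTheory ProbabilityTheory Filter Topology Set
open scoped ENNReal NNReal

namespace Pool.Agent.H704R2.PAM

/-! Module H: the function `HH c T` -/

variable {Ω : Type*} [MeasurableSpace Ω] {P : Measure Ω} [IsProbabilityMeasure P] (Q : Par)
  {w : Site Q.d → ℝ≥0 → Ω → ℝ}

theorem measurable_ivE (c : ℝ) (T : ℝ≥0) (x : Site Q.d) :
    Measurable fun W : Site Q.d → ℝ≥0 → ℝ => ivE Q W c T x := by sorry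

/-- `ivE` depends on the increments only -/
theorem ivE_congr {W W' : Site Q.d → ℝ≥0 → ℝ} (c : ℝ) (T : ℝ≥0)
    (hWW : ∀ x s t, s ≤ T → t ≤ T → W x t - W x s = W' x t - W' x s) (x : Site Q.d) :
    ivE Q W c T x = ivE Q W' c T x := by sorry

theorem ivE_shx (W : Site Q.d → ℝ≥0 → ℝ) {c : ℝ} (hc : 0 ≤ c) (T : ℝ≥0) (x y : Site Q.d) :
    ivE Q W c T (x + y) = ivE Q (shx y W) c T x := by sorry

theorem ivE_extrap {W : Site Q.d → ℝ≥0 → ℝ} (hW : CP W)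
    {c C C' m : ℝ} (hc : 0 < c) (hcC : c ≤ C) (hCC : C ≤ C') (hm : 0 ≤ m)
    (hrel : (c ^ Q.p)⁻¹ ≤ (1 + m) * (C ^ Q.p)⁻¹ - m * (C' ^ Q.p)⁻¹) (T : ℝ≥0) (x : Site Q.d) :
    ENNReal.ofReal (1 + m) * ivE Q W C T x ≤
      ivE Q W c T x + ENNReal.ofReal m * ivE Q W C' T x := by sorry

/-- the expectation does not depend on the realisation of the noise -/
theorem EL_law {Ω' : Type*} [MeasurableSpace Ω'] {P' : Measure Ω'} [IsProbabilityMeasure P']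
    {w' : Site Q.d → ℝ≥0 → Ω' → ℝ} (hw : Noise P w) (hw' : Noise P' w')
    (Λ : Finset (Site Q.d)) (c : ℝ) (T : ℝ≥0) (x : Site Q.d) :
    EL P Q w Λ c T x = EL P' Q w' Λ c T x := by sorry

theorem HH_law {Ω' : Type*} [MeasurableSpace Ω'] {P' : Measure Ω'} [IsProbabilityMeasure P']
    {w' : Site Q.d → ℝ≥0 → Ω' → ℝ} (hw : Noise P w) (hw' : Noise P' w') (c : ℝ) (T : ℝ≥0) :
    HH P Q w c T = HH P' Q w' c T := by sorry

theorem EL_le_HH (hw : Noise P w) (Λ : Finset (Site Q.d)) {c : ℝ} (hc : 0 ≤ c) (T : ℝ≥0)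
    (x : Site Q.d) : EL P Q w Λ c T x ≤ HH P Q w c T := by sorry

theorem HH_mono {c c' : ℝ} (hc : 0 ≤ c) (hcc : c ≤ c') (T : ℝ≥0) :
    HH P Q w c T ≤ HH P Q w c' T := by sorry

theorem HH_le_exp (hw : Noise P w) {c : ℝ} (hc : 0 ≤ c) (T : ℝ≥0) :
    HH P Q w c T ≤ ENNReal.ofReal (c * Real.exp (Q.al * T)) := by sorry

theorem HH_le_C0 (hw : Noise P w) {c : ℝ} (hc : 0 ≤ c) :
    HH P Q w c 1 ≤ ENNReal.ofReal (C0 Q) := by sorry

theorem lintegral_ivE (hw : Noise P w) {c : ℝ} (hc : 0 ≤ c) (T : ℝ≥0) (x : Site Q.d) :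
    ∫⁻ ω, ivE Q (pth w ω) c T x ∂P = HH P Q w c T := by sorry

/-- Jensen for a random initial field which depends on the past -/
theorem EL_jensen (hw : Noise P w) (Λ : Finset (Site Q.d)) (S T : ℝ≥0)
    (G : (Site Q.d × Set.Iic S → ℝ) → Site Q.d → ℝ) (hG : Measurable G) (hG0 : ∀ z x, 0 ≤ G z x)
    (hGi : ∀ x, Integrable (fun ω => G (fun q => w q.1 q.2 ω) x) P) (x : Site Q.d) :
    ∫⁻ ω, fvE Q Λ (sh S (pth w ω)) (G (fun q => w q.1 q.2 ω)) T x ∂P ≤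
      ∫⁻ ω, fvE Q Λ (sh S (pth w ω)) (fun y => ∫ ω', G (fun q => w q.1 q.2 ω') y ∂P) T x ∂P := by
  sorry

end Pool.Agent.H704R2.PAM
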