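import Pool.Agent.H704R2.PAM.SH

set_option autoImplicit false
open MeasureTheory ProbabilityTheory Filter Topology Set
open scoped ENNReal NNReal

namespace Pool.Agent.H704R2.PAM

/-! Module I: the two key inequalities -/

variable {Ω : Type*} [MeasurableSpace Ω] {P : Measure Ω} [IsProbabilityMeasure P] (Q : Par)
  {w : Site Q.d → ℝ≥0 → Ω → ℝ}

/-- `H(c, S+T) ≤ H(H(c,S), T)` -/
theorem HH_submult (hw : Noise P w) {c : ℝ} (hc : 0 ≤ c) (S T : ℝ≥0) :
    HH P Q w c (S + T) ≤ HH P Q w (HH P Q w c S).toReal T := by sorry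

/-- comparison of the solution started at time 0 with the solution started at time `S` -/
theorem lintegral_max_le (hw : Noise P w) {C : ℝ} (hC : 0 ≤ C) (S T : ℝ≥0)
    (hS : HH P Q w C S ≤ ENNReal.ofReal C) (x : Site Q.d) :
    ∫⁻ ω, max (ivE Q (pth w ω) C (S + T) x) (ivE Q (sh S (pth w ω)) C T x) ∂P ≤
      HH P Q w (2 * C) T := by sorry

end Pool.Agent.H704R2.PAM
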