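import Pool.Agent.H704R2.PAM.SN

set_option autoImplicit false
open MeasureTheory ProbabilityTheory Filter Topology Set
open scoped ENNReal NNReal

namespace Pool.Agent.H704R2.PAM

/-! Module K: the concatenated noises -/

theorem noise_cat {Ω : Type*} [MeasurableSpace Ω] {P : Measure Ω} [IsProbabilityMeasure P] {d : ℕ}
    {w : Site d → ℝ≥0 → Ω → ℝ} (hw : Noise P w) (N : ℕ) :
    Noise (Measure.infinitePi fun _ : ℕ => P) (cat w N) := by sorry

theorem sh_cat {Ω : Type*} {d : ℕ} (w : Site d → ℝ≥0 → Ω → ℝ) (N M : ℕ) (ω : ℕ → Ω) :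
    sh (M : ℝ≥0) (pth (cat w (N + M)) ω) = sh 0 (pth (cat w N) ω) := by sorry

end Pool.Agent.H704R2.PAM
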