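import Pool.Agent.H704R2.PAM.SI

set_option autoImplicit false
open MeasureTheory ProbabilityTheory Filter Topology Set
open scoped ENNReal NNReal

namespace Pool.Agent.H704R2.PAM

/-! Module L: loss of memory in L1, uniformly -/

universe u

theorem l1_close (Q : Par) : ∃ C : ℝ, 1 ≤ C ∧ ∃ δ : ℝ≥0 → ℝ≥0∞, Antitone δ ∧
    Tendsto δ atTop (𝓝 0) ∧
    ∀ (Ω : Type u) [MeasurableSpace Ω] (P : Measure Ω) [IsProbabilityMeasure P]
      (w : Site Q.d → ℝ≥0 → Ω → ℝ), Noise P w → ∀ (S T : ℝ≥0), 1 ≤ S → ∀ x : Site Q.d,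
      ∫⁻ ω, ENNReal.ofReal |uu Q (pth w ω) 1 (S + T) x - uu Q (sh S (pth w ω)) C T x| ∂P ≤ δ T ∧
      ∫⁻ ω, ENNReal.ofReal |uu Q (pth w ω) C (S + T) x - uu Q (sh S (pth w ω)) C T x| ∂P ≤ δ T := by
  sorry

end Pool.Agent.H704R2.PAM
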