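import Pool.Agent.H704R2.PAM.Defs

set_option autoImplicit false
open MeasureTheory ProbabilityTheory Filter Topology Set
open scoped ENNReal NNReal

namespace Pool.Agent.H704R2.PAM

/-! Module N: the noise -/

variable {Ω : Type*} [MeasurableSpace Ω] {P : Measure Ω} [IsProbabilityMeasure P] {d : ℕ}
  {w : Site d → ℝ≥0 → Ω → ℝ}

theorem measurable_pth (hw : Noise P w) : Measurable (pth w) := by sorry

theorem measurable_sh (s : ℝ≥0) : Measurable (sh (d := d) s) := by sorry

theorem measurable_shx (y : Site d) : Measurable (shx (d := d) y) := by sorry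

/-- past and future are independent -/
theorem past_future (hw : Noise P w) (s : ℝ≥0) :
    IndepFun (fun ω (q : Site d × Set.Iic s) => w q.1 q.2 ω) (fun ω => sh s (pth w ω)) P := by sorry

/-- the law of the noise is unique -/
theorem noise_law {Ω' : Type*} [MeasurableSpace Ω'] {P' : Measure Ω'} [IsProbabilityMeasure P']
    {w' : Site d → ℝ≥0 → Ω' → ℝ} (hw : Noise P w) (hw' : Noise P' w') :
    P.map (pth w) = P'.map (pth w') := by sorry

theorem noise_sh (hw : Noise P w) (s : ℝ≥0) :
    Noise P (fun x t ω => w x (s + t) ω - w x s ω) := by sorry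

theorem noise_shx (hw : Noise P w) (y : Site d) : Noise P (fun x t ω => w (x + y) t ω) := by sorry

theorem noise_exp (hw : Noise P w) (x : Site d) (s h : ℝ≥0) :
    ∫⁻ ω, ENNReal.ofReal (Real.exp (w x (s + h) ω - w x s ω)) ∂P =
      ENNReal.ofReal (Real.exp (h / 2)) := by sorry

/-- the noises in disjoint finite sets are independent -/
theorem noise_disjoint (hw : Noise P w) {Λ Λ' : Finset (Site d)} (h : Disjoint Λ Λ') :
    IndepFun (fun ω (x : Λ) (t : ℝ≥0) => w x t ω) (fun ω (x : Λ') (t : ℝ≥0) => w x t ω) P := by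
  sorry

end Pool.Agent.H704R2.PAM
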