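import Pool.Agent.H704R2.PAM.SE
import Pool.Agent.H704R2.PAM.SN

set_option autoImplicit false
open MeasureTheory ProbabilityTheory Filter Topology Set
open scoped ENNReal NNReal

namespace Pool.Agent.H704R2.PAM

/-! Module M: first moment bounds -/

variable {Ω : Type*} [MeasurableSpace Ω] {P : Measure Ω} [IsProbabilityMeasure P] (Q : Par)
  {w : Site Q.d → ℝ≥0 → Ω → ℝ}

theorem EL_le_exp (hw : Noise P w) (Λ : Finset (Site Q.d)) {c : ℝ} (hc : 0 ≤ c) (T : ℝ≥0)
    (x : Site Q.d) : EL P Q w Λ c T x ≤ ENNReal.ofReal (c * Real.exp (Q.al * T)) := by sorry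

/-- at time 1 the expectation is bounded uniformly in the initial value -/
theorem EL_le_C0 (hw : Noise P w) (Λ : Finset (Site Q.d)) {c : ℝ} (hc : 0 ≤ c)
    (x : Site Q.d) : EL P Q w Λ c 1 x ≤ ENNReal.ofReal (C0 Q) := by sorry

end Pool.Agent.H704R2.PAM
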