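import Pool.Agent.H704R2.PAM.SH

set_option autoImplicit false
open MeasureTheory ProbabilityTheory Filter Topology Set
open scoped ENNReal NNReal

namespace Pool.Agent.H704R2.PAM

/-! Module S1: existence (the infinite volume limit solves the equation) -/

/-- almost surely the infinite volume solution is finite, continuous in time and solves the
integral equation -/
theorem uu_eqn {Ω : Type*} [MeasurableSpace Ω] {P : Measure Ω} [IsProbabilityMeasure P] (Q : Par)
    {w : Site Q.d → ℝ≥0 → Ω → ℝ} (hw : Noise P w) {c : ℝ} (hc : 0 ≤ c) :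
    ∀ᵐ ω ∂P, (∀ (T : ℝ≥0) (x : Site Q.d), ivE Q (pth w ω) c T x ≠ ⊤) ∧
      (∀ x : Site Q.d, Continuous fun T : ℝ≥0 => uu Q (pth w ω) c T x) ∧
      ∀ (T : ℝ≥0) (x : Site Q.d), uu Q (pth w ω) c T x =
        Real.exp (bb Q (pth w ω) x T - bb Q (pth w ω) x 0) * c +
        ∫ s in (0 : ℝ)..T, Real.exp (bb Q (pth w ω) x T - bb Q (pth w ω) x s) *
          (Q.k * nsum (fun y => uu Q (pth w ω) c s.toNNReal y) x -
            Q.ep * uu Q (pth w ω) c s.toNNReal x ^ (Q.p + 1)) := by sorry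

/-- passing from the sum over neighbours to the Laplacian (product rule) -/
theorem lap_form (Q : Par) {W : Site Q.d → ℝ≥0 → ℝ} (hW : CP W) {U : ℝ≥0 → Site Q.d → ℝ}
    (hU : ∀ x, Continuous fun t => U t x) (x : Site Q.d) (a : ℝ) :
    (∀ T : ℝ≥0, U T x = Real.exp (bb Q W x T) * a +
        ∫ s in (0 : ℝ)..T, Real.exp (bb Q W x T - bb Q W x s) *
          (Q.k * nsum (U s.toNNReal) x - Q.ep * U s.toNNReal x ^ (Q.p + 1))) ↔
    (∀ T : ℝ≥0, U T x = Real.exp (W x T + Q.lam * T) * (a + ∫ s in (0 : ℝ)..T,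
        Real.exp (-(W x s.toNNReal + Q.lam * s)) *
          (Q.k * lap (U s.toNNReal) x - Q.ep * U s.toNNReal x ^ (Q.p + 1)))) := by sorry

end Pool.Agent.H704R2.PAM
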