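import Pool.Agent.H704R2.PAM.SS1
import Pool.Agent.H704R2.PAM.NF

set_option autoImplicit false
open MeasureTheory ProbabilityTheory Filter Topology Set
open scoped ENNReal NNReal

namespace Pool.Agent.H704R2.PAM

/-! Module S2: existence in the class `IsSol` and uniqueness -/

theorem isSol_uu {Ω : Type*} [mΩ : MeasurableSpace Ω] {P : Measure Ω} [IsProbabilityMeasure P]
    (Q : Par) {ℱ : Filtration ℝ≥0 mΩ} {w : Site Q.d → ℝ≥0 → Ω → ℝ} (hw : Noise P w)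
    (hF : NoiseFilt P ℱ w) :
    IsSol P ℱ (Q.p + 1) Q.k Q.ep Q.lam w (fun t x ω => uu Q (pth w ω) 1 t x) := by sorry

theorem isSol_unique {Ω : Type*} [mΩ : MeasurableSpace Ω] {P : Measure Ω} [IsProbabilityMeasure P]
    (Q : Par) {ℱ : Filtration ℝ≥0 mΩ} {w : Site Q.d → ℝ≥0 → Ω → ℝ} (hw : Noise P w)
    (hF : NoiseFilt P ℱ w) {u u' : ℝ≥0 → Site Q.d → Ω → ℝ}
    (hu : IsSol P ℱ (Q.p + 1) Q.k Q.ep Q.lam w u)
    (hu' : IsSol P ℱ (Q.p + 1) Q.k Q.ep Q.lam w u') :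
    ∀ᵐ ω ∂P, ∀ t x, u t x ω = u' t x ω := by sorry

end Pool.Agent.H704R2.PAM
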