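import Pool.Agent.H704R2.PAM.SL
import Pool.Agent.H704R2.PAM.SK

set_option autoImplicit false
open MeasureTheory ProbabilityTheory Filter Topology Set
open scoped ENNReal NNReal

namespace Pool.Agent.H704R2.PAM

/-! Module V: the limit law -/

/-- convergence of the finite dimensional distributions to a probability law `ν` which is
invariant under all shifts -/
theorem exists_limit_law {Ω : Type*} [MeasurableSpace Ω] {P : Measure Ω} [IsProbabilityMeasure P]
    (Q : Par) {w : Site Q.d → ℝ≥0 → Ω → ℝ} (hw : Noise P w) :
    ∃ ν : Measure (ℝ≥0 × Site Q.d → ℝ), IsProbabilityMeasure ν ∧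
      FddTendsto P (fun t x ω => uu Q (pth w ω) 1 t x) ν ∧
      ∀ s y, ν.map (shf s y) = ν := by sorry

end Pool.Agent.H704R2.PAM
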