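import Pool.Agent.H704R2.PAM.L
import Pool.Agent.H704R2.PAM.K

set_option autoImplicit false
open MeasureTheory ProbabilityTheory Filter Topology Set
open scoped ENNReal NNReal

namespace Pool.Agent.H704R2.PAM

/-! Module V: the limit law -/

/-- completeness of `L¹` -/
theorem V_L1limit {Y : Type*} [MeasurableSpace Y] (μ : Measure Y) [IsProbabilityMeasure μ]
    (X : ℕ → Y → ℝ) (hi : ∀ n, Integrable (X n) μ)
    (δ : ℕ → ℝ≥0∞) (hδ : Tendsto δ atTop (𝓝 0))
    (h : ∀ N n, N ≤ n → ∫⁻ y, edist (X n y) (X N y) ∂μ ≤ δ N) :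
    ∃ Z : Y → ℝ, Measurable Z ∧
      Tendsto (fun n => ∫⁻ y, edist (X n y) (Z y) ∂μ) atTop (𝓝 0) := by
  have hmem : ∀ n, MemLp (X n) 1 μ := fun n => memLp_one_iff_integrable.2 (hi n)
  set f : ℕ → Lp ℝ 1 μ := fun n => (hmem n).toLp (X n) with hf
  have hed : ∀ n N, edist (f n) (f N) = ∫⁻ y, edist (X n y) (X N y) ∂μ := by
    intro n N
    rw [hf, Lp.edist_toLp_toLp, eLpNorm_one_eq_lintegral_enorm]
    refine lintegral_congr fun y => ?_
    rw [Pi.sub_apply, edist_eq_enorm_sub]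
  have hc : CauchySeq f := by
    rw [EMetric.cauchySeq_iff']
    intro ε hε
    obtain ⟨N, hN⟩ := (hδ.eventually_lt_const hε).exists
    exact ⟨N, fun n hn => by rw [hed]; exact (h N n hn).trans_lt hN⟩
  obtain ⟨g, hg⟩ := cauchySeq_tendsto_of_complete hc
  have hgm := Lp.aestronglyMeasurable g
  refine ⟨hgm.mk g, hgm.stronglyMeasurable_mk.measurable, ?_⟩
  rw [tendsto_iff_edist_tendsto_0] at hg
  refine hg.congr fun n => ?_
  have h1 : edist (f n) g = eLpNorm (X n - ⇑g) 1 μ := by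
    rw [Lp.edist_def]
    refine eLpNorm_congr_ae ?_
    filter_upwards [(hmem n).coeFn_toLp] with y hy
    simp only [Pi.sub_apply, hf]
    rw [hy]
  rw [h1, eLpNorm_one_eq_lintegral_enorm]
  refine lintegral_congr_ae ?_
  filter_upwards [hgm.ae_eq_mk] with y hy
  rw [Pi.sub_apply, edist_eq_enorm_sub, hy]

theorem V_lip {Y ι : Type*} [MeasurableSpace Y] [Fintype ι] (μ : Measure Y)
    [IsProbabilityMeasure μ] (f : (ι → ℝ) → ℝ) (K : ℝ≥0) (hf : LipschitzWith K f)
    (hb : ∃ C : ℝ, ∀ x y, dist (f x) (f y) ≤ C) (A B : Y → ι → ℝ)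
    (hA : Measurable A) (hB : Measurable B) :
    edist (∫ y, f (A y) ∂μ) (∫ y, f (B y) ∂μ) ≤
      K * ∑ i, ∫⁻ y, edist (A y i) (B y i) ∂μ := by
  have hfm : Measurable f := hf.continuous.measurable
  obtain ⟨C, hC⟩ := hb
  have hint : ∀ A : Y → ι → ℝ, Measurable A → Integrable (fun y => f (A y)) μ := by
    intro A hA
    refine Integrable.of_bound (hfm.comp hA).aestronglyMeasurable (C + ‖f 0‖)
      (Eventually.of_forall fun y => ?_)
    have h1 := hC (A y) 0
    have h2 : ‖f (A y)‖ ≤ dist (f (A y)) (f 0) + ‖f 0‖ := by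
      rw [dist_eq_norm]
      calc ‖f (A y)‖ = ‖(f (A y) - f 0) + f 0‖ := by rw [sub_add_cancel]
        _ ≤ _ := norm_add_le _ _
    linarith
  rw [edist_eq_enorm_sub, ← integral_sub (hint A hA) (hint B hB)]
  refine (enorm_integral_le_lintegral_enorm _).trans ?_
  rw [← lintegral_finsetSum _ fun i _ => by
    exact ((measurable_pi_apply i).comp hA).edist ((measurable_pi_apply i).comp hB)]
  rw [← lintegral_const_mul' _ _ ENNReal.coe_ne_top]
  refine lintegral_mono fun y => ?_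
  rw [← edist_eq_enorm_sub]
  refine (hf (A y) (B y)).trans ?_
  gcongr
  rw [edist_pi_def]
  refine Finset.sup_le fun i _ => ?_
  exact Finset.single_le_sum (f := fun i => edist (A y i) (B y i)) (fun _ _ => bot_le)
    (Finset.mem_univ i)

theorem V_uu_congr (Q : Par) {W W' : Site Q.d → ℝ≥0 → ℝ} (c : ℝ) (T : ℝ≥0)
    (hWW : ∀ x s t, W x t - W x s = W' x t - W' x s) (x : Site Q.d) :
    uu Q W c T x = uu Q W' c T x := by
  unfold uu
  rw [ivE_congr Q c T (fun x s t _ _ => hWW x s t) x]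

theorem V_uu_sh0 (Q : Par) (W : Site Q.d → ℝ≥0 → ℝ) (c : ℝ) (T : ℝ≥0) (x : Site Q.d) :
    uu Q (sh 0 W) c T x = uu Q W c T x := by
  refine V_uu_congr Q c T (fun x s t => ?_) x
  simp [sh]

theorem V_meas_uu (Q : Par) (c : ℝ) (T : ℝ≥0) (x : Site Q.d) :
    Measurable fun W : Site Q.d → ℝ≥0 → ℝ => uu Q W c T x :=
  (measurable_ivE Q c T x).ennreal_toReal

theorem V_int_uu {Ω : Type*} [MeasurableSpace Ω] {P : Measure Ω} [IsProbabilityMeasure P]
    (Q : Par) {w : Site Q.d → ℝ≥0 → Ω → ℝ} (hw : Noise P w) {c : ℝ} (hc : 0 ≤ c) (T : ℝ≥0)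
    (x : Site Q.d) : Integrable (fun ω => uu Q (pth w ω) c T x) P := by
  unfold uu
  refine integrable_toReal_of_lintegral_ne_top
    ((measurable_ivE Q c T x).comp (measurable_pth hw)).aemeasurable ?_
  rw [lintegral_ivE Q hw hc T x]
  exact ((HH_le_exp Q hw hc T).trans_lt ENNReal.ofReal_lt_top).ne


/-- convergence of the laws of finitely many values, for Lipschitz test functions -/
theorem V_main {Ω : Type*} [MeasurableSpace Ω] {P : Measure Ω} [IsProbabilityMeasure P]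
    (Q : Par) {w : Site Q.d → ℝ≥0 → Ω → ℝ} (hw : Noise P w) :
    ∃ Z : ℝ≥0 × Site Q.d → (ℕ → Ω) → ℝ, (∀ q, Measurable (Z q)) ∧
      ∀ (ι : Type) [Fintype ι] (q : ι → ℝ≥0 × Site Q.d) (f : (ι → ℝ) → ℝ),
        (∃ C : ℝ, ∀ x y, dist (f x) (f y) ≤ C) → (∃ L, LipschitzWith L f) →
        Tendsto (fun t : ℝ≥0 => ∫ ω, f (fun i => uu Q (pth w ω) 1 (t + (q i).1) (q i).2) ∂P)
          atTop (𝓝 (∫ ω, f (fun i => Z (q i) ω) ∂(Measure.infinitePi fun _ : ℕ => P))) := by
  obtain ⟨C, hC1, δ, hδa, hδ, hcl⟩ := l1_close Q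
  have hC0 : 0 ≤ C := by linarith
  set Ph : Measure (ℕ → Ω) := Measure.infinitePi fun _ : ℕ => P with hPh
  set X : ℕ → ℝ≥0 × Site Q.d → (ℕ → Ω) → ℝ :=
    fun N q ω => uu Q (pth (cat w N) ω) C (N + q.1) q.2 with hX
  have hXm : ∀ N q, Measurable (X N q) := fun N q =>
    (V_meas_uu Q C _ _).comp (measurable_pth (noise_cat hw N))
  have hXi : ∀ N q, Integrable (X N q) Ph := fun N q => V_int_uu Q (noise_cat hw N) hC0 _ _
  have hcau : ∀ q : ℝ≥0 × Site Q.d, ∀ N n : ℕ, N ≤ n →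
      ∫⁻ ω, edist (X n q ω) (X N q ω) ∂Ph ≤ δ N := by
    intro q N n hNn
    obtain ⟨M, rfl⟩ := Nat.exists_eq_add_of_le hNn
    rcases Nat.eq_zero_or_pos M with hM | hM
    · subst hM
      simp
    · have h1 := (hcl (ℕ → Ω) Ph (cat w (N + M)) (noise_cat hw (N + M)) (M : ℝ≥0)
        (N + q.1) (by exact_mod_cast hM) q.2).2
      refine (le_of_eq ?_).trans (h1.trans (hδa (le_add_of_nonneg_right q.1.2)))
      refine lintegral_congr fun ω => ?_
      rw [sh_cat w N M ω, V_uu_sh0, edist_dist, Real.dist_eq]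
      simp only [hX]
      have e1 : ((N + M : ℕ) : ℝ≥0) + q.1 = M + (N + q.1) := by
        push_cast
        ring
      rw [e1]
  have hZ : ∀ q : ℝ≥0 × Site Q.d, ∃ Z : (ℕ → Ω) → ℝ, Measurable Z ∧
      Tendsto (fun n => ∫⁻ y, edist (X n q y) (Z y) ∂Ph) atTop (𝓝 0) := fun q =>
    V_L1limit Ph (fun n => X n q) (fun n => hXi n q) (fun n => δ n)
      (hδ.comp tendsto_natCast_atTop_atTop) (hcau q)
  choose Z hZm hZt using hZ
  refine ⟨Z, hZm, ?_⟩
  intro ι _ q f hfb ⟨K, hfK⟩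
  have hfm : Measurable f := hfK.continuous.measurable
  -- the key estimate
  have hkey : ∀ (N : ℕ) (t : ℝ≥0), (N : ℝ≥0) + 1 ≤ t →
      edist (∫ ω, f (fun i => uu Q (pth w ω) 1 (t + (q i).1) (q i).2) ∂P)
        (∫ ω, f (fun i => Z (q i) ω) ∂Ph) ≤
        K * ∑ _i : ι, δ N + K * ∑ i, ∫⁻ y, edist (X N (q i) y) (Z (q i) y) ∂Ph := by
    intro N t ht
    obtain ⟨S, hS⟩ : ∃ S : ℝ≥0, t = S + N := ⟨t - N, (tsub_add_cancel_of_le
      ((le_add_of_nonneg_right zero_le_one).trans ht)).symm⟩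
    have hS1 : 1 ≤ S := by
      rw [hS, add_comm S] at ht
      exact le_of_add_le_add_left ht
    set a1 : Ω → ι → ℝ := fun ω i => uu Q (pth w ω) 1 (t + (q i).1) (q i).2 with ha1
    set a2 : Ω → ι → ℝ := fun ω i => uu Q (sh S (pth w ω)) C (N + (q i).1) (q i).2 with ha2
    set a3 : (ℕ → Ω) → ι → ℝ := fun ω i => X N (q i) ω with ha3
    set a4 : (ℕ → Ω) → ι → ℝ := fun ω i => Z (q i) ω with ha4
    have hm1 : Measurable a1 := measurable_pi_iff.2 fun i =>
      (V_meas_uu Q 1 _ _).comp (measurable_pth hw)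
    have hm2 : Measurable a2 := measurable_pi_iff.2 fun i =>
      (V_meas_uu Q C _ _).comp ((measurable_sh S).comp (measurable_pth hw))
    have hm3 : Measurable a3 := measurable_pi_iff.2 fun i => hXm N (q i)
    have hm4 : Measurable a4 := measurable_pi_iff.2 fun i => hZm (q i)
    have h12 := V_lip P f K hfK hfb a1 a2 hm1 hm2
    have h34 := V_lip Ph f K hfK hfb a3 a4 hm3 hm4
    have h23 : ∫ ω, f (a2 ω) ∂P = ∫ ω, f (a3 ω) ∂Ph := by
      have hn1 := noise_sh hw S
      have hn2 := noise_cat hw N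
      have hlaw := noise_law hn1 hn2
      have hΦ : Measurable fun W : Site Q.d → ℝ≥0 → ℝ =>
          f (fun i => uu Q W C (N + (q i).1) (q i).2) :=
        hfm.comp (measurable_pi_iff.2 fun i => V_meas_uu Q C _ _)
      have e1 : ∫ ω, f (a2 ω) ∂P = ∫ W, f (fun i => uu Q W C (N + (q i).1) (q i).2)
          ∂(P.map (pth fun x t ω => w x (S + t) ω - w x S ω)) := by
        rw [integral_map (measurable_pth hn1).aemeasurable hΦ.aestronglyMeasurable]
        rfl
      have e2 : ∫ ω, f (a3 ω) ∂Ph = ∫ W, f (fun i => uu Q W C (N + (q i).1) (q i).2)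
          ∂(Ph.map (pth (cat w N))) := by
        rw [integral_map (measurable_pth hn2).aemeasurable hΦ.aestronglyMeasurable]
      rw [e1, e2, hlaw]
    have h12' : K * ∑ i, ∫⁻ ω, edist (a1 ω i) (a2 ω i) ∂P ≤ K * ∑ _i : ι, δ N := by
      refine mul_le_mul_right (Finset.sum_le_sum fun i _ => ?_) _
      have h1 := (hcl Ω P w hw S (N + (q i).1) hS1 (q i).2).1
      refine (le_of_eq ?_).trans (h1.trans (hδa (le_add_of_nonneg_right (q i).1.2)))
      refine lintegral_congr fun ω => ?_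
      rw [edist_dist, Real.dist_eq]
      simp only [ha1, ha2, hS, add_assoc]
    calc edist (∫ ω, f (a1 ω) ∂P) (∫ ω, f (a4 ω) ∂Ph)
        ≤ edist (∫ ω, f (a1 ω) ∂P) (∫ ω, f (a2 ω) ∂P) +
          edist (∫ ω, f (a2 ω) ∂P) (∫ ω, f (a4 ω) ∂Ph) := edist_triangle _ _ _
      _ ≤ _ := by
          rw [h23]
          refine add_le_add ?_ h34
          rw [← h23]
          exact h12.trans h12'
  -- conclusion
  rw [tendsto_iff_edist_tendsto_0, ENNReal.tendsto_nhds_zero]
  intro ε hε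
  have hlim : Tendsto (fun N : ℕ => (K : ℝ≥0∞) * ∑ _i : ι, δ N +
      K * ∑ i, ∫⁻ y, edist (X N (q i) y) (Z (q i) y) ∂Ph) atTop (𝓝 0) := by
    have h1 : Tendsto (fun N : ℕ => (K : ℝ≥0∞) * ∑ _i : ι, δ N) atTop
        (𝓝 (K * ∑ _i : ι, (0 : ℝ≥0∞))) :=
      ENNReal.Tendsto.const_mul (tendsto_finsetSum _ fun i _ =>
        hδ.comp tendsto_natCast_atTop_atTop) (Or.inr ENNReal.coe_ne_top)
    have h2 : Tendsto (fun N : ℕ => (K : ℝ≥0∞) *
        ∑ i, ∫⁻ y, edist (X N (q i) y) (Z (q i) y) ∂Ph) atTop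
        (𝓝 (K * ∑ _i : ι, (0 : ℝ≥0∞))) :=
      ENNReal.Tendsto.const_mul (tendsto_finsetSum _ fun i _ => hZt (q i))
        (Or.inr ENNReal.coe_ne_top)
    have h3 := h1.add h2
    simpa using h3
  obtain ⟨N, hN⟩ := ((ENNReal.tendsto_nhds_zero.1 hlim) ε hε).exists
  filter_upwards [eventually_ge_atTop ((N : ℝ≥0) + 1)] with t ht
  exact (hkey N t ht).trans hN

/-- convergence of the laws of finitely many values, for bounded continuous test functions -/
theorem V_bc {Ω : Type*} [MeasurableSpace Ω] {P : Measure Ω} [IsProbabilityMeasure P]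
    (Q : Par) {w : Site Q.d → ℝ≥0 → Ω → ℝ} (hw : Noise P w) :
    ∃ Z : ℝ≥0 × Site Q.d → (ℕ → Ω) → ℝ, (∀ q, Measurable (Z q)) ∧
      ∀ (ι : Type) [Fintype ι] (q : ι → ℝ≥0 × Site Q.d)
        (f : BoundedContinuousFunction (ι → ℝ) ℝ),
        Tendsto (fun t : ℝ≥0 => ∫ ω, f (fun i => uu Q (pth w ω) 1 (t + (q i).1) (q i).2) ∂P)
          atTop (𝓝 (∫ ω, f (fun i => Z (q i) ω) ∂(Measure.infinitePi fun _ : ℕ => P))) := by
  obtain ⟨Z, hZm, hZ⟩ := V_main Q hw
  refine ⟨Z, hZm, ?_⟩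
  intro ι _ q f
  have hm1 : ∀ t : ℝ≥0, Measurable fun (ω : Ω) (i : ι) =>
      uu Q (pth w ω) 1 (t + (q i).1) (q i).2 := fun t =>
    measurable_pi_iff.2 fun i => (V_meas_uu Q 1 _ _).comp (measurable_pth hw)
  have hm2 : Measurable fun (ω : ℕ → Ω) (i : ι) => Z (q i) ω :=
    measurable_pi_iff.2 fun i => hZm (q i)
  let μs : ℝ≥0 → ProbabilityMeasure (ι → ℝ) := fun t =>
    ⟨P.map fun (ω : Ω) (i : ι) => uu Q (pth w ω) 1 (t + (q i).1) (q i).2,
      Measure.isProbabilityMeasure_map (hm1 t).aemeasurable⟩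
  let μ : ProbabilityMeasure (ι → ℝ) :=
    ⟨(Measure.infinitePi fun _ : ℕ => P).map fun (ω : ℕ → Ω) (i : ι) => Z (q i) ω,
      Measure.isProbabilityMeasure_map hm2.aemeasurable⟩
  have h1 : Tendsto μs atTop (𝓝 μ) := by
    rw [tendsto_iff_forall_lipschitz_integral_tendsto]
    intro g hgb hgl
    have hgm : Measurable g := hgl.choose_spec.continuous.measurable
    have h2 := hZ ι q g hgb hgl
    have e1 : ∀ t, ∫ z, g z ∂(μs t : Measure (ι → ℝ)) =
        ∫ ω, g (fun i => uu Q (pth w ω) 1 (t + (q i).1) (q i).2) ∂P := fun t =>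
      integral_map (hm1 t).aemeasurable hgm.aestronglyMeasurable
    have e2 : ∫ z, g z ∂(μ : Measure (ι → ℝ)) =
        ∫ ω, g (fun i => Z (q i) ω) ∂(Measure.infinitePi fun _ : ℕ => P) :=
      integral_map hm2.aemeasurable hgm.aestronglyMeasurable
    simp only [e1, e2]
    exact h2
  rw [ProbabilityMeasure.tendsto_iff_forall_integral_tendsto] at h1
  have h3 := h1 f
  have hfm : Measurable f := f.continuous.measurable
  have e1 : ∀ t, ∫ z, f z ∂(μs t : Measure (ι → ℝ)) =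
      ∫ ω, f (fun i => uu Q (pth w ω) 1 (t + (q i).1) (q i).2) ∂P := fun t =>
    integral_map (hm1 t).aemeasurable hfm.aestronglyMeasurable
  have e2 : ∫ z, f z ∂(μ : Measure (ι → ℝ)) =
      ∫ ω, f (fun i => Z (q i) ω) ∂(Measure.infinitePi fun _ : ℕ => P) :=
    integral_map hm2.aemeasurable hfm.aestronglyMeasurable
  simp only [e1, e2] at h3
  exact h3

/-- invariance of the law of the solution under spatial shifts -/
theorem V_shift {Ω : Type*} [MeasurableSpace Ω] {P : Measure Ω} [IsProbabilityMeasure P]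
    (Q : Par) {w : Site Q.d → ℝ≥0 → Ω → ℝ} (hw : Noise P w) {ι : Type} [Fintype ι]
    (T : ι → ℝ≥0) (x : ι → Site Q.d) (y : Site Q.d) (f : (ι → ℝ) → ℝ) (hf : Measurable f) :
    ∫ ω, f (fun i => uu Q (pth w ω) 1 (T i) (x i + y)) ∂P =
      ∫ ω, f (fun i => uu Q (pth w ω) 1 (T i) (x i)) ∂P := by
  have hn := noise_shx hw y
  have hlaw := noise_law hn hw
  have hΦ : Measurable fun W : Site Q.d → ℝ≥0 → ℝ => f (fun i => uu Q W 1 (T i) (x i)) :=
    hf.comp (measurable_pi_iff.2 fun i => V_meas_uu Q 1 _ _)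
  have e1 : ∫ ω, f (fun i => uu Q (pth w ω) 1 (T i) (x i + y)) ∂P =
      ∫ W, f (fun i => uu Q W 1 (T i) (x i)) ∂(P.map (pth fun x t ω => w (x + y) t ω)) := by
    rw [integral_map (measurable_pth hn).aemeasurable hΦ.aestronglyMeasurable]
    refine integral_congr_ae (Eventually.of_forall fun ω => ?_)
    simp only
    congr 1
    funext i
    unfold uu
    rw [ivE_shx Q (pth w ω) zero_le_one (T i) (x i) y]
    rfl
  have e2 : ∫ ω, f (fun i => uu Q (pth w ω) 1 (T i) (x i)) ∂P =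
      ∫ W, f (fun i => uu Q W 1 (T i) (x i)) ∂(P.map (pth w)) := by
    rw [integral_map (measurable_pth hw).aemeasurable hΦ.aestronglyMeasurable]
  rw [e1, e2, hlaw]

theorem V_shf_meas {d : ℕ} (s : ℝ≥0) (y : Site d) : Measurable (shf (d := d) s y) :=
  measurable_pi_iff.2 fun q => measurable_pi_apply _

/-- convergence of the finite dimensional distributions to a probability law `ν` which is
invariant under all shifts -/
theorem exists_limit_law {Ω : Type*} [MeasurableSpace Ω] {P : Measure Ω} [IsProbabilityMeasure P]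
    (Q : Par) {w : Site Q.d → ℝ≥0 → Ω → ℝ} (hw : Noise P w) :
    ∃ ν : Measure (ℝ≥0 × Site Q.d → ℝ), IsProbabilityMeasure ν ∧
      FddTendsto P (fun t x ω => uu Q (pth w ω) 1 t x) ν ∧
      ∀ s y, ν.map (shf s y) = ν := by
  obtain ⟨Z, hZm, hZ⟩ := V_bc Q hw
  have hZm' : Measurable fun (ω : ℕ → Ω) (q : ℝ≥0 × Site Q.d) => Z q ω :=
    measurable_pi_iff.2 hZm
  set ν : Measure (ℝ≥0 × Site Q.d → ℝ) :=
    (Measure.infinitePi fun _ : ℕ => P).map fun (ω : ℕ → Ω) (q : ℝ≥0 × Site Q.d) => Z q ω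
    with hν
  have hνp : IsProbabilityMeasure ν := Measure.isProbabilityMeasure_map hZm'.aemeasurable
  have hνi : ∀ (ι : Type) [Fintype ι] (q : ι → ℝ≥0 × Site Q.d)
      (f : BoundedContinuousFunction (ι → ℝ) ℝ),
      ∫ z, f (fun i => z (q i)) ∂ν =
        ∫ ω, f (fun i => Z (q i) ω) ∂(Measure.infinitePi fun _ : ℕ => P) := by
    intro ι _ q f
    rw [hν, integral_map hZm'.aemeasurable]
    refine Measurable.aestronglyMeasurable ?_
    exact f.continuous.measurable.comp (measurable_pi_iff.2 fun i => measurable_pi_apply _)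
  have hconv : ∀ (ι : Type) [Fintype ι] (q : ι → ℝ≥0 × Site Q.d)
      (f : BoundedContinuousFunction (ι → ℝ) ℝ),
      Tendsto (fun t : ℝ≥0 => ∫ ω, f (fun i => uu Q (pth w ω) 1 (t + (q i).1) (q i).2) ∂P)
        atTop (𝓝 (∫ z, f (fun i => z (q i)) ∂ν)) := by
    intro ι _ q f
    rw [hνi]
    exact hZ ι q f
  refine ⟨ν, hνp, ?_, ?_⟩
  · intro I f
    exact hconv I (fun i => i.1) f
  · intro s y
    have hpm : IsProbabilityMeasure (ν.map (shf s y)) :=
      Measure.isProbabilityMeasure_map (V_shf_meas s y).aemeasurable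
    have hproj : ∀ I : Finset (ℝ≥0 × Site Q.d),
        (ν.map (shf s y)).map I.restrict = ν.map I.restrict := by
      intro I
      have hr : Measurable (I.restrict (π := fun _ : ℝ≥0 × Site Q.d => ℝ)) :=
        Finset.measurable_restrict I
      have hp1 : IsProbabilityMeasure ((ν.map (shf s y)).map
          (I.restrict (π := fun _ : ℝ≥0 × Site Q.d => ℝ))) :=
        Measure.isProbabilityMeasure_map hr.aemeasurable
      have hp2 : IsProbabilityMeasure (ν.map
          (I.restrict (π := fun _ : ℝ≥0 × Site Q.d => ℝ))) :=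
        Measure.isProbabilityMeasure_map hr.aemeasurable
      refine ext_of_forall_integral_eq_of_IsFiniteMeasure fun f => ?_
      have hfm : Measurable f := f.continuous.measurable
      have hfr : Measurable fun z : ℝ≥0 × Site Q.d → ℝ => f (I.restrict z) := hfm.comp hr
      rw [integral_map hr.aemeasurable hfm.aestronglyMeasurable,
        integral_map (V_shf_meas s y).aemeasurable hfr.aestronglyMeasurable,
        integral_map hr.aemeasurable hfm.aestronglyMeasurable]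
      have h1 := hconv I (fun i => (s + i.1.1, i.1.2 + y)) f
      have hts : Tendsto (fun t : ℝ≥0 => t + s) atTop atTop :=
        tendsto_atTop_mono (fun t => le_self_add) tendsto_id
      have h2 := (hconv I (fun i => i.1) f).comp hts
      have h3 : ∀ t : ℝ≥0, ∫ ω, f (fun i : I => uu Q (pth w ω) 1 (t + (s + i.1.1))
          (i.1.2 + y)) ∂P = ∫ ω, f (fun i : I => uu Q (pth w ω) 1 (t + s + i.1.1) i.1.2) ∂P := by
        intro t
        rw [V_shift Q hw (fun i : I => t + (s + i.1.1)) (fun i : I => i.1.2) y f hfm]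
        simp only [add_assoc]
      simp only [h3] at h1
      exact tendsto_nhds_unique h1 h2
    have hfin : ∀ I : Finset (ℝ≥0 × Site Q.d), IsFiniteMeasure
        (ν.map (I.restrict (π := fun _ : ℝ≥0 × Site Q.d => ℝ))) := fun I => inferInstance
    have hl1 : IsProjectiveLimit (ν.map (shf s y)) (fun I : Finset (ℝ≥0 × Site Q.d) =>
      ν.map (I.restrict (π := fun _ : ℝ≥0 × Site Q.d => ℝ))) := hproj
    have hl2 : IsProjectiveLimit ν (fun I : Finset (ℝ≥0 × Site Q.d) =>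
      ν.map (I.restrict (π := fun _ : ℝ≥0 × Site Q.d => ℝ))) := fun I => rfl
    exact hl1.unique hl2

end Pool.Agent.H704R2.PAM
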